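import Pool.Agent.P.MP_0f25e6_al.SQ.TilApi

/-!
The first order expansion in the density.
-/

set_option autoImplicit false

open scoped InnerProductSpace ENNReal Topology
open Filter MulAction

noncomputable section

namespace Pool.Agent.P.MP_0f25e6_al.SQ

open HN

universe u

variable {G W Z : Type*} [Group G] [MulAction G W] [MulAction G Z]

namespace First

theorem re_inner_self {E : Type*} [NormedAddCommGroup E] [InnerProductSpace ℂ E] (v : E) :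
    (⟪v, v⟫_ℂ).re = ‖v‖ ^ 2 := by
  rw [inner_self_eq_norm_sq_to_K]
  norm_cast

theorem le_pn {Y : Type*} {X : Submodule ℂ (L2 Y)} (v : L2 Y) {w : L2 Y} (hw : w ∈ X) :
    2 * (⟪v, w⟫_ℂ).re - ‖w‖ ^ 2 ≤ ‖proj X v‖ ^ 2 := by
  have h1 : ⟪v, w⟫_ℂ = ⟪proj X v, w⟫_ℂ := by rw [inner_proj_left, proj_eq_self (le_cl X hw)]
  have h2 := @norm_sub_sq ℂ _ _ _ _ (proj X v) w
  rw [h1]
  have h3 : RCLike.re ⟪proj X v, w⟫_ℂ = (⟪proj X v, w⟫_ℂ).re := rfl
  nlinarith [sq_nonneg ‖proj X v - w‖]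

theorem exists_approx {Y : Type*} (X : Submodule ℂ (L2 Y)) (v : L2 Y) {η : ℝ} (hη : 0 < η) :
    ∃ w ∈ X, ‖proj X v‖ ^ 2 - η ≤ 2 * (⟪v, w⟫_ℂ).re - ‖w‖ ^ 2 := by
  have hc : Continuous fun w : L2 Y => 2 * (⟪v, w⟫_ℂ).re - ‖w‖ ^ 2 := by fun_prop
  have hopen : IsOpen {w : L2 Y | ‖proj X v‖ ^ 2 - η < 2 * (⟪v, w⟫_ℂ).re - ‖w‖ ^ 2} :=
    isOpen_lt continuous_const hc
  have hmem : proj X v ∈ {w : L2 Y | ‖proj X v‖ ^ 2 - η < 2 * (⟪v, w⟫_ℂ).re - ‖w‖ ^ 2} := by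
    change ‖proj X v‖ ^ 2 - η < 2 * (⟪v, proj X v⟫_ℂ).re - ‖proj X v‖ ^ 2
    have h1 : ⟪v, proj X v⟫_ℂ = ⟪proj X v, proj X v⟫_ℂ := by
      rw [inner_proj_left, proj_eq_self (proj_mem X v)]
    rw [h1, re_inner_self]
    linarith
  obtain ⟨w, hw1, hw2⟩ := mem_closure_iff.1 (proj_mem X v) _ hopen hmem
  exact ⟨w, hw2, le_of_lt hw1⟩

theorem cast_inv (m : ℕ) : ((m : ℂ) + 1)⁻¹ = ((((m : ℝ) + 1)⁻¹ : ℝ) : ℂ) := by
  push_cast
  rfl

theorem inner_same {W Z : Type*} (m : ℕ) (k : W) (a b : L2 Z) :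
    (⟪avg m k (ext1 W a), avg m k (ext1 W b)⟫_ℂ).re = ((m : ℝ) + 1)⁻¹ * (⟪a, b⟫_ℂ).re := by
  rw [← inner_avg, avg_avg, inner_ext1_left, slice_avg_ext1, inner_smul_right, cast_inv,
    Complex.re_ofReal_mul]

theorem inner_ne {W Z : Type*} (m : ℕ) {k k' : W} (h : k ≠ k') (a b : L2 Z) :
    (⟪avg m k (ext1 W a), avg m k' (ext1 W b)⟫_ℂ).re =
      ((m : ℝ) + 1)⁻¹ * (((m : ℝ) + 1)⁻¹ * (⟪a, b⟫_ℂ).re) := by
  rw [← inner_avg, inner_ext1_left, slice_avg_avg_ext1 m h, inner_smul_right, inner_smul_right,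
    cast_inv, Complex.re_ofReal_mul, Complex.re_ofReal_mul]

theorem tendsto_main {W Z : Type*} (E : Finset W) (w : W → L2 Z) (r : W → ℕ → L2 (Til W Z))
    (hr : ∀ e m, avg m e (r e m) = r e m)
    (hr' : ∀ e, Tendsto (fun m : ℕ => √((m : ℝ) + 1) * ‖r e m‖) atTop (𝓝 0)) (u : L2 Z) :
    Tendsto (fun m : ℕ => ((m : ℝ) + 1) *
      (2 * (⟪ext1 W u, ∑ e ∈ E, (avg m e (ext1 W (w e)) + r e m)⟫_ℂ).re -
        ‖∑ e ∈ E, (avg m e (ext1 W (w e)) + r e m)‖ ^ 2)) atTop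
      (𝓝 (∑ e ∈ E, (2 * (⟪u, w e⟫_ℂ).re - ‖w e‖ ^ 2))) := by
  classical
  have hm : ∀ m : ℕ, (0 : ℝ) < (m : ℝ) + 1 := fun m => by positivity
  have hK : Tendsto (fun m : ℕ => (m : ℝ) + 1) atTop atTop :=
    tendsto_atTop_add_const_right _ _ tendsto_natCast_atTop_atTop
  have t1 : ∀ e, Tendsto (fun m : ℕ => ((m : ℝ) + 1) *
      (⟪ext1 W u, avg m e (ext1 W (w e)) + r e m⟫_ℂ).re) atTop (𝓝 (⟪u, w e⟫_ℂ).re) := by
    intro e
    have h1 : Tendsto (fun m : ℕ => ((m : ℝ) + 1) * (⟪ext1 W u, r e m⟫_ℂ).re) atTop (𝓝 0) := by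
      refine squeeze_zero_norm (fun m => ?_) (by simpa using (hr' e).const_mul ‖u‖)
      rw [← hr e m, inner_avg, hr e m, norm_mul, Real.norm_of_nonneg (hm m).le,
        ← norm_avg_ext1 m e u]
      have h2 := (Complex.abs_re_le_norm _).trans
        (norm_inner_le_norm (𝕜 := ℂ) (avg m e (ext1 W u)) (r e m))
      refine (mul_le_mul_of_nonneg_left h2 (hm m).le).trans (le_of_eq ?_)
      conv_lhs => rw [← Real.mul_self_sqrt (hm m).le]
      ring
    have h3 := h1.const_add (⟪u, w e⟫_ℂ).re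
    rw [add_zero] at h3
    refine h3.congr fun m => ?_
    rw [inner_add_right, Complex.add_re, mul_add, inner_ext1_left u (avg m e _), slice_avg_ext1,
      inner_smul_right, cast_inv, Complex.re_ofReal_mul, mul_inv_cancel_left₀ (hm m).ne']
  have t2 : Tendsto (fun m : ℕ => ((m : ℝ) + 1) * ‖∑ e ∈ E, avg m e (ext1 W (w e))‖ ^ 2) atTop
      (𝓝 (∑ e ∈ E, ‖w e‖ ^ 2)) := by
    have h1 : ∀ e ∈ E, Tendsto (fun m : ℕ => ∑ e' ∈ E, ((m : ℝ) + 1) *
        (⟪avg m e (ext1 W (w e)), avg m e' (ext1 W (w e'))⟫_ℂ).re) atTop (𝓝 (‖w e‖ ^ 2)) := by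
      intro e he
      have h2 : ‖w e‖ ^ 2 = ∑ e' ∈ E, if e = e' then ‖w e‖ ^ 2 else 0 := by simp [he]
      rw [h2]
      refine tendsto_finsetSum _ fun e' _ => ?_
      split_ifs with h
      · subst h
        refine tendsto_const_nhds.congr fun m => ?_
        rw [inner_same, mul_inv_cancel_left₀ (hm m).ne', re_inner_self]
      · have h3 := hK.inv_tendsto_atTop.mul_const (⟪w e, w e'⟫_ℂ).re
        rw [zero_mul] at h3
        refine h3.congr fun m => ?_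
        rw [inner_ne m h, mul_inv_cancel_left₀ (hm m).ne']
        rfl
    refine (tendsto_finsetSum E h1).congr fun m => ?_
    rw [← re_inner_self, sum_inner, Complex.re_sum, Finset.mul_sum]
    refine Finset.sum_congr rfl fun e _ => ?_
    rw [inner_sum, Complex.re_sum, Finset.mul_sum]
  have t3 : Tendsto (fun m : ℕ => √((m : ℝ) + 1) * ‖∑ e ∈ E, r e m‖) atTop (𝓝 0) := by
    refine squeeze_zero (fun m => by positivity) (fun m => ?_)
      (by simpa using tendsto_finsetSum E fun e _ => hr' e)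
    rw [← Finset.mul_sum]
    exact mul_le_mul_of_nonneg_left (norm_sum_le _ _) (Real.sqrt_nonneg _)
  have t4 : Tendsto (fun m : ℕ => √((m : ℝ) + 1) * ‖∑ e ∈ E, avg m e (ext1 W (w e))‖) atTop
      (𝓝 √(∑ e ∈ E, ‖w e‖ ^ 2)) := by
    refine t2.sqrt.congr fun m => ?_
    rw [Real.sqrt_mul (hm m).le, Real.sqrt_sq (norm_nonneg _)]
  have t5 : Tendsto (fun m : ℕ => √((m : ℝ) + 1) *
      ‖∑ e ∈ E, (avg m e (ext1 W (w e)) + r e m)‖) atTop (𝓝 √(∑ e ∈ E, ‖w e‖ ^ 2)) := by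
    refine t4.congr_dist (squeeze_zero (fun _ => dist_nonneg) (fun m => ?_) t3)
    rw [Real.dist_eq, ← mul_sub, abs_mul, abs_of_nonneg (Real.sqrt_nonneg _),
      Finset.sum_add_distrib]
    refine mul_le_mul_of_nonneg_left ((abs_norm_sub_norm_le _ _).trans (le_of_eq ?_))
      (Real.sqrt_nonneg _)
    rw [sub_add_cancel_left, norm_neg]
  have t6 := t5.pow 2
  rw [Real.sq_sqrt (Finset.sum_nonneg fun _ _ => sq_nonneg _)] at t6
  have t7 := ((tendsto_finsetSum E fun e _ => t1 e).const_mul 2).sub t6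
  rw [Finset.sum_sub_distrib, ← Finset.mul_sum]
  refine t7.congr fun m => ?_
  rw [mul_pow, Real.sq_sqrt (hm m).le, inner_sum, Complex.re_sum, ← Finset.mul_sum]
  ring

theorem tau_eq {Y : Type*} (X : Submodule ℂ (L2 Y)) (y : Y) :
    tau X y = ENNReal.ofReal (‖proj X (delta y)‖ ^ 2) := by
  rw [tau, ENNReal.ofReal_pow (norm_nonneg _), ofReal_norm]

end First

theorem first_order (hc : Cofin G (Set.univ : Set Z)) (Zf : W → Submodule ℂ (L2 Z))
    (U : ℕ → Submodule ℂ (L2 (Til W Z))) (hU : ∀ m, Inv (Gam G W) (U m)) {κ : ℝ}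
    (hd : ∀ m : ℕ, dim (Gam G W) (U m) ≤ κ / ((m : ℝ) + 1))
    (h : ∀ k, ∀ θ ∈ Zf k, ∃ r : ℕ → L2 (Til W Z), (∀ m, avg m k (r m) = r m) ∧
      Tendsto (fun m : ℕ => √((m : ℝ) + 1) * ‖r m‖) atTop (𝓝 0) ∧
      ∀ m, avg m k (ext1 W θ) + r m ∈ U m) :
    osum G (fun z => ∑' k, tau (Zf k) z) ≤ ENNReal.ofReal κ := by
  have := finite_quot hc
  have := Fintype.ofFinite (orbitRel.Quotient G Z)
  have hm : ∀ m : ℕ, (0 : ℝ) < (m : ℝ) + 1 := fun m => by positivity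
  have hdim : ∀ m, dim (Gam G W) (U m) =
      ∑ q : orbitRel.Quotient G Z, ‖proj (U m) (delta ⟨1, q.out⟩)‖ ^ 2 := fun m => by
    rw [dim, edim, osum_til (tau_smul (hU m)), osum, tsum_fintype]
    simp only [First.tau_eq]
    rw [← ENNReal.ofReal_sum_of_nonneg fun _ _ => sq_nonneg _,
      ENNReal.toReal_ofReal (Finset.sum_nonneg fun _ _ => sq_nonneg _)]
  have key : ∀ (E : Finset W) (θ : orbitRel.Quotient G Z → W → L2 Z), (∀ q e, θ q e ∈ Zf e) →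
      ∑ q, ∑ e ∈ E, (2 * (⟪delta q.out, θ q e⟫_ℂ).re - ‖θ q e‖ ^ 2) ≤ κ := by
    intro E θ hθ
    choose r hr hr' hr'' using fun q e => h e (θ q e) (hθ q e)
    have hlim := tendsto_finsetSum Finset.univ fun (q : orbitRel.Quotient G Z) _ =>
      First.tendsto_main E (θ q) (r q) (hr q) (hr' q) (delta q.out)
    refine le_of_tendsto' hlim fun m => ?_
    have h1 := hd m
    rw [le_div_iff₀ (hm m), mul_comm, hdim] at h1
    rw [← Finset.mul_sum]
    refine le_trans (mul_le_mul_of_nonneg_left (Finset.sum_le_sum fun q _ => ?_) (hm m).le) h1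
    rw [ext1_delta]
    exact First.le_pn _ (Submodule.sum_mem _ fun e _ => hr'' q e m)
  rw [osum_tsum, ENNReal.tsum_eq_iSup_sum]
  refine iSup_le fun E => ?_
  simp only [osum, tsum_fintype, First.tau_eq,
    ← ENNReal.ofReal_sum_of_nonneg fun _ _ => sq_nonneg _]
  rw [← ENNReal.ofReal_sum_of_nonneg fun _ _ => Finset.sum_nonneg fun _ _ => sq_nonneg _]
  refine ENNReal.ofReal_le_ofReal (le_of_forall_pos_le_add fun η hη => ?_)
  set N : ℝ := Fintype.card (orbitRel.Quotient G Z) * E.card + 1 with hN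
  have hN0 : 0 < N := by positivity
  choose w hw hw' using fun (q : orbitRel.Quotient G Z) (e : W) =>
    First.exists_approx (Zf e) (delta q.out) (div_pos hη hN0)
  have h2 : ∑ q : orbitRel.Quotient G Z, ∑ e ∈ E, (‖proj (Zf e) (delta q.out)‖ ^ 2 - η / N) ≤ κ :=
    le_trans (Finset.sum_le_sum fun q _ => Finset.sum_le_sum fun e _ => hw' q e) (key E w hw)
  simp only [Finset.sum_sub_distrib, Finset.sum_const, Finset.card_univ, nsmul_eq_mul] at h2
  rw [Finset.sum_comm]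
  have h3 : Fintype.card (orbitRel.Quotient G Z) * (E.card * (η / N)) ≤ η := by
    rw [← mul_assoc, ← mul_div_assoc, div_le_iff₀ hN0, hN]
    nlinarith
  linarith

end Pool.Agent.P.MP_0f25e6_al.SQ
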