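import Pool.Agent.P.MP_0f25e6_al.SQ.Cx
import Pool.Agent.P.MP_0f25e6_al.SQ.First

/-!
The gap inequality bounds the total defect of every extension.
-/

set_option autoImplicit false

open scoped InnerProductSpace ENNReal Topology
open Filter MulAction

noncomputable section

namespace Pool.Agent.P.MP_0f25e6_al.SQ

open HN

universe u

variable {G V W Y₀ Y : Type*} [Group G] [MulAction G V] [MulAction G W] [MulAction G Y₀]
  [MulAction G Y] {M : Med G V W} {B : Base M Y₀}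

theorem Base.κ_smul_b1 (B : Base M Y₀) (g : G) (y : Y₀) : B.κ (g • y) = g • B.κ y := by
  rw [Base.κ, Base.κ, B.e_smul, Edge.smul_h]

namespace Sys

variable (S : Sys B Y)

theorem b1_rw_i (h : W) (y : Y₀) : S.RW h (S.i y) ↔ h = B.κ y := by
  rw [RW, S.loc_i, Edge.mem_cell_I, Base.κ]

/-- An old variable together with its wall. -/
def b1j (y : Y₀) : Inc S.RW := ⟨B.κ y, S.i y, (S.b1_rw_i _ y).2 rfl⟩

theorem b1j_inj : Function.Injective S.b1j := fun _ _ h => S.i_inj (congrArg Inc.y h)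

theorem b1j_smul (g : G) (y : Y₀) : S.b1j (g • y) = g • S.b1j y :=
  Inc.ext (B.κ_smul_b1 g y) (S.i_smul g y)

theorem b1_pull_slc (h : W) (F : L2 (Inc S.RW)) :
    pull S.i S.i_inj (slc S.RW h F) = res (B.κ ⁻¹' {h}) (pull S.b1j S.b1j_inj F) := by
  ext y
  rw [pull_apply]
  by_cases hy : h = B.κ y
  · subst hy
    rw [slc_apply_pos _ _ ((S.b1_rw_i _ y).2 rfl), res_apply_of_mem _ (by rfl), pull_apply]
    rfl
  · rw [slc_apply_neg _ _ (fun h1 => hy ((S.b1_rw_i _ y).1 h1)),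
      res_apply_of_notMem _ (show y ∉ B.κ ⁻¹' {h} from fun h1 => hy (Eq.symm h1))]

theorem b1_pull_res (h : W) (φ : L2 Y) :
    pull S.i S.i_inj (res {y | S.RW h y} φ) = res (B.κ ⁻¹' {h}) (pull S.i S.i_inj φ) := by
  ext y
  rw [pull_apply]
  by_cases hy : h = B.κ y
  · rw [res_apply_of_mem _ (show S.i y ∈ {y | S.RW h y} from (S.b1_rw_i _ y).2 hy),
      res_apply_of_mem _ (show y ∈ B.κ ⁻¹' {h} from hy.symm), pull_apply]
  · rw [res_apply_of_notMem _ (show S.i y ∉ {y | S.RW h y} from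
        fun h1 => hy ((S.b1_rw_i _ y).1 h1)),
      res_apply_of_notMem _ (show y ∉ B.κ ⁻¹' {h} from fun h1 => hy (Eq.symm h1))]

theorem b1_inj {F : L2 (Inc S.RW)} (hF : F ∈ sec S.RW S.Φ) (h0 : pull S.b1j S.b1j_inj F = 0) :
    F = 0 := by
  ext p
  have h1 : slc S.RW p.x F = 0 :=
    S.wall p.x _ (mem_sec.1 hF p.x) (by rw [b1_pull_slc, h0, map_zero])
  have h2 := slc_apply_pos S.RW F p.r
  rw [h1] at h2
  exact h2.symm

theorem b1_mem_hull {F : L2 (Inc S.RW)} (hF : F ∈ sec S.RW S.Φ) :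
    pull S.b1j S.b1j_inj F ∈ hull B.κ B.Φ := by
  refine mem_hull.2 fun h => ?_
  rw [← b1_pull_slc]
  refine cl_mono ?_ (img_cl_le (pull S.i S.i_inj) _ ⟨_, mem_sec.1 hF h, rfl⟩)
  rintro _ ⟨_, ⟨φ, hφ, rfl⟩, rfl⟩
  exact ⟨pull S.i S.i_inj φ, S.pull_mem φ hφ, (S.b1_pull_res h φ).symm⟩

theorem b1_dim_sec : dim G (sec S.RW S.Φ) ≤ dim G (hull B.κ B.Φ) :=
  ENNReal.toReal_mono (edim_ne_top B.cofin _)
    (edim_le_of_inj (free_inc _ S.free) B.free (eqv_pull S.b1j_inj S.b1j_smul) (cls_sec _ _)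
      (inv_sec _ S.inv) (fun _ hF h0 => S.b1_inj hF h0) fun _ hF => le_cl _ (S.b1_mem_hull hF))

/-- Restriction to the old variables, induced. -/
def b1I : L2 (Til W Y) →L[ℂ] L2 (Til W Y₀) := pull (Til.map W S.i) (til_map_inj S.i_inj)

/-- Evaluation at the walls, induced. -/
def b1E : L2 (Til W Y) →L[ℂ] L2 (Til W (Inc S.RW)) :=
  pullB (Til.map W Inc.y) (til_map_bdd S.bddW)

/-- Restriction of wall functions to the old variables, induced. -/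
def b1R : L2 (Til W (Inc S.RW)) →L[ℂ] L2 (Til W Y₀) :=
  pull (Til.map W S.b1j) (til_map_inj S.b1j_inj)

theorem b1R_E (ξ : L2 (Til W Y)) : S.b1R (S.b1E ξ) = S.b1I ξ := by
  ext p
  rfl

theorem eqv_b1I : Eqv (Gam G W) S.b1I := eqv_pull _ (til_map_smul S.i_smul)

theorem eqv_b1E : Eqv (Gam G W) S.b1E := eqv_pullB _ (til_map_smul fun _ _ => rfl)

theorem eqv_b1R : Eqv (Gam G W) S.b1R := eqv_pull _ (til_map_smul S.b1j_smul)

theorem b1_eq_zero_of_slice {Z : Type*} {f : L2 (Til W Z)} (h : ∀ n, slice n f = 0) : f = 0 := by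
  ext p
  have h1 := slice_apply p.n f p.z
  rw [h p.n] at h1
  exact h1.symm

theorem b1R_inj {F : L2 (Til W (Inc S.RW))} (hF : F ∈ indb W (sec S.RW S.Φ)) (h0 : S.b1R F = 0) :
    F = 0 :=
  b1_eq_zero_of_slice fun n => S.b1_inj (mem_indb.1 hF n) (by
    rw [← slice_pull]
    exact (congrArg (slice n) h0).trans (map_zero _))

theorem b1I_inj {ξ : L2 (Til W Y)} (hξ : ξ ∈ indb W S.Φ) (h0 : S.b1I ξ = 0) : ξ = 0 :=
  b1_eq_zero_of_slice fun n => S.eq_zero_of_pull (mem_indb.1 hξ n) (by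
    rw [← slice_pull]
    exact (congrArg (slice n) h0).trans (map_zero _))

theorem b1I_mem {ξ : L2 (Til W Y)} (hξ : ξ ∈ indb W S.Φ) : S.b1I ξ ∈ indb W B.Φ :=
  mem_indb.2 fun n => by
    rw [b1I, slice_pull]
    exact S.pull_mem _ (mem_indb.1 hξ n)

theorem b1E_mem {ξ : L2 (Til W Y)} (hξ : ξ ∈ indb W S.Φ) : S.b1E ξ ∈ indb W (sec S.RW S.Φ) :=
  mem_indb.2 fun n => by
    rw [b1E, slice_pullB S.bddW]
    exact pullB_mem_sec _ _ (mem_indb.1 hξ n)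

/-- The induced solutions whose averages vanish on the old variables. -/
def b1A (m : ℕ) : Submodule ℂ (L2 (Til W Y)) := indb W S.Φ ⊓ pre S.b1I (Qp m B.κ)

theorem cls_b1A (m : ℕ) : Cls (S.b1A m) := (cls_indb S.cls).inf ((cls_Qp m _).pre _)

theorem inv_b1A (m : ℕ) : Inv (Gam G W) (S.b1A m) :=
  (inv_indb S.inv).inf ((inv_Qp m B.κ_smul_b1).pre S.eqv_b1I)

theorem dim_b1A (m : ℕ) :
    dim G B.Φ - dim G (⊤ : Submodule ℂ (L2 Y₀)) / ((m : ℝ) + 1) ≤ dim (Gam G W) (S.b1A m) := by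
  have h1 := dim_pre_ge (free_til S.free) (free_til B.free) (cofin_til S.cofin) (cofin_til B.cofin)
    S.eqv_b1I (cls_indb S.cls) (inv_indb S.inv) (cls_Qp m B.κ) (inv_Qp m B.κ_smul_b1)
  have h2 := dim_Qp_orth B.cofin m B.κ_smul_b1
  have h3 : dim G S.Φ = dim G B.Φ := congrArg ENNReal.toReal S.dim_eq
  rw [dim_indb S.cls S.inv, h3] at h1
  exact le_trans (by linarith) h1

/-- The split hull of the wall values of `b1A`. -/
def b1H (m : ℕ) : Submodule ℂ (L2 (Til W (Inc S.RW))) :=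
  hull (fun p : Til W (Inc S.RW) => p.z.x) (img S.b1E (S.b1A m))

theorem cls_b1H (m : ℕ) : Cls (S.b1H m) := cls_hull _ _

theorem inv_b1H (m : ℕ) : Inv (Gam G W) (S.b1H m) :=
  inv_hull (cmp_til (κ := Inc.x) (cmp_of_smul fun _ _ => rfl)) ((S.inv_b1A m).img S.eqv_b1E)

theorem b1H_le (m : ℕ) : S.b1H m ≤ indb W (sec S.RW S.Φ) := by
  refine hull_le (cls_indb (cls_sec _ _)) ?_
  rintro x _ ⟨ξ, hξ, rfl⟩
  exact split_indb (split_sec S.RW S.Φ) x _ (S.b1E_mem hξ.1)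

theorem adm_b1 (m : ℕ) :
    Adm (Gam G W) (fun p : Til W Y₀ => B.κ p.z) (cl (img S.b1R (S.b1H m))) := by
  refine ⟨cls_cl _, ((S.inv_b1H m).img S.eqv_b1R).cl, split_cl ?_⟩
  rintro x _ ⟨F, hF, rfl⟩
  refine ⟨_, split_hull _ _ x F hF, ?_⟩
  ext p
  change res _ F (Til.map W S.b1j p) = res _ (S.b1R F) p
  rw [res_apply, res_apply]
  rfl

theorem dim_b1U {t : ℝ} (ht : 0 < t) (hg : B.Gap t) (m : ℕ) :
    dim (Gam G W) (indb W (sec S.RW S.Φ) ⊓ (S.b1H m)ᗮ : Submodule ℂ (L2 (Til W (Inc S.RW)))) ≤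
      dim G (⊤ : Submodule ℂ (L2 Y₀)) / t / ((m : ℝ) + 1) := by
  have h1 := hg _ (S.adm_b1 m)
  have h2 : dim (Gam G W) (cl (img S.b1R (S.b1H m))) = dim (Gam G W) (S.b1H m) := by
    rw [dim_cl]
    exact congrArg ENNReal.toReal (edim_img_of_inj' (free_til (free_inc _ S.free))
      (free_til B.free) S.eqv_b1R (S.cls_b1H m) (S.inv_b1H m)
      fun F hF h0 => S.b1R_inj (S.b1H_le m hF) h0)
  have h3 : dim (Gam G W) (S.b1A m) ≤ dim (Gam G W)
      (indb W B.Φ ⊓ cl (img S.b1R (S.b1H m)) : Submodule ℂ (L2 (Til W Y₀))) := by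
    refine ENNReal.toReal_mono (edim_ne_top (cofin_til B.cofin) _)
      (edim_le_of_inj (free_til S.free) (free_til B.free) S.eqv_b1I (S.cls_b1A m) (S.inv_b1A m)
        (fun ξ hξ h0 => S.b1I_inj hξ.1 h0) fun ξ hξ => le_cl _ ⟨S.b1I_mem hξ.1, le_cl _ ?_⟩)
    exact ⟨S.b1E ξ, le_hull _ _ ⟨ξ, hξ, rfl⟩, S.b1R_E ξ⟩
  have h4 := S.dim_b1A m
  have h5 := S.b1_dim_sec
  rw [dim_inf_orth (cofin_til S.cofinW) (cls_indb (cls_sec _ _)) (S.b1H_le m),
    dim_indb (cls_sec _ _) (inv_sec _ S.inv), div_right_comm, le_div_iff₀ ht]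
  rw [h2] at h1
  nlinarith

theorem b1_slice_mem {m : ℕ} {ξ : L2 (Til W Y)} (hξ : ξ ∈ S.b1A m) (k : W) :
    slice 1 (avg m k ξ) ∈ S.a k := by
  have h1 : slice 1 (avg m k ξ) ∈ S.Φ :=
    mem_indb.1 (avg_mem (fun a _ hf => sh_mem_indb a hf) m k hξ.1) 1
  have h2 : res {y | S.RW k y} (slice 1 (avg m k ξ)) = 0 := by
    refine S.wall k _ (le_cl _ ⟨_, h1, rfl⟩) ?_
    rw [b1_pull_res, ← slice_pull, pull_avg S.i_inj]
    ext y
    by_cases hy : y ∈ B.κ ⁻¹' {k}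
    · rw [res_apply_of_mem _ hy, slice_apply, ← show B.κ y = k from hy]
      exact mem_Qp.1 hξ.2 ⟨1, y⟩
    · exact res_apply_of_notMem _ hy
  refine S.mem_a.2 ⟨h1, fun y hy => ?_⟩
  rw [← res_apply_of_mem _ (show y ∈ {y | S.RW k y} from hy), h2]
  rfl

theorem b1_avg_mem (m : ℕ) {k : W} {θ : L2 (Inc S.RW)} (hθ : θ ∈ S.Zk k) :
    avg m k (ext1 W θ) ∈
      (indb W (sec S.RW S.Φ) ⊓ (S.b1H m)ᗮ : Submodule ℂ (L2 (Til W (Inc S.RW)))) := by
  refine ⟨avg_mem (fun a _ hf => sh_mem_indb a hf) m k (ext1_mem_indb hθ.1), ?_⟩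
  refine mem_hull_orth.2 fun x => ?_
  change res (Til.z ⁻¹' (Inc.x ⁻¹' {x})) (avg m k (ext1 W θ)) ∈ _
  rw [res_avg, res_ext1, Submodule.mem_orthogonal']
  rintro _ ⟨ξ, hξ, rfl⟩
  change ⟪_, S.b1E ξ⟫_ℂ = 0
  rw [← inner_avg, b1E, ← pullB_avg S.bddW, inner_ext1_left, slice_pullB S.bddW, inner_res_left,
    res_pullB]
  exact (Submodule.mem_orthogonal' _ _).1 hθ.2 _ (blk_mem_sec _ x (S.b1_slice_mem hξ k))

end Sys

theorem Sys.mass_le (S : Sys B Y) {t : ℝ} (ht : 0 < t) (hg : B.Gap t) :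
    osum G (fun p : Inc S.RW => ∑' k, tau (S.Zk k) p) ≤
      ENNReal.ofReal (dim G (⊤ : Submodule ℂ (L2 Y₀)) / t) := by
  refine first_order S.cofinW S.Zk (fun m => indb W (sec S.RW S.Φ) ⊓ (S.b1H m)ᗮ)
    (fun m => (inv_indb (inv_sec _ S.inv)).inf (S.inv_b1H m).orth) (S.dim_b1U ht hg)
    fun k θ hθ => ⟨fun _ => 0, fun _ => map_zero _, ?_, fun m => ?_⟩
  · simp only [norm_zero, mul_zero]
    exact tendsto_const_nhds
  · rw [add_zero]
    exact S.b1_avg_mem m hθ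

end Pool.Agent.P.MP_0f25e6_al.SQ
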