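import Pool.Agent.P.MP_0f25e6_al.SQ.Cx

/-!
The weight of an extension is at most its total defect.
-/

set_option autoImplicit false

open scoped InnerProductSpace ENNReal Topology
open Filter MulAction

noncomputable section

namespace Pool.Agent.P.MP_0f25e6_al.SQ

open HN

universe u

variable {G V W Y₀ Y : Type*} [Group G] [MulAction G V] [MulAction G W] [MulAction G Y₀]
  [MulAction G Y] {M : Med G V W} {B : Base M Y₀}

theorem Sys.split_Zk (S : Sys B Y) (k : W) : Split Inc.x (S.Zk k) := fun h f hf =>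
  ⟨split_sec _ _ h f hf.1, split_orth (split_sec _ _) h f hf.2⟩

theorem Sys.tau_Zk_smul (S : Sys B Y) (g : G) (k : W) (p : Inc S.RW) :
    tau (S.Zk (g • k)) (g • p) = tau (S.Zk k) p := by
  have h : S.Zk (g • k) = img (act g) (S.Zk k) := by
    refine le_antisymm (fun F hF => ?_) ?_
    · refine ⟨act g⁻¹ F, ?_, act_act_inv g F⟩
      have := S.act_mem_Zk g⁻¹ hF
      rwa [inv_smul_smul] at this
    · rintro _ ⟨F, hF, rfl⟩
      exact S.act_mem_Zk g hF
  rw [h, tau_img_act]

theorem inner_eq_zero_of_supp {Z : Type*} {A : Set Z} {f g : L2 Z} (hf : f ∈ supp A)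
    (hg : ∀ z ∈ A, g z = 0) : ⟪f, g⟫_ℂ = 0 := by
  rw [lp.inner_eq_tsum]
  have h : ∀ z, ⟪f z, g z⟫_ℂ = 0 := fun z => by
    by_cases hz : z ∈ A
    · rw [hg z hz, inner_zero_right]
    · rw [hf z hz, inner_zero_left]
  simp only [h, tsum_zero]

theorem Sys.Tr_flag_le (S : Sys B Y) (x : Flag M) :
    Tr (sec S.RF S.Φ ⊓ supp (Inc.x ⁻¹' {x}) : Submodule ℂ (L2 (Inc S.RF))) ≤
      Tr (S.Zk x.k ⊓ supp (Inc.x ⁻¹' {x.h}) : Submodule ℂ (L2 (Inc S.RW))) := by
  have hcl : cl (sec S.RW S.Φ) = sec S.RW S.Φ := cl_eq (cls_sec _ _)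
  refine Tr_le_of_inj (proj (sec S.RW S.Φ) ∘L blk S.RW x.h ∘L slc S.RF x) ?_ ?_
  · intro F _
    simp only [ContinuousLinearMap.comp_apply]
    set g := slc S.RF x F with hg
    refine ⟨⟨?_, ?_⟩, ?_⟩
    · have := proj_mem (sec S.RW S.Φ) (blk S.RW x.h g)
      rwa [hcl] at this
    · intro E hE
      have hE' : E ∈ cl (sec S.RW S.Φ) := le_cl _ (sec_mono _ inf_le_left hE)
      rw [← inner_proj_left, proj_eq_self hE', inner_blk_right]
      have h1 : slc S.RW x.h E ∈ supp {y | ¬ S.RW x.k y} := by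
        refine cl_le ?_ (cls_supp _) (mem_sec.1 hE x.h)
        rintro _ ⟨φ, hφ, rfl⟩ y hy
        change res _ φ y = 0
        by_cases h2 : y ∈ {y | S.RW x.h y}
        · rw [res_apply_of_mem _ h2]
          exact hφ.2 y hy
        · exact res_apply_of_notMem _ h2
      refine inner_eq_zero_of_supp h1 fun y hy => slc_apply_neg _ _ fun hr => hy ?_
      change x.k ∈ (S.loc y).I
      rw [show S.loc y = x.c from hr]
      exact x.k_mem
    · have h1 : blk S.RW x.h g = res (Inc.x ⁻¹' {x.h}) (blk S.RW x.h g) :=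
        (res_eq_self fun p hp => blk_apply_ne _ _ hp).symm
      change proj (sec S.RW S.Φ) (blk S.RW x.h g) ∈ supp _
      rw [h1, proj_res (split_sec _ _ x.h)]
      exact res_mem_supp _ _
  · intro F hF h0
    simp only [ContinuousLinearMap.comp_apply] at h0
    set g := slc S.RF x F with hg
    obtain ⟨φ, hφ, hFφ⟩ := exists_of_mem_sec hF.1 (S.starF x)
    have h1 : blk S.RW x.h φ ∈ cl (sec S.RW S.Φ) := le_cl _ (blk_mem_sec _ _ hφ)
    have h2 : ⟪blk S.RW x.h φ, blk S.RW x.h g⟫_ℂ = 0 := by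
      rw [← proj_eq_self h1, inner_proj_left, h0, inner_zero_right]
    rw [inner_blk_right, slc_blk_self] at h2
    have h3 : ⟪res {y | S.RW x.h y} φ - g, g⟫_ℂ = 0 := by
      refine inner_eq_zero_of_supp (A := {y | ¬ S.RF x y}) (fun y hy => ?_)
        fun y hy => slc_apply_neg _ _ hy
      have hr : S.RF x y := not_not.1 hy
      have h4 : y ∈ {y | S.RW x.h y} := by
        change x.h ∈ (S.loc y).I
        rw [show S.loc y = x.c from hr]
        exact x.h_mem
      change res _ φ y - g y = 0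
      rw [res_apply_of_mem _ h4, hg, slc_apply_pos _ _ hr, hFφ y hr, sub_self]
    rw [inner_sub_left, h2, zero_sub, neg_eq_zero, inner_self_eq_zero] at h3
    rw [← res_eq_self hF.2, ← blk_slc, ← hg, h3, map_zero]

theorem Sys.wt_le_mass (S : Sys B Y) :
    S.wt ≤ osum G (fun p : Inc S.RW => ∑' k, tau (S.Zk k) p) := by
  classical
  let m : Inc S.RW → Flag M → ℝ≥0∞ := fun p x =>
    (Inc.x ⁻¹' {x.h} : Set (Inc S.RW)).indicator (tau (S.Zk x.k)) p
  have hm : ∀ (g : G) p x, m (g • p) (g • x) = m p x := by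
    intro g p x
    simp only [m, Set.indicator_apply, Set.mem_preimage, Set.mem_singleton_iff, Inc.smul_x,
      Flag.smul_h, Flag.smul_k, smul_left_cancel_iff, S.tau_Zk_smul]
  calc S.wt = osum G (fun x : Flag M =>
        Tr (sec S.RF S.Φ ⊓ supp (Inc.x ⁻¹' {x}) : Submodule ℂ (L2 (Inc S.RF)))) :=
        edim_eq_osum_Tr (free_flag M) (free_inc _ S.free) (fun _ _ => rfl) (inv_sec _ S.inv)
          (split_sec _ _)
    _ ≤ osum G (fun x : Flag M => ∑' p, m p x) := by
        refine osum_mono fun x => (S.Tr_flag_le x).trans (le_of_eq ?_)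
        rw [Tr, tau_inf_supp' (S.split_Zk x.k x.h)]
    _ = osum G (fun p : Inc S.RW => ∑' x, m p x) :=
        (osum_swap (free_flag M) (free_inc _ S.free) m hm).symm
    _ ≤ _ := by
        refine osum_mono fun p => ?_
        have h1 : ∑' x, m p x = ∑' x : {x : Flag M | x.h = p.x}, tau (S.Zk x.1.k) p := by
          rw [tsum_subtype {x : Flag M | x.h = p.x} (fun x => tau (S.Zk x.k) p)]
          refine tsum_congr fun x => ?_
          simp only [m, Set.indicator_apply, Set.mem_preimage, Set.mem_singleton_iff,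
            Set.mem_ofPred_eq, eq_comm]
        rw [h1]
        refine ENNReal.tsum_comp_le_tsum_of_injective
          (f := fun x : {x : Flag M | x.h = p.x} => x.1.k) (fun x x' h => ?_)
          (fun k => tau (S.Zk k) p)
        exact Subtype.ext (Flag.ext_hk (x.2.trans x'.2.symm) h)

end Pool.Agent.P.MP_0f25e6_al.SQ
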