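import Pool.Agent.P.MP_0f25e6_al.SQ.Defs

/-!
Combinatorics of cells, edges and flags.
-/

set_option autoImplicit false

open scoped InnerProductSpace ENNReal Topology
open Filter MulAction

noncomputable section

namespace Pool.Agent.P.MP_0f25e6_al.SQ

open HN

universe u

variable {G V W : Type*} [Group G] [MulAction G V] [MulAction G W] {M : Med G V W}

theorem Crs.ne {mem : V → W → Prop} {h k : W} (hc : Crs mem h k) : h ≠ k := by
  rintro rfl
  obtain ⟨v, h1, h2⟩ := hc True False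
  exact h2.1 (h1.2 trivial)

theorem Crs.symm {mem : V → W → Prop} {h k : W} (hc : Crs mem h k) : Crs mem k h := by
  intro p q
  obtain ⟨v, h1, h2⟩ := hc q p
  exact ⟨v, h2, h1⟩

theorem cells_in (c : Cell M) (J : Set W) {h : W} (hh : h ∈ c.I) :
    M.mem (c.vtx J) h ↔ h ∈ J := by
  rw [c.mem_vtx]
  exact ⟨fun h1 => h1.elim (fun h2 => absurd h2 (c.low h hh)) fun h2 => h2.2,
    fun h1 => Or.inr ⟨hh, h1⟩⟩

theorem cells_out (c : Cell M) (J : Set W) {h : W} (hh : h ∉ c.I) :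
    M.mem (c.vtx J) h ↔ M.mem c.v h := by
  rw [c.mem_vtx]
  exact or_iff_left fun h1 => hh h1.1

theorem cells_crs {c d : Cell M} {h l : W} (hc : h ∈ c.I) (hd : h ∈ d.I) (lc : l ∉ c.I)
    (ld : l ∉ d.I) (hne : ¬ (M.mem c.v l ↔ M.mem d.v l)) : Crs M.mem h l := by
  intro p q
  by_cases h1 : M.mem c.v l ↔ q
  · exact ⟨c.vtx {_l | p}, cells_in c _ hc, (cells_out c _ lc).trans h1⟩
  · exact ⟨d.vtx {_l | p}, cells_in d _ hd, (cells_out d _ ld).trans (by tauto)⟩

theorem cells_ext_oh {e e' : Edge M} (ho : e.o = e'.o) (hh : e.h = e'.h) : e = e' :=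
  Edge.ext ho (M.ext _ _ fun l => by rw [e.up, e'.up, ho, hh]) hh

open Classical in
theorem cells_filter {c : Cell M} {u : V} (h : c.Vx u) :
    u = c.vtx ((c.I.filter fun l => M.mem u l : Finset W) : Set W) := by
  refine M.ext _ _ fun l => ?_
  by_cases hl : l ∈ c.I
  · rw [cells_in c _ hl, Finset.mem_coe, Finset.mem_filter]
    exact ⟨fun h1 => ⟨hl, h1⟩, fun h1 => h1.2⟩
  · rw [cells_out c _ hl, h l hl]

theorem Cell.crs (c : Cell M) {h k : W} (hh : h ∈ c.I) (hk : k ∈ c.I) (hne : h ≠ k) :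
    Crs M.mem h k := by
  intro p q
  refine ⟨c.vtx {l | (l = h ∧ p) ∨ (l = k ∧ q)}, ?_, ?_⟩
  · rw [cells_in c _ hh]
    simp [hne]
  · rw [cells_in c _ hk]
    simp [hne.symm]

theorem Cell.card_le_two (c : Cell M) : c.I.card ≤ 2 := by
  by_contra h
  obtain ⟨a, b, d, ha, hb, hd, h1, h2, h3⟩ := Finset.two_lt_card_iff.1 (not_le.1 h)
  exact M.dim2 a b d (c.crs ha hb h1) (c.crs hb hd h3) (c.crs ha hd h2)

theorem Cell.mem_iff_of_two (c : Cell M) {h k : W} (hh : h ∈ c.I) (hk : k ∈ c.I) (hne : h ≠ k)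
    (l : W) : l ∈ c.I ↔ l = h ∨ l = k := by
  refine ⟨fun hl => ?_, fun hl => hl.elim (fun e => e ▸ hh) fun e => e ▸ hk⟩
  by_contra h1
  rw [not_or] at h1
  exact M.dim2 h k l (c.crs hh hk hne) (c.crs hk hl (Ne.symm h1.2)) (c.crs hh hl (Ne.symm h1.1))

/-- Two distinct walls cut at most one common cell. -/
theorem Cell.eq_of_two {c d : Cell M} {h k : W} (hne : h ≠ k) (hc : h ∈ c.I) (kc : k ∈ c.I)
    (hd : h ∈ d.I) (kd : k ∈ d.I) : c = d := by
  have hI : ∀ l, l ∈ c.I ↔ l ∈ d.I := fun l =>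
    (c.mem_iff_of_two hc kc hne l).trans (d.mem_iff_of_two hd kd hne l).symm
  refine Cell.ext (M.ext _ _ fun l => ?_) (Finset.ext hI)
  by_cases hl : l ∈ c.I
  · exact iff_of_false (c.low l hl) (d.low l ((hI l).1 hl))
  · by_contra h1
    have hl' : l ∉ d.I := fun h2 => hl ((hI l).2 h2)
    exact M.dim2 h k l (c.crs hc kc hne) (cells_crs kc kd hl hl' h1) (cells_crs hc hd hl hl' h1)

theorem Flag.ext_hk {x x' : Flag M} (hh : x.h = x'.h) (hk : x.k = x'.k) : x = x' := by
  exact Flag.ext (Cell.eq_of_two x.ne x.h_mem x.k_mem (hh ▸ x'.h_mem) (hk ▸ x'.k_mem)) hh hk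

/-- A wall that does not cut a square does not cross one of the two walls of the square. -/
theorem Flag.side (x : Flag M) {l : W} (hl : l ∉ x.c.I) :
    ∃ k, (k = x.h ∨ k = x.k) ∧
      ∀ d : Cell M, k ∈ d.I → l ∉ d.I ∧ (M.mem d.v l ↔ M.mem x.c.v l) := by
  have key : ∀ k ∈ x.c.I, ¬ Crs M.mem k l →
      ∀ d : Cell M, k ∈ d.I → l ∉ d.I ∧ (M.mem d.v l ↔ M.mem x.c.v l) := by
    intro k hk hn d hd
    have h1 : l ∉ d.I := fun h2 => hn (d.crs hd h2 fun e => hl (e ▸ hk))
    exact ⟨h1, by_contra fun h2 => hn (cells_crs hd hk h1 hl h2)⟩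
  by_cases h1 : Crs M.mem x.h l
  · exact ⟨x.k, Or.inr rfl, key _ x.k_mem fun h2 =>
      M.dim2 _ _ _ (x.c.crs x.h_mem x.k_mem x.ne) h2 h1⟩
  · exact ⟨x.h, Or.inl rfl, key _ x.h_mem h1⟩

theorem free_cell (M : Med G V W) : Free G (Cell M) := by
  exact fun g c h => M.free g c.v (congrArg Cell.v h)

theorem free_edge (M : Med G V W) : Free G (Edge M) := by
  exact fun g e h => M.free g e.o (congrArg Edge.o h)

theorem free_flag (M : Med G V W) : Free G (Flag M) := by
  exact fun g x h => free_cell M g x.c (congrArg Flag.c h)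

theorem Cell.vx_v (c : Cell M) : c.Vx c.v := by
  exact fun _ _ => Iff.rfl

theorem Cell.vx_vtx (c : Cell M) (J : Set W) : c.Vx (c.vtx J) := by
  exact fun _ hl => cells_out c J hl

theorem Cell.Vx.eq_vtx {c : Cell M} {u : V} (h : c.Vx u) : u = c.vtx {l | M.mem u l} := by
  refine M.ext _ _ fun l => ?_
  by_cases hl : l ∈ c.I
  · rw [cells_in c _ hl]
    rfl
  · rw [cells_out c _ hl, h l hl]

theorem Cell.vx_bdd (c : Cell M) : ∃ s : Finset V, s.card ≤ 4 ∧ ∀ v, c.Vx v → v ∈ s := by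
  classical
  refine ⟨c.I.powerset.image fun J : Finset W => c.vtx (J : Set W), ?_, fun v hv => ?_⟩
  · refine Finset.card_image_le.trans ?_
    rw [Finset.card_powerset]
    exact Nat.pow_le_pow_right (by norm_num) c.card_le_two
  · exact Finset.mem_image.2 ⟨_, Finset.mem_powerset.2 (Finset.filter_subset _ _),
      (cells_filter hv).symm⟩

theorem Cell.edge_bdd (c : Cell M) :
    ∃ s : Finset (Edge M), s.card ≤ 8 ∧ ∀ e : Edge M, e.In c → e ∈ s := by
  obtain ⟨s, hs, hs'⟩ := c.vx_bdd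
  have hi : Function.Injective fun e : Edge M => (e.o, e.h) := fun e e' h =>
    cells_ext_oh (congrArg Prod.fst h) (congrArg Prod.snd h)
  refine ⟨(s ×ˢ c.I).preimage _ hi.injOn, ?_, fun e he =>
    Finset.mem_preimage.2 (Finset.mem_product.2 ⟨hs' _ he.2, he.1⟩)⟩
  refine (Finset.card_le_card_of_injOn _ (fun e he => Finset.mem_preimage.1 he) hi.injOn).trans ?_
  rw [Finset.card_product]
  exact Nat.mul_le_mul hs c.card_le_two

theorem Cell.flag_bdd (c : Cell M) :
    ∃ s : Finset (Flag M), s.card ≤ 4 ∧ ∀ x : Flag M, c = x.c → x ∈ s := by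
  have hi : Function.Injective fun x : Flag M => (x.h, x.k) := fun x x' h =>
    Flag.ext_hk (congrArg Prod.fst h) (congrArg Prod.snd h)
  refine ⟨(c.I ×ˢ c.I).preimage _ hi.injOn, ?_, fun x hx =>
    Finset.mem_preimage.2 (Finset.mem_product.2 ⟨hx ▸ x.h_mem, hx ▸ x.k_mem⟩)⟩
  refine (Finset.card_le_card_of_injOn _ (fun e he => Finset.mem_preimage.1 he) hi.injOn).trans ?_
  rw [Finset.card_product]
  exact Nat.mul_le_mul c.card_le_two c.card_le_two

theorem Edge.mem_t (e : Edge M) : M.mem e.t e.h := by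
  exact (e.up _).2 (Or.inr rfl)

theorem Edge.mem_t_iff (e : Edge M) {l : W} (hl : l ≠ e.h) : M.mem e.t l ↔ M.mem e.o l := by
  rw [e.up, or_iff_left hl]

theorem Edge.ext_oh {e e' : Edge M} (ho : e.o = e'.o) (hh : e.h = e'.h) : e = e' := by
  exact cells_ext_oh ho hh

theorem Edge.ext_th {e e' : Edge M} (ht : e.t = e'.t) (hh : e.h = e'.h) : e = e' := by
  refine Edge.ext (M.ext _ _ fun l => ?_) ht hh
  by_cases hl : l = e.h
  · exact iff_of_false (hl ▸ e.low) (by rw [hl, hh]; exact e'.low)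
  · rw [← e.mem_t_iff hl, ← e'.mem_t_iff (hh ▸ hl), ht]

theorem Edge.In.vx_t {e : Edge M} {c : Cell M} (h : e.In c) : c.Vx e.t := by
  intro l hl
  rw [e.mem_t_iff (l := l) fun e1 => hl (e1 ▸ h.1), h.2 l hl]

theorem Edge.vx_cell (e : Edge M) (v : V) : e.cell.Vx v ↔ v = e.o ∨ v = e.t := by
  have hI : ∀ l, l ∉ e.cell.I ↔ l ≠ e.h := fun l => Finset.notMem_singleton
  constructor
  · intro h
    by_cases hv : M.mem v e.h
    · refine Or.inr (M.ext _ _ fun l => ?_)
      by_cases hl : l = e.h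
      · rw [hl]
        exact iff_of_true hv e.mem_t
      · rw [e.mem_t_iff hl]
        exact h l ((hI l).2 hl)
    · refine Or.inl (M.ext _ _ fun l => ?_)
      by_cases hl : l = e.h
      · rw [hl]
        exact iff_of_false hv e.low
      · exact h l ((hI l).2 hl)
  · rintro (rfl | rfl)
    · exact fun _ _ => Iff.rfl
    · exact fun l hl => e.mem_t_iff ((hI l).1 hl)

theorem Edge.in_cell (e e' : Edge M) : e'.In e.cell ↔ e' = e := by
  constructor
  · rintro ⟨h1, h2⟩
    have h3 : e'.h = e.h := Finset.mem_singleton.1 h1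
    rcases (e.vx_cell _).1 h2 with h4 | h4
    · exact Edge.ext_oh h4 h3
    · exact absurd (by rw [h4, h3]; exact e.mem_t) e'.low
  · rintro rfl
    exact ⟨Finset.mem_singleton_self _, fun _ _ => Iff.rfl⟩

theorem Edge.mem_cell_I (e : Edge M) (h : W) : h ∈ e.cell.I ↔ h = e.h := by
  exact Finset.mem_singleton

theorem Edge.cell_smul (g : G) (e : Edge M) : (g • e).cell = g • e.cell := by
  refine Cell.ext rfl (Finset.ext fun l => ?_)
  rw [Edge.mem_cell_I, Cell.mem_smul_I, Edge.mem_cell_I, inv_smul_eq_iff, Edge.smul_h]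

theorem Cell.bot_in (c : Cell M) (h : W) (hh : h ∈ c.I) : (c.bot h hh).In c := by
  exact ⟨hh, c.vx_v⟩

theorem Flag.dn_in (x : Flag M) : x.dn.In x.c := by
  exact x.c.bot_in _ _

theorem Flag.up_in (x : Flag M) : x.up.In x.c := by
  exact ⟨x.h_mem, x.c.vx_vtx _⟩

theorem Flag.mem_up_o (x : Flag M) (l : W) : M.mem x.up.o l ↔ M.mem x.c.v l ∨ l = x.k := by
  refine (x.c.mem_vtx {x.k} l).trans (or_congr_right ⟨fun h => h.2, fun h => ⟨?_, h⟩⟩)
  rw [h]
  exact x.k_mem

theorem Flag.mem_up_t (x : Flag M) (l : W) :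
    M.mem x.up.t l ↔ M.mem x.c.v l ∨ l = x.h ∨ l = x.k := by
  refine (x.c.mem_vtx Set.univ l).trans ?_
  rw [x.hI]
  simp

theorem Flag.mem_dn_t (x : Flag M) (l : W) : M.mem x.dn.t l ↔ M.mem x.c.v l ∨ l = x.h := by
  exact x.dn.up l

theorem Flag.dn_o (x : Flag M) : x.dn.o = x.c.v := rfl

theorem Flag.dn_h (x : Flag M) : x.dn.h = x.h := rfl

theorem Flag.up_h (x : Flag M) : x.up.h = x.h := rfl

theorem Flag.swap_up_t (x : Flag M) : x.swap.up.t = x.up.t := rfl

theorem Flag.swap_up_o (x : Flag M) : x.swap.up.o = x.dn.t := rfl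

theorem Flag.swap_dn_t (x : Flag M) : x.swap.dn.t = x.up.o := rfl

theorem Flag.swap_dn_o (x : Flag M) : x.swap.dn.o = x.dn.o := rfl

theorem Flag.swap_swap (x : Flag M) : x.swap.swap = x := rfl

theorem Flag.swap_smul (g : G) (x : Flag M) : (g • x).swap = g • x.swap := rfl

theorem Flag.swap_ne (x : Flag M) : x.swap ≠ x := by
  exact fun h => x.ne (congrArg Flag.k h)

theorem Flag.dn_smul (g : G) (x : Flag M) : (g • x).dn = g • x.dn := by
  exact Edge.ext_oh rfl rfl

theorem Flag.up_smul (g : G) (x : Flag M) : (g • x).up = g • x.up := by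
  refine Edge.ext_oh (M.ext _ _ fun l => ?_) rfl
  rw [Flag.mem_up_o, Edge.smul_o, M.mem_smul_left g x.up.o, Flag.mem_up_o, Flag.smul_c,
    Cell.smul_v, M.mem_smul_left, Flag.smul_k, inv_smul_eq_iff]

/-- The flags on a square. -/
theorem Flag.eq_or_swap {x x' : Flag M} (h : x'.c = x.c) : x' = x ∨ x' = x.swap := by
  have h1 := (x.hI _).1 (h ▸ x'.h_mem)
  have h2 := (x.hI _).1 (h ▸ x'.k_mem)
  rcases h1 with h1 | h1 <;> rcases h2 with h2 | h2
  · exact absurd (h1.trans h2.symm) x'.ne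
  · exact Or.inl (Flag.ext h h1 h2)
  · exact Or.inr (Flag.ext h h1 h2)
  · exact absurd (h1.trans h2.symm) x'.ne

theorem cells_dn (x : Flag M) {e : Edge M} (he : e.In x.c) (hh : e.h = x.h)
    (hk : ¬ M.mem e.o x.k) : e = x.dn := by
  refine Edge.ext_oh (M.ext _ _ fun l => ?_) hh
  by_cases hl : l ∈ x.c.I
  · refine iff_of_false ?_ (x.c.low l hl)
    rcases (x.hI l).1 hl with rfl | rfl
    · exact hh ▸ e.low
    · exact hk
  · exact he.2 l hl

theorem cells_up (x : Flag M) {e : Edge M} (he : e.In x.c) (hh : e.h = x.h)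
    (hk : M.mem e.o x.k) : e = x.up := by
  refine Edge.ext_oh (M.ext _ _ fun l => ?_) hh
  by_cases hl : l ∈ x.c.I
  · rcases (x.hI l).1 hl with rfl | rfl
    · exact iff_of_false (hh ▸ e.low) x.up.low
    · exact iff_of_true hk ((x.mem_up_o _).2 (Or.inr rfl))
  · exact (he.2 l hl).trans (x.up_in.2 l hl).symm

/-- Two edges of a cell with the same wall are equal or opposite sides of a square. -/
theorem Edge.pair {e e' : Edge M} {c : Cell M} (he : e.In c) (he' : e'.In c) (hh : e.h = e'.h) :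
    e = e' ∨ ∃ x : Flag M, x.c = c ∧ ((e = x.up ∧ e' = x.dn) ∨ (e = x.dn ∧ e' = x.up)) := by
  by_cases ho : e.o = e'.o
  · exact Or.inl (Edge.ext_oh ho hh)
  obtain ⟨k, hk⟩ := not_forall.1 fun h => ho (M.ext _ _ h)
  have h1 : k ∈ c.I := by_contra fun h => hk ((he.2 k h).trans (he'.2 k h).symm)
  have h2 : e.h ≠ k := fun h => hk (h ▸ iff_of_false e.low (hh ▸ e'.low))
  let x : Flag M := ⟨c, e.h, k, h2, c.mem_iff_of_two he.1 h1 h2⟩
  refine Or.inr ⟨x, rfl, ?_⟩
  by_cases h3 : M.mem e.o k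
  · exact Or.inl ⟨cells_up x he rfl h3, cells_dn x he' hh.symm fun h4 => hk (iff_of_true h3 h4)⟩
  · exact Or.inr ⟨cells_dn x he rfl h3, cells_up x he' hh.symm
      (by_contra fun h4 => hk (iff_of_false h3 h4))⟩

/-- Every vertex of a cell is reached from the lowest one along edges of the cell. -/
theorem Cell.vx_ind (c : Cell M) (S : Set V) (h0 : c.v ∈ S)
    (hs : ∀ e : Edge M, e.In c → e.o ∈ S → e.t ∈ S) : ∀ v, c.Vx v → v ∈ S := by
  classical
  have key : ∀ J : Finset W, J ⊆ c.I → c.vtx (J : Set W) ∈ S := by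
    intro J
    induction J using Finset.induction_on with
    | empty =>
      intro _
      have : c.vtx ((∅ : Finset W) : Set W) = c.v := M.ext _ _ fun l => by
        rw [c.mem_vtx]
        simp
      rwa [this]
    | insert a J ha ih =>
      intro hJ
      have haI : a ∈ c.I := hJ (Finset.mem_insert_self a J)
      let e : Edge M := ⟨c.vtx (J : Set W), c.vtx ((insert a J : Finset W) : Set W), a,
        by rw [cells_in c _ haI]; exact ha, fun l => by
          rw [c.mem_vtx, c.mem_vtx, Finset.mem_coe, Finset.mem_coe, Finset.mem_insert]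
          constructor
          · rintro (h | ⟨h, h1 | h1⟩)
            · exact Or.inl (Or.inl h)
            · exact Or.inr h1
            · exact Or.inl (Or.inr ⟨h, h1⟩)
          · rintro ((h | ⟨h, h1⟩) | h)
            · exact Or.inl h
            · exact Or.inr ⟨h, Or.inr h1⟩
            · exact Or.inr ⟨h ▸ haI, Or.inl h⟩⟩
      exact hs e ⟨haI, c.vx_vtx _⟩ (ih ((Finset.subset_insert a J).trans hJ))
  intro v hv
  rw [cells_filter hv]
  exact key _ (Finset.filter_subset _ _)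

end Pool.Agent.P.MP_0f25e6_al.SQ
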