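import Pool.Agent.P.MP_0f25e6_al.SQ.Defs

/-!
The ordinary trace of a projection.
-/

set_option autoImplicit false

open scoped InnerProductSpace ENNReal Topology
open Filter MulAction

noncomputable section

namespace Pool.Agent.P.MP_0f25e6_al.SQ

open HN

universe u

section Trace

variable {Z : Type*}

theorem Tr_mono {U U' : Submodule ℂ (L2 Z)} (h : U ≤ U') : Tr U ≤ Tr U' :=
  ENNReal.tsum_le_tsum fun z => tau_mono h z

/-- Hilbert-Schmidt norm of an operator with values in a finite dimensional subspace. -/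
theorem trace1_hs {Y ι : Type*} [Fintype ι] {U : Submodule ℂ (L2 Z)} (b : OrthonormalBasis ι ℂ U)
    (A : L2 Y →L[ℂ] L2 Z) (h : ∀ f, A f ∈ U) :
    ∑' y, ‖A (delta y)‖ₑ ^ 2 = ∑ j, ‖adj A (b j)‖ₑ ^ 2 := by
  have h1 : ∀ y, ‖A (delta y)‖ₑ ^ 2 = ∑ j, ‖adj A (b j) y‖ₑ ^ 2 := by
    intro y
    have h2 := b.sum_sq_norm_inner_left ⟨A (delta y), h _⟩
    have h3 : ‖A (delta y)‖ ^ 2 = ∑ j, ‖adj A (b j) y‖ ^ 2 := by
      refine h2.symm.trans (Finset.sum_congr rfl fun j _ => ?_)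
      rw [Submodule.coe_inner, ← inner_adj_right, inner_delta_left]
    rw [← ofReal_norm, ← ENNReal.ofReal_pow (norm_nonneg _), h3,
      ENNReal.ofReal_sum_of_nonneg fun _ _ => by positivity]
    refine Finset.sum_congr rfl fun j _ => ?_
    rw [← ofReal_norm, ← ENNReal.ofReal_pow (norm_nonneg _)]
  simp only [h1]
  rw [Summable.tsum_finsetSum fun _ _ => ENNReal.summable]
  exact Finset.sum_congr rfl fun j _ => (enorm_sq_eq _).symm

theorem Tr_eq_finrank (U : Submodule ℂ (L2 Z)) [FiniteDimensional ℂ U] :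
    Tr U = Module.finrank ℂ U := by
  have hc : Cls U := U.closed_of_finiteDimensional
  let b := stdOrthonormalBasis ℂ U
  have h1 := trace1_hs b (proj U) fun f => cl_le le_rfl hc (proj_mem U f)
  have h2 : ∀ j, ‖adj (proj U) (b j)‖ₑ ^ 2 = 1 := fun j => by
    rw [adj_proj, proj_eq_self (le_cl U (b j).2), ← ofReal_norm, ← Submodule.coe_norm,
      b.orthonormal.1 j, ENNReal.ofReal_one, one_pow]
  simp only [h2] at h1
  simpa [Tr, tau] using h1

theorem finiteDimensional_of_Tr {U : Submodule ℂ (L2 Z)} (h : Tr U ≠ ⊤) :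
    FiniteDimensional ℂ U := by
  by_contra hfin
  obtain ⟨n, hn⟩ := ENNReal.exists_nat_gt h
  have h1 : (n : Cardinal) ≤ Module.rank ℂ U := by
    refine (Cardinal.natCast_lt_aleph0 (n := n)).le.trans (not_lt.1 fun h => hfin ?_)
    exact Module.rank_lt_aleph0_iff.1 h
  obtain ⟨f, hf⟩ := exists_linearIndependent_of_le_rank h1
  have hf' : LinearIndependent ℂ (U.subtype ∘ f) := hf.map' U.subtype U.ker_subtype
  have : FiniteDimensional ℂ (Submodule.span ℂ (Set.range (U.subtype ∘ f))) :=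
    FiniteDimensional.span_of_finite ℂ (Set.finite_range _)
  have h2 := Tr_eq_finrank (Submodule.span ℂ (Set.range (U.subtype ∘ f)))
  rw [finrank_span_eq_card hf', Fintype.card_fin] at h2
  have h3 : Submodule.span ℂ (Set.range (U.subtype ∘ f)) ≤ U := by
    rw [Submodule.span_le]
    rintro _ ⟨i, rfl⟩
    exact (f i).2
  exact absurd (h2 ▸ Tr_mono h3) (not_le.2 hn)

theorem Tr_nat (U : Submodule ℂ (L2 Z)) : Tr U = ⊤ ∨ ∃ n : ℕ, Tr U = n := by
  by_cases h : Tr U = ⊤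
  · exact Or.inl h
  · have := finiteDimensional_of_Tr h
    exact Or.inr ⟨_, Tr_eq_finrank U⟩

/-- An injective linear map between subspaces increases the trace. -/
theorem Tr_le_of_inj {Y : Type*} {U : Submodule ℂ (L2 Y)} {U' : Submodule ℂ (L2 Z)}
    (T : L2 Y →L[ℂ] L2 Z) (h : ∀ f ∈ U, T f ∈ U') (hinj : ∀ f ∈ U, T f = 0 → f = 0) :
    Tr U ≤ Tr U' := by
  by_cases h' : Tr U' = ⊤
  · rw [h']
    exact le_top
  have := finiteDimensional_of_Tr h'
  let S : U →ₗ[ℂ] U' := (T : L2 Y →ₗ[ℂ] L2 Z).restrict h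
  have hS : Function.Injective S := by
    rw [injective_iff_map_eq_zero]
    intro f hf
    exact Subtype.ext (hinj f f.2 (congrArg Subtype.val hf))
  have : FiniteDimensional ℂ U := Module.Finite.of_injective S hS
  rw [Tr_eq_finrank, Tr_eq_finrank]
  exact Nat.cast_le.2 (LinearMap.finrank_le_finrank_of_injective hS)

theorem tsum_nat_of_ne_top {ι : Type*} {a : ι → ℝ≥0∞} (h : ∀ i, a i = ⊤ ∨ ∃ n : ℕ, a i = n)
    (hne : ∑' i, a i ≠ ⊤) : ∃ n : ℕ, ∑' i, a i = n := by
  classical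
  choose n hn using fun i => (h i).resolve_left (ENNReal.ne_top_of_tsum_ne_top hne i)
  have hfin := ENNReal.finite_const_le_of_tsum_ne_top hne one_ne_zero
  refine ⟨∑ i ∈ hfin.toFinset, n i, ?_⟩
  rw [tsum_eq_sum (s := hfin.toFinset)]
  · simp [hn]
  · intro i hi
    rw [Set.Finite.mem_toFinset, Set.mem_ofPred_eq, hn, not_le, Nat.cast_lt_one] at hi
    rw [hn, hi, Nat.cast_zero]

/-- An operator of finite rank is of Hilbert-Schmidt class. -/
theorem tsum_ne_top_of_finite_rank {Y : Type*} (A : L2 Y →L[ℂ] L2 Z)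
    (h : FiniteDimensional ℂ (img A ⊤)) : ∑' y, ‖A (delta y)‖ₑ ^ 2 ≠ ⊤ := by
  rw [trace1_hs (stdOrthonormalBasis ℂ (img A ⊤)) A fun f => ⟨f, Submodule.mem_top, rfl⟩]
  exact ENNReal.sum_ne_top.2 fun j _ => ENNReal.pow_ne_top enorm_ne_top

end Trace

end Pool.Agent.P.MP_0f25e6_al.SQ
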