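import Pool.Agent.P.MP_0f25e6_al.SQ.Tools
import Pool.Agent.P.MP_0f25e6_al.SQ.Trace1

/-!
Mass transport, integrality over free sets and square summable families.
-/

set_option autoImplicit false

open scoped InnerProductSpace ENNReal Topology
open Filter MulAction

noncomputable section

namespace Pool.Agent.P.MP_0f25e6_al.SQ

open HN

universe u

section Mass

variable {H X Y Z : Type*} [Group H] [MulAction H X] [MulAction H Y] [MulAction H Z]

/-- The mass transport principle. -/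
theorem osum_swap (hX : Free H X) (hZ : Free H Z) (m : Z → X → ℝ≥0∞)
    (hm : ∀ (g : H) z x, m (g • z) (g • x) = m z x) :
    osum H (fun z => ∑' x, m z x) = osum H (fun x => ∑' z, m z x) := by
  have h1 : ∀ z, ∑' x, m z x = osum H (fun x => ∑' h : H, m z (h • x)) :=
    fun z => tsum_unfold hX _
  have h2 : ∀ x, ∑' z, m z x = osum H (fun z => ∑' h : H, m z (h • x)) := by
    intro x
    rw [tsum_unfold hZ (fun z => m z x)]
    congr 1
    funext z
    rw [← (Equiv.inv H).tsum_eq]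
    refine tsum_congr fun h => ?_
    rw [Equiv.inv_apply, ← hm h, smul_inv_smul]
  simp only [h1, h2]
  exact ENNReal.tsum_comm

theorem edim_eq_osum_Tr (hX : Free H X) (hZ : Free H Z) {κ : Z → X}
    (hκ : ∀ (a : H) z, κ (a • z) = a • κ z) {U : Submodule ℂ (L2 Z)} (hi : Inv H U)
    (hs : Split κ U) : edim H U = osum H (fun x => Tr (U ⊓ supp (κ ⁻¹' {x}))) := by
  have h := osum_swap hX hZ (fun z x => (κ ⁻¹' {x}).indicator (tau U) z) (fun g z x => by
    by_cases hz : κ z = x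
    · rw [Set.indicator_of_mem (show g • z ∈ κ ⁻¹' {g • x} from by
          rw [Set.mem_preimage, hκ, hz]; rfl),
        Set.indicator_of_mem (show z ∈ κ ⁻¹' {x} from hz), tau_smul hi]
    · rw [Set.indicator_of_notMem (show g • z ∉ κ ⁻¹' {g • x} from fun h => hz (by
          have h : κ (g • z) = g • x := h
          rw [hκ] at h
          exact MulAction.injective g h)),
        Set.indicator_of_notMem (show z ∉ κ ⁻¹' {x} from hz)])
  have h1 : ∀ z, ∑' x, (κ ⁻¹' {x}).indicator (tau U) z = tau U z := by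
    intro z
    rw [tsum_eq_single (κ z)]
    · exact Set.indicator_of_mem (show z ∈ κ ⁻¹' {κ z} from rfl) _
    · intro x hx
      exact Set.indicator_of_notMem (show z ∉ κ ⁻¹' {x} from fun h => hx (Eq.symm h)) _
  simp only [h1] at h
  rw [edim, show tau U = fun z => tau U z from rfl, h]
  congr 1
  funext x
  rw [Tr, tau_inf_supp' (hs x)]

theorem osum_nat {f : X → ℝ≥0∞} (h : ∀ x, f x = ⊤ ∨ ∃ n : ℕ, f x = n) (hne : osum H f ≠ ⊤) :
    ∃ n : ℕ, osum H f = n := by
  exact tsum_nat_of_ne_top (fun q => h _) hne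

/-- Invariant subspaces that split over a free set have integer dimension. -/
theorem edim_int (hX : Free H X) (hZ : Free H Z) (hc : Cofin H (Set.univ : Set Z)) {κ : Z → X}
    (hκ : ∀ (a : H) z, κ (a • z) = a • κ z) {U : Submodule ℂ (L2 Z)} (hi : Inv H U)
    (hs : Split κ U) : ∃ n : ℕ, edim H U = n := by
  have h := edim_ne_top hc U
  rw [edim_eq_osum_Tr hX hZ hκ hi hs] at h ⊢
  exact osum_nat (fun x => Tr_nat _) h

/-- The coefficients of a vector along an orbit of a free action are square summable. -/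
theorem memlp_orbit (hZ : Free H Z) (f : L2 Z) (z : Z) : Memℓp (fun g : H => f (g⁻¹ • z)) 2 := by
  rw [memℓp_two_iff]
  refine (hasSum_norm_sq f).summable.comp_injective (i := fun g : H => g⁻¹ • z) fun a b h => ?_
  have h : a⁻¹ • z = b⁻¹ • z := h
  have h1 : (b * a⁻¹) • z = z := by rw [mul_smul, h, smul_inv_smul]
  exact (mul_inv_eq_one.1 (hZ _ _ h1)).symm

theorem tsum_ne_top_aux {I J K : Type*} [Finite J] (φ : I → J × K) (hφ : Function.Injective φ)
    {f : I → ℝ≥0∞} (F : J → K → ℝ≥0∞) (h : ∀ i, f i = F (φ i).1 (φ i).2)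
    (hF : ∀ j, ∑' k, F j k ≠ ⊤) : ∑' i, f i ≠ ⊤ := by
  rw [tsum_congr h]
  refine ne_top_of_le_ne_top ?_
    (ENNReal.tsum_comp_le_tsum_of_injective hφ fun p : J × K => F p.1 p.2)
  have := Fintype.ofFinite J
  rw [ENNReal.tsum_prod', tsum_fintype]
  exact ENNReal.sum_ne_top.2 fun j _ => hF j

/-- An equivariant family of operators of finite rank, indexed by finitely many orbits. -/
theorem tsum_family_ne_top (hY : Free H Y) (A : X → L2 Y →L[ℂ] L2 Z) {T : Set X}
    (hT : ∀ (g : H), ∀ x ∈ T, g • x ∈ T) (hc : Cofin H T)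
    (heq : ∀ (g : H), ∀ x ∈ T, ∀ f, A (g • x) (act g f) = act g (A x f))
    (hfin : ∀ x ∈ T, FiniteDimensional ℂ (img (A x) ⊤)) (y : Y) :
    ∑' x : T, ‖A x (delta y)‖ₑ ^ 2 ≠ ⊤ := by
  obtain ⟨F, hF, hFT⟩ := hc
  choose g hg using hFT
  have hF' : (F ∩ T).Finite := hF.inter_of_left T
  have := hF'.to_subtype
  let φ : T → (F ∩ T : Set X) × Y := fun x =>
    (⟨g x.1 x.2 • x.1, hg x.1 x.2, hT _ _ x.2⟩, g x.1 x.2 • y)
  have hφ : Function.Injective φ := by
    intro a b h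
    have h1 : g a.1 a.2 • a.1 = g b.1 b.2 • b.1 := congrArg (fun p => p.1.1) h
    have h2 : g a.1 a.2 • y = g b.1 b.2 • y := congrArg Prod.snd h
    have h3 : ((g b.1 b.2)⁻¹ * g a.1 a.2) • y = y := by rw [mul_smul, h2, inv_smul_smul]
    have h4 : g b.1 b.2 = g a.1 a.2 := inv_mul_eq_one.1 (hY _ _ h3)
    rw [h4] at h1
    exact Subtype.ext (MulAction.injective _ h1)
  refine tsum_ne_top_aux φ hφ (fun w z => ‖A w.1 (delta z)‖ₑ ^ 2) (fun x => ?_)
    fun w => tsum_ne_top_of_finite_rank _ (hfin _ w.2.2)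
  have h1 : ‖A (g x.1 x.2 • x.1) (delta (g x.1 x.2 • y))‖ = ‖A x (delta y)‖ := by
    rw [← act_delta, heq _ _ x.2, norm_act]
  have h2 : ‖A x (delta y)‖ₑ = ‖A (g x.1 x.2 • x.1) (delta (g x.1 x.2 • y))‖ₑ := by
    rw [← ofReal_norm, ← ofReal_norm, h1]
  exact congrArg (· ^ 2) h2

/-- On a finite dimensional subspace an operator has a bounded right inverse on its image. -/
theorem lift_of_finite (T : L2 Y →L[ℂ] L2 Z) (V : Submodule ℂ (L2 Y))
    (hV : FiniteDimensional ℂ V) :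
    ∃ C : ℝ, ∀ u ∈ V, ∃ u' ∈ V, T u' = T u ∧ ‖u'‖ ≤ C * ‖T u‖ := by
  let f : V →ₗ[ℂ] L2 Z := (T : L2 Y →ₗ[ℂ] L2 Z).comp V.subtype
  obtain ⟨g, hg⟩ := f.rangeRestrict.exists_rightInverse_of_surjective f.range_rangeRestrict
  refine ⟨‖LinearMap.toContinuousLinearMap g‖, fun u hu => ?_⟩
  let w : LinearMap.range f := ⟨T u, ⟨u, hu⟩, rfl⟩
  refine ⟨(g w).1, (g w).2, ?_, ?_⟩
  · exact congrArg Subtype.val (LinearMap.congr_fun hg w)
  · exact (LinearMap.toContinuousLinearMap g).le_opNorm w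

/-- Uniform lifting constant for an equivariant operator on the finite fibres of `κ`. -/
theorem exists_lift (hX : Free H X) (hc : Cofin H (Set.univ : Set Y)) {κ : Y → X}
    (hκ : ∀ (a : H) y, κ (a • y) = a • κ y) {T : L2 Y →L[ℂ] L2 Z} (hT : Eqv H T) :
    ∃ C : ℝ, 0 ≤ C ∧ ∀ x, ∀ u ∈ supp (κ ⁻¹' {x}),
      ∃ u' ∈ supp (κ ⁻¹' {x}), T u' = T u ∧ ‖u'‖ ≤ C * ‖T u‖ := by
  have h0 : ∀ x : X, ∃ C : ℝ, ∀ u ∈ supp (κ ⁻¹' {x}),
      ∃ u' ∈ supp (κ ⁻¹' {x}), T u' = T u ∧ ‖u'‖ ≤ C * ‖T u‖ := fun x =>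
    lift_of_finite T _ (finiteDimensional_supp (finite_fibre hκ hX hc x))
  choose C hC using h0
  obtain ⟨F, hF, hFY⟩ := hc
  obtain ⟨B, hB⟩ := (hF.image fun y => C (κ y)).bddAbove
  have hact : ∀ (a : H) (x : X), ∀ u ∈ supp (κ ⁻¹' {x}), act a u ∈ supp (κ ⁻¹' {a • x}) := by
    intro a x u hu
    rw [← res_eq_self hu, act_res_fibre hκ]
    exact res_mem_supp _ _
  refine ⟨max B 0, le_max_right _ _, fun x u hu => ?_⟩
  by_cases hx : ∃ y, κ y = x
  · obtain ⟨y, rfl⟩ := hx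
    obtain ⟨a, ha⟩ := hFY y (Set.mem_univ y)
    obtain ⟨v, hv, e1, e2⟩ := hC (a • κ y) (act a u) (hact a _ u hu)
    have hb : C (a • κ y) ≤ max B 0 := by
      rw [← hκ]
      exact (hB ⟨_, ha, rfl⟩).trans (le_max_left _ _)
    refine ⟨act a⁻¹ v, ?_, ?_, ?_⟩
    · have := hact a⁻¹ _ v hv
      rwa [inv_smul_smul] at this
    · rw [hT, e1, hT, ← act_mul, inv_mul_cancel, act_one]
    · rw [norm_act]
      rw [hT, norm_act] at e2
      exact e2.trans (mul_le_mul_of_nonneg_right hb (norm_nonneg _))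
  · have h1 : u = 0 := by
      ext y
      exact hu y fun h => hx ⟨y, h⟩
    subst h1
    exact ⟨0, hu, rfl, by simp⟩

end Mass

end Pool.Agent.P.MP_0f25e6_al.SQ
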