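import Pool.Agent.P.MP_0f25e6_al.SQ.Cells
import Pool.Agent.P.MP_0f25e6_al.SQ.Trace

/-!
The cochain complex of a system.
-/

set_option autoImplicit false

open scoped InnerProductSpace ENNReal Topology
open Filter MulAction

noncomputable section

namespace Pool.Agent.P.MP_0f25e6_al.SQ

open HN

universe u

variable {G V W Y₀ Y : Type*} [Group G] [MulAction G V] [MulAction G W] [MulAction G Y₀]
  [MulAction G Y] {M : Med G V W} {B : Base M Y₀}

namespace Sys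

variable (S : Sys B Y)

theorem bdd0 : Bdd (Inc.y : Inc S.R0 → Y) := bdd_inc fun y => (S.loc y).vx_bdd

theorem bdd1 : Bdd (Inc.y : Inc S.R1 → Y) := bdd_inc fun y => (S.loc y).edge_bdd

theorem bddF : Bdd (Inc.y : Inc S.RF → Y) := bdd_inc fun y => (S.loc y).flag_bdd

theorem bddW : Bdd (Inc.y : Inc S.RW → Y) :=
  bdd_inc (n := 2) fun y => ⟨(S.loc y).I, (S.loc y).card_le_two, fun _ h => h⟩

theorem cofin0 : Cofin G (Set.univ : Set (Inc S.R0)) := cofin_inc _ S.cofin S.bdd0.finite_rel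

theorem cofin1 : Cofin G (Set.univ : Set (Inc S.R1)) := cofin_inc _ S.cofin S.bdd1.finite_rel

theorem cofinF : Cofin G (Set.univ : Set (Inc S.RF)) := cofin_inc _ S.cofin S.bddF.finite_rel

theorem cofinW : Cofin G (Set.univ : Set (Inc S.RW)) := cofin_inc _ S.cofin S.bddW.finite_rel

theorem star0 (v : V) : {y | S.R0 v y}.Finite := finite_star _ M.free S.cofin S.bdd0.finite_rel v

theorem star1 (e : Edge M) : {y | S.R1 e y}.Finite :=
  finite_star _ (free_edge M) S.cofin S.bdd1.finite_rel e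

theorem starF (x : Flag M) : {y | S.RF x y}.Finite :=
  finite_star _ (free_flag M) S.cofin S.bddF.finite_rel x

theorem starC (c : Cell M) : (S.loc ⁻¹' {c}).Finite :=
  finite_fibre S.loc_smul (free_cell M) S.cofin c

/-- terminal vertex -/
def top (p : Inc S.R1) : Inc S.R0 := ⟨p.x.t, p.y, Edge.In.vx_t p.r⟩

/-- initial vertex -/
def bot (p : Inc S.R1) : Inc S.R0 := ⟨p.x.o, p.y, p.r.2⟩

/-- upper face -/
def upF (p : Inc S.RF) : Inc S.R1 := ⟨p.x.up, p.y, by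
  change p.x.up.In (S.loc p.y)
  rw [show S.loc p.y = p.x.c from p.r]
  exact p.x.up_in⟩

/-- lower face -/
def dnF (p : Inc S.RF) : Inc S.R1 := ⟨p.x.dn, p.y, by
  change p.x.dn.In (S.loc p.y)
  rw [show S.loc p.y = p.x.c from p.r]
  exact p.x.dn_in⟩

/-- exchange of the two walls -/
def swapF (p : Inc S.RF) : Inc S.RF := ⟨p.x.swap, p.y, p.r⟩

theorem swapF_inj : Function.Injective S.swapF :=
  Function.LeftInverse.injective (g := S.swapF) fun _ => rfl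

/-- Evaluation at vertices. -/
def ev0 : L2 Y →L[ℂ] L2 (Inc S.R0) := pullB Inc.y S.bdd0

/-- Evaluation at edges. -/
def ev1 : L2 Y →L[ℂ] L2 (Inc S.R1) := pullB Inc.y S.bdd1

/-- The first coboundary. -/
def d0 : L2 (Inc S.R0) →L[ℂ] L2 (Inc S.R1) :=
  pullB S.top (Bdd.of_comp (g := Inc.y) S.bdd1) - pullB S.bot (Bdd.of_comp (g := Inc.y) S.bdd1)

/-- The coboundary along the trees of the walls. -/
def db : L2 (Inc S.R1) →L[ℂ] L2 (Inc S.RF) :=
  pullB S.upF (Bdd.of_comp (g := Inc.y) S.bddF) - pullB S.dnF (Bdd.of_comp (g := Inc.y) S.bddF)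

/-- Functions on flags that do not depend on the order of the walls. -/
def Sym : Submodule ℂ (L2 (Inc S.RF)) := pre (pull S.swapF S.swapF_inj - 1) ⊥

theorem ev0_apply (f : L2 Y) (p : Inc S.R0) : S.ev0 f p = f p.y := rfl

theorem ev1_apply (f : L2 Y) (p : Inc S.R1) : S.ev1 f p = f p.y := rfl

theorem d0_apply (F : L2 (Inc S.R0)) (p : Inc S.R1) : S.d0 F p = F (S.top p) - F (S.bot p) := rfl

theorem db_apply (F : L2 (Inc S.R1)) (p : Inc S.RF) : S.db F p = F (S.upF p) - F (S.dnF p) := rfl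

theorem mem_Sym {F : L2 (Inc S.RF)} : F ∈ S.Sym ↔ ∀ p, F (S.swapF p) = F p := by
  change (pull S.swapF S.swapF_inj - 1) F ∈ (⊥ : Submodule ℂ (L2 (Inc S.RF))) ↔ _
  rw [Submodule.mem_bot]
  constructor
  · intro h p
    have h1 : F (S.swapF p) - F p = 0 := congrArg (fun f : L2 (Inc S.RF) => f p) h
    exact sub_eq_zero.1 h1
  · intro h
    ext p
    exact sub_eq_zero.2 (h p)

theorem eqv_ev0 : Eqv G S.ev0 := eqv_pullB _ fun _ _ => rfl

theorem eqv_ev1 : Eqv G S.ev1 := eqv_pullB _ fun _ _ => rfl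

theorem eqv_d0 : Eqv G S.d0 := (eqv_pullB _ fun _ _ => rfl).sub (eqv_pullB _ fun _ _ => rfl)

theorem eqv_db : Eqv G S.db :=
  (eqv_pullB _ fun g p => Inc.ext (Flag.up_smul g p.x) rfl).sub
    (eqv_pullB _ fun g p => Inc.ext (Flag.dn_smul g p.x) rfl)

theorem mem_a {h : W} {φ : L2 Y} : φ ∈ S.a h ↔ φ ∈ S.Φ ∧ ∀ y, h ∈ (S.loc y).I → φ y = 0 :=
  and_congr_right fun _ => forall_congr' fun _ => imp_congr_left not_not

theorem cls_a (h : W) : Cls (S.a h) := S.cls.inf (cls_supp _)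

theorem act_mem_a (g : G) {h : W} {φ : L2 Y} (hφ : φ ∈ S.a h) : act g φ ∈ S.a (g • h) := by
  rw [mem_a] at hφ ⊢
  refine ⟨S.inv g φ hφ.1, fun y hy => hφ.2 (g⁻¹ • y) ?_⟩
  rw [S.loc_smul, Cell.mem_smul_I, inv_inv]
  exact hy

theorem act_mem_a_orth (g : G) {h : W} {z : L2 Y} (hz : z ∈ (S.a h)ᗮ) :
    act g z ∈ (S.a (g • h))ᗮ := by
  intro φ hφ
  have h1 := S.act_mem_a g⁻¹ hφ
  rw [inv_smul_smul] at h1
  rw [← inv_inv g, ← inner_act_left]
  exact hz _ h1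

theorem act_mem_L (g : G) {h : W} {l : L2 Y} (hl : l ∈ S.L h) : act g l ∈ S.L (g • h) := by
  refine cl_mono ?_ (img_cl_le (act g) _ ⟨l, hl, rfl⟩)
  rintro _ ⟨_, ⟨φ, hφ, rfl⟩, rfl⟩
  refine ⟨act g φ, S.inv g φ hφ, ?_⟩
  change res {y | S.RW (g • h) y} (act g φ) = act g (res {y | S.RW h y} φ)
  rw [act_res]
  congr 2
  ext y
  change g • h ∈ (S.loc y).I ↔ h ∈ (S.loc (g⁻¹ • y)).I
  rw [S.loc_smul, Cell.mem_smul_I, inv_inv]

theorem L_le_supp (h : W) : S.L h ≤ supp {y | S.RW h y} := by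
  refine cl_le ?_ (cls_supp _)
  rintro _ ⟨φ, _, rfl⟩
  exact res_mem_supp _ _

theorem act_mem_Zk (g : G) {k : W} {F : L2 (Inc S.RW)} (hF : F ∈ S.Zk k) :
    act g F ∈ S.Zk (g • k) := by
  refine ⟨inv_sec _ S.inv g F hF.1, fun F' hF' => ?_⟩
  have h1 : act g⁻¹ F' ∈ sec S.RW (S.a k) := by
    refine act_mem_sec _ g⁻¹ (fun φ hφ => ?_) hF'
    have h2 := S.act_mem_a g⁻¹ hφ
    rwa [inv_smul_smul] at h2
  rw [← inv_inv g, ← inner_act_left]
  exact hF.2 _ h1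

theorem eq_zero_of_pull {φ : L2 Y} (hφ : φ ∈ S.Φ) (h : pull S.i S.i_inj φ = 0) : φ = 0 := by
  ext y
  obtain ⟨k, hk⟩ := S.ne y
  have h1 : res {y | k ∈ (S.loc y).I} φ = 0 := by
    refine S.wall k _ (le_cl _ ⟨φ, hφ, rfl⟩) ?_
    ext y₀
    have h2 : φ (S.i y₀) = 0 := congrArg (fun f : L2 Y₀ => f y₀) h
    change res {y | k ∈ (S.loc y).I} φ (S.i y₀) = 0
    by_cases hy : S.i y₀ ∈ {y | k ∈ (S.loc y).I}
    · rw [res_apply_of_mem φ hy, h2]
    · rw [res_apply_of_notMem φ hy]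
  have h3 : res {y | k ∈ (S.loc y).I} φ y = 0 := congrArg (fun f : L2 Y => f y) h1
  rw [res_apply_of_mem φ (show y ∈ {y | k ∈ (S.loc y).I} from hk)] at h3
  exact h3

theorem cofin_wall (h : W) : Cofin (stabilizer G h) {y | S.RW h y} :=
  cofin_stab (r := fun y h => S.RW h y) (fun g y h hr => InvRel.smul g h y hr)
    S.bddW.finite_rel S.cofin h

theorem int0 : ∃ n : ℕ, edim G (sec S.R0 S.Φ) = n :=
  edim_int M.free (free_inc _ S.free) S.cofin0 (fun _ _ => rfl) (inv_sec _ S.inv) (split_sec _ _)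

theorem int1 : ∃ n : ℕ, edim G (sec S.R1 S.Φ) = n :=
  edim_int (free_edge M) (free_inc _ S.free) S.cofin1 (fun _ _ => rfl) (inv_sec _ S.inv)
    (split_sec _ _)

theorem wt_int : ∃ n : ℕ, S.wt = n :=
  edim_int (free_flag M) (free_inc _ S.free) S.cofinF (fun _ _ => rfl) (inv_sec _ S.inv)
    (split_sec _ _)

theorem cls_Sym : Cls S.Sym := cls_bot.pre _

theorem inv_Sym : Inv G S.Sym :=
  inv_bot.pre ((eqv_pull S.swapF_inj fun _ _ => rfl).sub eqv_one)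

theorem int_Sym : ∃ n : ℕ, edim G (sec S.RF S.Φ ⊓ S.Sym : Submodule ℂ (L2 (Inc S.RF))) = n := by
  refine edim_int (free_cell M) (free_inc _ S.free) S.cofinF (κ := fun p => p.x.c)
    (fun _ _ => rfl) ((inv_sec _ S.inv).inf S.inv_Sym) fun c F hF => ⟨?_, ?_⟩
  · exact (split_sec S.RF S.Φ).res_preimage (cls_sec _ _) {x | x.c = c} hF.1
  · refine S.mem_Sym.2 fun p => ?_
    by_cases hp : p ∈ (fun p : Inc S.RF => p.x.c) ⁻¹' {c}
    · rw [res_apply_of_mem F hp, res_apply_of_mem F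
        (show S.swapF p ∈ (fun p : Inc S.RF => p.x.c) ⁻¹' {c} from hp)]
      exact S.mem_Sym.1 hF.2 p
    · rw [res_apply_of_notMem F hp, res_apply_of_notMem F
        (show S.swapF p ∉ (fun p : Inc S.RF => p.x.c) ⁻¹' {c} from hp)]

theorem d0_mem {F : L2 (Inc S.R0)} (hF : F ∈ sec S.R0 S.Φ) : S.d0 F ∈ sec S.R1 S.Φ := by
  refine mem_sec_of fun e => ?_
  obtain ⟨φ₁, h₁, e₁⟩ := exists_of_mem_sec hF (S.star0 e.t)
  obtain ⟨φ₀, h₀, e₀⟩ := exists_of_mem_sec hF (S.star0 e.o)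
  refine ⟨φ₁ - φ₀, S.Φ.sub_mem h₁ h₀, fun y hr => ?_⟩
  change F ⟨e.t, y, Edge.In.vx_t hr⟩ - F ⟨e.o, y, hr.2⟩ = φ₁ y - φ₀ y
  rw [e₁, e₀]

theorem db_mem {F : L2 (Inc S.R1)} (hF : F ∈ sec S.R1 S.Φ) : S.db F ∈ sec S.RF S.Φ := by
  refine mem_sec_of fun x => ?_
  obtain ⟨φ₁, h₁, e₁⟩ := exists_of_mem_sec hF (S.star1 x.up)
  obtain ⟨φ₀, h₀, e₀⟩ := exists_of_mem_sec hF (S.star1 x.dn)
  refine ⟨φ₁ - φ₀, S.Φ.sub_mem h₁ h₀, fun y hr => ?_⟩
  change F ⟨x.up, y, (S.upF ⟨x, y, hr⟩).r⟩ - F ⟨x.dn, y, (S.dnF ⟨x, y, hr⟩).r⟩ = φ₁ y - φ₀ y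
  rw [e₁, e₀]

theorem db_d0_mem (F : L2 (Inc S.R0)) : S.db (S.d0 F) ∈ S.Sym := by
  refine S.mem_Sym.2 fun p => ?_
  change F (S.top (S.upF p)) - F (S.top (S.dnF p)) - (F (S.bot (S.upF p)) - F (S.bot (S.dnF p))) =
    F (S.top (S.upF p)) - F (S.bot (S.upF p)) - (F (S.top (S.dnF p)) - F (S.bot (S.dnF p)))
  ring

theorem eq_of_db {F : L2 (Inc S.R1)} (hF : S.db F = 0) {p q : Inc S.R1} (hy : p.y = q.y)
    (hh : p.x.h = q.x.h) : F p = F q := by
  have hq : q.x.In (S.loc p.y) := by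
    rw [hy]
    exact q.r
  have key : ∀ r : Inc S.RF, F (S.upF r) = F (S.dnF r) := fun r =>
    sub_eq_zero.1 (congrArg (fun f : L2 (Inc S.RF) => f r) hF)
  rcases Edge.pair p.r hq hh with h | ⟨x, hx, ⟨h1, h2⟩ | ⟨h1, h2⟩⟩
  · rw [Inc.ext h hy]
  · have e1 : p = S.upF ⟨x, p.y, hx.symm⟩ := Inc.ext h1 rfl
    have e2 : q = S.dnF ⟨x, p.y, hx.symm⟩ := Inc.ext h2 hy.symm
    exact (congrArg F e1).trans ((key _).trans (congrArg F e2).symm)
  · have e1 : p = S.dnF ⟨x, p.y, hx.symm⟩ := Inc.ext h1 rfl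
    have e2 : q = S.upF ⟨x, p.y, hx.symm⟩ := Inc.ext h2 hy.symm
    exact (congrArg F e1).trans ((key _).symm.trans (congrArg F e2).symm)

end Sys

/-- The base system as an extension of itself. -/
def Base.sys (B : Base M Y₀) : Sys B Y₀ where
  free := B.free
  cofin := B.cofin
  loc y := (B.e y).cell
  loc_smul g y := by rw [B.e_smul, Edge.cell_smul]
  ne y := ⟨_, ((B.e y).mem_cell_I _).2 rfl⟩
  i := id
  i_inj := Function.injective_id
  i_smul _ _ := rfl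
  loc_i _ := rfl
  Φ := B.Φ
  cls := B.cls
  inv := B.inv
  pull_mem _ h := h
  dim_eq := rfl
  split := by
    intro h φ hφ h0
    refine B.loc _ fun v => ?_
    have hz : ∀ y, h = (B.e y).h → φ y = 0 := fun y hy => h0 y (((B.e y).mem_cell_I h).2 hy)
    have hm : ∀ y, h ≠ (B.e y).h → v = (B.e y).o ∨ v = (B.e y).t →
        (M.mem v h ↔ M.mem (B.e y).o h) := by
      rintro y hy (rfl | rfl)
      · exact Iff.rfl
      · exact (B.e y).mem_t_iff hy
    by_cases hv : M.mem v h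
    · refine ⟨φ, hφ, fun y hy => ?_⟩
      by_cases hs : y ∈ {y | M.mem (B.e y).cell.v h}
      · exact res_apply_of_mem φ hs
      · rw [res_apply_of_notMem φ hs]
        by_contra hne
        exact hs ((hm y (fun h1 => hne (hz y h1).symm) hy).1 hv)
    · refine ⟨0, B.Φ.zero_mem, fun y hy => ?_⟩
      change _ = (0 : ℂ)
      by_cases hs : y ∈ {y | M.mem (B.e y).cell.v h}
      · rw [res_apply_of_mem φ hs]
        by_contra hne
        exact hv ((hm y (fun h1 => hne (hz y h1)) hy).2 hs)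
      · exact res_apply_of_notMem φ hs
  wall _ _ _ h := h

end Pool.Agent.P.MP_0f25e6_al.SQ
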