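import Pool.Agent.P.MP_0f25e6_al.HN6

/-!
Definitions for the proof of the strong Atiyah property for groups acting freely on square
complexes of nonpositive curvature that are simply connected.
-/

set_option autoImplicit false

open scoped InnerProductSpace ENNReal Topology
open Filter MulAction

noncomputable section

namespace Pool.Agent.P.MP_0f25e6_al.SQ

open HN

universe u

/-! ### Maps with bounded fibres, incidence sets, sections -/

section General

variable {X Y Z : Type*}

/-- The fibres of `j` have bounded size. -/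
def Bdd (j : Y → Z) : Prop := ∃ n : ℕ, ∀ z, ∃ s : Finset Y, s.card ≤ n ∧ ∀ y, j y = z → y ∈ s

theorem Bdd.tsum_le {j : Y → Z} (hj : Bdd j) :
    ∃ n : ℕ, ∀ g : Z → ℝ≥0∞, ∑' y, g (j y) ≤ n * ∑' z, g z := by
  obtain ⟨n, hn⟩ := hj
  refine ⟨n, fun g => ?_⟩
  rw [← ENNReal.tsum_fiberwise (fun y => g (j y)) j, ← ENNReal.tsum_mul_left]
  refine ENNReal.tsum_le_tsum fun z => ?_
  obtain ⟨s, hs, hs'⟩ := hn z
  calc ∑' y : j ⁻¹' {z}, g (j y) = ∑' y : j ⁻¹' {z}, (fun _ => g z) y.1 :=
        tsum_congr fun y => by rw [show j y = z from y.2]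
    _ ≤ ∑' y : (s : Set Y), (fun _ => g z) y.1 :=
        ENNReal.tsum_mono_subtype (fun _ => g z) fun y hy => hs' y hy
    _ = s.card * g z := by rw [Finset.tsum_subtype' s (fun _ => g z)]; simp
    _ ≤ n * g z := by gcongr

theorem Bdd.memlp {j : Y → Z} (hj : Bdd j) (ξ : L2 Z) : Memℓp (fun y => ξ (j y)) 2 := by
  obtain ⟨n, hn⟩ := hj.tsum_le
  rw [memℓp_two_iff]
  have h1 : ∑' y, ‖ξ (j y)‖ₑ ^ 2 ≠ ⊤ := by
    refine ne_top_of_le_ne_top ?_ (hn fun z => ‖ξ z‖ₑ ^ 2)
    rw [← enorm_sq_eq]
    finiteness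
  simpa using ENNReal.summable_toReal h1

/-- Pull-back along a map with bounded fibres, as a linear map. -/
def pullBL (j : Y → Z) (hj : Bdd j) : L2 Z →ₗ[ℂ] L2 Y where
  toFun ξ := ⟨fun y => ξ (j y), hj.memlp ξ⟩
  map_add' _ _ := rfl
  map_smul' _ _ := rfl

/-- Pull-back along a map with bounded fibres. -/
def pullB (j : Y → Z) (hj : Bdd j) : L2 Z →L[ℂ] L2 Y :=
  (pullBL j hj).mkContinuousOfExistsBound (by
    obtain ⟨n, hn⟩ := hj.tsum_le
    refine ⟨√n, fun ξ => ?_⟩
    have h1 : ‖pullBL j hj ξ‖ₑ ^ 2 ≤ n * ‖ξ‖ₑ ^ 2 := by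
      rw [enorm_sq_eq, enorm_sq_eq]
      exact hn fun z => ‖ξ z‖ₑ ^ 2
    have h2 := ENNReal.toReal_mono (by finiteness) h1
    simp only [ENNReal.toReal_pow, toReal_enorm, ENNReal.toReal_mul, ENNReal.toReal_natCast] at h2
    refine (pow_le_pow_iff_left₀ (norm_nonneg _) (by positivity) two_ne_zero).1 ?_
    rwa [mul_pow, Real.sq_sqrt (Nat.cast_nonneg n)])

@[simp] theorem pullB_apply (j : Y → Z) (hj : Bdd j) (ξ : L2 Z) (y : Y) :
    pullB j hj ξ y = ξ (j y) := rfl

/-- The pairs that satisfy a relation. -/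
@[ext] structure Inc (R : X → Y → Prop) where
  /-- first entry -/
  x : X
  /-- second entry -/
  y : Y
  r : R x y

/-- An invariant relation. -/
class InvRel (G : Type*) [Group G] [MulAction G X] [MulAction G Y] (R : X → Y → Prop) : Prop where
  smul : ∀ (g : G) x y, R x y → R (g • x) (g • y)

instance {G : Type*} [Group G] [MulAction G X] [MulAction G Y] (R : X → Y → Prop) [InvRel G R] :
    MulAction G (Inc R) where
  smul g p := ⟨g • p.x, g • p.y, InvRel.smul g _ _ p.r⟩
  one_smul p := Inc.ext (one_smul G p.x) (one_smul G p.y)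
  mul_smul a b p := Inc.ext (mul_smul a b p.x) (mul_smul a b p.y)

@[simp] theorem Inc.smul_x {G : Type*} [Group G] [MulAction G X] [MulAction G Y] {R : X → Y → Prop}
    [InvRel G R] (g : G) (p : Inc R) : (g • p).x = g • p.x := rfl

@[simp] theorem Inc.smul_y {G : Type*} [Group G] [MulAction G X] [MulAction G Y] {R : X → Y → Prop}
    [InvRel G R] (g : G) (p : Inc R) : (g • p).y = g • p.y := rfl

theorem inc_inj (R : X → Y → Prop) (x : X) :
    Function.Injective fun y : {y // R x y} => (⟨x, y.1, y.2⟩ : Inc R) :=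
  fun _ _ h => Subtype.ext (congrArg Inc.y h)

/-- Places the restriction of a function to the star of `x` in the block over `x`. -/
def blk (R : X → Y → Prop) (x : X) : L2 Y →L[ℂ] L2 (Inc R) :=
  push _ (inc_inj R x) ∘L pull (Subtype.val : {y // R x y} → Y) Subtype.val_injective

/-- The block over `x`, as a function supported in the star of `x`. -/
def slc (R : X → Y → Prop) (x : X) : L2 (Inc R) →L[ℂ] L2 Y :=
  push (Subtype.val : {y // R x y} → Y) Subtype.val_injective ∘L pull _ (inc_inj R x)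

/-- The Hilbert sum over `x` of the closed restrictions of `Φ` to the star of `x`. -/
def sec (R : X → Y → Prop) (Φ : Submodule ℂ (L2 Y)) : Submodule ℂ (L2 (Inc R)) :=
  ⨅ x, pre (slc R x) (cl (img (res {y | R x y}) Φ))

/-- The smallest closed subspace that contains `U` and is split along `κ`. -/
def hull (κ : Z → X) (U : Submodule ℂ (L2 Z)) : Submodule ℂ (L2 Z) :=
  glue κ fun x => cl (img (res (κ ⁻¹' {x})) U)

/-- The action permutes the fibres of `κ`. -/
def Cmp (H : Type*) [Group H] [MulAction H Z] (κ : Z → X) : Prop :=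
  ∀ (g : H) z z', κ z = κ z' → κ (g • z) = κ (g • z')

/-- Closed invariant subspaces that are split along `κ`. -/
structure Adm (H : Type*) [Group H] [MulAction H Z] (κ : Z → X) (U : Submodule ℂ (L2 Z)) :
    Prop where
  cls : Cls U
  inv : Inv H U
  split : Split κ U

/-- The ordinary trace of the projection. -/
def Tr (U : Submodule ℂ (L2 Z)) : ℝ≥0∞ := ∑' z, tau U z

/-- The defect of the pair `U ≤ U'` along the set `A`. -/
def ZE (U U' : Submodule ℂ (L2 Z)) (A : Set Z) : Submodule ℂ (L2 Z) :=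
  U ⊓ (U ⊓ pre (res A) U')ᗮ

end General

/-- A forest with a free action. The nodes `N` are grouped in blocks (the components), an edge
`f` goes from `o f` to `t f`, and `side f` meets the block of `f` in the half-tree of `t f`. -/
structure Forest (G N F B : Type*) [Group G] [MulAction G N] [MulAction G F] [MulAction G B] where
  /-- component -/
  blk : N → B
  /-- origin -/
  o : F → N
  /-- terminus -/
  t : F → N
  /-- positive side -/
  side : F → Set N
  blk_smul : ∀ (g : G) n, blk (g • n) = g • blk n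
  o_smul : ∀ (g : G) f, o (g • f) = g • o f
  t_smul : ∀ (g : G) f, t (g • f) = g • t f
  side_smul : ∀ (g : G) f n, g • n ∈ side (g • f) ↔ n ∈ side f
  blk_t : ∀ f, blk (t f) = blk (o f)
  t_mem : ∀ f, t f ∈ side f
  o_notMem : ∀ f, o f ∉ side f
  uniq : ∀ n z, blk z = blk n → z ≠ n →
    ∃! f, (o f = n ∧ z ∈ side f) ∨ (t f = n ∧ z ∉ side f)
  freeN : Free G N
  freeF : Free G F

/-! ### Median square complexes with cooriented walls -/

/-- Two walls cross. -/
def Crs {V W : Type*} (mem : V → W → Prop) (h k : W) : Prop :=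
  ∀ p q : Prop, ∃ v, (mem v h ↔ p) ∧ (mem v k ↔ q)

/-- A median graph of dimension at most two with invariantly cooriented walls and a free
action; `mem v h` says that the vertex `v` is on the positive side of the wall `h`. -/
structure Med (G V W : Type*) [Group G] [MulAction G V] [MulAction G W] where
  /-- positive side -/
  mem : V → W → Prop
  mem_smul : ∀ (g : G) v h, mem (g • v) (g • h) ↔ mem v h
  ext : ∀ v w, (∀ h, mem v h ↔ mem w h) → v = w
  fin : ∀ v w, {h | ¬ (mem v h ↔ mem w h)}.Finite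
  step : ∀ v w, v ≠ w → ∃ u k, ¬ (mem v k ↔ mem w k) ∧ ∀ h, (mem u h ↔ mem v h) ↔ h ≠ k
  med : ∀ u v w, ∃ m, ∀ h, mem m h ↔
    (mem u h ∧ mem v h) ∨ (mem v h ∧ mem w h) ∨ (mem u h ∧ mem w h)
  dim2 : ∀ h k l, Crs mem h k → Crs mem k l → Crs mem h l → False
  free : Free G V
  ne : Nonempty V

section Cells

variable {G V W : Type*} [Group G] [MulAction G V] [MulAction G W]

theorem Med.mem_smul_left (M : Med G V W) (g : G) (v : V) (h : W) :
    M.mem (g • v) h ↔ M.mem v (g⁻¹ • h) := by
  rw [← M.mem_smul g v, smul_inv_smul]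

/-- The walls that separate two vertices. -/
def Med.S (M : Med G V W) (v w : V) : Finset W := (M.fin v w).toFinset

theorem Med.mem_S (M : Med G V W) {v w : V} {h : W} :
    h ∈ M.S v w ↔ ¬ (M.mem v h ↔ M.mem w h) := Set.Finite.mem_toFinset _

/-- A cell: its lowest vertex and the set of walls that cut it. -/
@[ext] structure Cell (M : Med G V W) where
  /-- lowest vertex -/
  v : V
  /-- walls -/
  I : Finset W
  low : ∀ h ∈ I, ¬ M.mem v h
  ex : ∀ J : Set W, ∃ u, ∀ h, M.mem u h ↔ M.mem v h ∨ (h ∈ I ∧ h ∈ J)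

/-- An edge, oriented from the negative to the positive side of its wall. -/
@[ext] structure Edge (M : Med G V W) where
  /-- origin -/
  o : V
  /-- terminus -/
  t : V
  /-- wall -/
  h : W
  low : ¬ M.mem o h
  up : ∀ l, M.mem t l ↔ M.mem o l ∨ l = h

/-- A square with an ordering of its two walls. -/
@[ext] structure Flag (M : Med G V W) where
  /-- the square -/
  c : Cell M
  /-- the wall whose tree the flag is an edge of -/
  h : W
  /-- the cutting wall -/
  k : W
  ne : h ≠ k
  hI : ∀ l, l ∈ c.I ↔ l = h ∨ l = k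

variable {M : Med G V W}

theorem mem_map_smul (g : G) (I : Finset W) (h : W) :
    h ∈ I.map (MulAction.toPerm g).toEmbedding ↔ g⁻¹ • h ∈ I := Finset.mem_map_equiv

instance : MulAction G (Cell M) where
  smul g c :=
    { v := g • c.v
      I := c.I.map (MulAction.toPerm g).toEmbedding
      low := fun h hh => by
        rw [M.mem_smul_left]
        exact c.low _ ((mem_map_smul g _ h).1 hh)
      ex := fun J => by
        obtain ⟨u, hu⟩ := c.ex {h | g • h ∈ J}
        refine ⟨g • u, fun h => ?_⟩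
        rw [M.mem_smul_left, M.mem_smul_left, hu, mem_map_smul, Set.mem_ofPred_eq, smul_inv_smul] }
  one_smul c := Cell.ext (one_smul G c.v) (Finset.ext fun h =>
    (mem_map_smul (1 : G) c.I h).trans (by rw [inv_one, one_smul]))
  mul_smul a b c := Cell.ext (mul_smul a b c.v) (Finset.ext fun h =>
    (mem_map_smul (a * b) c.I h).trans (((mem_map_smul a _ h).trans
      ((mem_map_smul b c.I _).trans (by rw [mul_inv_rev, mul_smul]))).symm))

@[simp] theorem Cell.smul_v (g : G) (c : Cell M) : (g • c).v = g • c.v := rfl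

theorem Cell.mem_smul_I (g : G) (c : Cell M) (h : W) : h ∈ (g • c).I ↔ g⁻¹ • h ∈ c.I :=
  mem_map_smul g c.I h

theorem Cell.smul_mem_smul_I (g : G) (c : Cell M) (h : W) : g • h ∈ (g • c).I ↔ h ∈ c.I := by
  rw [Cell.mem_smul_I, inv_smul_smul]

instance : MulAction G (Edge M) where
  smul g e :=
    { o := g • e.o
      t := g • e.t
      h := g • e.h
      low := by rw [M.mem_smul]; exact e.low
      up := fun l => by rw [M.mem_smul_left, M.mem_smul_left, e.up, inv_smul_eq_iff] }
  one_smul e := Edge.ext (one_smul G e.o) (one_smul G e.t) (one_smul G e.h)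
  mul_smul a b e := Edge.ext (mul_smul a b e.o) (mul_smul a b e.t) (mul_smul a b e.h)

@[simp] theorem Edge.smul_o (g : G) (e : Edge M) : (g • e).o = g • e.o := rfl

@[simp] theorem Edge.smul_t (g : G) (e : Edge M) : (g • e).t = g • e.t := rfl

@[simp] theorem Edge.smul_h (g : G) (e : Edge M) : (g • e).h = g • e.h := rfl

instance : MulAction G (Flag M) where
  smul g x :=
    { c := g • x.c
      h := g • x.h
      k := g • x.k
      ne := fun h => x.ne (MulAction.injective g h)
      hI := fun l => by rw [Cell.mem_smul_I, x.hI, inv_smul_eq_iff, inv_smul_eq_iff] }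
  one_smul x := Flag.ext (one_smul G x.c) (one_smul G x.h) (one_smul G x.k)
  mul_smul a b x := Flag.ext (mul_smul a b x.c) (mul_smul a b x.h) (mul_smul a b x.k)

@[simp] theorem Flag.smul_c (g : G) (x : Flag M) : (g • x).c = g • x.c := rfl

@[simp] theorem Flag.smul_h (g : G) (x : Flag M) : (g • x).h = g • x.h := rfl

@[simp] theorem Flag.smul_k (g : G) (x : Flag M) : (g • x).k = g • x.k := rfl

/-- `u` is a vertex of the cell. -/
def Cell.Vx (c : Cell M) (u : V) : Prop := ∀ h, h ∉ c.I → (M.mem u h ↔ M.mem c.v h)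

/-- The vertex of the cell that is on the positive side of the walls in `J`. -/
def Cell.vtx (c : Cell M) (J : Set W) : V := (c.ex J).choose

theorem Cell.mem_vtx (c : Cell M) (J : Set W) (h : W) :
    M.mem (c.vtx J) h ↔ M.mem c.v h ∨ (h ∈ c.I ∧ h ∈ J) := (c.ex J).choose_spec h

/-- The edge is a face of the cell. -/
def Edge.In (e : Edge M) (c : Cell M) : Prop := e.h ∈ c.I ∧ c.Vx e.o

/-- The cell of an edge. -/
def Edge.cell (e : Edge M) : Cell M where
  v := e.o
  I := {e.h}
  low := fun h hh => by rw [Finset.mem_singleton.1 hh]; exact e.low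
  ex := fun J => by
    by_cases hJ : e.h ∈ J
    · refine ⟨e.t, fun h => ?_⟩
      rw [e.up, Finset.mem_singleton]
      exact or_congr_right ⟨fun h1 => ⟨h1, h1 ▸ hJ⟩, fun h1 => h1.1⟩
    · refine ⟨e.o, fun h => ⟨Or.inl, fun h1 => h1.elim id fun h2 => ?_⟩⟩
      exact absurd (Finset.mem_singleton.1 h2.1 ▸ h2.2) hJ

/-- The edge of a cell at its lowest vertex that is dual to the wall `h`. -/
def Cell.bot (c : Cell M) (h : W) (hh : h ∈ c.I) : Edge M where
  o := c.v
  t := c.vtx {h}
  h := h
  low := c.low h hh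
  up := fun l => by
    rw [c.mem_vtx, Set.mem_singleton_iff]
    exact or_congr_right ⟨fun h1 => h1.2, fun h1 => ⟨h1 ▸ hh, h1⟩⟩

theorem Flag.h_mem (x : Flag M) : x.h ∈ x.c.I := (x.hI _).2 (Or.inl rfl)

theorem Flag.k_mem (x : Flag M) : x.k ∈ x.c.I := (x.hI _).2 (Or.inr rfl)

/-- The face of the square dual to `h` on the negative side of `k`. -/
def Flag.dn (x : Flag M) : Edge M := x.c.bot x.h x.h_mem

/-- The face of the square dual to `h` on the positive side of `k`. -/
def Flag.up (x : Flag M) : Edge M where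
  o := x.c.vtx {x.k}
  t := x.c.vtx Set.univ
  h := x.h
  low := by
    rw [x.c.mem_vtx]
    exact fun h => h.elim (x.c.low _ x.h_mem) fun h1 => x.ne h1.2
  up := fun l => by
    rw [x.c.mem_vtx, x.c.mem_vtx, x.hI, Set.mem_singleton_iff]
    simp only [Set.mem_univ]
    tauto

/-- The same square with the two walls exchanged. -/
def Flag.swap (x : Flag M) : Flag M where
  c := x.c
  h := x.k
  k := x.h
  ne := x.ne.symm
  hI := fun l => (x.hI l).trans or_comm

end Cells

/-! ### The extension group -/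

section Extension

variable (G W : Type*) [Group G] [MulAction G W]

/-- The kernel of the extension. -/
abbrev Ker : Type _ := Multiplicative (W × ℕ →₀ ((m : ℕ) → ZMod (m + 1)))

/-- The action on the kernel. -/
def kerAct : G →* MulAut (Ker W) where
  toFun g := AddEquiv.toMultiplicative
    (Finsupp.domCongr (Equiv.prodCongr (MulAction.toPerm g) (Equiv.refl ℕ)))
  map_one' := by
    ext f : 1
    refine Multiplicative.toAdd.injective (Finsupp.ext fun ⟨e, i⟩ => ?_)
    change f.toAdd ((1 : G)⁻¹ • e, i) = f.toAdd (e, i)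
    simp
  map_mul' g h := by
    ext f : 1
    refine Multiplicative.toAdd.injective (Finsupp.ext fun ⟨e, i⟩ => ?_)
    change f.toAdd ((g * h)⁻¹ • e, i) = f.toAdd (h⁻¹ • g⁻¹ • e, i)
    rw [mul_inv_rev, mul_smul]

/-- The finite subgroups of the kernel. -/
def kerGen (m : ℕ) (e : W) : Multiplicative (ZMod (m + 1)) →* Ker W :=
  AddMonoidHom.toMultiplicative
    ((Finsupp.singleAddHom (e, 0)).comp (AddMonoidHom.single (fun m : ℕ => ZMod (m + 1)) m))

/-- The extension group. -/
abbrev Gam : Type _ := Ker W ⋊[kerAct G W] G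

/-- The induced set. -/
@[ext] structure Til (W Z : Type*) where
  /-- first coordinate -/
  n : Ker W
  /-- second coordinate -/
  z : Z

variable {G W} {Y Z : Type*}

instance [MulAction G Z] : MulAction (Gam G W) (Til W Z) where
  smul g p := ⟨g.left * kerAct G W g.right p.n, g.right • p.z⟩
  one_smul p := by
    change (⟨1 * kerAct G W 1 p.n, (1 : G) • p.z⟩ : Til W Z) = p
    simp
  mul_smul a b p := by
    change (⟨(a * b).left * kerAct G W (a * b).right p.n, (a * b).right • p.z⟩ : Til W Z) =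
      ⟨a.left * kerAct G W a.right (b.left * kerAct G W b.right p.n), a.right • b.right • p.z⟩
    simp [mul_assoc, mul_smul]

@[simp] theorem Til.smul_n [MulAction G Z] (g : Gam G W) (p : Til W Z) :
    (g • p).n = g.left * kerAct G W g.right p.n := rfl

@[simp] theorem Til.smul_z [MulAction G Z] (g : Gam G W) (p : Til W Z) :
    (g • p).z = g.right • p.z := rfl

/-- The induced map. -/
def Til.map (W : Type*) (j : Y → Z) (p : Til W Y) : Til W Z := ⟨p.n, j p.z⟩

theorem ins_inj (n : Ker W) : Function.Injective fun z : Z => (⟨n, z⟩ : Til W Z) :=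
  fun _ _ h => congrArg Til.z h

/-- The slice of a function over a point of the kernel. -/
def slice (n : Ker W) : L2 (Til W Z) →L[ℂ] L2 Z := pull _ (ins_inj n)

/-- Extension by zero from the slice over the identity. -/
def ext1 (W : Type*) {Z : Type*} : L2 Z →L[ℂ] L2 (Til W Z) := push _ (ins_inj (1 : Ker W))

/-- The induced subspace. -/
def indb (W : Type*) {Z : Type*} (E : Submodule ℂ (L2 Z)) : Submodule ℂ (L2 (Til W Z)) :=
  ⨅ n : Ker W, pre (slice n) E

theorem sh_inj (a : Ker W) : Function.Injective fun p : Til W Z => (⟨a * p.n, p.z⟩ : Til W Z) :=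
  fun _ _ h => Til.ext (mul_left_cancel (congrArg Til.n h)) (congrArg Til.z h :)

/-- Translation by an element of the kernel; this is `act (inl a⁻¹)`. -/
def sh (a : Ker W) : L2 (Til W Z) →L[ℂ] L2 (Til W Z) := pull _ (sh_inj a)

@[simp] theorem sh_apply (a : Ker W) (f : L2 (Til W Z)) (p : Til W Z) :
    sh a f p = f ⟨a * p.n, p.z⟩ := rfl

theorem sh_sh (a b : Ker W) (f : L2 (Til W Z)) : sh a (sh b f) = sh (a * b) f := by
  ext p
  simp only [sh_apply]
  rw [mul_left_comm, mul_assoc]

/-- Averaging over the subgroup of order `m + 1` at the wall `k`. -/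
def avg (m : ℕ) (k : W) : L2 (Til W Z) →L[ℂ] L2 (Til W Z) :=
  ((m : ℂ) + 1)⁻¹ • ∑ j : Multiplicative (ZMod (m + 1)), sh (kerGen W m k j)

theorem avg_def (m : ℕ) (k : W) (f : L2 (Til W Z)) :
    avg m k f = ((m : ℂ) + 1)⁻¹ • ∑ j : Multiplicative (ZMod (m + 1)), sh (kerGen W m k j) f := by
  simp [avg]

theorem comm_avg (m : ℕ) (k k' : W) (T : L2 (Til W Y) →L[ℂ] L2 (Til W Z))
    (h : ∀ j f, T (sh (kerGen W m k j) f) = sh (kerGen W m k' j) (T f)) (f : L2 (Til W Y)) :
    T (avg m k f) = avg m k' (T f) := by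
  simp only [avg_def, map_smul, map_sum, h]

theorem sh_avg (a : Ker W) (m : ℕ) (k : W) (f : L2 (Til W Z)) :
    sh a (avg m k f) = avg m k (sh a f) :=
  comm_avg m k k _ (fun j f => by rw [sh_sh, sh_sh, mul_comm]) f

theorem avg_comm (m : ℕ) (k k' : W) (f : L2 (Til W Z)) :
    avg m k (avg m k' f) = avg m k' (avg m k f) :=
  comm_avg m k' k' _ (fun _ f => (sh_avg _ m k f).symm) f

/-- The reflection at a wall. -/
def refl (m : ℕ) (k : W) : L2 (Til W Z) →L[ℂ] L2 (Til W Z) := 1 - (2 : ℂ) • avg m k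

theorem refl_def (m : ℕ) (k : W) (f : L2 (Til W Z)) :
    refl m k f = f - (2 : ℂ) • avg m k f := rfl

theorem refl_commute (m : ℕ) (k k' : W) :
    Commute (refl m k : L2 (Til W Z) →L[ℂ] L2 (Til W Z)) (refl m k') := by
  ext1 f
  change refl m k (refl m k' f) = refl m k' (refl m k f)
  simp only [refl_def, map_sub, map_smul]
  rw [avg_comm m k k']
  module

/-- The product of the reflections at a finite set of walls. -/
def Bp (m : ℕ) (S : Finset W) : L2 (Til W Z) →L[ℂ] L2 (Til W Z) :=
  S.noncommProd (refl m) fun a _ b _ _ => refl_commute m a b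

/-- `J` is the block diagonal operator with blocks `Bp m (S z)`. -/
def IsJ (m : ℕ) (S : Z → Finset W) (J : L2 (Til W Z) →L[ℂ] L2 (Til W Z)) : Prop :=
  ∀ f p, J f p = Bp m (S p.z) f p

/-- The functions whose average at `k` vanishes on the block of `k`, for every wall `k`. -/
def Qp (m : ℕ) (κ : Z → W) : Submodule ℂ (L2 (Til W Z)) :=
  ⨅ k, pre (avg m k) (supp {p | κ p.z ≠ k})

end Extension

/-! ### Systems -/

section Systems

variable {G V W : Type*} [Group G] [MulAction G V] [MulAction G W]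

/-- A system with variables on edges and relations at vertices. -/
structure Base (M : Med G V W) (Y : Type*) [MulAction G Y] where
  free : Free G Y
  cofin : Cofin G (Set.univ : Set Y)
  /-- location -/
  e : Y → Edge M
  e_smul : ∀ (g : G) y, e (g • y) = g • e y
  /-- the solution space -/
  Φ : Submodule ℂ (L2 Y)
  cls : Cls Φ
  inv : Inv G Φ
  loc : ∀ f : L2 Y, (∀ v, ∃ φ ∈ Φ, ∀ y, v = (e y).o ∨ v = (e y).t → f y = φ y) → f ∈ Φ

variable {M : Med G V W} {Y₀ Y : Type*} [MulAction G Y₀] [MulAction G Y]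

/-- The wall of a variable. -/
def Base.κ (B : Base M Y₀) (y : Y₀) : W := (B.e y).h

/-- The gap inequality with constant `t`. -/
def Base.Gap (B : Base M Y₀) (t : ℝ) : Prop :=
  ∀ U : Submodule ℂ (L2 (Til W Y₀)), Adm (Gam G W) (fun p => B.κ p.z) U →
    t * (dim G (hull B.κ B.Φ) - dim (Gam G W) U) ≤
      dim G B.Φ - dim (Gam G W) (indb W B.Φ ⊓ U : Submodule ℂ (L2 (Til W Y₀)))

/-- An extension of a base system by further variables. -/
structure Sys (B : Base M Y₀) (Y : Type*) [MulAction G Y] where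
  free : Free G Y
  cofin : Cofin G (Set.univ : Set Y)
  /-- location -/
  loc : Y → Cell M
  loc_smul : ∀ (g : G) y, loc (g • y) = g • loc y
  ne : ∀ y, (loc y).I.Nonempty
  /-- the old variables -/
  i : Y₀ → Y
  i_inj : Function.Injective i
  i_smul : ∀ (g : G) y, i (g • y) = g • i y
  loc_i : ∀ y, loc (i y) = (B.e y).cell
  /-- the solution space -/
  Φ : Submodule ℂ (L2 Y)
  cls : Cls Φ
  inv : Inv G Φ
  pull_mem : ∀ φ ∈ Φ, pull i i_inj φ ∈ B.Φ
  dim_eq : edim G Φ = edim G B.Φ
  split : ∀ h, ∀ φ ∈ Φ, (∀ y, h ∈ (loc y).I → φ y = 0) → res {y | M.mem (loc y).v h} φ ∈ Φ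
  wall : ∀ h, ∀ l ∈ cl (img (res {y | h ∈ (loc y).I}) Φ), pull i i_inj l = 0 → l = 0

namespace Sys

variable {B : Base M Y₀} (S : Sys B Y)

/-- Vertex of the cell of a variable. -/
def R0 (v : V) (y : Y) : Prop := (S.loc y).Vx v

/-- Edge of the cell of a variable. -/
def R1 (e : Edge M) (y : Y) : Prop := e.In (S.loc y)

/-- Flag on the cell of a variable. -/
def RF (x : Flag M) (y : Y) : Prop := S.loc y = x.c

/-- Wall that cuts the cell of a variable. -/
def RW (h : W) (y : Y) : Prop := h ∈ (S.loc y).I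

instance : InvRel G S.R0 := ⟨fun g v y hr h hh => by
  rw [S.loc_smul, Cell.mem_smul_I] at hh
  rw [S.loc_smul, Cell.smul_v, M.mem_smul_left, M.mem_smul_left]
  exact hr _ hh⟩

instance : InvRel G S.R1 := ⟨fun g e y hr => ⟨by
  rw [S.loc_smul]
  exact (Cell.smul_mem_smul_I g _ _).2 hr.1, InvRel.smul (R := S.R0) g e.o y hr.2⟩⟩

instance : InvRel G S.RF := ⟨fun g x y hr => by
  change S.loc (g • y) = g • x.c
  rw [S.loc_smul, show S.loc y = x.c from hr]⟩

instance : InvRel G S.RW := ⟨fun g h y hr => by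
  change g • h ∈ (S.loc (g • y)).I
  rw [S.loc_smul]
  exact (Cell.smul_mem_smul_I g _ _).2 hr⟩

/-- The solutions that vanish on the cells cut by `h`. -/
def a (h : W) : Submodule ℂ (L2 Y) := S.Φ ⊓ supp {y | ¬ S.RW h y}

/-- The closed restriction of the solution space to the cells cut by `h`. -/
def L (h : W) : Submodule ℂ (L2 Y) := cl (img (res {y | S.RW h y}) S.Φ)

/-- The maximality property. -/
def Max : Prop := ∀ x : Flag M, ∀ z ∈ S.Φ, z ∈ (S.a x.h)ᗮ → z ∈ (S.a x.k)ᗮ →
  ∃ u ∈ supp (S.loc ⁻¹' {x.c}), proj S.Φ u = z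

/-- The weight. -/
def wt : ℝ≥0∞ := edim G (sec S.RF S.Φ)

/-- The defect space at the wall `k`. -/
def Zk (k : W) : Submodule ℂ (L2 (Inc S.RW)) := sec S.RW S.Φ ⊓ (sec S.RW (S.a k))ᗮ

/-- The location of the variables after adding one orbit on the cell `c`. -/
def extLoc (c : Cell M) : Y ⊕ G → Cell M := Sum.elim S.loc fun g => g • c

end Sys

/-- The graph over `Φ` of the coefficients of the orbit of `z`. -/
def extΦ (G : Type*) {Y : Type*} [Group G] [MulAction G Y] (Φ : Submodule ℂ (L2 Y)) (z : L2 Y) :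
    Submodule ℂ (L2 (Y ⊕ G)) :=
  pre (pull Sum.inl Sum.inl_injective) Φ ⊓
    perp fun g : G => delta (Sum.inr g) - push Sum.inl Sum.inl_injective (act g z)

end Systems

/-- A family of half-spaces with medians and no three pairwise crossing members. -/
structure WS (G V : Type*) [Group G] [MulAction G V] where
  /-- the half-spaces -/
  H : Set (Set V)
  compl : ∀ A ∈ H, Aᶜ ∈ H
  smul : ∀ (g : G), ∀ A ∈ H, {v | g⁻¹ • v ∈ A} ∈ H
  fin : ∀ v w, {A ∈ H | v ∈ A ∧ w ∉ A}.Finite
  sep : ∀ v w, v ≠ w → ∃ A ∈ H, v ∈ A ∧ w ∉ A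
  med : ∀ u v w, ∃ m, ∀ A ∈ H, u ∈ A ∧ v ∈ A ∨ v ∈ A ∧ w ∈ A ∨ u ∈ A ∧ w ∈ A → m ∈ A
  dim2 : ∀ A ∈ H, ∀ B ∈ H, ∀ C ∈ H, Crs (fun v (D : Set V) => v ∈ D) A B →
    Crs (fun v (D : Set V) => v ∈ D) B C → Crs (fun v (D : Set V) => v ∈ D) A C → False
  free : Free G V
  ne : Nonempty V

end Pool.Agent.P.MP_0f25e6_al.SQ
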