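import Pool.Agent.P.MP_0f25e6_al.SQ.Til1

/-!
Induction to the extension group.
-/

set_option autoImplicit false

open scoped InnerProductSpace ENNReal Topology
open Filter MulAction

noncomputable section

namespace Pool.Agent.P.MP_0f25e6_al.SQ

open HN

universe u

variable {G W X Y Z : Type*} [Group G] [MulAction G W]

theorem kerAct_toAdd (g : G) (f : Ker W) :
    (kerAct G W g f).toAdd = Finsupp.mapDomain (fun p => (g • p.1, p.2)) f.toAdd :=
  Finsupp.equivMapDomain_eq_mapDomain _ _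

theorem kerAct_kerGen (g : G) (m : ℕ) (e : W) (k : Multiplicative (ZMod (m + 1))) :
    kerAct G W g (kerGen W m e k) = kerGen W m (g • e) k := by
  refine Multiplicative.toAdd.injective ?_
  rw [kerAct_toAdd, kerGen_toAdd, kerGen_toAdd, Finsupp.mapDomain_single]

variable [MulAction G Y] [MulAction G Z]

theorem free_til (hZ : Free G Z) : Free (Gam G W) (Til W Z) := by
  intro g p h
  have h1 : g.right = 1 := hZ _ _ (congrArg Til.z h)
  have h2 : g.left * kerAct G W g.right p.n = p.n := congrArg Til.n h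
  rw [h1, map_one, MulAut.one_apply, mul_eq_right] at h2
  exact SemidirectProduct.ext h2 h1

theorem cofin_til (hc : Cofin G (Set.univ : Set Z)) :
    Cofin (Gam G W) (Set.univ : Set (Til W Z)) := by
  obtain ⟨F, hF, h⟩ := hc
  refine ⟨(fun z => (⟨1, z⟩ : Til W Z)) '' F, hF.image _, fun p _ => ?_⟩
  obtain ⟨a, ha⟩ := h p.z (Set.mem_univ _)
  exact ⟨⟨(kerAct G W a p.n)⁻¹, a⟩, a • p.z, ha, Til.ext (inv_mul_cancel _).symm rfl⟩

theorem til_map_smul {j : Y → Z} (h : ∀ (g : G) y, j (g • y) = g • j y) (g : Gam G W)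
    (p : Til W Y) : Til.map W j (g • p) = g • Til.map W j p := by
  exact Til.ext rfl (h _ _)

theorem cmp_til {κ : Z → X} (h : Cmp G κ) : Cmp (Gam G W) (fun p : Til W Z => κ p.z) := by
  intro g p p' hp
  exact h g.right _ _ hp

theorem sh_eq_act (a : Ker W) (f : L2 (Til W Z)) :
    sh a f = act (SemidirectProduct.inl a⁻¹ : Gam G W) f := by
  ext p
  rw [act_apply, ← map_inv, inv_inv, sh_apply]
  refine congrArg f (Til.ext ?_ ?_) <;> simp

theorem sh_mem_of_inv {U : Submodule ℂ (L2 (Til W Z))} (h : Inv (Gam G W) U) (a : Ker W) :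
    ∀ f ∈ U, sh a f ∈ U := by
  intro f hf
  rw [sh_eq_act (G := G)]
  exact h _ f hf

theorem slice_act (n : Ker W) (g : Gam G W) (f : L2 (Til W Z)) :
    slice n (act g f) = act g.right (slice (g⁻¹.left * kerAct G W g⁻¹.right n) f) := by
  ext z
  rfl

theorem act_avg (g : Gam G W) (m : ℕ) (k : W) (f : L2 (Til W Z)) :
    act g (avg m k f) = avg m (g.right • k) (act g f) := by
  refine comm_avg m k (g.right • k) (act g) (fun j f => ?_) f
  ext p
  simp only [act_apply, sh_apply]
  refine congrArg f (Til.ext ?_ rfl)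
  simp only [Til.smul_n, map_mul, kerAct_kerGen, SemidirectProduct.inv_right, inv_smul_smul]
  rw [mul_left_comm]

theorem proj_avg {U : Submodule ℂ (L2 (Til W Z))} (h : Inv (Gam G W) U) (m : ℕ) (k : W)
    (f : L2 (Til W Z)) : proj U (avg m k f) = avg m k (proj U f) := by
  refine comm_avg m k k (proj U) (fun j f => ?_) f
  rw [sh_eq_act (G := G), sh_eq_act (G := G)]
  exact eqv_proj h _ f

theorem osum_til {f : Til W Z → ℝ≥0∞} (hf : ∀ (g : Gam G W) p, f (g • p) = f p) :
    osum (Gam G W) f = osum G (fun z => f ⟨1, z⟩) := by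
  have h1 : ∀ p : Til W Z, Quotient.mk (orbitRel (Gam G W) (Til W Z)) ⟨1, p.z⟩ =
      Quotient.mk (orbitRel (Gam G W) (Til W Z)) p := fun p => by
    rw [← mk_smul (SemidirectProduct.inl p.n : Gam G W)]
    congr 1
    refine Til.ext ?_ ?_ <;> simp
  let ε : orbitRel.Quotient G Z ≃ orbitRel.Quotient (Gam G W) (Til W Z) :=
    { toFun := Quotient.map (fun z => (⟨1, z⟩ : Til W Z)) (by
        rintro z w ⟨a, rfl⟩
        refine ⟨SemidirectProduct.inr a, Til.ext ?_ ?_⟩ <;> simp)
      invFun := Quotient.map Til.z (by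
        rintro p q ⟨a, rfl⟩
        exact ⟨a.right, rfl⟩)
      left_inv := fun q => Quotient.inductionOn q fun z => rfl
      right_inv := fun q => Quotient.inductionOn q fun p => h1 p }
  rw [osum, osum, ← ε.tsum_eq]
  refine tsum_congr (fun q => ?_)
  have : ε q = Quotient.mk (orbitRel (Gam G W) (Til W Z)) ⟨1, q.out⟩ := by
    conv_lhs => rw [← Quotient.out_eq q]
    rfl
  rw [this, inv_out hf]

theorem inv_indb {E : Submodule ℂ (L2 Z)} (h : Inv G E) : Inv (Gam G W) (indb W E) := by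
  intro g f hf
  rw [mem_indb] at hf ⊢
  intro n
  rw [slice_act]
  exact h _ _ (hf _)

theorem edim_indb {E : Submodule ℂ (L2 Z)} (hc : Cls E) (h : Inv G E) :
    edim (Gam G W) (indb W E) = edim G E := by
  rw [edim, edim, osum_til (tau_smul (inv_indb h))]
  congr 1
  funext z
  rw [tau, tau, ← ext1_delta, proj_indb_ext1 hc, ← ofReal_norm, ← ofReal_norm, norm_ext1]

theorem dim_indb {E : Submodule ℂ (L2 Z)} (hc : Cls E) (h : Inv G E) :
    dim (Gam G W) (indb W E) = dim G E := by
  rw [dim, dim, edim_indb hc h]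

theorem adm_indb {κ : Z → X} {E : Submodule ℂ (L2 Z)} (h : Adm G κ E) :
    Adm (Gam G W) (fun p : Til W Z => κ p.z) (indb W E) := by
  exact ⟨cls_indb h.cls, inv_indb h.inv, split_indb h.split⟩

theorem adm_down {κ : Z → X} {U : Submodule ℂ (L2 (Til W Z))}
    (h : Adm (Gam G W) (fun p : Til W Z => κ p.z) U) : Adm G κ (cl (img (slice 1) U)) := by
  refine ⟨cls_cl _, Inv.cl ?_, split_cl ?_⟩
  · rintro g _ ⟨f, hf, rfl⟩
    refine ⟨act (SemidirectProduct.inr g : Gam G W) f, h.inv _ f hf, ?_⟩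
    change slice 1 (act (SemidirectProduct.inr g : Gam G W) f) = act g (slice 1 f)
    rw [slice_act]
    simp
  · rintro x _ ⟨f, hf, rfl⟩
    exact ⟨_, h.split x f hf, slice_res 1 (κ ⁻¹' {x}) f⟩

theorem le_indb_down {U : Submodule ℂ (L2 (Til W Z))} (h : Inv (Gam G W) U) :
    U ≤ indb W (cl (img (slice 1) U)) := by
  intro f hf
  rw [mem_indb]
  intro n
  refine le_cl _ ⟨sh n f, sh_mem_of_inv h n f hf, ?_⟩
  change slice 1 (sh n f) = slice n f
  rw [slice_sh, mul_one]

theorem inv_Qp (m : ℕ) {κ : Z → W} (hκ : ∀ (g : G) z, κ (g • z) = g • κ z) :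
    Inv (Gam G W) (Qp m κ) := by
  intro g f hf
  rw [mem_Qp] at hf ⊢
  intro p
  have h1 : κ p.z = g.right • κ (g⁻¹ • p).z := by
    rw [Til.smul_z, hκ, SemidirectProduct.inv_right, smul_inv_smul]
  rw [h1, ← act_avg, act_apply]
  exact hf _

omit [MulAction G W] [MulAction G Y] [MulAction G Z] [Group G] in
theorem proj_Qp_orth (m : ℕ) (κ : Z → W) (p : Til W Z) :
    proj (Qp m κ)ᗮ (delta p) = avg m (κ p.z) (delta p) := by
  classical
  refine proj_eq (le_cl _ fun f hf => ?_) (Submodule.le_orthogonal_orthogonal _ ?_)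
  · rw [inner_avg, inner_delta_right, mem_Qp.1 hf p, map_zero]
  · rw [mem_Qp]
    intro q
    by_cases hq : κ q.z = κ p.z
    · rw [hq, map_sub, avg_avg, sub_self]
      rfl
    · have h1 : res (Til.z ⁻¹' {p.z}) (delta p) = delta p := by
        ext r
        rw [res_apply, delta_apply]
        split_ifs with h2 h3 h3
        · rfl
        · rfl
        · exact absurd (congrArg Til.z h3) h2
        · rfl
      have h2 : res (Til.z ⁻¹' {p.z}) (delta p - avg m (κ p.z) (delta p)) =
          delta p - avg m (κ p.z) (delta p) := by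
        rw [map_sub, res_avg, h1]
      rw [← h2, ← res_avg]
      exact res_apply_of_notMem _ fun h => hq (congrArg κ h)

theorem dim_Qp_orth (hc : Cofin G (Set.univ : Set Z)) (m : ℕ) {κ : Z → W}
    (hκ : ∀ (g : G) z, κ (g • z) = g • κ z) :
    dim (Gam G W) (Qp m κ)ᗮ ≤ dim G (⊤ : Submodule ℂ (L2 Z)) / ((m : ℝ) + 1) := by
  have hpos : (0 : ℝ) < (m : ℝ) + 1 := by positivity
  have h1 : ∀ z : Z, tau (Qp m κ)ᗮ ⟨1, z⟩ =
      ENNReal.ofReal ((m : ℝ) + 1)⁻¹ * tau (⊤ : Submodule ℂ (L2 Z)) z := fun z => by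
    have h2 := norm_avg_ext1 (W := W) m (κ z) (delta z)
    rw [norm_delta] at h2
    have h3 := congrArg (· ^ 2) h2
    simp only [mul_pow, Real.sq_sqrt hpos.le, one_pow] at h3
    rw [tau_top, mul_one, tau, proj_Qp_orth, ← ext1_delta, ← ofReal_norm,
      ← ENNReal.ofReal_pow (norm_nonneg _), eq_inv_of_mul_eq_one_right h3]
  have _ := hc
  rw [dim, dim, edim, edim, osum_til (tau_smul (inv_Qp m hκ).orth)]
  simp only [h1]
  rw [osum_mul, ENNReal.toReal_mul, ENNReal.toReal_ofReal (by positivity), div_eq_inv_mul]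

end Pool.Agent.P.MP_0f25e6_al.SQ
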