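import Pool.Agent.P.MP_0f25e6_al.SQ.Max
import Pool.Agent.P.MP_0f25e6_al.SQ.TilApi

/-!
The doubling argument: maximisers are squeezed between induced subspaces.
-/

set_option autoImplicit false

open scoped InnerProductSpace ENNReal Topology
open Filter MulAction

noncomputable section

namespace Pool.Agent.P.MP_0f25e6_al.SQ

open HN

universe u

namespace Dbl

/-- An embedding of an `H`-set in a `Γ`-set as one fibre of an equivariant map. -/
structure Emb (H Γ Y Z P : Type*) [Group H] [Group Γ] [MulAction H Y] [MulAction Γ Z]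
    [MulAction Γ P] where
  /-- the embedding of groups -/
  j : H →* Γ
  j_inj : Function.Injective j
  /-- the embedding of sets -/
  J : Y → Z
  J_inj : Function.Injective J
  J_smul : ∀ (h : H) y, J (h • y) = j h • J y
  /-- the fibration -/
  π : Z → P
  π_smul : ∀ (g : Γ) z, π (g • z) = g • π z
  /-- the base point -/
  p₀ : P
  stab : stabilizer Γ p₀ = j.range
  range_J : Set.range J = π ⁻¹' {p₀}
  trans : ∀ z, π z ∈ orbit Γ p₀

theorem split_inf {Z X : Type*} {κ : Z → X} {U W : Submodule ℂ (L2 Z)} (hU : Split κ U)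
    (hW : Split κ W) : Split κ (U ⊓ W) := fun x f hf => ⟨hU x f hf.1, hW x f hf.2⟩

namespace Emb

variable {H Γ Y Z P : Type*} [Group H] [Group Γ] [MulAction H Y] [MulAction Γ Z]
  [MulAction Γ P] (𝓔 : Emb H Γ Y Z P)

/-- The induced subspace. -/
def ind (V : Submodule ℂ (L2 Y)) : Submodule ℂ (L2 Z) :=
  ⨅ g : Γ, pre (pull 𝓔.J 𝓔.J_inj ∘L act g) V

/-- The part of a subspace that lives on the base fibre. -/
abbrev down (U : Submodule ℂ (L2 Z)) : Submodule ℂ (L2 Y) := pre (push 𝓔.J 𝓔.J_inj) U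

theorem mem_ind {V : Submodule ℂ (L2 Y)} {f : L2 Z} :
    f ∈ 𝓔.ind V ↔ ∀ g : Γ, pull 𝓔.J 𝓔.J_inj (act g f) ∈ V := Submodule.mem_iInf _

theorem cls_ind {V : Submodule ℂ (L2 Y)} (hV : Cls V) : Cls (𝓔.ind V) :=
  cls_iInf fun _ => hV.pre _

theorem inv_ind (V : Submodule ℂ (L2 Y)) : Inv Γ (𝓔.ind V) := fun g f hf =>
  𝓔.mem_ind.2 fun g' => by
    rw [← act_mul]
    exact 𝓔.mem_ind.1 hf _

theorem π_J (y : Y) : 𝓔.π (𝓔.J y) = 𝓔.p₀ := 𝓔.range_J.le ⟨y, rfl⟩

theorem split_ind (V : Submodule ℂ (L2 Y)) : Split 𝓔.π (𝓔.ind V) := fun x f hf =>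
  𝓔.mem_ind.2 fun g => by
    rw [act_res_fibre 𝓔.π_smul]
    by_cases h : 𝓔.p₀ = g • x
    · convert 𝓔.mem_ind.1 hf g using 1
      ext y
      exact res_apply_of_mem _ ((𝓔.π_J y).trans h)
    · convert V.zero_mem using 1
      ext y
      exact res_apply_of_notMem _ fun h' => h ((𝓔.π_J y).symm.trans h')

include 𝓔 in
theorem free (hZ : Free Γ Z) : Free H Y := fun h y hy =>
  𝓔.j_inj (by rw [hZ (𝓔.j h) (𝓔.J y) (by rw [← 𝓔.J_smul, hy]), map_one])

theorem pull_act (h : H) (f : L2 Z) :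
    pull 𝓔.J 𝓔.J_inj (act (𝓔.j h) f) = act h (pull 𝓔.J 𝓔.J_inj f) := by
  ext y
  simp [𝓔.J_smul]

theorem down_ind {V : Submodule ℂ (L2 Y)} (hV : Inv H V) : 𝓔.down (𝓔.ind V) = V := by
  ext f
  refine ⟨fun hf => ?_, fun hf => 𝓔.mem_ind.2 fun g => ?_⟩
  · have := 𝓔.mem_ind.1 hf 1
    rwa [act_one, ContinuousLinearMap.coe_coe, pull_push] at this
  · by_cases h : g ∈ 𝓔.j.range
    · obtain ⟨h, rfl⟩ := h
      rw [pull_act, ContinuousLinearMap.coe_coe, pull_push]
      exact hV h f hf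
    · convert V.zero_mem using 1
      ext y
      refine push_apply_not _ _ _ fun y' h' => h ?_
      have := congrArg 𝓔.π h'
      rw [π_smul, π_J, π_J, eq_inv_smul_iff] at this
      exact 𝓔.stab.le this

theorem img_down {U : Submodule ℂ (L2 Z)} :
    img (push 𝓔.J 𝓔.J_inj) (𝓔.down U) = U ⊓ supp (𝓔.π ⁻¹' {𝓔.p₀}) := by
  rw [← 𝓔.range_J]
  ext f
  constructor
  · rintro ⟨v, hv, rfl⟩
    exact ⟨hv, fun z hz => push_apply_not _ _ _ fun y h => hz ⟨y, h⟩⟩
  · rintro ⟨h1, h2⟩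
    have : push 𝓔.J 𝓔.J_inj (pull 𝓔.J 𝓔.J_inj f) = f := by rw [push_pull, res_eq_self h2]
    exact ⟨pull 𝓔.J 𝓔.J_inj f, (congrArg (· ∈ U) this).mpr h1, this⟩

theorem supp_orbit : supp (𝓔.π ⁻¹' orbit Γ 𝓔.p₀) = ⊤ :=
  eq_top_iff.2 fun _ _ z hz => (hz (𝓔.trans z)).elim

theorem act_push (h : H) (f : L2 Y) :
    act (𝓔.j h) (push 𝓔.J 𝓔.J_inj f) = push 𝓔.J 𝓔.J_inj (act h f) := by
  let _ : MulAction H Z := MulAction.compHom Z 𝓔.j
  rw [act_hom 𝓔.j fun _ _ => rfl]
  exact (eqv_push 𝓔.J_inj 𝓔.J_smul h f).symm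

theorem inv_down {U : Submodule ℂ (L2 Z)} (hU : Inv Γ U) : Inv H (𝓔.down U) := fun h f hf => by
  change push 𝓔.J 𝓔.J_inj (act h f) ∈ U
  rw [← act_push]
  exact hU _ _ hf

theorem edim_down (hZ : Free Γ Z) {U : Submodule ℂ (L2 Z)} (hc : Cls U) (hi : Inv Γ U)
    (hs : Split 𝓔.π U) : edim Γ U = edim H (𝓔.down U) := by
  let _ : MulAction H Z := MulAction.compHom Z 𝓔.j
  have hι : ∀ (c : H) (z : Z), 𝓔.j c • z = c • z := fun _ _ => rfl
  have h1 := edim_induce 𝓔.j hZ 𝓔.j_inj hι 𝓔.π_smul 𝓔.stab hc hi hs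
  rw [supp_orbit, inf_top_eq, ← img_down] at h1
  have h2 : 𝓔.down U ⊓ pre (push 𝓔.J 𝓔.J_inj) ⊥ = ⊥ := eq_bot_iff.2 fun f hf => by
    have h3 : push 𝓔.J 𝓔.J_inj f = 0 := hf.2
    rw [← pull_push 𝓔.J 𝓔.J_inj f, h3, map_zero]
    rfl
  rw [h1, rank_nullity (𝓔.free hZ) (hZ.of_hom 𝓔.j 𝓔.j_inj hι) (eqv_push 𝓔.J_inj 𝓔.J_smul)
    (hc.pre _) (𝓔.inv_down hi), h2, edim_bot, zero_add]

theorem psi_down (hZ : Free Γ Z) {E U : Submodule ℂ (L2 Z)} (hc : Cls E) (hi : Inv Γ E)
    (hs : Split 𝓔.π E) (hc' : Cls U) (hi' : Inv Γ U) (hs' : Split 𝓔.π U) (t : ℝ) :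
    psi Γ E t U = psi H (𝓔.down E) t (𝓔.down U) := by
  simp only [psi, dim]
  rw [𝓔.edim_down hZ hc' hi' hs', 𝓔.edim_down hZ (hc.inf hc') (hi.inf hi') (split_inf hs hs')]
  rfl

end Emb

section Self

open SemidirectProduct

variable (W : Type*)

/-- The two reindexings. -/
def reidx (r : Bool) (p : W × ℕ) : W × ℕ := (p.1, 2 * p.2 + r.toNat)

theorem reidx_injective (r : Bool) : Function.Injective (reidx W r) := by
  rintro ⟨a, i⟩ ⟨b, j⟩ h
  simp only [reidx, Prod.mk.injEq] at h ⊢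
  exact ⟨h.1, by omega⟩

/-- The two self-embeddings of the kernel. -/
def kerEmb (r : Bool) : Ker W →* Ker W :=
  AddMonoidHom.toMultiplicative (Finsupp.mapDomain.addMonoidHom (reidx W r))

theorem kerEmb_toAdd (r : Bool) (f : Ker W) :
    (kerEmb W r f).toAdd = Finsupp.mapDomain (reidx W r) f.toAdd := rfl

theorem kerEmb_injective (r : Bool) : Function.Injective (kerEmb W r) := fun _ _ h =>
  Multiplicative.toAdd.injective
    (Finsupp.mapDomain_injective (reidx_injective W r) (congrArg Multiplicative.toAdd h))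

theorem kerEmb_meet {a b : Ker W} (h : kerEmb W false a = kerEmb W true b) : b = 1 := by
  have h1 : Finsupp.mapDomain (reidx W false) a.toAdd =
      Finsupp.mapDomain (reidx W true) b.toAdd := congrArg Multiplicative.toAdd h
  refine Multiplicative.toAdd.injective (Finsupp.ext fun p => ?_)
  rw [← Finsupp.mapDomain_apply (reidx_injective W true), ← h1, Finsupp.mapDomain_of_notMem_range]
  · rfl
  · rintro ⟨q, hq⟩
    have := congrArg Prod.snd hq
    simp only [reidx, Bool.toNat_true, Bool.toNat_false] at this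
    omega

variable {W} {G X Z : Type*} [Group G] [MulAction G W]

theorem kerEmb_kerAct (r : Bool) (g : G) (f : Ker W) :
    kerEmb W r (kerAct G W g f) = kerAct G W g (kerEmb W r f) := by
  refine Multiplicative.toAdd.injective ?_
  rw [kerEmb_toAdd, kerAct_toAdd, kerAct_toAdd, kerEmb_toAdd, ← Finsupp.mapDomain_comp,
    ← Finsupp.mapDomain_comp]
  rfl

variable (G W) in
/-- The self-embedding of the extension group. -/
def selfHom (r : Bool) : Gam G W →* Gam G W :=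
  SemidirectProduct.map (kerEmb W r) (MonoidHom.id G) fun a => MonoidHom.ext (kerEmb_kerAct r a)

theorem mem_selfHom {r : Bool} {g : Gam G W} :
    g ∈ (selfHom W G r).range ↔ g.left ∈ (kerEmb W r).range :=
  ⟨by rintro ⟨g, rfl⟩; exact ⟨g.left, rfl⟩, fun ⟨m, hm⟩ => ⟨⟨m, g.right⟩, by
    refine SemidirectProduct.ext hm rfl⟩⟩

variable [MulAction G Z]

variable (G W Z) in
/-- The self-embedding of the induced set. -/
def selfEmb (r : Bool) :
    Emb (Gam G W) (Gam G W) (Til W Z) (Til W Z) (Gam G W ⧸ (selfHom W G r).range) where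
  j := selfHom W G r
  j_inj a b h := SemidirectProduct.ext (kerEmb_injective W r (congrArg SemidirectProduct.left h))
    (congrArg SemidirectProduct.right h :)
  J p := ⟨kerEmb W r p.n, p.z⟩
  J_inj a b h := Til.ext (kerEmb_injective W r (congrArg Til.n h)) (congrArg Til.z h :)
  J_smul g p := Til.ext (by
    change kerEmb W r (g.left * kerAct G W g.right p.n) =
      kerEmb W r g.left * kerAct G W g.right (kerEmb W r p.n)
    rw [map_mul, kerEmb_kerAct]) rfl
  π p := (inl p.n : Gam G W)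
  π_smul g p := by
    rw [Quotient.smul_coe, QuotientGroup.eq, mem_selfHom]
    exact ⟨1, by simp⟩
  p₀ := (1 : Gam G W)
  stab := stabilizer_quotient _
  range_J := by
    ext p
    rw [Set.mem_preimage, Set.mem_singleton_iff, eq_comm, QuotientGroup.eq, mem_selfHom]
    constructor
    · rintro ⟨q, rfl⟩
      exact ⟨q.n, by simp⟩
    · rintro ⟨m, hm⟩
      exact ⟨⟨m, p.z⟩, Til.ext (by simpa using hm) rfl⟩
  trans p := ⟨inl p.n, by simp⟩

theorem split_π (r : Bool) (E : Submodule ℂ (L2 Z)) : Split (selfEmb W G Z r).π (indb W E) := by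
  intro x f hf
  refine mem_indb.2 fun n => ?_
  by_cases h : ((inl n : Gam G W) : Gam G W ⧸ (selfHom W G r).range) = x
  · convert mem_indb.1 hf n using 1
    ext z
    exact res_apply_of_mem _ h
  · convert E.zero_mem using 1
    ext z
    exact res_apply_of_notMem _ h

theorem down_indb (r : Bool) (E : Submodule ℂ (L2 Z)) :
    (selfEmb W G Z r).down (indb W E) = indb W E := by
  ext f
  have key : ∀ n, slice (kerEmb W r n) (push _ (selfEmb W G Z r).J_inj f) = slice n f := by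
    intro n
    ext z
    exact push_apply_self _ (selfEmb W G Z r).J_inj f ⟨n, z⟩
  rw [Submodule.mem_comap, mem_indb, mem_indb]
  refine ⟨fun h n => key n ▸ h _, fun h n => ?_⟩
  by_cases hn : ∃ n', kerEmb W r n' = n
  · obtain ⟨n', rfl⟩ := hn
    exact (key n').symm ▸ h _
  · convert E.zero_mem using 1
    ext z
    exact push_apply_not _ _ _ fun y h' => hn ⟨y.n, congrArg Til.n h'⟩

theorem adm_ind (r : Bool) {κ : Z → X} (hκ : Cmp G κ) {U : Submodule ℂ (L2 (Til W Z))}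
    (hU : Adm (Gam G W) (fun p => κ p.z) U) :
    Adm (Gam G W) (fun p : Til W Z => κ p.z) ((selfEmb W G Z r).ind U) := by
  refine ⟨Emb.cls_ind _ hU.cls, Emb.inv_ind _ _, fun x f hf => (Emb.mem_ind _).2 fun g => ?_⟩
  convert hU.split.res_preimage hU.cls {y | ∃ z, κ z = y ∧ κ (g⁻¹.right • z) = x}
    ((Emb.mem_ind _).1 hf g) using 1
  ext p
  by_cases h : κ (g⁻¹.right • p.z) = x
  · have h' : p ∈ (fun p : Til W Z => κ p.z) ⁻¹' {y | ∃ z, κ z = y ∧ κ (g⁻¹.right • z) = x} :=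
      ⟨p.z, rfl, h⟩
    rw [res_apply_of_mem _ h']
    exact res_apply_of_mem _ h
  · have h' : p ∉ (fun p : Til W Z => κ p.z) ⁻¹' {y | ∃ z, κ z = y ∧ κ (g⁻¹.right • z) = x} :=
      fun ⟨z, h1, h2⟩ => h ((hκ _ _ _ h1).symm.trans h2)
    rw [res_apply_of_notMem _ h']
    exact res_apply_of_notMem _ h

theorem pull_push_self (f : L2 (Til W Z)) :
    pull _ (selfEmb W G Z true).J_inj (push _ (selfEmb W G Z false).J_inj f) =
      ext1 W (slice 1 f) := by
  ext ⟨n, z⟩
  by_cases h : n = 1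
  · subst h
    rw [ext1_apply_one, slice_apply, pull_apply,
      ← push_apply_self _ (selfEmb W G Z false).J_inj f ⟨1, z⟩]
    exact congrArg _ (Til.ext ((map_one _).trans (map_one _).symm) rfl)
  · rw [ext1_apply_ne _ h]
    exact push_apply_not _ _ _ fun y h' => h (kerEmb_meet W (congrArg Til.n h'))

end Self

end Dbl

variable {G W X Z : Type*} [Group G] [MulAction G W] [MulAction G Z]

theorem indb_down_le (hZ : Free G Z) (hc : Cofin G (Set.univ : Set Z)) {κ : Z → X} (hκ : Cmp G κ)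
    {E : Submodule ℂ (L2 Z)} (hE : Cls E) (hEi : Inv G E) {s t : ℝ} (hst : s < t)
    {U V : Submodule ℂ (L2 (Til W Z))} (hU : Adm (Gam G W) (fun p => κ p.z) U)
    (hV : Adm (Gam G W) (fun p => κ p.z) V)
    (hUm : ∀ U', Adm (Gam G W) (fun p : Til W Z => κ p.z) U' →
      psi (Gam G W) (indb W E) t U' ≤ psi (Gam G W) (indb W E) t U)
    (hVm : ∀ U', Adm (Gam G W) (fun p : Til W Z => κ p.z) U' →
      psi (Gam G W) (indb W E) s U' ≤ psi (Gam G W) (indb W E) s V) :
    indb W (cl (img (slice 1) U)) ≤ V := by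
  have hZ' : Free (Gam G W) (Til W Z) := free_til hZ
  have hc' : Cofin (Gam G W) (Set.univ : Set (Til W Z)) := cofin_til hc
  have hEc : Cls (indb W E) := cls_indb hE
  have hEi' : Inv (Gam G W) (indb W E) := inv_indb hEi
  have hpsi : ∀ (r : Bool) (u : ℝ) (T : Submodule ℂ (L2 (Til W Z))),
      Adm (Gam G W) (fun p => κ p.z) T →
      psi (Gam G W) (indb W E) u ((Dbl.selfEmb W G Z r).ind T) = psi (Gam G W) (indb W E) u T := by
    intro r u T hT
    rw [(Dbl.selfEmb W G Z r).psi_down hZ' hEc hEi' (Dbl.split_π r E) (Dbl.Emb.cls_ind _ hT.cls)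
      (Dbl.Emb.inv_ind _ _) (Dbl.Emb.split_ind _ _), Dbl.down_indb, Dbl.Emb.down_ind _ hT.inv]
  have hU' := Dbl.adm_ind false hκ hU
  have hV' := Dbl.adm_ind true hκ hV
  have h1 := near_max (η := 0) hZ' hc' hEc hEi' hU' hV'
    (fun T hT => by rw [hpsi _ _ _ hU]; exact hUm T hT)
    (fun T hT => by rw [hpsi _ _ _ hV, add_zero]; exact hVm T hT)
  have h2 := (eq_of_dim_le (hU'.cls.inf hV'.cls) hU'.cls (hU'.inv.inf hV'.inv) hU'.inv inf_le_left
    (edim_ne_top hc' _) (by nlinarith [sub_pos.2 hst])).ge.trans inf_le_right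
  refine indb_le hV.cls (sh_mem_of_inv hV.inv) fun θ hθ => ?_
  refine cl_le (W' := pre (ext1 W) V) ?_ (hV.cls.pre _) hθ
  rintro _ ⟨f, hf, rfl⟩
  have h3 : push _ (Dbl.selfEmb W G Z false).J_inj f ∈ (Dbl.selfEmb W G Z false).ind U :=
    (Dbl.Emb.down_ind _ hU.inv).ge hf
  have h4 := (Dbl.Emb.mem_ind _).1 (h2 h3) 1
  rw [act_one, Dbl.pull_push_self] at h4
  exact h4

end Pool.Agent.P.MP_0f25e6_al.SQ
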