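import Pool.Agent.P.MP_0f25e6_al.SQ.Wall2

/-!
The kernel of the first coboundary.
-/

set_option autoImplicit false

open scoped InnerProductSpace ENNReal Topology
open Filter MulAction

noncomputable section

namespace Pool.Agent.P.MP_0f25e6_al.SQ

open HN

universe u

variable {G V W Y₀ Y : Type*} [Group G] [MulAction G V] [MulAction G W] [MulAction G Y₀]
  [MulAction G Y] {M : Med G V W} {B : Base M Y₀}

/-- The lowest vertex of the cell of a variable. -/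
def Sys.e1Base (S : Sys B Y) (y : Y) : Inc S.R0 := ⟨(S.loc y).v, y, (S.loc y).vx_v⟩

theorem Sys.e1Base_inj (S : Sys B Y) : Function.Injective S.e1Base :=
  fun _ _ h => congrArg Inc.y h

theorem Sys.e1Base_smul (S : Sys B Y) (g : G) (y : Y) : S.e1Base (g • y) = g • S.e1Base y :=
  Inc.ext (congrArg Cell.v (S.loc_smul g y)) rfl

theorem Sys.e1_const (S : Sys B Y) {F : L2 (Inc S.R0)} (hF : S.d0 F = 0) (v : V) (y : Y)
    (hr : S.R0 v y) : F ⟨v, y, hr⟩ = F (S.e1Base y) := by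
  refine (S.loc y).vx_ind {u | ∀ hu : S.R0 u y, F ⟨u, y, hu⟩ = F (S.e1Base y)} (fun _ => rfl)
    (fun e he ho ht => ?_) v hr hr
  have h1 := S.d0_apply F ⟨e, y, he⟩
  rw [hF] at h1
  have h2 : F ⟨e.t, y, ht⟩ - F ⟨e.o, y, he.2⟩ = 0 := h1.symm
  rw [sub_eq_zero.1 h2]
  exact ho he.2

theorem Sys.e1_zero (S : Sys B Y) (hM : S.Max) {F : L2 (Inc S.R0)} (hF : F ∈ sec S.R0 S.Φ)
    (hd : S.d0 F = 0) (h0 : ∀ y, F (S.e1Base (S.i y)) = 0) : F = 0 := by
  let f : L2 Y := pull S.e1Base S.e1Base_inj F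
  have h1 : S.ev1 f ∈ sec S.R1 S.Φ := by
    refine mem_sec_of fun e => ?_
    obtain ⟨φ, hφ, h⟩ := exists_of_mem_sec hF (S.star0 e.o)
    exact ⟨φ, hφ, fun y hr => (S.e1_const hd e.o y hr.2).symm.trans (h y hr.2)⟩
  have h2 : ∀ y, f y = 0 := by
    intro y
    obtain ⟨h, hh⟩ := S.ne y
    obtain ⟨l, hl, hl'⟩ := S.wall_thm hM h1 (fun p q hy _ => congrArg f hy) h
    have h3 : ∀ z, h ∈ (S.loc z).I → f z = l z := fun z hz =>
      hl' ⟨(S.loc z).bot h hz, z, (S.loc z).bot_in h hz⟩ rfl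
    have h4 : l = 0 := by
      refine S.wall h l hl ?_
      ext z
      change l (S.i z) = 0
      by_cases hz : h ∈ (S.loc (S.i z)).I
      · rw [← h3 _ hz]
        exact h0 z
      · exact S.L_le_supp h hl _ hz
    rw [h3 y hh, h4]
    rfl
  ext p
  exact (S.e1_const hd p.x p.y p.r).trans (h2 p.y)

theorem Sys.edim_ker_d0 (S : Sys B Y) (hM : S.Max) :
    edim G (sec S.R0 S.Φ ⊓ pre S.d0 ⊥ : Submodule ℂ (L2 (Inc S.R0))) = edim G B.Φ := by
  refine le_antisymm ?_ ?_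
  · refine edim_le_of_inj (free_inc _ S.free) B.free
      (T := pull (S.e1Base ∘ S.i) (S.e1Base_inj.comp S.i_inj))
      (eqv_pull _ fun g y => ?_) ((cls_sec _ _).inf (cls_bot.pre _))
      ((inv_sec _ S.inv).inf (inv_bot.pre S.eqv_d0)) (fun F hF h0 => ?_) (fun F hF => ?_)
    · simp only [Function.comp_apply]
      rw [S.i_smul, S.e1Base_smul]
    · exact S.e1_zero hM hF.1 hF.2 fun y => congrArg (fun f : L2 Y₀ => f y) h0
    · refine le_cl _ (B.loc _ fun v => ?_)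
      obtain ⟨φ, hφ, h⟩ := exists_of_mem_sec hF.1 (S.star0 v)
      refine ⟨_, S.pull_mem φ hφ, fun y hy => ?_⟩
      have hr : S.R0 v (S.i y) := by
        change (S.loc (S.i y)).Vx v
        rw [S.loc_i, Edge.vx_cell]
        exact hy
      exact (S.e1_const hF.2 v _ hr).symm.trans (h _ hr)
  · rw [← S.dim_eq]
    refine edim_le_of_inj S.free (free_inc _ S.free) S.eqv_ev0 S.cls S.inv (fun f _ h0 => ?_)
      (fun f hf => le_cl _ ⟨pullB_mem_sec _ S.bdd0 hf, ?_⟩)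
    · ext y
      exact congrArg (fun F : L2 (Inc S.R0) => F (S.e1Base y)) h0
    · change S.d0 (S.ev0 f) = 0
      ext p
      rw [S.d0_apply]
      exact sub_self _

theorem Sys.ker_db_le (S : Sys B Y) (hM : S.Max) :
    sec S.R1 S.Φ ⊓ pre S.db ⊥ ≤ cl (img S.d0 (sec S.R0 S.Φ)) := by
  intro F hF
  refine mem_of_res (κ := fun p : Inc S.R1 => p.x.h) (cls_cl _) fun h => ?_
  obtain ⟨l, hl, hl'⟩ := S.wall_thm hM hF.1 (fun p q hy hh => S.eq_of_db hF.2 hy hh) h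
  let T : L2 Y →L[ℂ] L2 (Inc S.R1) := res ((fun p : Inc S.R1 => p.x.h) ⁻¹' {h}) ∘L S.ev1
  have hT1 : ∀ (f : L2 Y) (p : Inc S.R1), p.x.h = h → T f p = f p.y := fun f p hp =>
    res_apply_of_mem (A := (fun p : Inc S.R1 => p.x.h) ⁻¹' {h}) (S.ev1 f) hp
  have hT2 : ∀ (f : L2 Y) (p : Inc S.R1), p.x.h ≠ h → T f p = 0 := fun f p hp =>
    res_apply_of_notMem (A := (fun p : Inc S.R1 => p.x.h) ⁻¹' {h}) (S.ev1 f) hp
  have e1 : res ((fun p : Inc S.R1 => p.x.h) ⁻¹' {h}) F = T l := by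
    ext p
    by_cases hp : p.x.h = h
    · rw [hT1 l p hp, ← hl' p hp]
      exact res_apply_of_mem _ hp
    · rw [hT2 l p hp]
      exact res_apply_of_notMem _ hp
  rw [e1]
  refine cl_mono ?_ (img_cl_le T _ ⟨l, hl, rfl⟩)
  rintro _ ⟨_, ⟨φ, hφ, rfl⟩, rfl⟩
  refine ⟨res {p : Inc S.R0 | M.mem p.x h} (S.ev0 φ), mem_sec_of fun v => ?_, ?_⟩
  · by_cases hv : M.mem v h
    · exact ⟨φ, hφ, fun y hr => res_apply_of_mem (A := {p : Inc S.R0 | M.mem p.x h}) _ hv⟩
    · exact ⟨0, S.Φ.zero_mem, fun y hr =>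
        res_apply_of_notMem (A := {p : Inc S.R0 | M.mem p.x h}) _ hv⟩
  · change S.d0 _ = T (res {y | S.RW h y} φ)
    ext p
    rw [S.d0_apply]
    by_cases hp : p.x.h = h
    · have h1 : S.top p ∈ {p : Inc S.R0 | M.mem p.x h} := hp ▸ p.x.mem_t
      have h2 : S.bot p ∉ {p : Inc S.R0 | M.mem p.x h} := hp ▸ p.x.low
      have h3 : p.y ∈ {y | S.RW h y} := hp ▸ p.r.1
      rw [hT1 _ p hp, res_apply_of_mem _ h1, res_apply_of_notMem _ h2, res_apply_of_mem _ h3,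
        sub_zero]
      rfl
    · rw [hT2 _ p hp]
      have h1 : M.mem p.x.t h ↔ M.mem p.x.o h := p.x.mem_t_iff (Ne.symm hp)
      by_cases h2 : M.mem p.x.o h
      · rw [res_apply_of_mem (A := {p : Inc S.R0 | M.mem p.x h}) _ (g := S.top p) (h1.2 h2),
          res_apply_of_mem (A := {p : Inc S.R0 | M.mem p.x h}) _ (g := S.bot p) h2]
        exact sub_self _
      · rw [res_apply_of_notMem (A := {p : Inc S.R0 | M.mem p.x h}) _ (g := S.top p)
            (fun h3 => h2 (h1.1 h3)),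
          res_apply_of_notMem (A := {p : Inc S.R0 | M.mem p.x h}) _ (g := S.bot p) h2]
        exact sub_self _

end Pool.Agent.P.MP_0f25e6_al.SQ
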