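import Pool.Agent.P.MP_0f25e6_al.SQ.Cx

/-!
Density of the images of the coboundaries.
-/

set_option autoImplicit false

open scoped InnerProductSpace ENNReal Topology
open Filter MulAction

noncomputable section

namespace Pool.Agent.P.MP_0f25e6_al.SQ

open HN

universe u

variable {G V W Y₀ Y : Type*} [Group G] [MulAction G V] [MulAction G W] [MulAction G Y₀]
  [MulAction G Y] {M : Med G V W} {B : Base M Y₀}

/-- The restriction of an evaluation to a union of blocks is a section. -/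
theorem euler2_res_mem {X Z : Type*} (R : X → Z → Prop) (hb : Bdd (Inc.y : Inc R → Z))
    {Φ : Submodule ℂ (L2 Z)} {φ : L2 Z} (hφ : φ ∈ Φ) (P : X → Prop) :
    res {p : Inc R | P p.x} (pullB Inc.y hb φ) ∈ sec R Φ := by
  refine mem_sec_of fun x => ?_
  by_cases hx : P x
  · exact ⟨φ, hφ, fun y hr => res_apply_of_mem _ hx⟩
  · exact ⟨0, Φ.zero_mem, fun y hr => res_apply_of_notMem _ hx⟩

theorem euler2_db (S : Sys B Y) (x : Flag M) (φ : L2 Y) :
    S.db (res {p : Inc S.R1 | p.x.h = x.h ∧ M.mem p.x.o x.k} (S.ev1 φ)) = blk S.RF x φ := by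
  ext p
  rw [S.db_apply]
  by_cases hp : p.x = x
  · have h1 : S.upF p ∈ {p : Inc S.R1 | p.x.h = x.h ∧ M.mem p.x.o x.k} := by
      refine ⟨by rw [← hp]; rfl, ?_⟩
      exact (p.x.mem_up_o _).2 (Or.inr (by rw [hp]))
    have h2 : S.dnF p ∉ {p : Inc S.R1 | p.x.h = x.h ∧ M.mem p.x.o x.k} := by
      rintro ⟨_, h⟩
      exact p.x.c.low x.k (by rw [← hp]; exact p.x.k_mem) h
    rw [res_apply_of_mem _ h1, res_apply_of_notMem _ h2, sub_zero, ← hp, blk_apply_self]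
    rfl
  · rw [blk_apply_ne _ _ hp]
    have h1 : S.upF p ∈ {p : Inc S.R1 | p.x.h = x.h ∧ M.mem p.x.o x.k} ↔
        S.dnF p ∈ {p : Inc S.R1 | p.x.h = x.h ∧ M.mem p.x.o x.k} := by
      change (p.x.h = x.h ∧ M.mem p.x.up.o x.k) ↔ (p.x.h = x.h ∧ M.mem p.x.c.v x.k)
      refine and_congr_right fun hh => ?_
      rw [Flag.mem_up_o]
      exact or_iff_left fun hk => hp (Flag.ext_hk hh hk.symm)
    by_cases h2 : S.dnF p ∈ {p : Inc S.R1 | p.x.h = x.h ∧ M.mem p.x.o x.k}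
    · rw [res_apply_of_mem _ (h1.2 h2), res_apply_of_mem _ h2]
      exact sub_self _
    · rw [res_apply_of_notMem _ fun h => h2 (h1.1 h), res_apply_of_notMem _ h2, sub_zero]

theorem Sys.le_cl_db (S : Sys B Y) : sec S.RF S.Φ ≤ cl (img S.db (sec S.R1 S.Φ)) := by
  refine sec_le (cls_cl _) fun x φ hφ => le_cl _ ?_
  exact ⟨_, euler2_res_mem S.R1 S.bdd1 hφ fun e => e.h = x.h ∧ M.mem e.o x.k, euler2_db S x φ⟩

theorem euler2_res_congr {Z : Type*} (A : Set Z) (f : L2 Z) {p q : Z} (h : p ∈ A ↔ q ∈ A)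
    (hf : f p = f q) : res A f p = res A f q := by
  by_cases hq : q ∈ A
  · rw [res_apply_of_mem _ (h.2 hq), res_apply_of_mem _ hq, hf]
  · rw [res_apply_of_notMem _ fun h1 => hq (h.1 h1), res_apply_of_notMem _ hq]

theorem euler2_db_d0 (S : Sys B Y) (x : Flag M) (φ : L2 Y) (p : Inc S.RF) :
    S.db (S.d0 (res {p : Inc S.R0 | M.mem p.x x.h ∧ M.mem p.x x.k} (S.ev0 φ))) p =
      res {p : Inc S.RF | p.x.c = x.c} (pullB Inc.y S.bddF φ) p := by
  rw [S.db_apply, S.d0_apply, S.d0_apply]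
  set A : Set (Inc S.R0) := {p : Inc S.R0 | M.mem p.x x.h ∧ M.mem p.x x.k} with hA
  have m1 : S.top (S.upF p) ∈ A ↔ (M.mem p.x.c.v x.h ∨ x.h = p.x.h ∨ x.h = p.x.k) ∧
      (M.mem p.x.c.v x.k ∨ x.k = p.x.h ∨ x.k = p.x.k) :=
    and_congr (p.x.mem_up_t _) (p.x.mem_up_t _)
  have m2 : S.bot (S.upF p) ∈ A ↔ (M.mem p.x.c.v x.h ∨ x.h = p.x.k) ∧
      (M.mem p.x.c.v x.k ∨ x.k = p.x.k) :=
    and_congr (p.x.mem_up_o _) (p.x.mem_up_o _)
  have m3 : S.top (S.dnF p) ∈ A ↔ (M.mem p.x.c.v x.h ∨ x.h = p.x.h) ∧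
      (M.mem p.x.c.v x.k ∨ x.k = p.x.h) :=
    and_congr (p.x.mem_dn_t _) (p.x.mem_dn_t _)
  have m4 : S.bot (S.dnF p) ∈ A ↔ M.mem p.x.c.v x.h ∧ M.mem p.x.c.v x.k := Iff.rfl
  by_cases hp : p.x.c = x.c
  · have l1 : ¬ M.mem p.x.c.v x.h := by rw [hp]; exact x.c.low _ x.h_mem
    have l2 : ¬ M.mem p.x.c.v x.k := by rw [hp]; exact x.c.low _ x.k_mem
    have i1 := (p.x.hI x.h).1 (by rw [hp]; exact x.h_mem)
    have i2 := (p.x.hI x.k).1 (by rw [hp]; exact x.k_mem)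
    have a1 : S.top (S.upF p) ∈ A := m1.2 ⟨Or.inr i1, Or.inr i2⟩
    have a2 : S.bot (S.upF p) ∉ A := fun h =>
      x.ne (((m2.1 h).1.resolve_left l1).trans ((m2.1 h).2.resolve_left l2).symm)
    have a3 : S.top (S.dnF p) ∉ A := fun h =>
      x.ne (((m3.1 h).1.resolve_left l1).trans ((m3.1 h).2.resolve_left l2).symm)
    have a4 : S.bot (S.dnF p) ∉ A := fun h => l1 (m4.1 h).1
    rw [res_apply_of_mem _ a1, res_apply_of_notMem _ a2, res_apply_of_notMem _ a3,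
      res_apply_of_notMem _ a4, res_apply_of_mem (A := {p : Inc S.RF | p.x.c = x.c}) _ hp]
    simp only [sub_zero]
    rfl
  · rw [res_apply_of_notMem (A := {p : Inc S.RF | p.x.c = x.c}) _ hp]
    by_cases hk : x.h = p.x.k ∨ x.k = p.x.k
    · have hh : ¬ (x.h = p.x.h ∨ x.k = p.x.h) := fun hh => hp
        (Cell.eq_of_two p.x.ne p.x.h_mem p.x.k_mem
          ((x.hI _).2 (hh.imp Eq.symm Eq.symm)) ((x.hI _).2 (hk.imp Eq.symm Eq.symm)))
      rw [not_or] at hh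
      rw [euler2_res_congr A (S.ev0 φ) (p := S.top (S.upF p)) (q := S.bot (S.upF p))
          (by rw [m1, m2]; simp only [hh.1, hh.2, false_or]) rfl,
        euler2_res_congr A (S.ev0 φ) (p := S.top (S.dnF p)) (q := S.bot (S.dnF p))
          (by rw [m3, m4]; simp only [hh.1, hh.2, or_false]) rfl,
        sub_self, sub_self, sub_self]
    · rw [not_or] at hk
      rw [euler2_res_congr A (S.ev0 φ) (p := S.top (S.upF p)) (q := S.top (S.dnF p))
          (by rw [m1, m3]; simp only [hk.1, hk.2, or_false]) rfl,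
        euler2_res_congr A (S.ev0 φ) (p := S.bot (S.upF p)) (q := S.bot (S.dnF p))
          (by rw [m2, m4]; simp only [hk.1, hk.2, or_false]) rfl,
        sub_self]

theorem Sys.le_cl_db_d0 (S : Sys B Y) :
    sec S.RF S.Φ ⊓ S.Sym ≤ cl (img (S.db ∘L S.d0) (sec S.R0 S.Φ)) := by
  rintro F ⟨hF, hS⟩
  refine mem_of_res (κ := fun p : Inc S.RF => p.x.c) (cls_cl _) fun c => le_cl _ ?_
  by_cases hc : ∃ x : Flag M, x.c = c
  · obtain ⟨x, rfl⟩ := hc
    obtain ⟨φ, hφ, h1⟩ := exists_of_mem_sec hF (S.starF x)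
    refine ⟨_, euler2_res_mem S.R0 S.bdd0 hφ fun v => M.mem v x.h ∧ M.mem v x.k, ?_⟩
    ext p
    refine (euler2_db_d0 S x φ p).trans ?_
    by_cases hp : p.x.c = x.c
    · rw [res_apply_of_mem (A := {p : Inc S.RF | p.x.c = x.c}) _ hp,
        res_apply_of_mem (A := (fun p : Inc S.RF => p.x.c) ⁻¹' {x.c}) _ hp, pullB_apply]
      have hr : S.RF x p.y := (show S.loc p.y = p.x.c from p.r).trans hp
      rw [← h1 p.y hr]
      rcases Flag.eq_or_swap hp with h2 | h2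
      · exact congrArg F (Inc.ext h2.symm rfl)
      · rw [← S.mem_Sym.1 hS ⟨x, p.y, hr⟩]
        exact congrArg F (Inc.ext h2.symm rfl)
    · rw [res_apply_of_notMem (A := {p : Inc S.RF | p.x.c = x.c}) _ hp,
        res_apply_of_notMem (A := (fun p : Inc S.RF => p.x.c) ⁻¹' {x.c}) _ hp]
  · have h0 : res ((fun p : Inc S.RF => p.x.c) ⁻¹' {c}) F = 0 := by
      ext p
      exact res_apply_of_notMem _ fun h => hc ⟨p.x, h⟩
    rw [h0]
    exact Submodule.zero_mem _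

end Pool.Agent.P.MP_0f25e6_al.SQ
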