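import Pool.Agent.P.MP_0f25e6_al.SQ.Cx

/-!
Adding one orbit of variables: the solution space.
-/

set_option autoImplicit false

open scoped InnerProductSpace ENNReal Topology
open Filter MulAction

noncomputable section

namespace Pool.Agent.P.MP_0f25e6_al.SQ

open HN

universe u

section Space

variable {G Y : Type*} [Group G] [MulAction G Y] {Φ : Submodule ℂ (L2 Y)} {z : L2 Y}

theorem mem_extΦ {F : L2 (Y ⊕ G)} : F ∈ extΦ G Φ z ↔ pull Sum.inl Sum.inl_injective F ∈ Φ ∧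
    ∀ g : G, F (Sum.inr g) = ⟪act g z, pull Sum.inl Sum.inl_injective F⟫_ℂ := by
  unfold extΦ
  rw [Submodule.mem_inf, mem_perp]
  refine and_congr Iff.rfl (forall_congr' fun g => ?_)
  rw [inner_sub_left, inner_delta_left, inner_push_left, sub_eq_zero]

theorem cls_extΦ (hc : Cls Φ) : Cls (extΦ G Φ z) := by
  exact (hc.pre _).inf (cls_perp _)

theorem inv_extΦ (hi : Inv G Φ) : Inv G (extΦ G Φ z) := by
  intro h F hF
  obtain ⟨h1, h2⟩ := mem_extΦ.1 hF
  refine mem_extΦ.2 ⟨?_, fun g => ?_⟩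
  · rw [eqv_pull_inl]
    exact hi h _ h1
  · rw [eqv_pull_inl, act_apply, show h⁻¹ • (Sum.inr g : Y ⊕ G) = Sum.inr (h⁻¹ * g) from rfl,
      h2, act_mul, inner_act_left, inv_inv]

theorem extΦ_inj {F : L2 (Y ⊕ G)} (hF : F ∈ extΦ G Φ z)
    (h : pull Sum.inl Sum.inl_injective F = 0) : F = 0 := by
  obtain ⟨-, h2⟩ := mem_extΦ.1 hF
  ext (y | g)
  · exact congrArg (fun f : L2 Y => f y) h
  · rw [h2, h, inner_zero_right]
    rfl

/-- The domain of the graph is dense. -/
theorem le_cl_extΦ (hY : Free G Y) (hc : Cls Φ) (hi : Inv G Φ) (hz : z ∈ Φ) :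
    Φ ≤ cl (img (pull Sum.inl Sum.inl_injective) (extΦ G Φ z)) := by
  have key : ∀ y : Y,
      proj Φ (delta y) ∈ img (pull Sum.inl Sum.inl_injective) (extΦ G Φ z) := by
    intro y
    let η : L2 G := ⟨fun g => star (z (g⁻¹ • y)), (memlp_orbit hY z y).star_mem⟩
    have e : pull Sum.inl Sum.inl_injective (push Sum.inl Sum.inl_injective (proj Φ (delta y)) +
        push Sum.inr Sum.inr_injective η) = proj Φ (delta y) := by
      rw [map_add, pull_push, pull_inl_push_inr, add_zero]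
    refine ⟨push Sum.inl Sum.inl_injective (proj Φ (delta y)) + push Sum.inr Sum.inr_injective η,
      mem_extΦ.2 ⟨?_, fun g => ?_⟩, e⟩
    · rw [e]
      have := proj_mem Φ (delta y)
      rwa [cl_eq hc] at this
    · rw [e, ← inner_proj_left, proj_eq_self (le_cl Φ (hi g z hz)), inner_delta_right, act_apply,
        lp.coeFn_add, Pi.add_apply, push_apply_self,
        push_apply_not _ _ _ (fun z => Sum.inl_ne_inr), zero_add]
      rfl
  intro φ hφ
  refine mem_cl_of_orth fun w hw => ?_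
  have h0 : proj Φ w = 0 := by
    ext y
    rw [← inner_delta_left, ← inner_proj_left]
    exact inner_mem_orth (le_cl _ (key y)) hw
  rw [← proj_eq_self (le_cl Φ hφ), ← inner_proj_left, h0, inner_zero_left]

theorem edim_extΦ (hY : Free G Y) (hc : Cls Φ) (hi : Inv G Φ) (hz : z ∈ Φ) :
    edim G (extΦ G Φ z) = edim G Φ := by
  have hG : Free G G := fun h x hx => mul_eq_right.1 hx
  have e : cl (img (pull Sum.inl Sum.inl_injective) (extΦ G Φ z)) = Φ := by
    refine le_antisymm (cl_le ?_ hc) (le_cl_extΦ hY hc hi hz)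
    rintro _ ⟨F, hF, rfl⟩
    exact (mem_extΦ.1 hF).1
  rw [← edim_img_of_inj' (free_sum hY hG) hY eqv_pull_inl (cls_extΦ hc) (inv_extΦ hi)
    (fun F hF h => extΦ_inj hF h), ← edim_cl, e]

end Space

variable {G V W Y₀ Y : Type*} [Group G] [MulAction G V] [MulAction G W] [MulAction G Y₀]
  [MulAction G Y] {M : Med G V W} {B : Base M Y₀}

theorem Sys.extLoc_smul (S : Sys B Y) (c : Cell M) (g : G) (y : Y ⊕ G) :
    S.extLoc c (g • y) = g • S.extLoc c y := by
  rcases y with y | g'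
  · exact S.loc_smul g y
  · exact mul_smul g g' c

theorem Sys.ext_split (S : Sys B Y) (x : Flag M) {z : L2 Y} (hh : z ∈ (S.a x.h)ᗮ)
    (hk : z ∈ (S.a x.k)ᗮ) (l : W) (F : L2 (Y ⊕ G)) (hF : F ∈ extΦ G S.Φ z)
    (h0 : ∀ y, l ∈ (S.extLoc x.c y).I → F y = 0) :
    res {y | M.mem (S.extLoc x.c y).v l} F ∈ extΦ G S.Φ z := by
  obtain ⟨h1, h2⟩ := mem_extΦ.1 hF
  set φ := pull Sum.inl Sum.inl_injective F with hφ
  have hφ0 : ∀ y, l ∈ (S.loc y).I → φ y = 0 := fun y hy => h0 (Sum.inl y) hy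
  have hp : res {y | M.mem (S.loc y).v l} φ ∈ S.Φ := S.split l φ h1 hφ0
  have e : pull Sum.inl Sum.inl_injective (res {y | M.mem (S.extLoc x.c y).v l} F) =
      res {y | M.mem (S.loc y).v l} φ := by
    ext y
    by_cases hy : M.mem (S.loc y).v l
    · rw [pull_apply, res_apply_of_mem F (g := Sum.inl y) hy, res_apply_of_mem φ (g := y) hy]
      rfl
    · rw [pull_apply, res_apply_of_notMem F (g := Sum.inl y) hy,
        res_apply_of_notMem φ (g := y) hy]
  refine mem_extΦ.2 ⟨e ▸ hp, fun g => ?_⟩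
  rw [e]
  have horth : ∀ k, k = (g • x).h ∨ k = (g • x).k → ∀ ψ ∈ S.a k, ⟪act g z, ψ⟫_ℂ = 0 := by
    rintro k (rfl | rfl) ψ hψ
    · exact Submodule.inner_left_of_mem_orthogonal hψ (S.act_mem_a_orth g hh)
    · exact Submodule.inner_left_of_mem_orthogonal hψ (S.act_mem_a_orth g hk)
  by_cases hl : l ∈ (g • x).c.I
  · have hF0 : F (Sum.inr g) = 0 := h0 (Sum.inr g) hl
    rw [horth l (((g • x).hI l).1 hl) _ (S.mem_a.2 ⟨hp, fun y hy => ?_⟩)]
    · by_cases hm : M.mem (g • x).c.v l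
      · rw [res_apply_of_mem F (g := Sum.inr g) hm, hF0]
      · rw [res_apply_of_notMem F (g := Sum.inr g) hm]
    · by_cases hm : M.mem (S.loc y).v l
      · rw [res_apply_of_mem φ (g := y) hm, hφ0 y hy]
      · rw [res_apply_of_notMem φ (g := y) hm]
  · obtain ⟨k, hk1, hk2⟩ := (g • x).side hl
    by_cases hm : M.mem (g • x).c.v l
    · rw [res_apply_of_mem F (g := Sum.inr g) hm, h2, ← sub_eq_zero, ← inner_sub_right]
      refine horth k hk1 _ (S.mem_a.2 ⟨S.Φ.sub_mem h1 hp, fun y hy => ?_⟩)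
      rw [lp.coeFn_sub, Pi.sub_apply, res_apply_of_mem φ (g := y) ((hk2 _ hy).2.2 hm), sub_self]
    · rw [res_apply_of_notMem F (g := Sum.inr g) hm]
      refine (horth k hk1 _ (S.mem_a.2 ⟨hp, fun y hy => ?_⟩)).symm
      exact res_apply_of_notMem φ (g := y) fun h' => hm ((hk2 _ hy).2.1 h')

end Pool.Agent.P.MP_0f25e6_al.SQ
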