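import Pool.Agent.P.MP_0f25e6_al.SQ.Ext1

/-!
Adding one orbit of variables: injectivity along the walls.
-/

set_option autoImplicit false

open scoped InnerProductSpace ENNReal Topology
open Filter MulAction

noncomputable section

namespace Pool.Agent.P.MP_0f25e6_al.SQ

open HN

universe u

variable {G V W Y₀ Y : Type*} [Group G] [MulAction G V] [MulAction G W] [MulAction G Y₀]
  [MulAction G Y] {M : Med G V W} {B : Base M Y₀}

theorem Sys.ext_wall (S : Sys B Y) (x : Flag M) {z : L2 Y} (hz : z ∈ S.Φ) (hh : z ∈ (S.a x.h)ᗮ)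
    (hk : z ∈ (S.a x.k)ᗮ) (l : W) (F : L2 (Y ⊕ G))
    (hF : F ∈ cl (img (res {y | l ∈ (S.extLoc x.c y).I}) (extΦ G S.Φ z)))
    (h0 : pull (Sum.inl ∘ S.i) (Sum.inl_injective.comp S.i_inj) F = 0) : F = 0 := by
  set A : Set (Y ⊕ G) := {y | l ∈ (S.extLoc x.c y).I} with hA
  set Φ' := extΦ G S.Φ z with hΦ'
  let pl : L2 (Y ⊕ G) →L[ℂ] L2 Y := pull Sum.inl Sum.inl_injective
  have hpr : ∀ F : L2 (Y ⊕ G), pl (res A F) = res {y | S.RW l y} (pl F) := fun F => by
    ext y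
    by_cases hy : S.RW l y
    · rw [res_apply_of_mem _ (show y ∈ {y | S.RW l y} from hy)]
      exact res_apply_of_mem _ (show Sum.inl y ∈ A from hy)
    · rw [res_apply_of_notMem _ (show y ∉ {y | S.RW l y} from hy)]
      exact res_apply_of_notMem _ (show Sum.inl y ∉ A from hy)
  have hpL : ∀ F ∈ cl (img (res A) Φ'), pl F ∈ S.L l := fun F hF => by
    refine cl_mono ?_ (img_cl_le pl _ ⟨F, hF, rfl⟩)
    rintro _ ⟨_, ⟨F', hF', rfl⟩, rfl⟩
    exact ⟨pl F', (mem_extΦ.1 hF').1, (hpr F').symm⟩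
  have h1 : pl F = 0 := S.wall l _ (hpL F hF) h0
  let H := stabilizer G l
  have fY : Free H Y := free_subgroup S.free H
  have fY' : Free H (Y ⊕ G) := free_subgroup (free_sum S.free free_self) H
  have hAi : ∀ (g : H), ∀ y ∈ A, g • y ∈ A := fun g y hy => by
    change l ∈ (S.extLoc x.c ((g : G) • y)).I
    rw [S.extLoc_smul, Cell.mem_smul_I, show (g : G)⁻¹ • l = l from (g⁻¹).2]
    exact hy
  have hBi : ∀ (g : H), ∀ y ∈ {y | S.RW l y}, g • y ∈ {y | S.RW l y} := fun g y hy =>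
    hAi g (Sum.inl y) hy
  have eA : Eqv H (res A) := eqv_res hAi
  have eP : Eqv H pl := Eqv.subgroup (eqv_pull_inl (H := G)) H
  have c' : Cls Φ' := cls_extΦ S.cls
  have i' : Inv H Φ' := Inv.subgroup (inv_extΦ S.inv) H
  have ca : Cls (Φ' ⊓ pre (res A) ⊥) := c'.inf (cls_bot.pre _)
  have ia : Inv H (Φ' ⊓ pre (res A) ⊥) := i'.inf (inv_bot.pre eA)
  set N := Φ' ⊓ (Φ' ⊓ pre (res A) ⊥)ᗮ with hN
  have cN : Cls N := c'.inf (cls_orth _)
  have iN : Inv H N := i'.inf ia.orth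
  have b1 : img (res A) Φ' ≤ img (res A) N := by
    rintro _ ⟨F', hF', rfl⟩
    have h2 : proj (Φ' ⊓ pre (res A) ⊥) F' ∈ Φ' ⊓ pre (res A) ⊥ := cl_le le_rfl ca (proj_mem _ _)
    refine ⟨F' - proj (Φ' ⊓ pre (res A) ⊥) F', ⟨Φ'.sub_mem hF' h2.1, sub_proj_mem _ _⟩, ?_⟩
    have h3 : res A (proj (Φ' ⊓ pre (res A) ⊥) F') = 0 := h2.2
    change res A (_ - _) = res A F'
    rw [map_sub, h3, sub_zero]
  have b2 : edim H N ≤ edim H (S.L l) := by
    refine edim_le_of_inj fY' fY ((eqv_res hBi).comp eP) cN iN (fun F' hF' h => ?_)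
      (fun F' hF' => le_cl _ (le_cl _ ⟨pl F', (mem_extΦ.1 hF'.1).1, rfl⟩))
    have h2 : ∀ y, l ∈ (S.loc y).I → pl F' y = 0 := fun y hy => by
      have := congrArg (fun f : L2 Y => f y) h
      exact (res_apply_of_mem _ (show y ∈ {y | S.RW l y} from hy)).symm.trans this
    have h3 : pl F' ∈ S.a l := S.mem_a.2 ⟨(mem_extΦ.1 hF'.1).1, h2⟩
    have h4 : res A F' = 0 := by
      ext y
      by_cases hy : y ∈ A
      · rw [res_apply_of_mem _ hy]
        rcases y with y | g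
        · exact h2 y hy
        · rw [(mem_extΦ.1 hF'.1).2 g]
          have h5 : g⁻¹ • l ∈ x.c.I := (Cell.mem_smul_I g x.c l).1 hy
          have h6 : act g z ∈ (S.a l)ᗮ := by
            rcases (x.hI _).1 h5 with h7 | h7
            · have := S.act_mem_a_orth g hh
              rwa [← h7, smul_inv_smul] at this
            · have := S.act_mem_a_orth g hk
              rwa [← h7, smul_inv_smul] at this
          exact Submodule.inner_left_of_mem_orthogonal h3 h6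
      · exact res_apply_of_notMem _ hy
    exact inner_self_eq_zero.1 (Submodule.inner_right_of_mem_orthogonal
      (show F' ∈ Φ' ⊓ pre (res A) ⊥ from ⟨hF'.1, h4⟩) hF'.2)
  have b3 : edim H (cl (img (res A) Φ')) ≤ edim H (S.L l) := by
    rw [edim_cl]
    exact ((edim_mono b1).trans (edim_img_le fY' fY' eA cN iN)).trans b2
  have b4 : S.L l ≤ cl (img pl (cl (img (res A) Φ'))) := by
    refine cl_le ?_ (cls_cl _)
    rintro _ ⟨φ, hφ, rfl⟩
    refine cl_mono ?_ (img_cl_le (res {y | S.RW l y}) _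
      ⟨φ, le_cl_extΦ (z := z) S.free S.cls S.inv hz hφ, rfl⟩)
    rintro _ ⟨_, ⟨F', hF', rfl⟩, rfl⟩
    exact ⟨res A F', le_cl _ ⟨F', hF', rfl⟩, hpr F'⟩
  have iL : Inv H (cl (img (res A) Φ')) := (i'.img eA).cl
  have b5 := rank_nullity fY' fY eP (cls_cl (img (res A) Φ')) iL
  have b6 : edim H (S.L l) ≠ ⊤ := edim_ne_top_of_cofin (S.cofin_wall l) (S.L_le_supp l)
  have b7 : edim H (cl (img (res A) Φ') ⊓ pre pl ⊥ : Submodule ℂ (L2 (Y ⊕ G))) + edim H (S.L l) ≤
      0 + edim H (S.L l) := by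
    rw [zero_add]
    refine le_trans ?_ b3
    rw [b5, ← edim_cl (img pl _)]
    gcongr
    exact edim_mono b4
  have b8 := eq_bot_of_edim (iL.inf (inv_bot.pre eP))
    (le_antisymm ((ENNReal.add_le_add_iff_right b6).1 b7) zero_le)
  have b9 : F ∈ cl (img (res A) Φ') ⊓ pre pl ⊥ := ⟨hF, h1⟩
  rwa [b8] at b9

end Pool.Agent.P.MP_0f25e6_al.SQ
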