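import Pool.Agent.P.MP_0f25e6_al.SQ.Ext2

/-!
Adding one orbit of variables: the weight increases.
-/

set_option autoImplicit false

open scoped InnerProductSpace ENNReal Topology
open Filter MulAction

noncomputable section

namespace Pool.Agent.P.MP_0f25e6_al.SQ

open HN

universe u

variable {G V W Y₀ Y : Type*} [Group G] [MulAction G V] [MulAction G W] [MulAction G Y₀]
  [MulAction G Y] {M : Med G V W} {B : Base M Y₀}

/-- The extended system. -/
def Sys.extend (S : Sys B Y) (x : Flag M) {z : L2 Y} (hz : z ∈ S.Φ) (hh : z ∈ (S.a x.h)ᗮ)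
    (hk : z ∈ (S.a x.k)ᗮ) : Sys B (Y ⊕ G) where
  free := free_sum S.free free_self
  cofin := cofin_sum S.cofin cofin_self
  loc := S.extLoc x.c
  loc_smul := S.extLoc_smul x.c
  ne := by
    rintro (y | g)
    · exact S.ne y
    · exact ⟨g • x.h, (Cell.smul_mem_smul_I g _ _).2 x.h_mem⟩
  i := Sum.inl ∘ S.i
  i_inj := Sum.inl_injective.comp S.i_inj
  i_smul g y := congrArg Sum.inl (S.i_smul g y)
  loc_i := S.loc_i
  Φ := extΦ G S.Φ z
  cls := cls_extΦ S.cls
  inv := inv_extΦ S.inv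
  pull_mem _ h := S.pull_mem _ (mem_extΦ.1 h).1
  dim_eq := (edim_extΦ S.free S.cls S.inv hz).trans S.dim_eq
  split := S.ext_split x hh hk
  wall := S.ext_wall x hz hh hk

/-- A solution that vanishes on the cell and is not orthogonal to `z`. -/
theorem Sys.ext3_exists (S : Sys B Y) (c : Cell M) {z : L2 Y} (hz : z ∈ S.Φ)
    (hn : ¬ ∃ u ∈ supp (S.loc ⁻¹' {c}), proj S.Φ u = z) :
    ∃ φ ∈ S.Φ, (∀ y, S.loc y = c → φ y = 0) ∧ ⟪z, φ⟫_ℂ ≠ 0 := by
  have hP : ∀ f, proj S.Φ f ∈ S.Φ := fun f => cl_le le_rfl S.cls (proj_mem S.Φ f)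
  have hfd := finiteDimensional_supp (S.starC c)
  have hE : Cls (img (proj S.Φ) (supp (S.loc ⁻¹' {c}))) :=
    Submodule.closed_of_finiteDimensional _
  have h1 : proj (img (proj S.Φ) (supp (S.loc ⁻¹' {c}))) z ∈
      img (proj S.Φ) (supp (S.loc ⁻¹' {c})) := cl_le le_rfl hE (proj_mem _ z)
  have h2 := sub_proj_mem (img (proj S.Φ) (supp (S.loc ⁻¹' {c}))) z
  set w := proj (img (proj S.Φ) (supp (S.loc ⁻¹' {c}))) z with hw
  have h3 : w ∈ S.Φ := by
    obtain ⟨u, -, hu⟩ := h1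
    rw [← hu]
    exact hP u
  have h4 : z - w ∈ S.Φ := S.Φ.sub_mem hz h3
  refine ⟨z - w, h4, fun y hy => ?_, fun h0 => ?_⟩
  · have h5 : ⟪proj S.Φ (delta y), z - w⟫_ℂ = 0 :=
      h2 _ ⟨delta y, delta_mem_supp (S := S.loc ⁻¹' {c}) hy, rfl⟩
    rwa [inner_proj_left, proj_eq_self (le_cl _ h4), inner_delta_left] at h5
  · have h5 : ⟪w, z - w⟫_ℂ = 0 := h2 _ h1
    have h6 : ⟪z - w, z - w⟫_ℂ = 0 := by rw [inner_sub_left, h0, h5, sub_zero]
    have h7 : z = w := sub_eq_zero.1 (inner_self_eq_zero.1 h6)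
    obtain ⟨u, hu, hu'⟩ := h1
    exact hn ⟨u, hu, hu'.trans h7.symm⟩

/-- The restriction of an extended solution to the star of the cell. -/
def ext3Lam (G : Type*) [Group G] (A : Set Y) (z : L2 Y) : L2 Y →L[ℂ] L2 (Y ⊕ G) :=
  push Sum.inl Sum.inl_injective ∘L res A +
    (innerSL ℂ z).smulRight (delta (Sum.inr 1 : Y ⊕ G))

omit [MulAction G Y] in
theorem ext3Lam_inl (A : Set Y) (z ψ : L2 Y) (y : Y) :
    ext3Lam G A z ψ (Sum.inl y) = res A ψ y := by
  change push Sum.inl Sum.inl_injective (res A ψ) (Sum.inl y) +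
    ⟪z, ψ⟫_ℂ * delta (Sum.inr 1 : Y ⊕ G) (Sum.inl y) = _
  rw [push_apply_self, delta_ne Sum.inl_ne_inr, mul_zero, add_zero]

omit [MulAction G Y] in
theorem ext3Lam_inr (A : Set Y) (z ψ : L2 Y) (g : G) :
    ext3Lam G A z ψ (Sum.inr g) = ⟪z, ψ⟫_ℂ * delta (Sum.inr 1 : Y ⊕ G) (Sum.inr g) := by
  change push Sum.inl Sum.inl_injective (res A ψ) (Sum.inr g) +
    ⟪z, ψ⟫_ℂ * delta (Sum.inr 1 : Y ⊕ G) (Sum.inr g) = _
  rw [push_apply_not _ _ _ fun _ => Sum.inl_ne_inr, zero_add]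

theorem Sys.ext3_res (S : Sys B Y) (c : Cell M) {z : L2 Y} {F : L2 (Y ⊕ G)}
    (hF : F ∈ extΦ G S.Φ z) :
    res {y | S.extLoc c y = c} F =
      ext3Lam G {y | S.loc y = c} z (pull Sum.inl Sum.inl_injective F) := by
  ext y
  rcases y with y | g
  · rw [ext3Lam_inl]
    by_cases hy : S.loc y = c
    · rw [res_apply_of_mem (A := {y | S.extLoc c y = c}) F (g := Sum.inl y) hy,
        res_apply_of_mem (A := {y | S.loc y = c}) _ hy, pull_apply]
    · rw [res_apply_of_notMem (A := {y | S.extLoc c y = c}) F (g := Sum.inl y) hy,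
        res_apply_of_notMem (A := {y | S.loc y = c}) _ hy]
  · rw [ext3Lam_inr]
    by_cases hg : g = 1
    · subst hg
      rw [res_apply_of_mem (A := {y | S.extLoc c y = c}) F (g := Sum.inr 1) (one_smul G c),
        delta_self, mul_one, (mem_extΦ.1 hF).2 1, act_one]
    · rw [res_apply_of_notMem (A := {y | S.extLoc c y = c}) F (g := Sum.inr g)
        fun h => hg (free_cell M g c h), delta_ne fun h => hg (Sum.inr_injective h), mul_zero]

theorem Sys.wt_lt_extend (S : Sys B Y) (x : Flag M) {z : L2 Y} (hz : z ∈ S.Φ)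
    (hh : z ∈ (S.a x.h)ᗮ) (hk : z ∈ (S.a x.k)ᗮ)
    (hn : ¬ ∃ u ∈ supp (S.loc ⁻¹' {x.c}), proj S.Φ u = z) : S.wt < (S.extend x hz hh hk).wt := by
  set S' := S.extend x hz hh hk with hS'
  let j : Inc S.RF → Inc S'.RF := fun p => ⟨p.x, Sum.inl p.y, p.r⟩
  have hj : Function.Injective j := fun p q h =>
    Inc.ext (congrArg Inc.x h :) (Sum.inl_injective (congrArg Inc.y h :))
  have hT : Eqv G (pull j hj) := eqv_pull hj fun _ _ => rfl
  have hrn := rank_nullity (free_inc S'.RF S'.free) (free_inc S.RF S.free) hT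
    (cls_sec S'.RF S'.Φ) (inv_sec S'.RF S'.inv)
  have hle : sec S.RF S.Φ ≤ cl (img (pull j hj) (sec S'.RF S'.Φ)) := by
    refine sec_le (cls_cl _) fun x' φ hφ => ?_
    refine cl_le (W' := pre (blk S.RF x') (cl (img (pull j hj) (sec S'.RF S'.Φ)))) ?_
      ((cls_cl _).pre _) (le_cl_extΦ (G := G) S.free S.cls S.inv hz hφ)
    rintro _ ⟨F, hF, rfl⟩
    refine le_cl _ ⟨blk S'.RF x' F, blk_mem_sec _ _ hF, ?_⟩
    change pull j hj (blk S'.RF x' F) = blk S.RF x' (pull Sum.inl Sum.inl_injective F)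
    ext p
    rw [pull_apply]
    by_cases hp : p.x = x'
    · subst hp
      rw [blk_apply_self]
      exact blk_apply_self S'.RF F (j p)
    · rw [blk_apply_ne S.RF _ hp, blk_apply_ne S'.RF F (p := j p) hp]
  have hK : edim G (sec S'.RF S'.Φ ⊓ pre (pull j hj) ⊥ : Submodule ℂ (L2 (Inc S'.RF))) ≠ 0 := by
    intro h0
    have hb := eq_bot_of_edim ((inv_sec S'.RF S'.inv).inf (inv_bot.pre hT)) h0
    obtain ⟨φ, hφ, hv, hi⟩ := S.ext3_exists x.c hz hn
    have h1 : ext3Lam G {y | S.loc y = x.c} z φ ∈ cl (img (res {y | S'.RF x y}) S'.Φ) := by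
      refine cl_mono ?_ (img_cl_le (ext3Lam G {y | S.loc y = x.c} z) _
        ⟨φ, le_cl_extΦ (G := G) S.free S.cls S.inv hz hφ, rfl⟩)
      rintro _ ⟨_, ⟨F, hF, rfl⟩, rfl⟩
      exact ⟨F, hF, S.ext3_res x.c hF⟩
    have h2 : pull j hj (blk S'.RF x (ext3Lam G {y | S.loc y = x.c} z φ)) = 0 := by
      ext p
      rw [pull_apply]
      by_cases hp : p.x = x
      · have h3 := blk_apply_self S'.RF (ext3Lam G {y | S.loc y = x.c} z φ) (j p)
        have h4 : S.loc p.y = x.c := hp ▸ p.r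
        rw [show (j p).x = x from hp] at h3
        rw [h3, show (j p).y = Sum.inl p.y from rfl, ext3Lam_inl,
          res_apply_of_mem (A := {y | S.loc y = x.c}) φ h4, hv _ h4]
        rfl
      · rw [blk_apply_ne S'.RF _ (p := j p) hp]
        rfl
    have h3 : blk S'.RF x (ext3Lam G {y | S.loc y = x.c} z φ) ∈
        (sec S'.RF S'.Φ ⊓ pre (pull j hj) ⊥ : Submodule ℂ (L2 (Inc S'.RF))) :=
      ⟨blk_mem_sec_of_cl _ _ h1, h2⟩
    rw [hb, Submodule.mem_bot] at h3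
    have h4 := blk_apply_self S'.RF (ext3Lam G {y | S.loc y = x.c} z φ)
      ⟨x, Sum.inr 1, one_smul G x.c⟩
    change blk S'.RF x _ _ = ext3Lam G {y | S.loc y = x.c} z φ (Sum.inr 1) at h4
    rw [h3, ext3Lam_inr, delta_self, mul_one] at h4
    exact hi h4.symm
  have hfin : edim G (sec S.RF S.Φ) ≠ ⊤ := edim_ne_top S.cofinF _
  change edim G (sec S.RF S.Φ) < edim G (sec S'.RF S'.Φ)
  rw [hrn, add_comm]
  refine (ENNReal.lt_add_right hfin hK).trans_le ?_
  gcongr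
  rw [← edim_cl (img (pull j hj) (sec S'.RF S'.Φ))]
  exact edim_mono hle

end Pool.Agent.P.MP_0f25e6_al.SQ
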