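import Pool.Agent.P.MP_0f25e6_al.SQ.Tools1
import Pool.Agent.P.MP_0f25e6_al.SQ.Trace1

/-!
The local inequalities at a node and at an edge of a forest.
-/

set_option autoImplicit false

open scoped InnerProductSpace ENNReal Topology
open Filter MulAction

noncomputable section

namespace Pool.Agent.P.MP_0f25e6_al.SQ

open HN

universe u

variable {G N F B Z : Type*} [Group G] [MulAction G N] [MulAction G F] [MulAction G B]

namespace Forest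

variable (𝓕 : Forest G N F B) (e : Z → N)

/-- The edge `f` is incident to the node `n`. -/
def inc (f : F) (n : N) : Prop := 𝓕.o f = n ∨ 𝓕.t f = n

/-- The side of the edge `f` that does not contain the node `n`. -/
def far (n : N) (f : F) : Set N := {z | ¬ (z ∈ 𝓕.side f ↔ n ∈ 𝓕.side f)}

/-- The vectors of `U` that vanish at the node and whose branches are in `U'`. -/
def XV (U U' : Submodule ℂ (L2 Z)) (n : N) : Submodule ℂ (L2 Z) :=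
  U ⊓ supp (e ⁻¹' {n})ᶜ ⊓ ⨅ f : {f // 𝓕.inc f n}, pre (res (e ⁻¹' 𝓕.far n f)) U'

/-- The defect of the pair at a node. -/
def ZV (U U' : Submodule ℂ (L2 Z)) (n : N) : Submodule ℂ (L2 Z) := U ⊓ (𝓕.XV e U U' n)ᗮ

/-- The block of a coordinate. -/
def Bl (β : B) : Submodule ℂ (L2 Z) := supp ((𝓕.blk ∘ e) ⁻¹' {β})

end Forest

section Aux

theorem f1_re_inner_self {E : Type*} [NormedAddCommGroup E] [InnerProductSpace ℂ E] (x : E) :
    (⟪x, x⟫_ℂ).re = ‖x‖ ^ 2 := inner_self_eq_norm_sq (𝕜 := ℂ) x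

theorem f1_finrank_add_le {E D : Type*} [NormedAddCommGroup E] [InnerProductSpace ℂ E] [Fintype D]
    (A A' : Submodule ℂ E) (S : D → Submodule ℂ E) (hS : ∀ d, FiniteDimensional ℂ (S d))
    (Φ Ψ : D → E →L[ℂ] E) (hΦ : ∀ d, ∀ ξ ∈ A, Φ d ξ ∈ S d) (hΨ : ∀ d, ∀ ζ ∈ A', Ψ d ζ ∈ S d)
    (horth : ∀ ξ ∈ A, ∀ ζ ∈ A', ∑ d, ⟪Φ d ξ, Ψ d ζ⟫_ℂ = 0)
    (hA : ∀ ξ ∈ A, (∀ d, Φ d ξ = 0) → ξ = 0) (hA' : ∀ ζ ∈ A', (∀ d, Ψ d ζ = 0) → ζ = 0) :
    FiniteDimensional ℂ A ∧ FiniteDimensional ℂ A' ∧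
      Module.finrank ℂ A + Module.finrank ℂ A' ≤ ∑ d, Module.finrank ℂ (S d) := by
  let f : (A × A') →ₗ[ℂ] ((d : D) → S d) :=
    LinearMap.pi fun d => LinearMap.codRestrict _
      ((Φ d).toLinearMap ∘ₗ A.subtype ∘ₗ LinearMap.fst ℂ _ _ +
        (Ψ d).toLinearMap ∘ₗ A'.subtype ∘ₗ LinearMap.snd ℂ _ _)
      fun p => (S d).add_mem (hΦ d _ p.1.2) (hΨ d _ p.2.2)
  have hf : Function.Injective f := by
    rw [injective_iff_map_eq_zero]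
    rintro ⟨⟨ξ, hξ⟩, ⟨ζ, hζ⟩⟩ h
    have e1 : ∀ d, Ψ d ζ = - Φ d ξ := fun d =>
      eq_neg_of_add_eq_zero_right (congrArg (fun p => (p d).1) h)
    have e2 := congrArg Complex.re (horth ξ hξ ζ hζ)
    simp only [e1, inner_neg_right, Complex.re_sum, Complex.neg_re, f1_re_inner_self,
      Finset.sum_neg_distrib, Complex.zero_re, neg_eq_zero] at e2
    have e3 : ∀ d, Φ d ξ = 0 := fun d => by
      rw [← norm_eq_zero, ← pow_eq_zero_iff two_ne_zero]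
      exact (Finset.sum_eq_zero_iff_of_nonneg fun _ _ => sq_nonneg _).1 e2 d (Finset.mem_univ d)
    ext1
    · exact Subtype.ext (hA ξ hξ e3)
    · exact Subtype.ext (hA' ζ hζ fun d => by rw [e1, e3, neg_zero])
  have hfd := FiniteDimensional.of_injective f hf
  have h1 : FiniteDimensional ℂ A :=
    FiniteDimensional.of_injective (LinearMap.inl ℂ A A') LinearMap.inl_injective
  have h2 : FiniteDimensional ℂ A' :=
    FiniteDimensional.of_injective (LinearMap.inr ℂ A A') LinearMap.inr_injective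
  have h3 := LinearMap.finrank_le_finrank_of_injective hf
  rw [Module.finrank_prod, Module.finrank_pi_fintype] at h3
  exact ⟨h1, h2, h3⟩

theorem f1_res_comm (S T : Set Z) (f : L2 Z) : res S (res T f) = res T (res S f) := by
  rw [res_res, res_res, Set.inter_comm]

theorem f1_res_mem_supp_of_mem {S : Set Z} (T : Set Z) {f : L2 Z} (h : f ∈ supp S) :
    res T f ∈ supp S := by
  rw [← res_eq_self h, f1_res_comm]
  exact res_mem_supp _ _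

theorem f1_proj_mem_of_cls {U : Submodule ℂ (L2 Z)} (hc : Cls U) (f : L2 Z) : proj U f ∈ U :=
  cl_le le_rfl hc (proj_mem U f)

theorem f1_proj_inf_supp {S : Set Z} {U : Submodule ℂ (L2 Z)} (hc : Cls U)
    (hs : ∀ f ∈ U, res S f ∈ U) {ξ : L2 Z} (hξ : ξ ∈ supp S) :
    proj (U ⊓ supp S) ξ = proj U ξ := by
  refine proj_eq (le_cl _ ⟨f1_proj_mem_of_cls hc ξ, ?_⟩)
    (Submodule.orthogonal_le inf_le_left (sub_proj_mem U ξ))
  have h1 := proj_res hs ξ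
  rw [res_eq_self hξ] at h1
  rw [h1]
  exact res_mem_supp _ _

theorem f1_eq_bot_of_Tr_lt_one {U : Submodule ℂ (L2 Z)} (h : Tr U < 1) : U = ⊥ := by
  rcases Tr_nat U with h1 | ⟨n, h1⟩
  · rw [h1] at h
    exact absurd h (by simp)
  · rw [h1, Nat.cast_lt_one] at h
    rw [h, Nat.cast_zero] at h1
    exact eq_bot_of_tau (ENNReal.tsum_eq_zero.1 h1)

theorem f1_split_pre_res {X : Type*} {κ : Z → X} {U : Submodule ℂ (L2 Z)} (hU : Split κ U)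
    (A : Set Z) : Split κ (pre (res A) U) := fun x f hf => by
  change res A (res (κ ⁻¹' {x}) f) ∈ U
  rw [f1_res_comm]
  exact hU x _ hf

theorem f1_cls_ZE {U : Submodule ℂ (L2 Z)} (hc : Cls U) (U' : Submodule ℂ (L2 Z)) (A : Set Z) :
    Cls (ZE U U' A) := hc.inf (cls_orth _)

end Aux

/-- The defect does not change when the set is replaced by its complement. -/
theorem ZE_compl {U U' : Submodule ℂ (L2 Z)} (h : U ≤ U') (A : Set Z) :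
    ZE U U' Aᶜ = ZE U U' A := by
  have key : U ⊓ pre (res Aᶜ) U' = U ⊓ pre (res A) U' := by
    ext f
    change f ∈ U ∧ res Aᶜ f ∈ U' ↔ f ∈ U ∧ res A f ∈ U'
    refine and_congr_right fun hf => ?_
    rw [eq_sub_of_add_eq' (res_add_res_compl A f), U'.sub_mem_iff_right (h hf)]
  rw [ZE, ZE, key]

theorem split_ZE {X : Type*} {κ : Z → X} {U U' : Submodule ℂ (L2 Z)} (hU : Split κ U)
    (hU' : Split κ U') (A : Set Z) : Split κ (ZE U U' A) :=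
  hU.inf (split_orth (hU.inf (f1_split_pre_res hU' A)))

section Edge

variable {X : Type*} {κ : Z → X} {U U' : Submodule ℂ (L2 Z)}

theorem f1_sub_proj_mem_XE (hc : Cls U) (hc' : Cls U') (hU : Split κ U) (hU' : Split κ U')
    (A : Set Z) {β : X} {ξ : L2 Z} (hξ : ξ ∈ U) (hβ : ξ ∈ supp (κ ⁻¹' {β})) :
    res A (ξ - proj (ZE U U' A ⊓ supp (κ ⁻¹' {β})) ξ) ∈ U' := by
  have h1 := proj_split hc (show U ⊓ pre (res A) U' ≤ U from inf_le_left) ξ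
  rw [proj_eq_self (le_cl _ hξ)] at h1
  rw [f1_proj_inf_supp (f1_cls_ZE hc U' A) (split_ZE hU hU' A β) hβ, ZE, ← eq_sub_of_add_eq h1.symm]
  exact (f1_proj_mem_of_cls (hc.inf (hc'.pre (res A))) ξ).2

theorem f1_inner_Q_eq (hc : Cls U) (hc' : Cls U') (hU : Split κ U) (hU' : Split κ U')
    (A : Set Z) {β : X} {ξ ζ : L2 Z} (hξ : ξ ∈ U) (hβ : ξ ∈ supp (κ ⁻¹' {β})) (hζ : ζ ∈ U'ᗮ) :
    ⟪ξ, res A ζ⟫_ℂ = ⟪proj (ZE U U' A ⊓ supp (κ ⁻¹' {β})) ξ,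
      proj (ZE U U' A ⊓ supp (κ ⁻¹' {β})) (res A ζ)⟫_ℂ := by
  have h2 := Submodule.inner_right_of_mem_orthogonal (f1_sub_proj_mem_XE hc hc' hU hU' A hξ hβ) hζ
  rw [inner_res_left, inner_sub_left, sub_eq_zero] at h2
  rw [← inner_proj_left, proj_eq_self (proj_mem _ _), h2]

theorem f1_Q_mem_orth (hc : Cls U) (hc' : Cls U') (hU : Split κ U) (hU' : Split κ U')
    (A : Set Z) {β : X} {ζ : L2 Z} (hζ : ζ ∈ U'ᗮ) (hβ : ζ ∈ supp (κ ⁻¹' {β}))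
    (h : proj (ZE U U' A ⊓ supp (κ ⁻¹' {β})) (res A ζ) = 0) : res A ζ ∈ Uᗮ := by
  rw [Submodule.mem_orthogonal]
  intro ξ hξ
  rw [← res_eq_self (f1_res_mem_supp_of_mem A hβ), ← inner_res_left,
    f1_inner_Q_eq hc hc' hU hU' A (hU β ξ hξ) (res_mem_supp _ _) hζ, h, inner_zero_right]

end Edge

/-- Duality for the defect along a set, in each block. -/
theorem Tr_ZE_orth_le {X : Type*} {κ : Z → X} {U U' : Submodule ℂ (L2 Z)} (hc : Cls U)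
    (hc' : Cls U') (hU : Split κ U) (hU' : Split κ U') (h : U ≤ U') (A : Set Z) (β : X) :
    Tr (ZE U'ᗮ Uᗮ A ⊓ supp (κ ⁻¹' {β})) ≤ Tr (ZE U U' A ⊓ supp (κ ⁻¹' {β})) := by
  have _ := h
  refine Tr_le_of_inj (proj (ZE U U' A ⊓ supp (κ ⁻¹' {β})) ∘L res A)
    (fun f _ => f1_proj_mem_of_cls ((f1_cls_ZE hc U' A).inf (cls_supp _)) _) ?_
  rintro ζ ⟨⟨h1, h2⟩, h3⟩ h0
  have h5 : ζ ∈ U'ᗮ ⊓ pre (res A) Uᗮ := ⟨h1, f1_Q_mem_orth hc hc' hU hU' A h1 h3 h0⟩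
  exact inner_self_eq_zero.1 (Submodule.inner_right_of_mem_orthogonal h5 h2)

namespace Forest

variable (𝓕 : Forest G N F B) (e : Z → N)

theorem f1_mem_XV {U U' : Submodule ℂ (L2 Z)} {n : N} {ζ : L2 Z} :
    ζ ∈ 𝓕.XV e U U' n ↔ (ζ ∈ U ∧ ζ ∈ supp (e ⁻¹' {n})ᶜ) ∧
      ∀ f, 𝓕.inc f n → res (e ⁻¹' 𝓕.far n f) ζ ∈ U' := by
  rw [XV, Submodule.mem_inf, Submodule.mem_inf, Submodule.mem_iInf, Subtype.forall]
  rfl

theorem f1_split_XV {U U' : Submodule ℂ (L2 Z)} (hU : Split (𝓕.blk ∘ e) U)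
    (hU' : Split (𝓕.blk ∘ e) U') (n : N) : Split (𝓕.blk ∘ e) (𝓕.XV e U U' n) := by
  intro β ζ hζ
  rw [f1_mem_XV] at hζ ⊢
  refine ⟨⟨hU β ζ hζ.1.1, f1_res_mem_supp_of_mem _ hζ.1.2⟩, fun f hf => ?_⟩
  rw [f1_res_comm]
  exact hU' β _ (hζ.2 f hf)

theorem split_ZV {U U' : Submodule ℂ (L2 Z)} (hU : Split (𝓕.blk ∘ e) U)
    (hU' : Split (𝓕.blk ∘ e) U') (n : N) : Split (𝓕.blk ∘ e) (𝓕.ZV e U U' n) :=
  hU.inf (split_orth (𝓕.f1_split_XV e hU hU' n))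

theorem f1_inc_far_iff (n z : N) (f : F) : 𝓕.inc f n ∧ z ∈ 𝓕.far n f ↔
    (𝓕.o f = n ∧ z ∈ 𝓕.side f) ∨ (𝓕.t f = n ∧ z ∉ 𝓕.side f) := by
  have h1 := 𝓕.t_mem f
  have h2 := 𝓕.o_notMem f
  change (𝓕.o f = n ∨ 𝓕.t f = n) ∧ ¬ (z ∈ 𝓕.side f ↔ n ∈ 𝓕.side f) ↔ _
  constructor
  · rintro ⟨rfl | rfl, h⟩ <;> tauto
  · rintro (⟨rfl, h⟩ | ⟨rfl, h⟩) <;> tauto

theorem f1_notMem_far_self (n : N) (f : F) : n ∉ 𝓕.far n f := fun h => h Iff.rfl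

theorem f1_ZE_far {U U' : Submodule ℂ (L2 Z)} (h : U ≤ U') (n : N) (f : F) :
    ZE U U' (e ⁻¹' 𝓕.side f) = ZE U U' (e ⁻¹' 𝓕.far n f) := by
  by_cases hn : n ∈ 𝓕.side f
  · rw [← ZE_compl h]
    congr 1
    ext z
    simp [far, hn]
  · congr 1
    ext z
    simp [far, hn]

theorem f1_inner_eq_add (n : N) (ξ : L2 Z) {ζ : L2 Z} (hζ : ζ ∈ 𝓕.Bl e (𝓕.blk n)) (D : Finset F)
    (hD : ∀ f ∈ D, 𝓕.inc f n)
    (h : ∀ f, 𝓕.inc f n → f ∉ D → ⟪ξ, res (e ⁻¹' 𝓕.far n f) ζ⟫_ℂ = 0) :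
    ⟪ξ, ζ⟫_ℂ = ⟪ξ, res (e ⁻¹' {n}) ζ⟫_ℂ + ∑ f ∈ D, ⟪ξ, res (e ⁻¹' 𝓕.far n f) ζ⟫_ℂ := by
  classical
  have hu : ∀ z, 𝓕.blk z = 𝓕.blk n ∧ z ≠ n → ∃! f, 𝓕.inc f n ∧ z ∈ 𝓕.far n f := fun z hz => by
    simp only [f1_inc_far_iff]
    exact 𝓕.uniq n z hz.1 hz.2
  let c : N → Option F := fun z =>
    if h : 𝓕.blk z = 𝓕.blk n ∧ z ≠ n then some (hu z h).exists.choose else none
  have hcongr : ∀ S T : Set N, (∀ z, 𝓕.blk z = 𝓕.blk n → (z ∈ S ↔ z ∈ T)) →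
      res (e ⁻¹' S) ζ = res (e ⁻¹' T) ζ := by
    intro S T hST
    rw [← res_eq_self hζ, res_res, res_res]
    congr 2
    ext z
    exact and_congr_left fun hz => hST (e z) hz
  have hnone : res ((c ∘ e) ⁻¹' {none}) ζ = res (e ⁻¹' {n}) ζ := by
    refine hcongr (c ⁻¹' {none}) {n} fun z hz => ?_
    by_cases hn : z = n <;> simp [c, hz, hn]
  have hsome : ∀ f z, 𝓕.blk z = 𝓕.blk n → (c z = some f ↔ 𝓕.inc f n ∧ z ∈ 𝓕.far n f) := by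
    intro f z hz
    by_cases hn : z = n
    · subst hn
      simp [c, 𝓕.f1_notMem_far_self]
    · have hz' : 𝓕.blk z = 𝓕.blk n ∧ z ≠ n := ⟨hz, hn⟩
      simp only [c, dif_pos hz', Option.some.injEq]
      exact ⟨fun h => h ▸ (hu z hz').exists.choose_spec,
        fun h => (hu z hz').unique (hu z hz').exists.choose_spec h⟩
  have hQ : ∀ f, 𝓕.inc f n → res ((c ∘ e) ⁻¹' {some f}) ζ = res (e ⁻¹' 𝓕.far n f) ζ :=
    fun f hf => hcongr (c ⁻¹' {some f}) _ fun z hz => (hsome f z hz).trans (and_iff_right hf)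
  have hQ' : ∀ f, ¬ 𝓕.inc f n → res ((c ∘ e) ⁻¹' {some f}) ζ = 0 := fun f hf =>
    res_eq_zero hζ fun z hz hb => hf ((hsome f (e z) hb).1 hz).1
  have h1 : HasSum (fun o => ⟪ξ, res ((c ∘ e) ⁻¹' {o}) ζ⟫_ℂ) ⟪ξ, ζ⟫_ℂ :=
    (hasSum_res (c ∘ e) ζ).mapL (innerSL ℂ ξ)
  have h2 := hasSum_sum_of_ne_finset_zero (L := SummationFilter.unconditional _)
    (f := fun o => ⟪ξ, res ((c ∘ e) ⁻¹' {o}) ζ⟫_ℂ) (s := Finset.insertNone D) (by
      rintro (_ | f) ho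
      · simp at ho
      · by_cases hf : 𝓕.inc f n
        · rw [hQ f hf]
          exact h f hf (by simpa using ho)
        · rw [hQ' f hf, inner_zero_right])
  rw [h1.unique h2, Finset.sum_insertNone, hnone]
  exact congrArg _ (Finset.sum_congr rfl fun f hf => by rw [hQ f (hD f hf)])

/-- The inequality at a node. -/
theorem Tr_ZV_le {U U' : Submodule ℂ (L2 Z)} (hc : Cls U) (hc' : Cls U')
    (hU : Split (𝓕.blk ∘ e) U) (hU' : Split (𝓕.blk ∘ e) U') (h : U ≤ U') (n : N) :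
    Tr (𝓕.ZV e U U' n ⊓ 𝓕.Bl e (𝓕.blk n)) + Tr (𝓕.ZV e U'ᗮ Uᗮ n ⊓ 𝓕.Bl e (𝓕.blk n)) ≤
      Tr (supp (e ⁻¹' {n})) +
        ∑' f : {f // 𝓕.inc f n}, Tr (ZE U U' (e ⁻¹' 𝓕.side f) ⊓ 𝓕.Bl e (𝓕.blk n)) := by
  classical
  simp only [𝓕.f1_ZE_far e h n]
  by_cases htop : Tr (supp (e ⁻¹' {n})) +
      ∑' f : {f // 𝓕.inc f n}, Tr (ZE U U' (e ⁻¹' 𝓕.far n f) ⊓ 𝓕.Bl e (𝓕.blk n)) = ∞
  · rw [htop]; exact le_top
  obtain ⟨ht1, ht2⟩ := ENNReal.add_ne_top.1 htop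
  have hfin := ENNReal.finite_const_le_of_tsum_ne_top ht2 one_ne_zero
  set D := hfin.toFinset with hD
  set Zf : F → Submodule ℂ (L2 Z) :=
    fun f => ZE U U' (e ⁻¹' 𝓕.far n f) ⊓ supp ((𝓕.blk ∘ e) ⁻¹' {𝓕.blk n}) with hZ
  have hZc : ∀ f, Cls (Zf f) := fun f => (f1_cls_ZE hc U' _).inf (cls_supp _)
  have hbot : ∀ f (hf : 𝓕.inc f n), (⟨f, hf⟩ : {f // 𝓕.inc f n}) ∉ D →
      ∀ ξ, proj (Zf f) ξ = 0 := by
    intro f hf hn ξ
    rw [hD, Set.Finite.mem_toFinset, Set.mem_ofPred_eq, not_le] at hn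
    exact (Submodule.eq_bot_iff _).1 (f1_eq_bot_of_Tr_lt_one hn) _ (f1_proj_mem_of_cls (hZc f) ξ)
  have hP : ∀ ξ : L2 Z, res (e ⁻¹' {n}) ξ = 0 → ξ ∈ supp (e ⁻¹' {n})ᶜ := fun ξ h0 => by
    rw [← res_add_res_compl (e ⁻¹' {n}) ξ, h0, zero_add]
    exact res_mem_supp _ _
  have key := f1_finrank_add_le (𝓕.ZV e U U' n ⊓ 𝓕.Bl e (𝓕.blk n))
    (𝓕.ZV e U'ᗮ Uᗮ n ⊓ 𝓕.Bl e (𝓕.blk n))
    (fun o : Option D => o.elim (supp (e ⁻¹' {n})) fun f => Zf f.1.1)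
    (by
      rintro (_ | f)
      · exact finiteDimensional_of_Tr ht1
      · exact finiteDimensional_of_Tr (ENNReal.ne_top_of_tsum_ne_top ht2 f.1))
    (fun o => o.elim (res (e ⁻¹' {n})) fun f => proj (Zf f.1.1))
    (fun o => o.elim (res (e ⁻¹' {n})) fun f => proj (Zf f.1.1) ∘L res (e ⁻¹' 𝓕.far n f.1.1))
    (by
      rintro (_ | f) ξ -
      · exact res_mem_supp _ _
      · exact f1_proj_mem_of_cls (hZc _) _)
    (by
      rintro (_ | f) ξ -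
      · exact res_mem_supp _ _
      · exact f1_proj_mem_of_cls (hZc _) _)
    (by
      rintro ξ ⟨⟨hξ1, -⟩, hξ3⟩ ζ ⟨⟨hζ1, -⟩, hζ3⟩
      have e4 := 𝓕.f1_inner_eq_add e n ξ hζ3 (D.map (Function.Embedding.subtype _))
        (by
          intro f hf
          obtain ⟨a, -, rfl⟩ := Finset.mem_map.1 hf
          exact a.2)
        (by
          intro f hf hn
          rw [f1_inner_Q_eq hc hc' hU hU' _ hξ1 hξ3 hζ1,
            hbot f hf (fun h => hn (Finset.mem_map.2 ⟨_, h, rfl⟩)), inner_zero_left])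
      rw [Submodule.inner_right_of_mem_orthogonal (h hξ1) hζ1, Finset.sum_map,
        ← Finset.sum_coe_sort D] at e4
      rw [Fintype.sum_option, e4]
      congr 1
      · change ⟪res (e ⁻¹' {n}) ξ, res (e ⁻¹' {n}) ζ⟫_ℂ = _
        rw [inner_res_left, res_res, Set.inter_self]
      · exact Finset.sum_congr rfl fun f _ => (f1_inner_Q_eq hc hc' hU hU' _ hξ1 hξ3 hζ1).symm)
    (by
      rintro ξ ⟨⟨hξ1, hξ2⟩, hξ3⟩ h0
      have f1 : ξ ∈ 𝓕.XV e U U' n := by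
        refine (𝓕.f1_mem_XV e).2 ⟨⟨hξ1, hP ξ (h0 none)⟩, fun f hf => ?_⟩
        have e9 : proj (Zf f) ξ = 0 := by
          by_cases hn : (⟨f, hf⟩ : {f // 𝓕.inc f n}) ∈ D
          · exact h0 (some ⟨_, hn⟩)
          · exact hbot f hf hn ξ
        have := f1_sub_proj_mem_XE hc hc' hU hU' (e ⁻¹' 𝓕.far n f) hξ1 hξ3
        rwa [e9, sub_zero] at this
      exact inner_self_eq_zero.1 (Submodule.inner_right_of_mem_orthogonal f1 hξ2))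
    (by
      rintro ζ ⟨⟨hζ1, hζ2⟩, hζ3⟩ h0
      have f2 : ζ ∈ 𝓕.XV e U'ᗮ Uᗮ n := by
        refine (𝓕.f1_mem_XV e).2 ⟨⟨hζ1, hP ζ (h0 none)⟩,
          fun f hf => f1_Q_mem_orth hc hc' hU hU' _ hζ1 hζ3 ?_⟩
        by_cases hn : (⟨f, hf⟩ : {f // 𝓕.inc f n}) ∈ D
        · exact h0 (some ⟨_, hn⟩)
        · exact hbot f hf hn _
      exact inner_self_eq_zero.1 (Submodule.inner_right_of_mem_orthogonal f2 hζ2))
  obtain ⟨k1, k2, k3⟩ := key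
  rw [Fintype.sum_option] at k3
  have := finiteDimensional_of_Tr ht1
  have hZf : ∀ f : D, FiniteDimensional ℂ (Zf f.1.1) := fun f =>
    finiteDimensional_of_Tr (ENNReal.ne_top_of_tsum_ne_top ht2 f.1)
  rw [Tr_eq_finrank, Tr_eq_finrank, Tr_eq_finrank]
  refine le_trans (by exact_mod_cast k3 : _ ≤ ((Module.finrank ℂ
    ↥(supp (e ⁻¹' {n})) : ℝ≥0∞) +
      ∑ f : D, (Module.finrank ℂ (Zf f.1.1) : ℝ≥0∞))) (add_le_add_right ?_ _)
  refine le_trans (le_of_eq ?_) (ENNReal.sum_le_tsum D)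
  rw [← Finset.sum_coe_sort D]
  exact Finset.sum_congr rfl fun f _ => (Tr_eq_finrank _).symm

end Forest

end Pool.Agent.P.MP_0f25e6_al.SQ
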