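import Pool.Agent.P.MP_0f25e6_al.SQ.Forest1
import Pool.Agent.P.MP_0f25e6_al.SQ.Trace

/-!
The mass transport argument on a forest.
-/

set_option autoImplicit false

open scoped InnerProductSpace ENNReal Topology
open Filter MulAction

noncomputable section

namespace Pool.Agent.P.MP_0f25e6_al.SQ

open HN

universe u

variable {G N F B Z : Type*} [Group G] [MulAction G N] [MulAction G F] [MulAction G B]
  [MulAction G Z]

namespace F2

section Fam

variable {X : Type*} [MulAction G X]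

/-- An equivariant family of subspaces. -/
def Fam (G : Type*) {X Z : Type*} [Group G] [MulAction G X] [MulAction G Z]
    (Φ : X → Submodule ℂ (L2 Z)) : Prop :=
  ∀ (g : G) x, ∀ u ∈ Φ x, act g u ∈ Φ (g • x)

/-- The total mass of a family of subspaces. -/
def mass (G : Type*) {X Z : Type*} [Group G] [MulAction G Z] (Φ : X → Submodule ℂ (L2 Z)) :
    ℝ≥0∞ :=
  osum G fun z => ∑' x, tau (Φ x) z

theorem act_res_of (g : G) {A A' : Set Z} (h : ∀ z, g • z ∈ A' ↔ z ∈ A) (u : L2 Z) :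
    res A' (act g u) = act g (res A u) := by
  rw [act_res]
  congr 2
  ext z
  rw [Set.mem_ofPred_eq, ← h, smul_inv_smul]

theorem Fam.inf {Φ Ψ : X → Submodule ℂ (L2 Z)} (h : Fam G Φ) (h' : Fam G Ψ) :
    Fam G fun x => Φ x ⊓ Ψ x :=
  fun g x u hu => ⟨h g x u hu.1, h' g x u hu.2⟩

theorem Fam.orth {Φ : X → Submodule ℂ (L2 Z)} (h : Fam G Φ) : Fam G fun x => (Φ x)ᗮ := by
  intro g x u hu w hw
  rw [← inv_inv g, ← inner_act_left]
  refine hu _ ?_
  have := h g⁻¹ _ w hw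
  rwa [inv_smul_smul] at this

theorem fam_const {U : Submodule ℂ (L2 Z)} (h : Inv G U) : Fam G fun _ : X => U :=
  fun g _ u hu => h g u hu

theorem fam_supp {A : X → Set Z} (hA : ∀ (g : G) x z, g • z ∈ A (g • x) ↔ z ∈ A x) :
    Fam G fun x => supp (A x) := by
  intro g x u hu z hz
  rw [act_apply]
  refine hu _ fun h => hz ?_
  rwa [← hA g, smul_inv_smul] at h

theorem fam_pre {A : X → Set Z} (hA : ∀ (g : G) x z, g • z ∈ A (g • x) ↔ z ∈ A x)
    {U : Submodule ℂ (L2 Z)} (h : Inv G U) : Fam G fun x => pre (res (A x)) U := by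
  intro g x u hu
  change res (A (g • x)) (act g u) ∈ U
  rw [act_res_of g (hA g x)]
  exact h g _ hu

theorem Fam.tau_smul {Φ : X → Submodule ℂ (L2 Z)} (h : Fam G Φ) (g : G) (x : X) (z : Z) :
    tau (Φ (g • x)) (g • z) = tau (Φ x) z := by
  have h1 : Φ (g • x) = img (act g) (Φ x) := by
    refine le_antisymm (fun u hu => ?_) ?_
    · have := h g⁻¹ _ u hu
      rw [inv_smul_smul] at this
      exact ⟨act g⁻¹ u, this, act_act_inv g u⟩
    · rintro _ ⟨u, hu, rfl⟩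
      exact h g x u hu
  rw [h1, tau_img_act]

theorem Fam.Tr_smul {Φ : X → Submodule ℂ (L2 Z)} (h : Fam G Φ) (g : G) (x : X) :
    Tr (Φ (g • x)) = Tr (Φ x) := by
  rw [Tr, Tr, ← (MulAction.toPerm g : Z ≃ Z).tsum_eq]
  exact tsum_congr fun z => h.tau_smul g x z

theorem Fam.mass_eq {Φ : X → Submodule ℂ (L2 Z)} (h : Fam G Φ) (hX : Free G X) (hZ : Free G Z) :
    mass G Φ = osum G fun x => Tr (Φ x) :=
  osum_swap hX hZ (fun z x => tau (Φ x) z) fun g z x => h.tau_smul g x z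

theorem Fam.mass_nat {Φ : X → Submodule ℂ (L2 Z)} (h : Fam G Φ) (hX : Free G X) (hZ : Free G Z)
    (hne : mass G Φ ≠ ⊤) : ∃ n : ℕ, mass G Φ = n := by
  rw [h.mass_eq hX hZ] at hne ⊢
  exact osum_nat (fun x => Tr_nat _) hne

end Fam

variable (𝓕 : Forest G N F B) (e : Z → N)

/-- The defect along an edge, in the block of the edge. -/
def EE (U U' : Submodule ℂ (L2 Z)) (f : F) : Submodule ℂ (L2 Z) :=
  ZE U U' (e ⁻¹' 𝓕.side f) ⊓ 𝓕.Bl e (𝓕.blk (𝓕.o f))

/-- The defect at a node, in the block of the node. -/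
def VV (U U' : Submodule ℂ (L2 Z)) (n : N) : Submodule ℂ (L2 Z) :=
  𝓕.ZV e U U' n ⊓ 𝓕.Bl e (𝓕.blk n)

variable {𝓕 e} {U U' : Submodule ℂ (L2 Z)}

theorem inc_smul (g : G) {f : F} {n : N} : 𝓕.inc (g • f) (g • n) ↔ 𝓕.inc f n := by
  rw [Forest.inc, Forest.inc, 𝓕.o_smul, 𝓕.t_smul, smul_left_cancel_iff, smul_left_cancel_iff]

theorem blk_of_inc {f : F} {n : N} (h : 𝓕.inc f n) : 𝓕.blk n = 𝓕.blk (𝓕.o f) := by
  rcases h with rfl | rfl
  exacts [rfl, 𝓕.blk_t f]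

theorem fam_Bl (he : ∀ (g : G) z, e (g • z) = g • e z) : Fam G (𝓕.Bl e) :=
  fam_supp (A := fun β => (𝓕.blk ∘ e) ⁻¹' {β}) fun g β z => by
    simp only [Set.mem_preimage, Function.comp_apply, Set.mem_singleton_iff]
    rw [he, 𝓕.blk_smul, smul_left_cancel_iff]

theorem fam_EE (he : ∀ (g : G) z, e (g • z) = g • e z) (hU : Inv G U) (hU' : Inv G U') :
    Fam G (EE 𝓕 e U U') := by
  have h1 : Fam G fun f => pre (res (e ⁻¹' 𝓕.side f)) U' :=
    fam_pre (fun g f z => by rw [Set.mem_preimage, Set.mem_preimage, he, 𝓕.side_smul]) hU'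
  refine ((fam_const hU).inf ((fam_const hU).inf h1).orth).inf fun g f u hu => ?_
  rw [𝓕.o_smul, 𝓕.blk_smul]
  exact fam_Bl he g _ u hu

theorem fam_VV (he : ∀ (g : G) z, e (g • z) = g • e z) (hU : Inv G U) (hU' : Inv G U') :
    Fam G (VV 𝓕 e U U') := by
  have h1 : Fam G fun n : N => supp (e ⁻¹' {n})ᶜ :=
    fam_supp fun g n z => by
      simp only [Set.mem_compl_iff, Set.mem_preimage, Set.mem_singleton_iff]
      rw [he, smul_left_cancel_iff]
  have h2 : Fam G fun n : N => ⨅ f : {f // 𝓕.inc f n}, pre (res (e ⁻¹' 𝓕.far n f)) U' := by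
    intro g n u hu
    rw [Submodule.mem_iInf] at hu ⊢
    rintro ⟨f, hf⟩
    obtain ⟨f, rfl⟩ := MulAction.surjective g f
    change res (e ⁻¹' 𝓕.far (g • n) (g • f)) (act g u) ∈ U'
    rw [act_res_of g (A := e ⁻¹' 𝓕.far n f) fun z => by
      simp only [Set.mem_preimage, Forest.far, Set.mem_ofPred_eq]
      rw [he, 𝓕.side_smul, 𝓕.side_smul]]
    exact hU' g _ (hu ⟨f, (inc_smul g).1 hf⟩)
  refine ((fam_const hU).inf (((fam_const hU).inf h1).inf h2).orth).inf fun g n u hu => ?_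
  rw [𝓕.blk_smul]
  exact fam_Bl he g _ u hu

omit [MulAction G Z] in
theorem tsum_EE (U U' : Submodule ℂ (L2 Z)) (z : Z) :
    ∑' f, tau (EE 𝓕 e U U' f) z =
      ∑' f : {f // 𝓕.blk (𝓕.o f) = 𝓕.blk (e z)}, tau (EE 𝓕 e U U' f) z := by
  refine ((Subtype.val_injective (p := fun f => 𝓕.blk (𝓕.o f) = 𝓕.blk (e z))).tsum_eq
    (f := fun f => tau (EE 𝓕 e U U' f) z) fun f hf => ?_).symm
  by_contra hn
  exact hf (tau_eq_zero_of_supp inf_le_right fun h => hn ⟨⟨f, Eq.symm h⟩, rfl⟩)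

omit [MulAction G Z] in
theorem EE_le_VV (h : U ≤ U') {f : F} {n : N} (hf : 𝓕.inc f n) :
    EE 𝓕 e U U' f ≤ VV 𝓕 e U U' n := by
  have h1 : ZE U U' (e ⁻¹' 𝓕.side f) = ZE U U' (e ⁻¹' 𝓕.far n f) := by
    by_cases hn : n ∈ 𝓕.side f
    · rw [← ZE_compl h]
      congr 1
      ext z
      simp [Forest.far, hn]
    · congr 1
      ext z
      simp [Forest.far, hn]
  rw [EE, VV, h1, blk_of_inc hf]
  refine inf_le_inf_right _ (inf_le_inf_left _ (Submodule.orthogonal_le fun u hu => ?_))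
  exact ⟨hu.1.1, (Submodule.mem_iInf _).1 hu.2 ⟨f, hf⟩⟩

omit [MulAction G Z] in
theorem tau_VV (hc : Cls U) (hU : Split (𝓕.blk ∘ e) U) (hU' : Split (𝓕.blk ∘ e) U') (z : Z) :
    tau (VV 𝓕 e U U' (e z)) z = tau U z := by
  have h1 : 𝓕.XV e U U' (e z) ≤ U := fun u hu => hu.1.1
  have h2 : tau (𝓕.XV e U U' (e z)) z = 0 :=
    tau_eq_zero_of_supp (S := (e ⁻¹' {e z})ᶜ) (inf_le_left.trans inf_le_right) fun hz => hz rfl
  rw [tau_split hc h1, h2, zero_add]
  exact tau_inf_supp (𝓕.split_ZV e hU hU' (e z) _) rfl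

theorem edim_add_mass_le (hc : Cls U) (hU : Split (𝓕.blk ∘ e) U) (hU' : Split (𝓕.blk ∘ e) U')
    (h : U ≤ U') : edim G U + mass G (EE 𝓕 e U U') ≤ mass G (VV 𝓕 e U U') := by
  classical
  rw [edim, mass, mass, ← osum_add]
  refine osum_mono fun z => ?_
  let hd : F → N := fun f => if e z ∈ 𝓕.side f then 𝓕.o f else 𝓕.t f
  have hd1 : ∀ f, (𝓕.o f = hd f ∧ e z ∈ 𝓕.side f) ∨ (𝓕.t f = hd f ∧ e z ∉ 𝓕.side f) := fun f => by
    by_cases h : e z ∈ 𝓕.side f <;> simp [hd, h]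
  have hd2 : ∀ f, 𝓕.inc f (hd f) := fun f => (hd1 f).imp And.left And.left
  have hne : ∀ f, e z ≠ hd f := fun f h => by
    rcases hd1 f with ⟨h1, h2⟩ | ⟨h1, h2⟩
    exacts [𝓕.o_notMem f (by rwa [h1, ← h]), h2 (by rw [h, ← h1]; exact 𝓕.t_mem f)]
  have hinj : Function.Injective fun f : {f // 𝓕.blk (𝓕.o f) = 𝓕.blk (e z)} => hd f.1 := by
    intro f f' h
    have h' : hd f.1 = hd f'.1 := h
    exact Subtype.ext ((𝓕.uniq (hd f.1) (e z) (by rw [blk_of_inc (hd2 _), f.2]) (hne _)).unique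
      (hd1 _) (h' ▸ hd1 _))
  rw [tsum_EE, ENNReal.tsum_eq_add_tsum_ite (β := N) (e z), tau_VV hc hU hU']
  refine add_le_add le_rfl (le_trans (ENNReal.tsum_le_tsum fun f => ?_)
    (ENNReal.tsum_comp_le_tsum_of_injective hinj _))
  rw [if_neg (hne f).symm]
  exact tau_mono (EE_le_VV h (hd2 f)) z

theorem mass_EE_le (hZ : Free G Z) (he : ∀ (g : G) z, e (g • z) = g • e z)
    (hU : Adm G (𝓕.blk ∘ e) U) (hU' : Adm G (𝓕.blk ∘ e) U') (h : U ≤ U') :
    mass G (EE 𝓕 e U U') ≤ mass G (EE 𝓕 e U'ᗮ Uᗮ) := by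
  rw [(fam_EE he hU.inv hU'.inv).mass_eq 𝓕.freeF hZ,
    (fam_EE he hU'.inv.orth hU.inv.orth).mass_eq 𝓕.freeF hZ]
  refine osum_mono fun f => ?_
  have h1 := Tr_ZE_orth_le (cls_orth U') (cls_orth U) (split_orth hU'.split) (split_orth hU.split)
    (Submodule.orthogonal_le h) (e ⁻¹' 𝓕.side f) (𝓕.blk (𝓕.o f))
  rwa [Submodule.orthogonal_orthogonal_eq_closure, Submodule.orthogonal_orthogonal_eq_closure,
    hU.cls.submodule_topologicalClosure_eq, hU'.cls.submodule_topologicalClosure_eq] at h1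

theorem mass_VV_add_le (hZ : Free G Z) (he : ∀ (g : G) z, e (g • z) = g • e z)
    (hU : Adm G (𝓕.blk ∘ e) U) (hU' : Adm G (𝓕.blk ∘ e) U') (h : U ≤ U') :
    mass G (VV 𝓕 e U U') + mass G (VV 𝓕 e U'ᗮ Uᗮ) ≤
      edim G (⊤ : Submodule ℂ (L2 Z)) + 2 * mass G (EE 𝓕 e U U') := by
  classical
  have h3 := fam_EE (𝓕 := 𝓕) he hU.inv hU'.inv
  let m : F → N → ℝ≥0∞ := fun f n => if 𝓕.inc f n then Tr (EE 𝓕 e U U' f) else 0
  have h5 : osum G (fun n => ∑' f, m f n) ≤ 2 * mass G (EE 𝓕 e U U') := by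
    rw [← osum_swap 𝓕.freeN 𝓕.freeF m fun g f n => by
      simp only [m, inc_smul, h3.Tr_smul], h3.mass_eq 𝓕.freeF hZ, ← osum_mul]
    refine osum_mono fun f => ?_
    calc ∑' n, m f n
        ≤ ∑' n, ((if n = 𝓕.o f then Tr (EE 𝓕 e U U' f) else 0) +
          (if n = 𝓕.t f then Tr (EE 𝓕 e U U' f) else 0)) := by
          refine ENNReal.tsum_le_tsum fun n => ?_
          by_cases hn : 𝓕.inc f n
          · rcases id hn with rfl | rfl <;> simp [m, hn]
          · simp [m, hn]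
      _ = _ := by rw [ENNReal.tsum_add, tsum_ite_eq, tsum_ite_eq, two_mul]
  refine le_trans ?_ (add_le_add le_rfl h5)
  rw [(fam_VV he hU.inv hU'.inv).mass_eq 𝓕.freeN hZ,
    (fam_VV he hU'.inv.orth hU.inv.orth).mass_eq 𝓕.freeN hZ,
    edim_eq_osum_Tr 𝓕.freeN hZ he inv_top fun _ _ _ => Submodule.mem_top, ← osum_add, ← osum_add]
  refine osum_mono fun n => ?_
  rw [top_inf_eq]
  refine (𝓕.Tr_ZV_le e hU.cls hU'.cls hU.split hU'.split h n).trans (add_le_add le_rfl ?_)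
  refine le_trans (le_of_eq (tsum_congr fun f => ?_))
    (ENNReal.tsum_comp_le_tsum_of_injective (Subtype.val_injective (p := fun f => 𝓕.inc f n)) _)
  rw [blk_of_inc f.2]
  exact (if_pos f.2).symm

end F2

open F2 in
/-- A pair of subspaces with finite total defect has an integer between its dimensions. -/
theorem Forest.sandwich (𝓕 : Forest G N F B) (hZ : Free G Z) (hc : Cofin G (Set.univ : Set Z))
    {e : Z → N} (he : ∀ (g : G) z, e (g • z) = g • e z) {U U' : Submodule ℂ (L2 Z)}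
    (hU : Adm G (𝓕.blk ∘ e) U) (hU' : Adm G (𝓕.blk ∘ e) U') (h : U ≤ U')
    (hfin : osum G (fun z => ∑' f : {f // 𝓕.blk (𝓕.o f) = 𝓕.blk (e z)},
      tau (ZE U U' (e ⁻¹' 𝓕.side f)) z) ≠ ⊤) :
    ∃ n : ℕ, dim G U ≤ n ∧ (n : ℝ) ≤ dim G U' := by
  have a0 : mass G (EE 𝓕 e U U') ≠ ⊤ := by
    refine ne_top_of_le_ne_top hfin (osum_mono fun z => ?_)
    rw [tsum_EE]
    exact ENNReal.tsum_le_tsum fun f => tau_mono inf_le_left z
  have a1 := edim_add_mass_le (G := G) hU.cls hU.split hU'.split h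
  have a2 := edim_add_mass_le (G := G) (cls_orth U') (split_orth hU'.split) (split_orth hU.split)
    (Submodule.orthogonal_le h)
  have a3 := mass_VV_add_le hZ he hU hU' h
  have a4 := mass_EE_le hZ he hU hU' h
  have a5 : edim G (⊤ : Submodule ℂ (L2 Z)) = edim G U' + edim G U'ᗮ := by
    rw [edim_split cls_top (le_top : U' ≤ ⊤), top_inf_eq]
  obtain ⟨s, hs⟩ := (fam_EE he hU.inv hU'.inv).mass_nat 𝓕.freeF hZ a0
  have b0 : mass G (VV 𝓕 e U U') ≠ ⊤ := by
    refine ne_top_of_le_ne_top ?_ (le_self_add.trans a3)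
    have := edim_ne_top hc (⊤ : Submodule ℂ (L2 Z))
    finiteness
  obtain ⟨l, hl⟩ := (fam_VV he hU.inv hU'.inv).mass_nat 𝓕.freeN hZ b0
  rw [hs, hl] at a1 a3
  rw [hs] at a4
  have b1 : (l : ℝ≥0∞) ≤ edim G U' + s := by
    have c1 : l + (edim G U'ᗮ + s) ≤ edim G U' + s + (edim G U'ᗮ + s) := by
      refine (add_le_add le_rfl ((add_le_add le_rfl a4).trans a2)).trans (a3.trans_eq ?_)
      rw [a5]
      ring
    have := edim_ne_top hc U'ᗮ
    exact (ENNReal.add_le_add_iff_right (by finiteness)).1 c1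
  have b2 : s ≤ l := by exact_mod_cast le_add_self.trans a1
  have f1 := edim_ne_top hc U
  have f2 := edim_ne_top hc U'
  have c1 := ENNReal.toReal_mono (by finiteness) a1
  have c2 := ENNReal.toReal_mono (by finiteness) b1
  rw [ENNReal.toReal_add (by finiteness) (by finiteness), ENNReal.toReal_natCast,
    ENNReal.toReal_natCast] at c1 c2
  refine ⟨l - s, ?_, ?_⟩ <;> rw [Nat.cast_sub b2, dim] <;> linarith

end Pool.Agent.P.MP_0f25e6_al.SQ
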