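import Pool.Agent.P.MP_0f25e6_al.TT13

/-!
The deformation along the walls of a space with walls, for coordinates located at arbitrary
vertices.
-/

set_option autoImplicit false

open scoped InnerProductSpace ENNReal Topology
open Filter

noncomputable section

namespace Pool.Agent.P.MP_0f25e6_al.TT

/-- A space with walls: `S v w` is the finite set of walls separating `v` from `w`. -/
structure PW (G V W : Type*) [Group G] [MulAction G V] [MulAction G W] where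
  S : V → V → Finset W
  S_smul : ∀ (g : G) e v w, g • e ∈ S (g • v) (g • w) ↔ e ∈ S v w
  S_tri : ∀ e u v w, e ∈ S u w ↔ ¬ (e ∈ S u v ↔ e ∈ S v w)

variable {G Γ I W K V : Type*} [Group G] [Group Γ] {π : Γ →* G} [MulAction G W] [MulAction G V]

namespace PW

variable (𝒲 : PW G V W)

theorem notMem_S_self (e : W) (v : V) : e ∉ 𝒲.S v v := by
  have := 𝒲.S_tri e v v v
  tauto

theorem S_symm (e : W) (v w : V) : e ∈ 𝒲.S v w ↔ e ∈ 𝒲.S w v := by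
  have h1 := 𝒲.S_tri e v w v
  have h2 := 𝒲.notMem_S_self e v
  tauto

/-- Restriction to the side of the wall `e` not containing `v`. -/
def Q (o : I → V) (v : V) (e : W) : L2 (G × I) →L[ℂ] L2 (G × I) := Pr G o {z | e ∈ 𝒲.S v z}

/-- The vectors of `X` whose two halves along the wall `e` lie in `Y`. -/
def XE (o : I → V) (v₀ : V) (X Y : Submodule ℂ (L2 (G × I))) (e : W) : Submodule ℂ (L2 (G × I)) :=
  X ⊓ Y.comap (𝒲.Q o v₀ e : L2 (G × I) →ₗ[ℂ] L2 (G × I))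

/-- The defect of the pair along a wall. -/
def ZE (o : I → V) (v₀ : V) (X Y : Submodule ℂ (L2 (G × I))) (e : W) : Submodule ℂ (L2 (G × I)) :=
  X ⊓ (𝒲.XE o v₀ X Y e)ᗮ

end PW

theorem loc_mul {B : Type*} [MulAction G B] (b : I → B) (g x : G) (c : I) :
    loc b (g, c) = x • loc b (g * x, c) := by
  simp [loc, mul_smul]

namespace Def

variable [Group K] [Fintype K] (D : Def π W K) (𝒲 : PW G V W) (o : I → V) (v₀ : V)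

/-- The deformation, as a linear isometry. -/
def Joi : L2 (Γ × I) →ₗᵢ[ℂ] L2 (Γ × I) :=
  blockOp (Prod.map π id) (fun i => D.Bp I (𝒲.S v₀ (loc o i))) fun i ζ => by
    have := D.Fb_Bp {i} (𝒲.S v₀ (loc o i)) ζ
    exact (congrArg norm this).trans (D.norm_Bp _ _)

/-- The deformation. -/
def Jo : L2 (Γ × I) →L[ℂ] L2 (Γ × I) := (D.Joi 𝒲 o v₀).toContinuousLinearMap

theorem Jo_apply (ζ : L2 (Γ × I)) (x : Γ) (c : I) :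
    D.Jo 𝒲 o v₀ ζ (x, c) = D.Bp I (𝒲.S v₀ (loc o (π x, c))) ζ (x, c) := rfl

theorem norm_Jo (ζ : L2 (Γ × I)) : ‖D.Jo 𝒲 o v₀ ζ‖ = ‖ζ‖ := (D.Joi 𝒲 o v₀).norm_map ζ

theorem Fb_Jo (A : Set (G × I)) (ζ : L2 (Γ × I)) :
    Fb π A (D.Jo 𝒲 o v₀ ζ) = D.Jo 𝒲 o v₀ (Fb π A ζ) := by
  ext ⟨x, c⟩
  rw [Jo_apply, ← Fb_Bp]
  by_cases hx : (π x, c) ∈ A
  · rw [Fb_apply_of_mem _ hx, Fb_apply_of_mem _ hx, Jo_apply]
  · rw [Fb_apply_of_notMem _ hx, Fb_apply_of_notMem _ hx]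

theorem Fb_Jo_eq (i : G × I) (ζ : L2 (Γ × I)) :
    Fb π {i} (D.Jo 𝒲 o v₀ ζ) = Fb π {i} (D.Bp I (𝒲.S v₀ (loc o i)) ζ) := by
  ext ⟨x, c⟩
  by_cases hx : (π x, c) ∈ ({i} : Set (G × I))
  · rw [Fb_apply_of_mem _ hx, Fb_apply_of_mem _ hx, Jo_apply, show (π x, c) = i from hx]
  · rw [Fb_apply_of_notMem _ hx, Fb_apply_of_notMem _ hx]

theorem Jo_R (x : Γ) (ζ : L2 (Γ × I)) :
    D.Jo 𝒲 o v₀ (R x ζ) = D.Bp I (𝒲.S v₀ (π x • v₀)) (R x (D.Jo 𝒲 o v₀ ζ)) := by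
  ext ⟨y, c⟩
  have h1 : ∀ η : L2 (Γ × I), R x (Fb π {(π y * π x, c)} η) = Fb π {(π y, c)} (R x η) :=
    fun η => R_Fb x (fun g c => by simp) η
  have h2 : Fb π {(π y, c)} (R x (D.Jo 𝒲 o v₀ ζ)) = Fb π {(π y, c)}
      (D.Bp I (𝒲.S (π x • v₀) (loc o (π y, c))) (R x ζ)) := by
    rw [← h1, Fb_Jo_eq, h1, D.R_Bp x _ (𝒲.S (π x • v₀) (loc o (π y, c)))]
    intro e
    rw [← 𝒲.S_smul (π x) e, ← loc_mul]
  rw [Jo_apply, D.Bp_congr _ h2 rfl,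
    ← D.Bp_mul_Bp _ _ _ fun e => 𝒲.S_tri e v₀ (π x • v₀) (loc o (π y, c))]
  rfl

theorem Jo_Jo (ζ : L2 (Γ × I)) : D.Jo 𝒲 o v₀ (D.Jo 𝒲 o v₀ ζ) = ζ := by
  ext ⟨x, c⟩
  rw [Jo_apply, D.Bp_congr _ (D.Fb_Jo_eq 𝒲 o v₀ (π x, c) ζ) rfl]
  have := D.Bp_mul_Bp (I := I) (𝒲.S v₀ (loc o (π x, c))) (𝒲.S v₀ (loc o (π x, c))) ∅ (by simp)
  exact congrArg (fun T : L2 (Γ × I) →L[ℂ] L2 (Γ × I) => T ζ (x, c)) this

theorem inner_Jo (u v : L2 (Γ × I)) : ⟪u, D.Jo 𝒲 o v₀ v⟫_ℂ = ⟪D.Jo 𝒲 o v₀ u, v⟫_ℂ := by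
  conv_lhs => rw [← D.Jo_Jo 𝒲 o v₀ u]
  exact (D.Joi 𝒲 o v₀).inner_map_map _ _

theorem Jo_of_fibre {i : G × I} {ζ : L2 (Γ × I)} (h : Fb π {i} ζ = ζ) :
    D.Jo 𝒲 o v₀ ζ = D.Bp I (𝒲.S v₀ (loc o i)) ζ := by
  conv_lhs => rw [← h, ← Fb_Jo, Fb_Jo_eq, Fb_Bp, h]

theorem comm_Bp (T : L2 (Γ × I) →L[ℂ] L2 (Γ × I)) (h : ∀ y ζ, T (R y ζ) = R y (T ζ))
    (S : Finset W) (ζ : L2 (Γ × I)) : T (D.Bp I S ζ) = D.Bp I S (T ζ) := by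
  classical
  induction S using Finset.induction_on with
  | empty => rfl
  | insert a S ha ih =>
    rw [D.Bp_insert_apply ha, D.Bp_insert_apply ha, U_def, U_def, map_sub, map_smul,
      D.comm_A a a T fun k ζ => h _ ζ, ih]

/-- The image of a subspace under the deformation. -/
def Jom (X : Submodule ℂ (L2 (Γ × I))) : Submodule ℂ (L2 (Γ × I)) :=
  X.comap (D.Jo 𝒲 o v₀ : L2 (Γ × I) →ₗ[ℂ] L2 (Γ × I))

theorem mem_Jom {X : Submodule ℂ (L2 (Γ × I))} {ζ : L2 (Γ × I)} :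
    ζ ∈ D.Jom 𝒲 o v₀ X ↔ D.Jo 𝒲 o v₀ ζ ∈ X := Iff.rfl

theorem isClosed_Jom {X : Submodule ℂ (L2 (Γ × I))} (h : IsClosed (X : Set (L2 (Γ × I)))) :
    IsClosed (D.Jom 𝒲 o v₀ X : Set (L2 (Γ × I))) := h.preimage (D.Jo 𝒲 o v₀).continuous

theorem inv_Jom {X : Submodule ℂ (L2 (Γ × I))} (h : Inv X) : Inv (D.Jom 𝒲 o v₀ X) := by
  intro x ζ hζ
  rw [mem_Jom, Jo_R]
  exact D.Bp_mem h _ (h x _ hζ)

theorem loc_Jom {E : Type*} (A : E → Set (G × I)) {X : Submodule ℂ (L2 (Γ × I))}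
    (h : Loc (fun ε => Fb π (A ε)) X) : Loc (fun ε => Fb π (A ε)) (D.Jom 𝒲 o v₀ X) :=
  ⟨D.isClosed_Jom 𝒲 o v₀ h.closed, D.inv_Jom 𝒲 o v₀ h.inv, fun ε ζ hζ => by
    rw [mem_Jom, ← Fb_Jo]
    exact h.stable ε _ hζ⟩

theorem dim_Jom [Fintype I] {X : Submodule ℂ (L2 (Γ × I))} (hX : Inv X) :
    dim (D.Jom 𝒲 o v₀ X) = dim X := by
  refine Finset.sum_congr rfl fun c _ => ?_
  have h := proj_comm (X := D.Jom 𝒲 o v₀ X) (Y := X) (D.Jo 𝒲 o v₀) (D.Jo 𝒲 o v₀)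
    (D.inner_Jo 𝒲 o v₀) (fun v hv => X.le_orthogonal_orthogonal hv)
    (fun v hv => Submodule.le_orthogonal_orthogonal _ (by rwa [mem_Jom, Jo_Jo])) (delta (1, c))
  rw [D.Jo_of_fibre 𝒲 o v₀ (i := (1, c)) (res_delta_of_mem (by simp)),
    D.comm_Bp _ hX.proj_R] at h
  rw [pn, pn, ← D.norm_Jo 𝒲 o v₀, ← h, norm_Bp]

variable {σ : G →* Γ} {hσ : Function.Injective σ}

theorem Jo_mem_Ind (hπσ : ∀ g, π (σ g) = g) (b : I → W) {Φ : Submodule ℂ (L2 (G × I))}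
    (hLoc : ∀ f : L2 (G × I), (∀ v : V, ∃ φ ∈ Φ, ∀ i : G × I,
      (∀ e ∈ 𝒲.S v (loc o i), e = loc b i) → f i = φ i) → f ∈ Φ)
    {ζ : L2 (Γ × I)} (hζ : ζ ∈ Ind σ hσ Φ) (h : ∀ c, ζ ∈ (D.Yc c (b c))ᗮ) :
    D.Jo 𝒲 o v₀ ζ ∈ Ind σ hσ Φ := by
  rw [mem_Ind]
  intro y
  refine hLoc _ fun v => ⟨_, mem_Ind.1 (D.Bp_mem (inv_Ind _) (𝒲.S v₀ ((π y)⁻¹ • v)) hζ) y, ?_⟩
  rintro ⟨g, c⟩ hi
  have h0 : loc o (g, c) = π y • loc o (π (σ g * y), c) := by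
    rw [map_mul, hπσ, ← loc_mul]
  have h1 := D.Fb_Bp_eq (g := π (σ g * y)) (c := c) (ζ := ζ)
    (𝒲.S ((π y)⁻¹ • v) (loc o (π (σ g * y), c))) fun e he => by
      rw [← 𝒲.S_smul (π y), smul_inv_smul, ← h0] at he
      rw [map_mul, hπσ, mul_smul, hi _ he]
      simpa [loc] using h c
  rw [pull_apply, pull_apply, R_apply, R_apply, Jo_apply,
    ← D.Bp_mul_Bp _ _ _ fun e => 𝒲.S_tri e v₀ ((π y)⁻¹ • v) (loc o (π (σ g * y), c)),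
    ← D.Bp_congr _ h1 rfl]
  rfl

theorem dim_inf_Jom_ge [Fintype I] (hπσ : ∀ g, π (σ g) = g) (b : I → W)
    {Φ : Submodule ℂ (L2 (G × I))}
    (hLoc : ∀ f : L2 (G × I), (∀ v : V, ∃ φ ∈ Φ, ∀ i : G × I,
      (∀ e ∈ 𝒲.S v (loc o i), e = loc b i) → f i = φ i) → f ∈ Φ)
    {X Y : Submodule ℂ (L2 (Γ × I))} (hXc : IsClosed (X : Set (L2 (Γ × I)))) (hX : Inv X)
    (hXF : X ≤ Ind σ hσ Φ) (hY : ∀ ζ ∈ X, D.Jo 𝒲 o v₀ ζ ∈ Ind σ hσ Φ → ζ ∈ Y) :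
    dim X - Fintype.card I * (Fintype.card K : ℝ)⁻¹ ≤ dim Y := by
  classical
  obtain ⟨X', h1, -, -, h4, h5⟩ :=
    D.exists_big (Finset.univ.map ⟨fun c => (c, b c), fun _ _ h => congrArg Prod.fst h⟩) hXc hX
  rw [Finset.card_map, Finset.card_univ] at h4
  refine h4.trans (dim_mono' fun ζ hζ => hY ζ (h1 hζ) ?_)
  exact D.Jo_mem_Ind 𝒲 o v₀ hπσ b hLoc (hXF (h1 hζ)) fun c =>
    h5 (c, b c) (Finset.mem_map.2 ⟨c, Finset.mem_univ _, rfl⟩) hζ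

theorem A_Jo (e : W) (ζ : L2 (Γ × I)) :
    D.Jo 𝒲 o v₀ (D.A I e ζ) = D.A I e (D.Jo 𝒲 o v₀ ζ) := by
  refine D.comm_A _ _ _ (fun k ζ => ?_) ζ
  have h : 𝒲.S v₀ (π (D.s e k) • v₀) = ∅ := by
    ext e'
    simpa [D.π_s] using 𝒲.notMem_S_self e' v₀
  rw [Jo_R, h]
  rfl

variable (σ hσ) in
/-- The error in the first order expansion. -/
def erro (e : W) : L2 (G × I) →L[ℂ] L2 (Γ × I) :=
  D.Jo 𝒲 o v₀ ∘L D.A I e ∘L extn σ hσ - D.A I e ∘L extn σ hσ ∘L (1 - (2 : ℂ) • 𝒲.Q o v₀ e)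

theorem erro_def (e : W) (θ : L2 (G × I)) : D.erro 𝒲 o v₀ σ hσ e θ =
    D.Jo 𝒲 o v₀ (D.A I e (extn σ hσ θ)) -
      D.A I e (extn σ hσ (θ - (2 : ℂ) • 𝒲.Q o v₀ e θ)) := rfl

theorem A_erro (e : W) (θ : L2 (G × I)) :
    D.A I e (D.erro 𝒲 o v₀ σ hσ e θ) = D.erro 𝒲 o v₀ σ hσ e θ := by
  rw [erro_def, map_sub, ← A_Jo, A_A, A_A]

theorem norm_erro_le (hπσ : ∀ g, π (σ g) = g) (e : W) (θ : L2 (G × I)) :
    √(Fintype.card K) * ‖D.erro 𝒲 o v₀ σ hσ e θ‖ ≤ 4 * ‖θ‖ := by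
  rw [erro_def]
  refine (mul_le_mul_of_nonneg_left (norm_sub_le _ _) (Real.sqrt_nonneg _)).trans ?_
  rw [mul_add, norm_Jo, D.norm_A_extn hπσ, D.norm_A_extn hπσ]
  have h1 := norm_sub_le θ ((2 : ℂ) • 𝒲.Q o v₀ e θ)
  have h2 : ‖𝒲.Q o v₀ e θ‖ ≤ ‖θ‖ := norm_res_le _ _
  rw [norm_smul, Complex.norm_two] at h1
  linarith

theorem norm_erro_delta (hπσ : ∀ g, π (σ g) = g) (e : W) (g : G) (c : I) :
    ‖D.erro 𝒲 o v₀ σ hσ e (delta (g, c))‖ ≤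
      (𝒲.S v₀ (loc o (g, c))).card * (2 * (Fintype.card K : ℝ)⁻¹) := by
  classical
  have h1 : Fb π {(g, c)} (D.A I e (extn σ hσ (delta (g, c)))) =
      D.A I e (extn σ hσ (delta (g, c))) := by
    rw [Fb_A, extn_delta, Fb, res_delta_of_mem]
    simp [hπσ]
  rw [erro_def, D.Jo_of_fibre 𝒲 o v₀ h1]
  by_cases he : e ∈ 𝒲.S v₀ (loc o (g, c))
  · have h2 : 𝒲.Q o v₀ e (delta (g, c)) = delta (g, c) := res_delta_of_mem he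
    have h3 := D.norm_Bp_sub (hσ := hσ) hπσ _ (Finset.notMem_erase e (𝒲.S v₀ (loc o (g, c))))
      (delta (g, c))
    rw [norm_delta, mul_one] at h3
    set x := D.A I e (extn σ hσ (delta (g, c))) with hx
    have h4 : D.Bp I (𝒲.S v₀ (loc o (g, c))) x =
        - D.Bp I ((𝒲.S v₀ (loc o (g, c))).erase e) x := by
      conv_lhs => rw [← Finset.insert_erase he]
      rw [D.Bp_insert_apply (Finset.notMem_erase _ _), U_def, A_Bp, hx, A_A]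
      module
    have h5 : D.A I e (extn σ hσ (delta (g, c) - (2 : ℂ) • delta (g, c))) = - x := by
      rw [map_sub, map_sub, map_smul, map_smul]
      module
    rw [h2, h4, h5, neg_sub_neg, norm_sub_rev]
    refine h3.trans (mul_le_mul_of_nonneg_right ?_ (by positivity))
    exact Nat.cast_le.2 Finset.card_erase_le
  · have h2 : 𝒲.Q o v₀ e (delta (g, c)) = 0 := res_delta_of_notMem he
    have h3 := D.norm_Bp_sub (hσ := hσ) hπσ _ he (delta (g, c))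
    rw [norm_delta, mul_one] at h3
    rwa [h2, smul_zero, sub_zero]

end Def

end Pool.Agent.P.MP_0f25e6_al.TT
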