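import Pool.Agent.P.MP_0f25e6_al.SQ.GA1

/-!
The limit of small density: first order bounds for the total mass of a family of subspaces.
-/

set_option autoImplicit false

open scoped InnerProductSpace ENNReal Topology
open Filter

noncomputable section

namespace Pool.Agent.P.MP_0f25e6_al.TT

variable {G Γ I W V : Type*} [Group G] [Group Γ] {π : Γ →* G} [MulAction G W] [MulAction G V]
  {σ : G →* Γ} {hσ : Function.Injective σ} {K : ℕ → Type*} [∀ m, Group (K m)]
  [∀ m, Fintype (K m)] (D : ∀ m, Def π W (K m))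

omit [MulAction G V] in
/-- The first order bound, with error terms. -/
theorem first_order_err [Fintype I] (hπσ : ∀ g, π (σ g) = g)
    (hK : Tendsto (fun m => (Fintype.card (K m) : ℝ)) atTop atTop)
    (U : ℕ → Submodule ℂ (L2 (Γ × I))) (M : W → Submodule ℂ (L2 (G × I))) {κ : ℝ}
    (hU : ∀ m, dim (U m) ≤ κ * (Fintype.card (K m) : ℝ)⁻¹)
    (h : ∀ e, ∀ w ∈ M e, ∃ r : ℕ → L2 (Γ × I), (∀ m, (D m).A I e (r m) = r m) ∧
      Tendsto (fun m => √(Fintype.card (K m)) * ‖r m‖) atTop (𝓝 0) ∧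
      ∀ m, (D m).A I e (extn σ hσ w) + r m ∈ U m) :
    mass M ≤ ENNReal.ofReal κ := by
  have hm : ∀ m, (0 : ℝ) < Fintype.card (K m) := fun m => Nat.cast_pos.2 Fintype.card_pos
  have key : ∀ (E : Finset W) (w : I → W → L2 (G × I)), (∀ c e, w c e ∈ M e) →
      ∑ c, ∑ e ∈ E, (2 * (⟪delta ((1 : G), c), w c e⟫_ℂ).re - ‖w c e‖ ^ 2) ≤ κ := by
    intro E w hw
    choose r hr1 hr2 hr3 using fun c e => h e (w c e) (hw c e)
    have hlim := tendsto_finsetSum Finset.univ fun c _ =>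
      tendsto_main (hσ := hσ) D hπσ hK E (w c) (fun m e => r c e m) (fun m e => hr1 c e m)
        (fun e => hr2 c e) (delta (1, c))
    refine le_of_tendsto' hlim fun m => ?_
    have h1 := hU m
    rw [← div_eq_mul_inv, le_div_iff₀ (hm m), mul_comm] at h1
    rw [← Finset.mul_sum]
    refine le_trans (mul_le_mul_of_nonneg_left (Finset.sum_le_sum fun c _ => ?_) (hm m).le) h1
    rw [extn_delta, map_one]
    exact le_pn _ (Submodule.le_orthogonal_orthogonal _ (Submodule.sum_mem _ fun e _ => hr3 c e m))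
  rw [mass, ENNReal.tsum_eq_iSup_sum]
  refine iSup_le fun E => ?_
  simp only [← ENNReal.ofReal_sum_of_nonneg fun _ _ => pn_nonneg _ _]
  rw [← ENNReal.ofReal_sum_of_nonneg fun _ _ => Finset.sum_nonneg fun _ _ => pn_nonneg _ _]
  refine ENNReal.ofReal_le_ofReal (le_of_forall_pos_le_add fun η hη => ?_)
  set N : ℝ := Fintype.card I * E.card + 1 with hN
  have hN0 : 0 < N := by positivity
  choose w hw hw' using fun (c : I) (e : W) =>
    exists_approx (M e) (delta ((1 : G), c)) (div_pos hη hN0)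
  have h1 := key E w hw
  have h2 : ∑ c, ∑ e ∈ E, (pn (M e) (delta ((1 : G), c)) - η / N) ≤ κ :=
    le_trans (Finset.sum_le_sum fun c _ => Finset.sum_le_sum fun e _ => hw' c e) h1
  simp only [Finset.sum_sub_distrib, Finset.sum_const, Finset.card_univ, nsmul_eq_mul] at h2
  rw [Finset.sum_comm]
  have h3 : Fintype.card I * (E.card * (η / N)) ≤ η := by
    rw [← mul_assoc, ← mul_div_assoc, div_le_iff₀ hN0, hN]
    nlinarith
  linarith

omit [MulAction G V] in
/-- The first order bound. -/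
theorem first_order [Fintype I] (hπσ : ∀ g, π (σ g) = g)
    (hK : Tendsto (fun m => (Fintype.card (K m) : ℝ)) atTop atTop)
    (U : ℕ → Submodule ℂ (L2 (Γ × I))) (M : W → Submodule ℂ (L2 (G × I))) {κ : ℝ}
    (hU : ∀ m, dim (U m) ≤ κ * (Fintype.card (K m) : ℝ)⁻¹)
    (h : ∀ m e, ∀ w ∈ M e, (D m).A I e (extn σ hσ w) ∈ U m) :
    mass M ≤ ENNReal.ofReal κ :=
  first_order_err (hσ := hσ) D hπσ hK U M hU fun e w hw =>
    ⟨fun _ => 0, fun _ => map_zero _, by simp, fun m => by simpa using h m e w hw⟩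

variable (𝒲 : PW G V W) (o : I → V) (v₀ : V)

theorem tendsto_erro (hπσ : ∀ g, π (σ g) = g)
    (hK : Tendsto (fun m => (Fintype.card (K m) : ℝ)) atTop atTop) (e : W) (θ : L2 (G × I)) :
    Tendsto (fun m => √(Fintype.card (K m)) * ‖(D m).erro 𝒲 o v₀ σ hσ e θ‖) atTop (𝓝 0) := by
  have hn : ∀ m (v : L2 (G × I)), ‖(((√(Fintype.card (K m)) : ℝ) : ℂ) •
      (D m).erro 𝒲 o v₀ σ hσ e) v‖ = √(Fintype.card (K m)) * ‖(D m).erro 𝒲 o v₀ σ hσ e v‖ := by
    intro m v
    rw [smul_apply, norm_smul, Complex.norm_real,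
      Real.norm_of_nonneg (Real.sqrt_nonneg _)]
  have h := tendsto_zero_of_delta
    (fun m => ((√(Fintype.card (K m)) : ℝ) : ℂ) • (D m).erro 𝒲 o v₀ σ hσ e) (C := 4) (by norm_num)
    (fun m v => by rw [hn]; exact (D m).norm_erro_le 𝒲 o v₀ hπσ e v) (by
      rintro ⟨g, c⟩
      rw [tendsto_zero_iff_norm_tendsto_zero]
      have h1 : Tendsto (fun m => ((𝒲.S v₀ (loc o (g, c))).card * 2 : ℝ) *
          (√(Fintype.card (K m)))⁻¹) atTop (𝓝 0) := by
        simpa using (Real.tendsto_sqrt_atTop.comp hK).inv_tendsto_atTop.const_mul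
          ((𝒲.S v₀ (loc o (g, c))).card * 2 : ℝ)
      refine squeeze_zero (fun _ => norm_nonneg _) (fun m => ?_) h1
      rw [hn]
      refine (mul_le_mul_of_nonneg_left ((D m).norm_erro_delta 𝒲 o v₀ hπσ e g c)
        (Real.sqrt_nonneg _)).trans (le_of_eq ?_)
      have hm : (0 : ℝ) < Fintype.card (K m) := Nat.cast_pos.2 Fintype.card_pos
      have h2 := Real.sqrt_pos.2 hm
      conv_lhs => rw [← Real.mul_self_sqrt hm.le, Real.sqrt_mul_self h2.le]
      field_simp) θ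
  rw [tendsto_zero_iff_norm_tendsto_zero] at h
  simpa only [hn] using h

theorem mass_ZEo_le [Fintype I] (hπσ : ∀ g, π (σ g) = g)
    (hK : Tendsto (fun m => (Fintype.card (K m) : ℝ)) atTop atTop)
    {X Y : Submodule ℂ (L2 (G × I))} (hXc : IsClosed (X : Set (L2 (G × I)))) (hX : Inv X)
    (hYc : IsClosed (Y : Set (L2 (G × I)))) (hXY : X ≤ Y) {κ : ℝ}
    (h : ∀ m, dim (Ind σ hσ X) - dim (Ind σ hσ X ⊓ (D m).Jom 𝒲 o v₀ (Ind σ hσ Y)) ≤
      κ * (Fintype.card (K m) : ℝ)⁻¹) :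
    mass (𝒲.ZE o v₀ X Y) ≤ ENNReal.ofReal κ := by
  let T : W → L2 (G × I) →L[ℂ] L2 (G × I) := fun e => proj X ∘L (1 - (2 : ℂ) • 𝒲.Q o v₀ e)
  have hT : ∀ e θ, T e θ = proj X (θ - (2 : ℂ) • 𝒲.Q o v₀ e θ) := fun _ _ => rfl
  have key := first_order_err (hσ := hσ) D hπσ hK
    (fun m => Ind σ hσ X ⊓ (Ind σ hσ X ⊓ (D m).Jom 𝒲 o v₀ (Ind σ hσ Y))ᗮ)
    (fun e => Yᗮ.map (T e).toLinearMap) (κ := κ)
    (fun m => by rw [dim_inf_orth (isClosed_Ind hXc) inf_le_left]; exact h m) (by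
      rintro e _ ⟨θ, hθ, rfl⟩
      refine ⟨fun m => proj (Ind σ hσ X) ((D m).erro 𝒲 o v₀ σ hσ e θ), fun m => ?_, ?_,
        fun m => ?_⟩
      · rw [← (D m).comm_A e e _ (fun k ζ => (inv_Ind X).proj_R _ ζ), (D m).A_erro]
      · exact squeeze_zero (fun m => by positivity)
          (fun m => mul_le_mul_of_nonneg_left (norm_proj_le _ _) (Real.sqrt_nonneg _))
          (tendsto_erro D 𝒲 o v₀ hπσ hK e θ)
      have h2 : (D m).A I e (extn σ hσ (T e θ)) +
          proj (Ind σ hσ X) ((D m).erro 𝒲 o v₀ σ hσ e θ) =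
          proj (Ind σ hσ X) ((D m).Jo 𝒲 o v₀ ((D m).A I e (extn σ hσ θ))) := by
        rw [Def.erro_def, map_sub, (D m).comm_A e e _ (fun k ζ => (inv_Ind X).proj_R _ ζ),
          proj_Ind_extn hXc hX, hT]
        abel
      change (D m).A I e (extn σ hσ (T e θ)) + _ ∈ _
      rw [h2]
      refine ⟨proj_mem' (isClosed_Ind hXc) _, (Submodule.mem_orthogonal _ _).2 fun u hu => ?_⟩
      rw [← inner_proj_left, proj_of_mem' hu.1, Def.inner_Jo]
      exact Submodule.inner_right_of_mem_orthogonal hu.2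
        ((D m).A_mem (inv_Ind Y).orth e (extn_mem_Ind_orth hθ)))
  have hdense : ∀ e, 𝒲.ZE o v₀ X Y e ≤ (Yᗮ.map (T e).toLinearMap)ᗮᗮ := by
    intro e z hz
    rw [Submodule.mem_orthogonal]
    intro u hu
    have h1 : proj X u - (2 : ℂ) • 𝒲.Q o v₀ e (proj X u) ∈ Y := by
      rw [← oo_eq hYc, Submodule.mem_orthogonal']
      intro θ hθ
      have h2 : ⟪u, T e θ⟫_ℂ = 0 :=
        Submodule.inner_left_of_mem_orthogonal (Submodule.mem_map_of_mem hθ) hu
      rw [hT, ← inner_proj_left, inner_sub_right, inner_smul_right, PW.Q, inner_Pr] at h2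
      rw [inner_sub_left, inner_smul_left, PW.Q, ← h2]
      simp [map_ofNat]
    have h2 : proj X u ∈ 𝒲.XE o v₀ X Y e := by
      refine ⟨proj_mem' hXc u, ?_⟩
      rw [Y.sub_mem_iff_right (hXY (proj_mem' hXc u)), Y.smul_mem_iff two_ne_zero] at h1
      exact h1
    rw [← proj_of_mem' hz.1, ← inner_proj_left]
    exact Submodule.inner_right_of_mem_orthogonal h2 hz.2
  refine le_trans ?_ key
  exact ENNReal.tsum_le_tsum fun e => Finset.sum_le_sum fun c _ =>
    ENNReal.ofReal_le_ofReal (pn_mono (hdense e) _)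

end Pool.Agent.P.MP_0f25e6_al.TT
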