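import Pool.Agent.P.MP_0f25e6_al.SQ.GA2

/-!
Integrality along a forest: local dimension counts.
-/

set_option autoImplicit false

open scoped InnerProductSpace ENNReal Topology
open Filter

noncomputable section

namespace Pool.Agent.P.MP_0f25e6_al.TT

/-- An oriented forest with vertices `E`, edges `F` and components indexed by `B`; `up f` meets the
component of `f` in the side of `f` that contains its head. -/
structure Forest (G E F B : Type*) [Group G] [MulAction G E] [MulAction G F] [MulAction G B] where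
  β : E → B
  lo : F → E
  hi : F → E
  up : F → Set E
  β_smul : ∀ (g : G) z, β (g • z) = g • β z
  lo_smul : ∀ (g : G) f, lo (g • f) = g • lo f
  hi_smul : ∀ (g : G) f, hi (g • f) = g • hi f
  up_smul : ∀ (g : G) f z, g • z ∈ up (g • f) ↔ z ∈ up f
  β_hi : ∀ f, β (hi f) = β (lo f)
  lo_notMem : ∀ f, lo f ∉ up f
  hi_mem : ∀ f, hi f ∈ up f
  uniq : ∀ v z, β z = β v → z ≠ v → ∃! f, (lo f = v ∧ z ∈ up f) ∨ (hi f = v ∧ z ∉ up f)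

variable {G I E F B Ξ : Type*} [Group G] [MulAction G E] [MulAction G F] [MulAction G B]
  [MulAction G Ξ]

/-- An equivariant family of subspaces. -/
def Eqf (Z : Ξ → Submodule ℂ (L2 (G × I))) : Prop := ∀ (g : G) ξ, ∀ ζ ∈ Z ξ, R g ζ ∈ Z (g • ξ)

theorem Eqf.orth {Z : Ξ → Submodule ℂ (L2 (G × I))} (h : Eqf Z) : Eqf fun ξ => (Z ξ)ᗮ := by
  intro g ξ ζ hζ
  rw [Submodule.mem_orthogonal]
  intro u hu
  rw [inner_R]
  refine Submodule.inner_right_of_mem_orthogonal ?_ hζ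
  simpa using h g⁻¹ _ u hu

theorem Eqf.inf {Z Z' : Ξ → Submodule ℂ (L2 (G × I))} (h : Eqf Z) (h' : Eqf Z') :
    Eqf fun ξ => Z ξ ⊓ Z' ξ := fun g ξ ζ hζ => ⟨h g ξ ζ hζ.1, h' g ξ ζ hζ.2⟩

/-- The mass of one member of a family. -/
def ms1 [Fintype I] (Z : Submodule ℂ (L2 (G × I))) : ℝ≥0∞ :=
  ∑ c : I, ENNReal.ofReal (pn Z (delta (1, c)))

theorem Eqf.tsum_orbit [Fintype I] {Z : Ξ → Submodule ℂ (L2 (G × I))} (h : Eqf Z) (ξ : Ξ) :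
    ∑' g : G, ms1 (Z (g • ξ)) = Tr (Z ξ) := by
  rw [Tr, ENNReal.tsum_prod']
  refine tsum_congr fun g => ?_
  rw [tsum_fintype, ms1]
  refine Finset.sum_congr rfl fun c _ => ?_
  have h1 : delta ((1 : G), c) = R g (delta (g, c)) := by rw [R_delta, mul_inv_cancel]
  rw [pn, h1, proj_comm (X := Z ξ) (R g) (R g⁻¹) (inner_R g)
    (fun v hv => Submodule.le_orthogonal_orthogonal _ (h g ξ v hv))
    (fun v hv => Submodule.le_orthogonal_orthogonal _ (by simpa using h g⁻¹ (g • ξ) v hv)),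
    norm_R, pn]

theorem Eqf.mass_nat [Fintype I] {Z : Ξ → Submodule ℂ (L2 (G × I))} (h : Eqf Z)
    (hfree : ∀ ξ : Ξ, Free G ξ) (hne : mass Z ≠ ∞) : ∃ n : ℕ, mass Z = n :=
  TT.mass_nat (G := G) (m := fun ξ => ms1 (Z ξ)) (fun ξ _ => hfree ξ)
    (fun ξ => by rw [h.tsum_orbit]; exact Tr_nat _) hne

namespace Forest

variable (𝓕 : Forest G E F B)

/-- The part of the forest behind the edge `f`, seen from its endpoint `v`. -/
def far (v : E) (f : F) : Set E := {z | (𝓕.lo f = v ∧ z ∈ 𝓕.up f) ∨ (𝓕.hi f = v ∧ z ∉ 𝓕.up f)}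

/-- Incidence. -/
def inc (f : F) (v : E) : Prop := 𝓕.lo f = v ∨ 𝓕.hi f = v

theorem lo_ne_hi (f : F) : 𝓕.lo f ≠ 𝓕.hi f := fun h => 𝓕.lo_notMem f (h ▸ 𝓕.hi_mem f)

theorem far_lo (f : F) : 𝓕.far (𝓕.lo f) f = 𝓕.up f := by
  ext z
  simp [far, (𝓕.lo_ne_hi f).symm]

theorem far_hi (f : F) : 𝓕.far (𝓕.hi f) f = (𝓕.up f)ᶜ := by
  ext z
  simp [far, 𝓕.lo_ne_hi f]

variable {𝓕} in
theorem inc.β_eq {f : F} {v : E} (h : 𝓕.inc f v) : 𝓕.β v = 𝓕.β (𝓕.lo f) := by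
  rcases h with rfl | rfl
  exacts [rfl, 𝓕.β_hi f]

theorem inc_smul (g : G) {f : F} {v : E} (h : 𝓕.inc f v) : 𝓕.inc (g • f) (g • v) := by
  rcases h with rfl | rfl
  exacts [Or.inl (𝓕.lo_smul g f), Or.inr (𝓕.hi_smul g f)]

variable (ε : I → E)

theorem loc_β (i : G × I) : loc (𝓕.β ∘ ε) i = 𝓕.β (loc ε i) := (𝓕.β_smul _ _).symm

variable {𝓕 ε} in
theorem Pr_congr {b : B} {ζ : L2 (G × I)} (hζ : ζ ∈ Bl G (𝓕.β ∘ ε) {b}) {A A' : Set E}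
    (h : ∀ z, 𝓕.β z = b → (z ∈ A ↔ z ∈ A')) : Pr G ε A ζ = Pr G ε A' ζ := by
  rw [← mem_Bl.1 hζ, Pr, Pr, Pr, res_res, res_res]
  congr 2
  ext i
  simp only [Set.mem_inter_iff, Set.mem_preimage, Set.mem_singleton_iff, loc_β]
  exact and_congr_left (h _)

/-- One block of a subspace. -/
def Xb (X : Submodule ℂ (L2 (G × I))) (v : E) : Submodule ℂ (L2 (G × I)) :=
  X ⊓ Bl G (𝓕.β ∘ ε) {𝓕.β v}

/-- The vectors of one block of `X` whose two halves along the edge `f` lie in `Y`. -/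
def XE (X Y : Submodule ℂ (L2 (G × I))) (f : F) : Submodule ℂ (L2 (G × I)) :=
  𝓕.Xb ε X (𝓕.lo f) ⊓ Y.comap (Pr G ε (𝓕.up f) : L2 (G × I) →ₗ[ℂ] L2 (G × I))

/-- The vectors of one block of `X` vanishing at `v` whose halves along the edges at `v` lie
in `Y`. -/
def XV (X Y : Submodule ℂ (L2 (G × I))) (v : E) : Submodule ℂ (L2 (G × I)) :=
  𝓕.Xb ε X v ⊓ (Pr G ε {v}).ker ⊓
    ⨅ f : {f // 𝓕.inc f v}, Y.comap (Pr G ε (𝓕.up f) : L2 (G × I) →ₗ[ℂ] L2 (G × I))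

/-- The defect of the pair along an edge. -/
def ZE (X Y : Submodule ℂ (L2 (G × I))) (f : F) : Submodule ℂ (L2 (G × I)) :=
  𝓕.Xb ε X (𝓕.lo f) ⊓ (𝓕.XE ε X Y f)ᗮ

/-- The defect of the pair at a vertex. -/
def ZV (X Y : Submodule ℂ (L2 (G × I))) (v : E) : Submodule ℂ (L2 (G × I)) :=
  𝓕.Xb ε X v ⊓ (𝓕.XV ε X Y v)ᗮ

variable {𝓕 ε} {X Y : Submodule ℂ (L2 (G × I))}

theorem inc.Xb_eq {f : F} {v : E} (h : 𝓕.inc f v) : 𝓕.Xb ε X v = 𝓕.Xb ε X (𝓕.lo f) := by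
  rw [Xb, Xb, h.β_eq]

theorem mem_XV {v : E} {ζ : L2 (G × I)} :
    ζ ∈ 𝓕.XV ε X Y v ↔ (ζ ∈ 𝓕.Xb ε X v ∧ Pr G ε {v} ζ = 0) ∧
      ∀ f, 𝓕.inc f v → Pr G ε (𝓕.up f) ζ ∈ Y := by
  simp [XV]

theorem far_mem_iff {f : F} {v : E} (h : 𝓕.inc f v) {ζ : L2 (G × I)} (hζ : ζ ∈ Y) :
    Pr G ε (𝓕.far v f) ζ ∈ Y ↔ Pr G ε (𝓕.up f) ζ ∈ Y := by
  rcases h with rfl | rfl
  · rw [far_lo]
  · rw [far_hi, Pr_compl, Y.sub_mem_iff_right hζ]

theorem isClosed_Xb (hX : IsClosed (X : Set (L2 (G × I)))) (v : E) :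
    IsClosed (𝓕.Xb ε X v : Set (L2 (G × I))) := hX.inter (isClosed_Bl _ _)

theorem isClosed_XE (hX : IsClosed (X : Set (L2 (G × I)))) (hY : IsClosed (Y : Set (L2 (G × I))))
    (f : F) : IsClosed (𝓕.XE ε X Y f : Set (L2 (G × I))) :=
  (isClosed_Xb hX _).inter (hY.preimage (Pr G ε (𝓕.up f)).continuous)

theorem isClosed_ZE (hX : IsClosed (X : Set (L2 (G × I)))) (f : F) :
    IsClosed (𝓕.ZE ε X Y f : Set (L2 (G × I))) :=
  (isClosed_Xb hX _).inter (Submodule.isClosed_orthogonal _)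

theorem eqf_Xb (hX : Inv X) : Eqf (𝓕.Xb ε X) := fun g v ζ hζ =>
  ⟨hX g ζ hζ.1, mem_Bl.2 (by rw [β_smul, ← R_Pr_singleton, mem_Bl.1 hζ.2])⟩

theorem eqf_Xb_lo (hX : Inv X) : Eqf fun f => 𝓕.Xb ε X (𝓕.lo f) := fun g f ζ hζ => by
  simpa only [lo_smul] using eqf_Xb hX g _ ζ hζ

theorem R_up (g : G) (f : F) (ζ : L2 (G × I)) :
    R g (Pr G ε (𝓕.up f) ζ) = Pr G ε (𝓕.up (g • f)) (R g ζ) :=
  R_Pr _ g (fun z => (𝓕.up_smul g f z).symm) ζ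

theorem eqf_ZE (hX : Inv X) (hY : Inv Y) : Eqf (𝓕.ZE ε X Y) := by
  refine (eqf_Xb_lo hX).inf (Eqf.orth fun g f ζ hζ => ⟨eqf_Xb_lo hX g f ζ hζ.1, ?_⟩)
  change Pr G ε (𝓕.up (g • f)) (R g ζ) ∈ Y
  rw [← R_up]
  exact hY g _ hζ.2

theorem eqf_ZV (hX : Inv X) (hY : Inv Y) : Eqf (𝓕.ZV ε X Y) := by
  refine (eqf_Xb hX).inf (Eqf.orth fun g v ζ hζ => ?_)
  rw [mem_XV] at hζ ⊢
  refine ⟨⟨eqf_Xb hX g v ζ hζ.1.1, by rw [← R_Pr_singleton, hζ.1.2, map_zero]⟩, fun f hf => ?_⟩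
  have h1 := R_up (𝓕 := 𝓕) (ε := ε) g (g⁻¹ • f) ζ
  rw [smul_inv_smul] at h1
  rw [← h1]
  exact hY g _ (hζ.2 _ (by simpa using 𝓕.inc_smul g⁻¹ hf))

theorem sub_proj_mem_XE (hX : IsClosed (X : Set (L2 (G × I))))
    (hY : IsClosed (Y : Set (L2 (G × I)))) (f : F) {ξ : L2 (G × I)}
    (hξ : ξ ∈ 𝓕.Xb ε X (𝓕.lo f)) : ξ - proj (𝓕.ZE ε X Y f) ξ ∈ 𝓕.XE ε X Y f := by
  rw [ZE, proj_inf_orth (isClosed_Xb hX _) (show 𝓕.XE ε X Y f ≤ _ from inf_le_left),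
    proj_of_mem' hξ, sub_sub_cancel]
  exact proj_mem' (isClosed_XE hX hY f) ξ

theorem inner_far_eq (hX : IsClosed (X : Set (L2 (G × I))))
    (hY : IsClosed (Y : Set (L2 (G × I)))) (hXY : X ≤ Y) {v : E} {f : F} (hf : 𝓕.inc f v)
    {ξ ζ : L2 (G × I)} (hξ : ξ ∈ 𝓕.Xb ε X v) (hζ : ζ ∈ Yᗮ) :
    ⟪ξ, Pr G ε (𝓕.far v f) ζ⟫_ℂ =
      ⟪proj (𝓕.ZE ε X Y f) ξ, proj (𝓕.ZE ε X Y f) (Pr G ε (𝓕.far v f) ζ)⟫_ℂ := by
  have h0 := sub_proj_mem_XE hX hY f (hf.Xb_eq ▸ hξ)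
  have h1 := (far_mem_iff hf (hXY h0.1.1)).2 h0.2
  have h2 := Submodule.inner_right_of_mem_orthogonal h1 hζ
  rw [← inner_Pr, inner_sub_left, sub_eq_zero] at h2
  rw [← inner_proj_left, proj_proj, h2]

theorem far_mem_orth (hX : Loc (fun b => Pr G (𝓕.β ∘ ε) {b}) X)
    (hY : IsClosed (Y : Set (L2 (G × I)))) (hXY : X ≤ Y) {v : E} {f : F} (hf : 𝓕.inc f v)
    {ζ : L2 (G × I)} (hζ : ζ ∈ 𝓕.Xb ε Yᗮ v)
    (h : proj (𝓕.ZE ε X Y f) (Pr G ε (𝓕.far v f) ζ) = 0) : Pr G ε (𝓕.up f) ζ ∈ Xᗮ := by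
  rw [← far_mem_iff hf (Submodule.orthogonal_le hXY hζ.1), Submodule.mem_orthogonal]
  intro ξ hξ
  have h1 : Pr G ε (𝓕.far v f) ζ = Pr G (𝓕.β ∘ ε) {𝓕.β v} (Pr G ε (𝓕.far v f) ζ) := by
    rw [Pr_comm, mem_Bl.1 hζ.2]
  rw [h1, inner_Pr, inner_far_eq hX.closed hY hXY hf ⟨hX.stable _ ξ hξ, Pr_mem_Bl _ _ _⟩ hζ.1, h,
    inner_zero_right]

theorem Tr_ZE_orth_le (hX : Loc (fun b => Pr G (𝓕.β ∘ ε) {b}) X)
    (hY : IsClosed (Y : Set (L2 (G × I)))) (hXY : X ≤ Y) (f : F) :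
    Tr (𝓕.ZE ε Yᗮ Xᗮ f) ≤ Tr (𝓕.ZE ε X Y f) := by
  by_cases htop : Tr (𝓕.ZE ε X Y f) = ∞
  · rw [htop]; exact le_top
  have := finiteDimensional_of_Tr htop
  let T : ↥(𝓕.ZE ε Yᗮ Xᗮ f) →ₗ[ℂ] ↥(𝓕.ZE ε X Y f) :=
    LinearMap.codRestrict _ ((proj (𝓕.ZE ε X Y f) ∘L Pr G ε (𝓕.far (𝓕.lo f) f) :
      L2 (G × I) →L[ℂ] L2 (G × I)).toLinearMap ∘ₗ Submodule.subtype _)
      fun _ => proj_mem' (isClosed_ZE hX.closed f) _
  have hT : Function.Injective T := by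
    rw [injective_iff_map_eq_zero]
    rintro ⟨ζ, h1, h2⟩ h
    have h4 := far_mem_orth hX hY hXY (Or.inl rfl) h1 (congrArg Subtype.val h)
    have h5 : ζ ∈ 𝓕.XE ε Yᗮ Xᗮ f := ⟨h1, h4⟩
    exact Subtype.ext (inner_self_eq_zero.1 (Submodule.inner_right_of_mem_orthogonal h5 h2))
  have := FiniteDimensional.of_injective T hT
  rw [Tr_eq_finrank, Tr_eq_finrank, Nat.cast_le]
  exact LinearMap.finrank_le_finrank_of_injective hT

theorem inner_eq_add (v : E) (ξ : L2 (G × I)) {ζ : L2 (G × I)}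
    (hζ : ζ ∈ Bl G (𝓕.β ∘ ε) {𝓕.β v}) (D : Finset F)
    (h : ∀ f, 𝓕.inc f v → f ∉ D → ⟪ξ, Pr G ε (𝓕.far v f) ζ⟫_ℂ = 0) :
    ⟪ξ, ζ⟫_ℂ = ⟪ξ, Pr G ε {v} ζ⟫_ℂ + ∑ f ∈ D, ⟪ξ, Pr G ε (𝓕.far v f) ζ⟫_ℂ := by
  classical
  let φ : E → Option F := fun z =>
    if h : 𝓕.β z = 𝓕.β v ∧ z ≠ v then some (𝓕.uniq v z h.1 h.2).exists.choose else none
  have hnone : Pr G ε (φ ⁻¹' {none}) ζ = Pr G ε {v} ζ := by
    refine Pr_congr hζ fun z hz => ?_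
    by_cases hv : z = v <;> simp [φ, hz, hv]
  have hsome : ∀ f, Pr G ε (φ ⁻¹' {some f}) ζ = Pr G ε (𝓕.far v f) ζ := by
    intro f
    refine Pr_congr hζ fun z hz => ?_
    by_cases hv : z = v
    · subst hv
      simp only [φ, ne_eq, not_true_eq_false, and_false, dite_false, Set.mem_preimage,
        Set.mem_singleton_iff, reduceCtorEq, false_iff]
      rintro (⟨h1, h2⟩ | ⟨h1, h2⟩)
      exacts [𝓕.lo_notMem f (h1 ▸ h2), h2 (h1 ▸ 𝓕.hi_mem f)]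
    · simp only [φ, Set.mem_preimage, Set.mem_singleton_iff, dif_pos (And.intro hz hv),
        Option.some.injEq]
      exact ⟨fun h => h ▸ (𝓕.uniq v z hz hv).exists.choose_spec,
        fun h => (𝓕.uniq v z hz hv).unique (𝓕.uniq v z hz hv).exists.choose_spec h⟩
  have h1 : HasSum (fun o => ⟪ξ, Pr G ε (φ ⁻¹' {o}) ζ⟫_ℂ) ⟪ξ, ζ⟫_ℂ :=
    (hasSum_res_fiber (φ ∘ loc ε) ζ).mapL (innerSL ℂ ξ)
  have h2 := hasSum_sum_of_ne_finset_zero (L := SummationFilter.unconditional _)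
    (f := fun o => ⟪ξ, Pr G ε (φ ⁻¹' {o}) ζ⟫_ℂ) (s := Finset.insertNone D) (by
      rintro (_ | f) ho
      · simp at ho
      · rw [hsome]
        by_cases hf : 𝓕.inc f v
        · exact h f hf (by simpa using ho)
        · have : 𝓕.far v f = ∅ := by
            ext z
            simp only [far, inc, not_or] at hf ⊢
            simp [hf.1, hf.2]
          rw [this, Pr, Set.preimage_empty, res_empty, inner_zero_right])
  rw [h1.unique h2, Finset.sum_insertNone, hnone]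
  exact congrArg _ (Finset.sum_congr rfl fun f _ => by rw [hsome])

theorem Tr_ZV_le (hX : Loc (fun b => Pr G (𝓕.β ∘ ε) {b}) X)
    (hY : IsClosed (Y : Set (L2 (G × I)))) (hXY : X ≤ Y) (v : E) :
    Tr (𝓕.ZV ε X Y v) + Tr (𝓕.ZV ε Yᗮ Xᗮ v) ≤
      Tr (Bl G ε {v}) + ∑' f : {f // 𝓕.inc f v}, Tr (𝓕.ZE ε X Y f) := by
  classical
  by_cases htop : Tr (Bl G ε {v}) + ∑' f : {f // 𝓕.inc f v}, Tr (𝓕.ZE ε X Y f) = ∞
  · rw [htop]; exact le_top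
  obtain ⟨ht1, ht2⟩ := ENNReal.add_ne_top.1 htop
  have hfin := ENNReal.finite_const_le_of_tsum_ne_top ht2 one_ne_zero
  set D := hfin.toFinset with hD
  set Z : F → Submodule ℂ (L2 (G × I)) := 𝓕.ZE ε X Y with hZ
  set P := Pr G ε {v} with hP
  have hZc : ∀ f, IsClosed (Z f : Set (L2 (G × I))) := isClosed_ZE hX.closed
  have hbot : ∀ f (hf : 𝓕.inc f v), (⟨f, hf⟩ : {f // 𝓕.inc f v}) ∉ D →
      ∀ ξ, proj (Z f) ξ = 0 := by
    intro f hf hn ξ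
    rw [hD, Set.Finite.mem_toFinset, Set.mem_ofPred_eq, not_le] at hn
    exact (Submodule.eq_bot_iff _).1 (eq_bot_of_Tr_lt_one hn) _ (proj_mem' (hZc f) ξ)
  have key := finrank_add_le (𝓕.ZV ε X Y v) (𝓕.ZV ε Yᗮ Xᗮ v)
    (fun o : Option D => o.elim (Bl G ε {v}) fun f => Z f.1.1)
    (by
      rintro (_ | f)
      · exact finiteDimensional_of_Tr ht1
      · exact finiteDimensional_of_Tr (ENNReal.ne_top_of_tsum_ne_top ht2 f.1))
    (fun o => o.elim P fun f => proj (Z f.1.1))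
    (fun o => o.elim P fun f => proj (Z f.1.1) ∘L Pr G ε (𝓕.far v f.1.1))
    (by
      rintro (_ | f) ξ -
      · exact Pr_mem_Bl _ _ _
      · exact proj_mem' (hZc _) _)
    (by
      rintro (_ | f) ξ -
      · exact Pr_mem_Bl _ _ _
      · exact proj_mem' (hZc _) _)
    (by
      rintro ξ ⟨hξ, -⟩ ζ ⟨hζ, -⟩
      have e4 := inner_eq_add v ξ hζ.2 (D.map (Function.Embedding.subtype _))
        (by
          intro f hf hn
          rw [inner_far_eq hX.closed hY hXY hf hξ hζ.1,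
            hbot f hf (fun h => hn (Finset.mem_map.2 ⟨_, h, rfl⟩)), inner_zero_left])
      rw [Submodule.inner_right_of_mem_orthogonal (hXY hξ.1) hζ.1, Finset.sum_map,
        ← Finset.sum_coe_sort D] at e4
      rw [Fintype.sum_option, e4]
      congr 1
      · change ⟪P ξ, P ζ⟫_ℂ = _
        rw [hP, ← inner_Pr, Pr_Pr, Set.inter_self]
      · exact Finset.sum_congr rfl fun f _ =>
          (inner_far_eq hX.closed hY hXY f.1.2 hξ hζ.1).symm)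
    (by
      rintro ξ ⟨hξ1, hξ2⟩ h
      have f1 : ξ ∈ 𝓕.XV ε X Y v := by
        refine mem_XV.2 ⟨⟨hξ1, h none⟩, fun f hf => ?_⟩
        have e9 : proj (Z f) ξ = 0 := by
          by_cases hn : (⟨f, hf⟩ : {f // 𝓕.inc f v}) ∈ D
          · exact h (some ⟨_, hn⟩)
          · exact hbot f hf hn ξ
        have := sub_proj_mem_XE hX.closed hY f (hf.Xb_eq ▸ hξ1)
        rw [← hZ, e9, sub_zero] at this
        exact this.2
      exact inner_self_eq_zero.1 (Submodule.inner_right_of_mem_orthogonal f1 hξ2))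
    (by
      rintro ζ ⟨hζ1, hζ2⟩ h
      have f2 : ζ ∈ 𝓕.XV ε Yᗮ Xᗮ v := by
        refine mem_XV.2 ⟨⟨hζ1, h none⟩, fun f hf => far_mem_orth hX hY hXY hf hζ1 ?_⟩
        by_cases hn : (⟨f, hf⟩ : {f // 𝓕.inc f v}) ∈ D
        · exact h (some ⟨_, hn⟩)
        · exact hbot f hf hn _
      exact inner_self_eq_zero.1 (Submodule.inner_right_of_mem_orthogonal f2 hζ2))
  obtain ⟨k1, k2, k3⟩ := key
  rw [Fintype.sum_option] at k3
  have := finiteDimensional_of_Tr ht1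
  have hZf : ∀ f : D, FiniteDimensional ℂ (Z f.1.1) := fun f =>
    finiteDimensional_of_Tr (ENNReal.ne_top_of_tsum_ne_top ht2 f.1)
  rw [Tr_eq_finrank, Tr_eq_finrank, Tr_eq_finrank]
  refine le_trans (by exact_mod_cast k3 : _ ≤ ((Module.finrank ℂ ↥(Bl G ε {v}) : ℝ≥0∞) +
      ∑ f : D, (Module.finrank ℂ (Z f.1.1) : ℝ≥0∞))) (add_le_add_right ?_ _)
  refine le_trans (le_of_eq ?_) (ENNReal.sum_le_tsum D)
  rw [← Finset.sum_coe_sort D]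
  exact Finset.sum_congr rfl fun f _ => (Tr_eq_finrank _).symm

end Forest

end Pool.Agent.P.MP_0f25e6_al.TT
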