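import Pool.Agent.P.MP_0f25e6_al.SQ.GA3

/-!
Integrality along a forest, and the gap theorem.
-/

set_option autoImplicit false

open scoped InnerProductSpace ENNReal Topology
open Filter

noncomputable section

namespace Pool.Agent.P.MP_0f25e6_al.TT

variable {G Γ I E F B V W : Type*} [Group G] [Group Γ] [MulAction G E] [MulAction G F]
  [MulAction G B] [MulAction G V] [MulAction G W] [Fintype I]

namespace Forest

variable {𝓕 : Forest G E F B} {ε : I → E} {X Y : Submodule ℂ (L2 (G × I))}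

theorem mass_ZE_orth_le (hX : Loc (fun b => Pr G (𝓕.β ∘ ε) {b}) X)
    (hY : Loc (fun b => Pr G (𝓕.β ∘ ε) {b}) Y) (hXY : X ≤ Y) (hfree : ∀ f : F, Free G f) :
    mass (𝓕.ZE ε Yᗮ Xᗮ) ≤ mass (𝓕.ZE ε X Y) :=
  mass_le_mass (G := G) (m₁ := fun f => ms1 (𝓕.ZE ε Yᗮ Xᗮ f)) (m₂ := fun f => ms1 (𝓕.ZE ε X Y f))
    (fun f _ => hfree f) fun f _ => by
      rw [(eqf_ZE hY.inv.orth hX.inv.orth).tsum_orbit, (eqf_ZE hX.inv hY.inv).tsum_orbit]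
      exact Tr_ZE_orth_le hX hY.closed hXY f

theorem mass_comm {Ξ : Type*} (Z : Ξ → Submodule ℂ (L2 (G × I))) :
    mass Z = ∑ c : I, ∑' ξ, ENNReal.ofReal (pn (Z ξ) (delta (1, c))) :=
  Summable.tsum_finsetSum fun _ _ => ENNReal.summable

omit [Fintype I] in
theorem pn_ZE_of_ne {f : F} {c : I} (h : 𝓕.β (𝓕.lo f) ≠ 𝓕.β (ε c)) :
    pn (𝓕.ZE ε X Y f) (delta (1, c)) = 0 :=
  le_antisymm ((pn_mono' inf_le_left _).trans (pn_inf_Bl_of_ne X h).le) (pn_nonneg _ _)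

theorem dim_add_mass_le (hX : Loc (fun b => Pr G (𝓕.β ∘ ε) {b}) X) :
    ENNReal.ofReal (dim X) + mass (𝓕.ZE ε X Y) ≤ mass (𝓕.ZV ε X Y) := by
  classical
  rw [mass_comm, mass_comm, dim, ENNReal.ofReal_sum_of_nonneg fun _ _ => pn_nonneg _ _,
    ← Finset.sum_add_distrib]
  refine Finset.sum_le_sum fun c _ => ?_
  let hd : F → E := fun f => if ε c ∈ 𝓕.up f then 𝓕.lo f else 𝓕.hi f
  have hd1 : ∀ f, (𝓕.lo f = hd f ∧ ε c ∈ 𝓕.up f) ∨ (𝓕.hi f = hd f ∧ ε c ∉ 𝓕.up f) := fun f => by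
    by_cases h : ε c ∈ 𝓕.up f <;> simp [hd, h]
  have hd2 : ∀ f, 𝓕.inc f (hd f) := fun f => (hd1 f).imp And.left And.left
  have hne : ∀ f, ε c ≠ hd f := fun f h => by
    rcases hd1 f with ⟨h1, h2⟩ | ⟨h1, h2⟩
    exacts [𝓕.lo_notMem f (by rwa [h1, ← h]), h2 (by rw [h, ← h1]; exact 𝓕.hi_mem f)]
  have hinj : Function.Injective fun f : {f // 𝓕.β (𝓕.lo f) = 𝓕.β (ε c)} => hd f.1 := by
    intro f f' h
    have h' : hd f.1 = hd f'.1 := h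
    exact Subtype.ext ((𝓕.uniq (hd f.1) (ε c) (by rw [(hd2 _).β_eq, f.2]) (hne _)).unique (hd1 _)
      (h' ▸ hd1 _))
  rw [ENNReal.tsum_eq_add_tsum_ite (β := E) (ε c),
    ← (Subtype.val_injective (p := fun f => 𝓕.β (𝓕.lo f) = 𝓕.β (ε c))).tsum_eq (by
      intro f hf
      by_contra hn
      exact hf (by
        beta_reduce
        rw [pn_ZE_of_ne fun h => hn ⟨⟨f, h⟩, rfl⟩, ENNReal.ofReal_zero]))]
  refine add_le_add (le_of_eq ?_) (le_trans (ENNReal.tsum_le_tsum fun f => ?_)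
    (ENNReal.tsum_comp_le_tsum_of_injective hinj _))
  · have h1 : pn (𝓕.XV ε X Y (ε c)) (delta (1, c)) = 0 := by
      rw [pn_eq_zero_iff, Submodule.mem_orthogonal]
      intro u hu
      rw [← Pr_delta_of_mem (G := G) ε (A := {ε c}) (c := c) rfl, inner_Pr,
        (mem_XV.1 hu).1.2, inner_zero_left]
    rw [ZV, pn_inf_orth (isClosed_Xb hX.closed _) fun u hu => (mem_XV.1 hu).1.1, h1, sub_zero, Xb,
      pn, pn, Blocky.proj_inf (β := 𝓕.β (ε c)) hX.closed hX.stable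
        (mem_Bl.2 (Pr_delta_of_mem _ rfl))]
  · rw [if_neg (hne f).symm]
    refine ENNReal.ofReal_le_ofReal (pn_mono' ?_ _)
    rw [ZE, ZV, (hd2 f).Xb_eq]
    refine inf_le_inf_left _ (Submodule.orthogonal_le fun u hu => ?_)
    exact ⟨(hd2 f).Xb_eq ▸ (mem_XV.1 hu).1.1, (mem_XV.1 hu).2 f (hd2 f)⟩

omit [MulAction G F] [MulAction G B] in
theorem mass_Bl_le (ε : I → E) : mass (fun v : E => Bl G ε {v}) ≤ (Fintype.card I : ℝ≥0∞) := by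
  rw [mass_comm]
  refine (Finset.sum_le_sum (g := fun _ => 1) fun c _ => ?_).trans (by simp)
  rw [tsum_eq_single (ε c)]
  · refine ENNReal.ofReal_le_one.2 ((pn_le _ _).trans ?_)
    rw [norm_delta, one_pow]
  · intro v hv
    rw [pn_eq_zero_iff.2 (mem_Bl_orth (Pr_delta_of_notMem _ fun h => hv h.symm)),
      ENNReal.ofReal_zero]

theorem mass_ZV_add_le (hX : Loc (fun b => Pr G (𝓕.β ∘ ε) {b}) X)
    (hY : Loc (fun b => Pr G (𝓕.β ∘ ε) {b}) Y) (hXY : X ≤ Y) (hfree : ∀ v : E, Free G v) :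
    mass (𝓕.ZV ε X Y) + mass (𝓕.ZV ε Yᗮ Xᗮ) ≤ Fintype.card I + 2 * mass (𝓕.ZE ε X Y) := by
  classical
  have h1 := eqf_ZV (𝓕 := 𝓕) (ε := ε) hX.inv hY.inv
  have h2 := eqf_ZV (𝓕 := 𝓕) (ε := ε) hY.inv.orth hX.inv.orth
  have h3 := eqf_ZE (𝓕 := 𝓕) (ε := ε) hX.inv hY.inv
  have h4 : Eqf fun v : E => Bl G ε {v} := fun g v ζ hζ =>
    mem_Bl.2 (by rw [← R_Pr_singleton, mem_Bl.1 hζ])
  let m : E → ℝ≥0∞ := fun v => ∑' f, if 𝓕.inc f v then ms1 (𝓕.ZE ε X Y f) else 0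
  have h5 : ∑' v, m v ≤ 2 * mass (𝓕.ZE ε X Y) := by
    rw [mass, ← ENNReal.tsum_mul_left, ENNReal.tsum_comm]
    refine ENNReal.tsum_le_tsum fun f => ?_
    calc ∑' v, (if 𝓕.inc f v then ms1 (𝓕.ZE ε X Y f) else 0)
        ≤ ∑' v, ((if v = 𝓕.lo f then ms1 (𝓕.ZE ε X Y f) else 0) +
          (if v = 𝓕.hi f then ms1 (𝓕.ZE ε X Y f) else 0)) := by
          refine ENNReal.tsum_le_tsum fun v => ?_
          by_cases hv : 𝓕.inc f v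
          · rcases id hv with rfl | rfl <;> simp [hv]
          · simp [hv]
      _ = _ := by rw [ENNReal.tsum_add, tsum_ite_eq, tsum_ite_eq, two_mul]; rfl
  refine le_trans ?_ (add_le_add (mass_Bl_le (G := G) ε) h5)
  rw [mass, mass, mass, ← ENNReal.tsum_add, ← ENNReal.tsum_add]
  refine mass_le_mass (G := G) (fun v _ => hfree v) fun v _ => ?_
  rw [ENNReal.tsum_add, ENNReal.tsum_add]
  refine le_trans (le_of_eq (congrArg₂ _ (h1.tsum_orbit v) (h2.tsum_orbit v))) ?_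
  refine le_trans ?_ (le_of_eq (congrArg₂ _ (h4.tsum_orbit v).symm rfl))
  refine (Tr_ZV_le hX hY.closed hXY v).trans (add_le_add_right ?_ _)
  simp only [← h3.tsum_orbit]
  rw [ENNReal.tsum_comm]
  refine ENNReal.tsum_le_tsum fun g => ?_
  have hinj : Function.Injective fun f : {f // 𝓕.inc f v} => g • f.1 := fun f f' h =>
    Subtype.ext (MulAction.injective g h)
  refine le_trans (le_of_eq (tsum_congr fun f => ?_))
    (ENNReal.tsum_comp_le_tsum_of_injective hinj _)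
  exact (if_pos (𝓕.inc_smul g f.2)).symm

/-- Integrality. -/
theorem exists_int_between (hX : Loc (fun b => Pr G (𝓕.β ∘ ε) {b}) X)
    (hY : Loc (fun b => Pr G (𝓕.β ∘ ε) {b}) Y) (hXY : X ≤ Y) (hE : ∀ v : E, Free G v)
    (hF : ∀ f : F, Free G f) (hfin : mass (𝓕.ZE ε X Y) ≠ ∞) :
    ∃ N : ℤ, dim X ≤ N ∧ (N : ℝ) ≤ dim Y := by
  have a1 := dim_add_mass_le (Y := Y) hX
  have a2 := dim_add_mass_le (Y := Xᗮ) hY.orth
  have a3 := mass_ZV_add_le hX hY hXY hE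
  have a4 := mass_ZE_orth_le hY.orth hX.orth (Submodule.orthogonal_le hXY) hF
  rw [oo_eq hX.closed, oo_eq hY.closed] at a4
  obtain ⟨s, hs⟩ := (eqf_ZE hX.inv hY.inv).mass_nat hF hfin
  have b1 : mass (𝓕.ZV ε X Y) + mass (𝓕.ZV ε Yᗮ Xᗮ) ≠ ∞ := by
    refine ne_top_of_le_ne_top ?_ a3
    rw [hs]
    finiteness
  obtain ⟨l, hl⟩ := (eqf_ZV hX.inv hY.inv).mass_nat hE (ENNReal.add_ne_top.1 b1).1
  obtain ⟨l', hl'⟩ := (eqf_ZV hY.inv.orth hX.inv.orth).mass_nat hE (ENNReal.add_ne_top.1 b1).2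
  rw [hs, hl] at a1
  rw [hs, hl, hl'] at a3
  have a5 : ENNReal.ofReal (dim Yᗮ) + s ≤ l' := by
    rw [← hs, ← hl']
    exact (add_le_add_right a4 _).trans a2
  have c1 : dim X + s ≤ l := by
    rw [← ENNReal.ofReal_natCast, ← ENNReal.ofReal_natCast,
      ← ENNReal.ofReal_add (dim_nonneg _) (Nat.cast_nonneg _),
      ENNReal.ofReal_le_ofReal_iff (Nat.cast_nonneg _)] at a1
    exact a1
  have c2 : dim Yᗮ + s ≤ l' := by
    rw [← ENNReal.ofReal_natCast, ← ENNReal.ofReal_natCast,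
      ← ENNReal.ofReal_add (dim_nonneg _) (Nat.cast_nonneg _),
      ENNReal.ofReal_le_ofReal_iff (Nat.cast_nonneg _)] at a5
    exact a5
  have c3 : (l : ℝ) + l' ≤ Fintype.card I + 2 * s := by exact_mod_cast a3
  refine ⟨l - s, ?_, ?_⟩
  · push_cast
    linarith
  · push_cast
    linarith [dim_add_dim_orth Y]

end Forest

/-- A forest whose components are walls, and whose edges are cut out by walls. -/
structure Link (𝒲 : PW G V W) (𝓕 : Forest G E F W) where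
  bot : E → V
  kap : F → W
  bot_smul : ∀ (g : G) z, bot (g • z) = g • bot z
  kap_mem : ∀ f z z', 𝓕.β z = 𝓕.β (𝓕.lo f) → 𝓕.β z' = 𝓕.β (𝓕.lo f) →
    (kap f ∈ 𝒲.S (bot z) (bot z') ↔ ¬ (z ∈ 𝓕.up f ↔ z' ∈ 𝓕.up f))
  kap_inj : ∀ f f', 𝓕.β (𝓕.lo f) = 𝓕.β (𝓕.lo f') → kap f = kap f' → f = f'

variable {𝒲 : PW G V W} {𝓕 : Forest G E F W} (𝓛 : Link 𝒲 𝓕) (ε : I → E) (v₀ : V)

omit [Fintype I] in
theorem Link.Q_eq (k : W) (ζ : L2 (G × I)) :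
    𝒲.Q (𝓛.bot ∘ ε) v₀ k ζ = Pr G ε {z | k ∈ 𝒲.S v₀ (𝓛.bot z)} ζ := by
  rw [PW.Q, Pr, Pr]
  congr 2
  ext i
  simp [loc, 𝓛.bot_smul]

theorem Link.mass_le {X Y : Submodule ℂ (L2 (G × I))} (hX : Loc (fun b => Pr G (𝓕.β ∘ ε) {b}) X)
    (hY : Loc (fun b => Pr G (𝓕.β ∘ ε) {b}) Y) (hXY : X ≤ Y) :
    mass (𝓕.ZE ε X Y) ≤ mass (𝒲.ZE (𝓛.bot ∘ ε) v₀ X Y) := by
  rw [Forest.mass_comm, Forest.mass_comm]
  refine Finset.sum_le_sum fun c _ => ?_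
  have hinj : Function.Injective fun f : {f // 𝓕.β (𝓕.lo f) = 𝓕.β (ε c)} => 𝓛.kap f.1 :=
    fun f f' h => Subtype.ext (𝓛.kap_inj _ _ (f.2.trans f'.2.symm) h)
  rw [← (Subtype.val_injective (p := fun f => 𝓕.β (𝓕.lo f) = 𝓕.β (ε c))).tsum_eq (by
      intro f hf
      by_contra hn
      exact hf (by
        beta_reduce
        rw [Forest.pn_ZE_of_ne fun h => hn ⟨⟨f, h⟩, rfl⟩, ENNReal.ofReal_zero]))]
  refine le_trans (ENNReal.tsum_le_tsum fun f => ?_)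
    (ENNReal.tsum_comp_le_tsum_of_injective hinj _)
  refine ENNReal.ofReal_le_ofReal (pn_mono' ?_ _)
  rintro ζ ⟨⟨h1, h2⟩, h3⟩
  refine ⟨h1, (Submodule.mem_orthogonal _ _).2 fun u hu => ?_⟩
  rw [← mem_Bl.1 h2, inner_Pr]
  refine Submodule.inner_right_of_mem_orthogonal (K := 𝓕.XE ε X Y f.1)
    ⟨⟨hX.stable _ _ hu.1, Pr_mem_Bl _ _ _⟩, ?_⟩ h3
  have h4 : Pr G ε {z | 𝓛.kap f.1 ∈ 𝒲.S v₀ (𝓛.bot z)}
      (Pr G (𝓕.β ∘ ε) {𝓕.β (𝓕.lo f.1)} u) ∈ Y := by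
    rw [Pr_comm, ← 𝓛.Q_eq]
    exact hY.stable _ _ hu.2
  change Pr G ε (𝓕.up f.1) (Pr G (𝓕.β ∘ ε) {𝓕.β (𝓕.lo f.1)} u) ∈ Y
  have h5 := fun z => 𝒲.S_tri (𝓛.kap f.1) v₀ (𝓛.bot (𝓕.lo f.1)) (𝓛.bot z)
  have h6 := fun z hz => 𝓛.kap_mem f.1 (𝓕.lo f.1) z rfl hz
  have h7 := 𝓕.lo_notMem f.1
  by_cases h : 𝓛.kap f.1 ∈ 𝒲.S v₀ (𝓛.bot (𝓕.lo f.1))
  · rw [Forest.Pr_congr (Pr_mem_Bl _ _ _) (A' := (𝓕.up f.1)ᶜ) fun z hz => by
      have := h5 z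
      have := h6 z hz
      simp only [Set.mem_ofPred_eq, Set.mem_compl_iff]
      tauto, Pr_compl, Y.sub_mem_iff_right (hXY (hX.stable _ _ hu.1))] at h4
    exact h4
  · rwa [Forest.Pr_congr (Pr_mem_Bl _ _ _) (A' := 𝓕.up f.1) fun z hz => by
      have := h5 z
      have := h6 z hz
      simp only [Set.mem_ofPred_eq]
      tauto] at h4

theorem phi_top (F₀ X : Submodule ℂ (L2 (Γ × I))) (t : ℝ) :
    phi F₀ ⊤ t X = dim (F₀ ⊓ X) - t * dim X := by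
  rw [phi, top_inf_eq]
  ring

include 𝓛 v₀ in
/-- The gap theorem. -/
theorem gap (𝓔 : Ext G Γ W) (hE : ∀ v : E, Free G v) (hF : ∀ f : F, Free G f)
    {Φ : Submodule ℂ (L2 (G × I))} (hΦc : IsClosed (Φ : Set (L2 (G × I)))) (hΦ : Inv Φ)
    (hLoc : ∀ f : L2 (G × I), (∀ v : V, ∃ φ ∈ Φ, ∀ i : G × I,
      (∀ e ∈ 𝒲.S v (𝓛.bot (loc ε i)), e = 𝓕.β (loc ε i)) → f i = φ i) → f ∈ Φ) :
    ∃ t : ℝ, 0 < t ∧ ∃ H, Loc (fun h => Pr G (𝓕.β ∘ ε) {h}) H ∧ Φ ≤ H ∧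
      ∀ Z, Loc (𝓔.Pl (𝓕.β ∘ ε)) Z →
        t * (dim H - dim Z) ≤ dim Φ - dim (Ind 𝓔.σ 𝓔.σ_inj Φ ⊓ Z) := by
  set d := 𝓕.β ∘ ε with hd
  set o := 𝓛.bot ∘ ε with ho
  have hLoc' : ∀ f : L2 (G × I), (∀ v : V, ∃ φ ∈ Φ, ∀ i : G × I,
      (∀ e ∈ 𝒲.S v (loc o i), e = loc d i) → f i = φ i) → f ∈ Φ := by
    intro f hf
    refine hLoc f fun v => ?_
    obtain ⟨φ, h1, h2⟩ := hf v
    refine ⟨φ, h1, fun i hi => h2 i ?_⟩
    rwa [hd, 𝓕.loc_β, show loc o i = 𝓛.bot (loc ε i) from (𝓛.bot_smul _ _).symm]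
  have hT : Ind 𝓔.σ 𝓔.σ_inj (⊤ : Submodule ℂ (L2 (G × I))) = ⊤ :=
    eq_top_iff.2 fun _ _ => mem_Ind.2 fun _ => trivial
  set F₀ := Ind 𝓔.σ 𝓔.σ_inj Φ with hF₀
  have h₀c : IsClosed (F₀ : Set (L2 (Γ × I))) := isClosed_Ind hΦc
  have h₀ : Inv F₀ := inv_Ind _
  have h₁c : IsClosed ((⊤ : Submodule ℂ (L2 (Γ × I))) : Set (L2 (Γ × I))) := by simp
  have h₁ : Inv (⊤ : Submodule ℂ (L2 (Γ × I))) := fun _ _ _ => trivial
  let t : ℕ → ℝ := fun n => 1 / ((n : ℝ) + 1)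
  have ht0 : ∀ n, 0 < t n := fun n => by positivity
  have hta : ∀ {n n'}, n < n' → t n' < t n := fun h =>
    one_div_lt_one_div_of_lt (by positivity) (by exact_mod_cast Nat.succ_lt_succ h)
  choose X hX hXm using fun n => exists_max (P := 𝓔.Pl d) h₀c h₀ h₁c h₁ (ht0 n).le
  let D : ℕ → Submodule ℂ (L2 (G × I)) := fun n => 𝓔.down (X n)
  have hD : ∀ n, Loc (fun ε => Pr G d {ε}) (D n) := fun n => 𝓔.loc_down (hX n)
  have a1 : ∀ n, X n ≤ Ind 𝓔.σ 𝓔.σ_inj (D n) := fun n => 𝓔.le_Ind_down (hX n).inv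
  have a2 : ∀ {n n'}, n < n' → Ind 𝓔.σ 𝓔.σ_inj (D n) ≤ X n' := fun h =>
    𝓔.Ind_down_le (F₀ := Φ) (F₁ := ⊤) hΦc (by simp) (hta h) (hX _) (hX _)
      (by rw [hT]; exact hXm _) (by rw [hT]; exact hXm _)
  have a3 : Monotone D := monotone_nat_of_le_succ fun n v hv => by
    have := pull_mem_of_mem_Ind (a1 _ (a2 (Nat.lt_succ_self n) (extn_mem_Ind (hD n).inv hv)))
    rwa [pull_extn] at this
  have a4 : ∀ n m, dim (X n) - dim (X n ⊓ (𝓔.D m).Jom 𝒲 o v₀ (X (n + 1))) ≤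
      Fintype.card I / (t n - t (n + 1)) *
        (Fintype.card (Multiplicative (ZMod (m + 1))) : ℝ)⁻¹ := by
    intro n m
    have hpos := sub_pos.2 (hta (Nat.lt_succ_self n))
    have key : dim (F₀ ⊓ X (n + 1)) -
          Fintype.card I * (Fintype.card (Multiplicative (ZMod (m + 1))) : ℝ)⁻¹ ≤
        dim (F₀ ⊓ (𝓔.D m).Jom 𝒲 o v₀ (X (n + 1))) := by
      rw [← (𝓔.D m).dim_Jom 𝒲 o v₀ (h₀.inf ((𝓔.D m).inv_Jom 𝒲 o v₀ (hX _).inv))]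
      exact (𝓔.D m).dim_inf_Jom_ge 𝒲 o v₀ 𝓔.πσ d hLoc' (h₀c.inter (hX _).closed)
        (h₀.inf (hX _).inv) inf_le_left fun ζ hζ hJ => ⟨hJ, by
          change (𝓔.D m).Jo 𝒲 o v₀ ((𝓔.D m).Jo 𝒲 o v₀ ζ) ∈ X (n + 1)
          rw [Def.Jo_Jo]
          exact hζ.2⟩
    have b1 := near_max h₀c h₀ h₁c h₁ (hX n) ((𝓔.D m).loc_Jom 𝒲 o v₀ _ (hX (n + 1))) (hXm n)
      (s := t (n + 1))
      (η := Fintype.card I * (Fintype.card (Multiplicative (ZMod (m + 1))) : ℝ)⁻¹) fun Z hZ => by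
        have b2 := hXm (n + 1) Z hZ
        rw [phi_top, phi_top] at b2 ⊢
        rw [Def.dim_Jom _ _ _ _ (hX _).inv]
        linarith
    rw [div_mul_eq_mul_div, le_div_iff₀ hpos]
    linarith
  have a5 : ∀ n m, dim (Ind 𝓔.σ 𝓔.σ_inj (D n)) -
      dim (Ind 𝓔.σ 𝓔.σ_inj (D n) ⊓ (𝓔.D m).Jom 𝒲 o v₀ (Ind 𝓔.σ 𝓔.σ_inj (D (n + 2)))) ≤
        Fintype.card I / (t (n + 1) - t (n + 2)) *
          (Fintype.card (Multiplicative (ZMod (m + 1))) : ℝ)⁻¹ := fun n m =>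
    (codim_mono (isClosed_Ind (hD n).closed) (inv_Ind _) (hX _).closed (hX _).inv
      ((𝓔.D m).isClosed_Jom 𝒲 o v₀ (hX _).closed) ((𝓔.D m).inv_Jom 𝒲 o v₀ (hX _).inv)
      (a2 (Nat.lt_succ_self n)) (Submodule.comap_mono (a1 (n + 2)))).trans (a4 (n + 1) m)
  have a6 : ∀ n, ∃ N : ℤ, dim (D n) ≤ N ∧ (N : ℝ) ≤ dim (D (n + 2)) := fun n =>
    Forest.exists_int_between (hD n) (hD (n + 2)) (a3 (Nat.le_add_right n 2)) hE hF
      (ne_top_of_le_ne_top ENNReal.ofReal_ne_top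
        ((𝓛.mass_le ε v₀ (hD n) (hD (n + 2)) (a3 (Nat.le_add_right n 2))).trans
          (mass_ZEo_le (hσ := 𝓔.σ_inj) 𝓔.D 𝒲 o v₀ 𝓔.πσ tendsto_card_zmod (hD n).closed (hD n).inv
            (hD (n + 2)).closed (a3 (Nat.le_add_right n 2)) (a5 n))))
  choose N hN1 hN2 using a6
  obtain ⟨_, ⟨n₀, rfl⟩, hn₀⟩ := Int.exists_greatest_of_bdd (P := fun z => ∃ n, N n = z)
    ⟨Fintype.card I, by
      rintro _ ⟨n, rfl⟩
      exact_mod_cast (hN2 n).trans (dim_le_card _)⟩ ⟨_, 0, rfl⟩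
  have a7 : ∀ n, dim (D n) ≤ N n₀ := fun n =>
    (hN1 n).trans (by exact_mod_cast hn₀ _ ⟨n, rfl⟩)
  have a8 : ∀ n, n₀ + 2 ≤ n → D n = D (n₀ + 2) := fun n hn =>
    le_antisymm (le_of_dim_le (hD n).closed (hD _).closed (hD n).inv (hD _).inv (a3 hn)
      ((a7 n).trans (hN2 n₀))) (a3 hn)
  have a9 : ∀ n, n₀ + 2 < n → X n = Ind 𝓔.σ 𝓔.σ_inj (D (n₀ + 2)) := fun n hn =>
    le_antisymm (a8 n hn.le ▸ a1 n) (a2 hn)
  have b1 : ∀ n, n₀ + 2 < n → ∀ Z, Loc (𝓔.Pl d) Z →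
      dim (F₀ ⊓ Z) - t n * dim Z ≤ dim (Φ ⊓ D (n₀ + 2)) - t n * dim (D (n₀ + 2)) := by
    intro n hn Z hZ
    have c2 := hXm n Z hZ
    rwa [a9 n hn, phi_top, phi_top, hF₀, ← Ind_inf, dim_Ind (hΦc.inter (hD _).closed)
      (hΦ.inf (hD _).inv), dim_Ind (hD _).closed (hD _).inv] at c2
  have b2 : dim Φ ≤ dim (Φ ⊓ D (n₀ + 2)) := by
    have c1 : Tendsto (fun n => dim Φ - t n * dim (⊤ : Submodule ℂ (L2 (Γ × I)))) atTop
        (𝓝 (dim Φ - 0 * dim (⊤ : Submodule ℂ (L2 (Γ × I))))) :=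
      (tendsto_one_div_add_atTop_nhds_zero_nat.mul_const _).const_sub _
    rw [zero_mul, sub_zero] at c1
    refine le_of_tendsto c1 (eventually_atTop.2 ⟨n₀ + 3, fun n hn => ?_⟩)
    have c2 := b1 n hn ⊤ ⟨h₁c, h₁, fun _ _ _ => trivial⟩
    rw [inf_top_eq, hF₀, dim_Ind hΦc hΦ] at c2
    have c3 := mul_nonneg (ht0 n).le (dim_nonneg (D (n₀ + 2)))
    linarith
  refine ⟨t (n₀ + 3), ht0 _, D (n₀ + 2), hD _, (le_of_dim_le hΦc (hΦc.inter (hD _).closed) hΦ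
    (hΦ.inf (hD _).inv) inf_le_left b2).trans inf_le_right, fun Z hZ => ?_⟩
  have c2 := b1 (n₀ + 3) (by omega) Z hZ
  have c3 : dim (Φ ⊓ D (n₀ + 2)) ≤ dim Φ := dim_mono' inf_le_left
  linarith

end Pool.Agent.P.MP_0f25e6_al.TT
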