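import Pool.Agent.P.MP_0f25e6_al.SQ.GA4
import Pool.Agent.P.MP_0f25e6_al.HN1

/-!
The uniform mass bound for extensions of a system with a gap.
-/

set_option autoImplicit false

open scoped InnerProductSpace ENNReal Topology
open Filter

noncomputable section

namespace Pool.Agent.P.MP_0f25e6_al.TT

variable {G Γ I I' W : Type*} [Group G] [Group Γ] [MulAction G W]

/-- Restriction to a subset of the coordinates. -/
def rI (Γ : Type*) {I I' : Type*} (ι : I → I') (hι : Function.Injective ι) :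
    L2 (Γ × I') →L[ℂ] L2 (Γ × I) :=
  HN.pull (Prod.map id ι) (Function.injective_id.prodMap hι)

variable {ι : I → I'} {hι : Function.Injective ι}

omit [Group Γ] in
@[simp] theorem rI_apply (ζ : L2 (Γ × I')) (x : Γ) (c : I) : rI Γ ι hι ζ (x, c) = ζ (x, ι c) := rfl

theorem R_rI (y : Γ) (ζ : L2 (Γ × I')) : R y (rI Γ ι hι ζ) = rI Γ ι hι (R y ζ) := by
  ext ⟨x, c⟩
  rfl

theorem pull_rI {σ : G →* Γ} {hσ : Function.Injective σ} (ζ : L2 (Γ × I')) :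
    pull σ hσ (rI Γ ι hι ζ) = rI G ι hι (pull σ hσ ζ) := by
  ext ⟨x, c⟩
  rfl

theorem dim_map_rI [Fintype I] [Fintype I'] {X : Submodule ℂ (L2 (Γ × I'))}
    (hXc : IsClosed (X : Set (L2 (Γ × I')))) (hX : Inv X)
    (h : ∀ ζ ∈ X, rI Γ ι hι ζ = 0 → ζ = 0) : dim (X.map (rI Γ ι hι).toLinearMap) = dim X := by
  classical
  have hj : Function.Injective (Prod.map (id : Γ → Γ) ι) := Function.injective_id.prodMap hι
  set T : L2 (Γ × I') →L[ℂ] L2 (Γ × I') := res (Set.range (Prod.map (id : Γ → Γ) ι)) with hT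
  have hPP : ∀ ζ, HN.push _ hj (rI Γ ι hι ζ) = T ζ := HN.push_pull _ hj
  have hmem : ∀ (x : Γ) c', (x, c') ∈ Set.range (Prod.map (id : Γ → Γ) ι) ↔ c' ∈ Set.range ι :=
    fun x c' => ⟨fun ⟨p, hp⟩ => ⟨p.2, congrArg Prod.snd hp⟩, fun ⟨c, hc⟩ => ⟨(x, c), by simp [hc]⟩⟩
  have hTe : Eqv T := by
    intro y
    ext ζ ⟨x, c⟩
    change T ζ (x * y, c) = T (R y ζ) (x, c)
    simp only [hT, res_apply, hmem, R_apply]
  have h1 := dim_eq_add hXc hX hTe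
  have h2 : X ⊓ T.ker = ⊥ := by
    rw [eq_bot_iff]
    rintro ζ ⟨h3, h4⟩
    refine h ζ h3 ?_
    rw [← HN.pull_push _ hj (rI Γ ι hι ζ), hPP, show T ζ = 0 from h4, map_zero]
  have h3 : dim (⊥ : Submodule ℂ (L2 (Γ × I'))) = 0 :=
    Finset.sum_eq_zero fun c _ => pn_eq_zero_iff.2 (by simp)
  rw [h1, h2, h3, zero_add, dim, dim, ← Finset.sum_subset (Finset.subset_univ
    (Finset.univ.map ⟨ι, hι⟩)), Finset.sum_map]
  · refine Finset.sum_congr rfl fun c _ => ?_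
    have h4 := proj_comm (X := X.map (rI Γ ι hι).toLinearMap) (Y := X.map T.toLinearMap)
      (HN.push _ hj) (rI Γ ι hι) (HN.inner_push_right _ hj)
      (by
        rintro _ ⟨ζ, hζ, rfl⟩
        exact Submodule.le_orthogonal_orthogonal _ ⟨ζ, hζ, (hPP ζ).symm⟩)
      (by
        rintro _ ⟨ζ, hζ, rfl⟩
        refine Submodule.le_orthogonal_orthogonal _ ⟨ζ, hζ, ?_⟩
        change _ = rI Γ ι hι (T ζ)
        rw [← hPP]
        exact (HN.pull_push _ hj _).symm) (delta (1, c))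
    rw [HN.push_delta] at h4
    change pn _ _ = pn _ (delta (Prod.map id ι (1, c)))
    rw [pn, pn, h4, ← re_inner_self, ← re_inner_self, HN.inner_push_left, HN.pull_push]
  · intro c' _ hc'
    rw [pn_eq_zero_iff, Submodule.mem_orthogonal]
    rintro _ ⟨ζ, -, rfl⟩
    change ⟪T ζ, _⟫_ℂ = 0
    rw [hT, ← inner_res, res_delta_of_notMem, inner_zero_right]
    rw [hmem]
    rintro ⟨c, rfl⟩
    exact hc' (Finset.mem_map.2 ⟨c, Finset.mem_univ _, rfl⟩)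

theorem map_iSup_mem {E : Type*} [AddCommGroup E] [Module ℂ E] {J : Type*}
    {M : J → Submodule ℂ E} {N : Submodule ℂ E} (T : E →ₗ[ℂ] E) (h : ∀ j, ∀ v ∈ M j, T v ∈ N)
    {v : E} (hv : v ∈ ⨆ j, M j) : T v ∈ N :=
  (show ⨆ j, M j ≤ N.comap T from iSup_le h) hv

/-- The closed sum of the restrictions of a subspace to the fibres of `f`. -/
def hull {Z B : Type*} (f : Z → B) (X : Submodule ℂ (L2 Z)) : Submodule ℂ (L2 Z) :=
  (⨆ h, X.map (res (f ⁻¹' {h})).toLinearMap)ᗮᗮ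

theorem res_mem_hull {Z B : Type*} (f : Z → B) {X : Submodule ℂ (L2 Z)} (h : B) {v : L2 Z}
    (hv : v ∈ X) : res (f ⁻¹' {h}) v ∈ hull f X :=
  Submodule.le_orthogonal_orthogonal _ (Submodule.mem_iSup_of_mem h ⟨v, hv, rfl⟩)

theorem le_hull {Z B : Type*} (f : Z → B) (X : Submodule ℂ (L2 Z)) : X ≤ hull f X :=
  fun v hv => mem_of_hasSum (Submodule.isClosed_orthogonal _) (hasSum_res_fiber f v)
    fun h => res_mem_hull f h hv

theorem map_hull {Z Z' B : Type*} (f : Z → B) {X : Submodule ℂ (L2 Z)} {Y : Submodule ℂ (L2 Z')}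
    (hY : IsClosed (Y : Set (L2 Z'))) (T : L2 Z →L[ℂ] L2 Z')
    (h : ∀ b, ∀ v ∈ X, T (res (f ⁻¹' {b}) v) ∈ Y) {v : L2 Z} (hv : v ∈ hull f X) : T v ∈ Y := by
  have : hull f X ≤ Y.comap T.toLinearMap := by
    refine oo_le (iSup_le fun b => ?_) (hY.preimage T.continuous)
    rintro _ ⟨v, hv, rfl⟩
    exact h b v hv
  exact this hv

theorem loc_hull {B : Type*} (f : Γ × I → B) {X : Submodule ℂ (L2 (Γ × I))} (hX : Inv X)
    (hf : ∀ y b, ∃ b', ∀ ζ, R y (res (f ⁻¹' {b}) ζ) = res (f ⁻¹' {b'}) (R y ζ)) :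
    Loc (fun b => res (f ⁻¹' {b})) (hull f X) := by
  refine ⟨Submodule.isClosed_orthogonal _, fun y ζ hζ => ?_, fun b ζ hζ => ?_⟩
  · refine map_hull f (Submodule.isClosed_orthogonal _) (R y) (fun b v hv => ?_) hζ
    obtain ⟨b', hb'⟩ := hf y b
    rw [hb']
    exact res_mem_hull f b' (hX y v hv)
  · refine map_hull f (Submodule.isClosed_orthogonal _) _ (fun b' v hv => ?_) hζ
    rw [res_res]
    by_cases h : b = b'
    · rw [h, Set.inter_self]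
      exact res_mem_hull f b' hv
    · rw [← Set.preimage_inter, Set.singleton_inter_of_notMem (by simpa using h),
        Set.preimage_empty, res_empty]
      exact Submodule.zero_mem _

theorem Def.A_apply_eq_zero {π : Γ →* G} {K : Type*} [Group K] [Fintype K] (D : Def π W K)
    {a : W} {x : Γ} {c : I} {ζ : L2 (Γ × I)} (h : ζ ∈ (D.Yc c (π x • a))ᗮ) :
    D.A I a ζ (x, c) = 0 := by
  have h2 := D.mem_Yc_orth.1 h x
  rw [Def.A_def, lp.coeFn_smul, Pi.smul_apply, L2_sum_apply]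
  simp [D.conj, h2]

/-- The part of the hull orthogonal to the blocks of the vectors vanishing on the block `k`. -/
def dfct (b : I → W) (Ψ : Submodule ℂ (L2 (G × I))) (k : W) : Submodule ℂ (L2 (G × I)) :=
  hull (loc b) Ψ ⊓ (hull (loc b) (Ψ ⊓ (Pr G b {k}).ker))ᗮ

theorem mass_dfct_le [Fintype I] [Fintype I'] (𝓔 : Ext G Γ W) {d : I → W} {t : ℝ} (ht : 0 < t)
    {Φ H : Submodule ℂ (L2 (G × I))} (hH : Loc (fun h => Pr G d {h}) H) (hΦH : Φ ≤ H)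
    (hgap : ∀ Z, Loc (𝓔.Pl d) Z → t * (dim H - dim Z) ≤ dim Φ - dim (Ind 𝓔.σ 𝓔.σ_inj Φ ⊓ Z))
    {b : I' → W} (hb : ∀ c, b (ι c) = d c) {Ψ : Submodule ℂ (L2 (G × I'))}
    (hΨc : IsClosed (Ψ : Set (L2 (G × I')))) (hΨ : Inv Ψ) (hΨΦ : ∀ ψ ∈ Ψ, rI G ι hι ψ ∈ Φ)
    (hdim : dim Φ ≤ dim Ψ) (hinj : ∀ l ∈ hull (loc b) Ψ, rI G ι hι l = 0 → l = 0) :
    mass (dfct b Ψ) ≤ ENNReal.ofReal (Fintype.card I / t) := by
  classical
  have hL : Loc (fun h => Pr G b {h}) (hull (loc b) Ψ) :=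
    loc_hull _ hΨ fun y h => ⟨_, R_Pr_singleton b h y⟩
  set L := hull (loc b) Ψ with hLdef
  have hloc : ∀ (g : G) c, loc b (g, ι c) = loc d (g, c) := fun g c => by simp [loc, hb]
  have hr1 : ∀ h (ζ : L2 (G × I')), rI G ι hι (Pr G b {h} ζ) = Pr G d {h} (rI G ι hι ζ) := by
    intro h ζ
    ext ⟨x, c⟩
    rw [rI_apply, Pr_apply, Pr_apply, hb, rI_apply]
  have hr2 : ∀ h (ζ : L2 (Γ × I')), rI Γ ι hι (𝓔.Pl b h ζ) = 𝓔.Pl d h (rI Γ ι hι ζ) := by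
    intro h ζ
    ext ⟨x, c⟩
    by_cases hx : loc d (𝓔.π x, c) = h
    · rw [rI_apply, Ext.Pl, Ext.Pl, Fb_apply_of_mem _ (by simpa [hloc] using hx),
        Fb_apply_of_mem _ hx, rI_apply]
    · rw [rI_apply, Ext.Pl, Ext.Pl, Fb_apply_of_notMem _ (by simpa [hloc] using hx),
        Fb_apply_of_notMem _ hx]
  have hLH : dim L ≤ dim H := by
    rw [← dim_map_rI hL.closed hL.inv hinj]
    refine dim_mono' ?_
    rintro _ ⟨l, hl, rfl⟩
    refine map_hull _ hH.closed (rI G ι hι) (fun h v hv => ?_) hl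
    exact (hr1 h v).symm ▸ hH.stable h _ (hΦH (hΨΦ v hv))
  have hL' := 𝓔.loc_Ind hL
  have hinj' : ∀ ζ ∈ Ind 𝓔.σ 𝓔.σ_inj L, rI Γ ι hι ζ = 0 → ζ = 0 := by
    intro ζ hζ h0
    ext ⟨y, c⟩
    have := hinj _ (mem_Ind.1 hζ y) (by rw [← pull_rI, ← R_rI, h0, map_zero, map_zero])
    simpa using congrArg (fun v : L2 (G × I') => v (1, c)) this
  have hΨL : Ind 𝓔.σ 𝓔.σ_inj Ψ ≤ Ind 𝓔.σ 𝓔.σ_inj L := Ind_mono (le_hull _ _)
  choose X hX1 hX2 hX3 hX4 hX5 using fun m => (𝓔.D m).exists_big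
    (Finset.univ.map ⟨fun c => (ι c, d c), fun _ _ h => hι (congrArg Prod.fst h)⟩)
    (isClosed_Ind (hι := 𝓔.σ_inj) hΨc) (inv_Ind Ψ)
  let M : ℕ → Submodule ℂ (L2 (Γ × I')) := fun m => hull (loc b ∘ Prod.map 𝓔.π id) (X m)
  have hM : ∀ m, Loc (𝓔.Pl b) (M m) := fun m => loc_hull _ (hX3 m) fun y h => ⟨_, 𝓔.R_P b h y⟩
  have hML : ∀ m, M m ≤ Ind 𝓔.σ 𝓔.σ_inj L := fun m ζ hζ =>
    map_hull _ hL'.closed (ContinuousLinearMap.id ℂ _)
      (fun h v hv => hL'.stable h v (hΨL (hX1 m hv))) hζ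
  refine first_order (hσ := 𝓔.σ_inj) 𝓔.D 𝓔.πσ tendsto_card_zmod
    (fun m => Ind 𝓔.σ 𝓔.σ_inj L ⊓ (M m)ᗮ) _ (fun m => ?_) fun m k z hz => ⟨?_, ?_⟩
  · have h1 : Loc (𝓔.Pl d) ((M m).map (rI Γ ι hι).toLinearMap)ᗮᗮ := by
      refine loc_oo ?_ ?_
      · rintro y _ ⟨ζ, hζ, rfl⟩
        exact ⟨R y ζ, (hM m).inv y ζ hζ, (R_rI y ζ).symm⟩
      · rintro h _ ⟨ζ, hζ, rfl⟩
        exact ⟨_, (hM m).stable h ζ hζ, hr2 h ζ⟩
    have h2 := hgap _ h1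
    rw [dim_oo, dim_map_rI (hM m).closed (hM m).inv fun ζ hζ => hinj' ζ (hML m hζ)] at h2
    have h3 : dim (X m) ≤
        dim (Ind 𝓔.σ 𝓔.σ_inj Φ ⊓ ((M m).map (rI Γ ι hι).toLinearMap)ᗮᗮ) := by
      rw [← dim_map_rI (hX2 m) (hX3 m) fun ζ hζ => hinj' ζ (hΨL (hX1 m hζ))]
      refine dim_mono' ?_
      rintro _ ⟨ζ, hζ, rfl⟩
      refine ⟨mem_Ind.2 fun y => ?_,
        Submodule.le_orthogonal_orthogonal _ ⟨ζ, le_hull _ _ hζ, rfl⟩⟩
      change pull _ _ (R y (rI Γ ι hι ζ)) ∈ Φ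
      rw [R_rI, pull_rI]
      exact hΨΦ _ (mem_Ind.1 (hX1 m hζ) y)
    have h4 := hX4 m
    rw [Finset.card_map, Finset.card_univ, dim_Ind hΨc hΨ] at h4
    rw [dim_inf_orth hL'.closed (hML m), dim_Ind hL.closed hL.inv, div_mul_eq_mul_div,
      le_div_iff₀ ht]
    nlinarith
  · exact (𝓔.D m).A_mem (inv_Ind _) k (extn_mem_Ind hL.inv hz.1)
  · change _ ∈ (_ : Submodule ℂ _)ᗮᗮᗮ
    rw [Submodule.triorthogonal_eq_orthogonal, ← Submodule.iInf_orthogonal, Submodule.mem_iInf]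
    rintro h _ ⟨ξ, hξ, rfl⟩
    have h1 : (𝓔.D m).A I' k ξ ∈ Ind 𝓔.σ 𝓔.σ_inj Ψ := (𝓔.D m).A_mem (inv_Ind _) k (hX1 m hξ)
    have h2 : 𝓔.Pl b k ((𝓔.D m).A I' k ξ) = 0 := by
      refine hinj' _ (hL'.stable k _ (hΨL h1)) ?_
      ext ⟨x, c⟩
      by_cases hx : loc b (𝓔.π x, ι c) = k
      · rw [rI_apply, Ext.Pl, Fb_apply_of_mem _ hx]
        refine (𝓔.D m).A_apply_eq_zero ?_
        rw [← hx, loc, smul_inv_smul, hb]
        exact hX5 m (ι c, d c) (Finset.mem_map.2 ⟨c, Finset.mem_univ _, rfl⟩) hξ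
      · rw [rI_apply, Ext.Pl, Fb_apply_of_notMem _ hx]
        rfl
    change ⟪𝓔.Pl b h ξ, _⟫_ℂ = 0
    rw [Def.inner_A, inner_extn, Ext.Pl, ← Def.Fb_A, ← Ext.Pl, 𝓔.pull_σ_P]
    refine Submodule.inner_right_of_mem_orthogonal
      (res_mem_hull (X := Ψ ⊓ (Pr G b {k}).ker) _ h ⟨pull_mem_of_mem_Ind h1, ?_⟩) hz.2
    change Pr G b {k} _ = 0
    rw [← 𝓔.pull_σ_P, h2, map_zero]

end Pool.Agent.P.MP_0f25e6_al.TT
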