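import Pool.Agent.P.MP_0f25e6_al.SQ.Cells

/-!
Paths, and the forest of the walls.
-/

set_option autoImplicit false

open scoped InnerProductSpace ENNReal Topology
open Filter MulAction

noncomputable section

namespace Pool.Agent.P.MP_0f25e6_al.SQ

open HN

universe u

variable {G V W : Type*} [Group G] [MulAction G V] [MulAction G W]

/-- The first edge of a geodesic. -/
theorem Med.exists_edge (M : Med G V W) {v w : V} (h : v ≠ w) :
    ∃ e : Edge M, (e.o = v ∧ M.mem w e.h) ∨ (e.t = v ∧ ¬ M.mem w e.h) := by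
  obtain ⟨u, k, hk, hu⟩ := M.step v w h
  have hk' : ¬ (M.mem u k ↔ M.mem v k) := fun h1 => (hu k).1 h1 rfl
  by_cases hv : M.mem v k
  · refine ⟨⟨u, v, k, fun h1 => hk' (iff_of_true h1 hv), fun l => ?_⟩,
      Or.inr ⟨rfl, fun h1 => hk (iff_of_true hv h1)⟩⟩
    by_cases hl : l = k
    · subst hl
      exact iff_of_true hv (Or.inr rfl)
    · rw [(hu l).2 hl, or_iff_left hl]
  · refine ⟨⟨v, u, k, hv, fun l => ?_⟩, Or.inl ⟨rfl, by_contra fun h1 => hk (iff_of_false hv h1)⟩⟩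
    by_cases hl : l = k
    · subst hl
      exact iff_of_true (by_contra fun h1 => hk' (iff_of_false h1 hv)) (Or.inr rfl)
    · rw [(hu l).2 hl, or_iff_left hl]

/-- Connectivity. -/
theorem Med.conn (M : Med G V W) (S : Set V) (hS : ∀ e : Edge M, e.o ∈ S ↔ e.t ∈ S) :
    ∀ v ∈ S, ∀ w, w ∈ S := by
  intro v hv w
  induction hn : (M.S v w).card using Nat.strong_induction_on generalizing v with
  | _ n ih =>
    by_cases h : v = w
    · exact h ▸ hv
    have key : ∀ u k, u ∈ S → (∀ l, l ≠ k → (M.mem u l ↔ M.mem v l)) → (M.mem u k ↔ M.mem w k) →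
        ¬ (M.mem v k ↔ M.mem w k) → w ∈ S := fun u k hu h1 h2 h3 => by
      refine ih _ ?_ u hu rfl
      rw [← hn]
      refine Finset.card_lt_card ⟨fun l hl => ?_, fun h4 => M.mem_S.1 (h4 (M.mem_S.2 h3)) h2⟩
      rw [M.mem_S] at hl ⊢
      rwa [← h1 l fun h5 => hl (h5 ▸ h2)]
    obtain ⟨e, ⟨h1, h2⟩ | ⟨h1, h2⟩⟩ := M.exists_edge h
    · subst h1
      exact key e.t e.h ((hS e).1 hv) (fun l hl => e.mem_t_iff hl) (iff_of_true e.mem_t h2)
        fun h3 => e.low (h3.2 h2)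
    · subst h1
      exact key e.o e.h ((hS e).2 hv) (fun l hl => (e.mem_t_iff hl).symm) (iff_of_false e.low h2)
        fun h3 => h2 (h3.1 e.mem_t)

theorem prop_flip {a b c : Prop} (h1 : ¬ (a ↔ b)) (h2 : ¬ (b ↔ c)) : a ↔ c := by
  tauto

theorem prop_med {a b c : Prop} (h1 : ¬ (a ↔ b)) (h2 : ¬ (b ↔ c)) :
    a ∧ b ∨ b ∧ c ∨ a ∧ c ↔ a := by
  tauto

theorem Med.exists_flag (M : Med G V W) {a b c d : V} {h k : W} (hne : h ≠ k) (ha : ¬ M.mem a h)
    (ha' : ¬ M.mem a k) (hb : ∀ l, M.mem b l ↔ M.mem a l ∨ l = h)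
    (hc : ∀ l, M.mem c l ↔ M.mem a l ∨ l = k) (hd : ∀ l, M.mem d l ↔ M.mem a l ∨ l = h ∨ l = k) :
    ∃ x : Flag M, x.c.v = a ∧ x.h = h ∧ x.k = k := by
  classical
  have hI : ∀ l, l ∈ ({h, k} : Finset W) ↔ l = h ∨ l = k := fun l => by
    rw [Finset.mem_insert, Finset.mem_singleton]
  refine ⟨⟨⟨a, {h, k}, fun l hl => ?_, fun J => ?_⟩, h, k, hne, hI⟩, rfl, rfl, rfl⟩
  · rcases (hI l).1 hl with rfl | rfl
    exacts [ha, ha']
  · have e : ∀ l, ((l = h ∨ l = k) ∧ l ∈ J) ↔ (l = h ∧ h ∈ J) ∨ (l = k ∧ k ∈ J) := fun l => by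
      rw [or_and_right]
      exact or_congr (and_congr_right fun h1 => by rw [h1]) (and_congr_right fun h1 => by rw [h1])
    simp only [hI, e]
    by_cases h1 : h ∈ J <;> by_cases h2 : k ∈ J
    · exact ⟨d, fun l => by simp only [hd, h1, h2, and_true]⟩
    · exact ⟨b, fun l => by simp only [hb, h1, h2, and_true, and_false, or_false]⟩
    · exact ⟨c, fun l => by simp only [hc, h1, h2, and_true, and_false, false_or]⟩
    · exact ⟨a, fun l => by simp only [h1, h2, and_false, or_false]⟩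

theorem Flag.sep {M : Med G V W} {n z : Edge M} {x : Flag M}
    (hx : (x.dn = n ∧ M.mem z.o x.k) ∨ (x.up = n ∧ ¬ M.mem z.o x.k)) :
    x.h = n.h ∧ ¬ (M.mem n.o x.k ↔ M.mem z.o x.k) ∧
      ∃ u, ∀ l, (M.mem u l ↔ M.mem n.o l) ↔ l ≠ x.k := by
  have h0 := x.c.low _ x.k_mem
  have h1 : ∀ l, (M.mem x.up.o l ↔ M.mem x.c.v l) ↔ l ≠ x.k := fun l => by
    rw [x.mem_up_o]
    by_cases hl : l = x.k
    · subst hl
      tauto
    · tauto
  rcases hx with ⟨rfl, h⟩ | ⟨rfl, h⟩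
  · exact ⟨rfl, fun h2 => h0 (h2.2 h), x.up.o, h1⟩
  · exact ⟨rfl, fun h2 => h (h2.1 ((x.mem_up_o _).2 (Or.inr rfl))), x.c.v,
      fun l => iff_comm.trans (h1 l)⟩

/-- In the tree of a wall, exactly one flag at `n` separates `n` from `z`. -/
theorem Med.flag_uniq (M : Med G V W) (n z : Edge M) (hh : z.h = n.h) (hne : z ≠ n) :
    ∃! x : Flag M, (x.dn = n ∧ M.mem z.o x.k) ∨ (x.up = n ∧ ¬ M.mem z.o x.k) := by
  have hz : ¬ M.mem z.o n.h := hh ▸ z.low
  refine existsUnique_of_exists_of_unique ?_ fun x x' hx hx' => ?_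
  · obtain ⟨u, k, hk, hu⟩ := M.step n.o z.o fun h => hne (Edge.ext_oh h.symm hh)
    have hkh : n.h ≠ k := fun h => hk (h ▸ iff_of_false n.low hz)
    have huk : ¬ (M.mem u k ↔ M.mem n.o k) := fun h1 => (hu k).1 h1 rfl
    have huh : ¬ M.mem u n.h := fun h => n.low (((hu _).2 hkh).1 h)
    obtain ⟨m, hm⟩ := M.med u n.t z.t
    have hm' : ∀ l, M.mem m l ↔ M.mem u l ∨ l = n.h := fun l => by
      rw [hm, n.up, z.up, hh]
      by_cases h1 : l = n.h
      · simp only [h1, or_true, and_true, true_or]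
      · by_cases h2 : l = k
        · subst h2
          simp only [h1, or_false]
          exact prop_med huk hk
        · simp only [h1, or_false, (hu l).2 h2]
          exact ⟨fun h => h.elim And.left fun h => h.elim And.left And.left,
            fun h => Or.inl ⟨h, h⟩⟩
    by_cases hv : M.mem n.o k
    · have h1 : ∀ l, M.mem n.o l ↔ M.mem u l ∨ l = k := fun l => by
        by_cases hl : l = k
        · exact iff_of_true (hl ▸ hv) (Or.inr hl)
        · rw [(hu l).2 hl, or_iff_left hl]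
      obtain ⟨x, x1, x2, x3⟩ := M.exists_flag hkh huh (fun h => huk (iff_of_true h hv)) hm' h1
        (d := n.t) fun l => by rw [n.up, h1, or_assoc, or_comm (a := l = k)]
      refine ⟨x, Or.inr ⟨Edge.ext_oh (M.ext _ _ fun l => ?_) x2, ?_⟩⟩
      · rw [x.mem_up_o, x1, x3, h1]
      · rw [x3]
        exact fun h => hk (iff_of_true hv h)
    · have h1 : ∀ l, M.mem u l ↔ M.mem n.o l ∨ l = k := fun l => by
        by_cases hl : l = k
        · exact iff_of_true (hl ▸ by_contra fun h => huk (iff_of_false h hv)) (Or.inr hl)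
        · rw [(hu l).2 hl, or_iff_left hl]
      obtain ⟨x, x1, x2, x3⟩ := M.exists_flag hkh n.low hv n.up h1
        (d := m) fun l => by rw [hm', h1, or_assoc, or_comm (a := l = k)]
      refine ⟨x, Or.inl ⟨Edge.ext_oh x1 x2, ?_⟩⟩
      rw [x3]
      exact by_contra fun h => hk (iff_of_false hv h)
  · obtain ⟨a1, a2, u, hu⟩ := Flag.sep hx
    obtain ⟨b1, b2, u', hu'⟩ := Flag.sep hx'
    refine Flag.ext_hk (a1.trans b1.symm) (by_contra fun hk => ?_)
    refine M.dim2 x.k x'.k n.h (fun p q => ?_) (b1 ▸ x'.c.crs x'.k_mem x'.h_mem x'.ne.symm)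
      (a1 ▸ x.c.crs x.k_mem x.h_mem x.ne.symm)
    have c1 : ¬ (M.mem u x.k ↔ M.mem n.o x.k) := fun h => (hu _).1 h rfl
    have c2 := (hu x'.k).2 (Ne.symm hk)
    have c3 : ¬ (M.mem u' x'.k ↔ M.mem n.o x'.k) := fun h => (hu' _).1 h rfl
    have c4 := (hu' x.k).2 hk
    by_cases hp : M.mem n.o x.k ↔ p <;> by_cases hq : M.mem n.o x'.k ↔ q
    · exact ⟨n.o, hp, hq⟩
    · exact ⟨u', c4.trans hp, prop_flip c3 hq⟩
    · exact ⟨u, prop_flip c1 hp, c2.trans hq⟩
    · exact ⟨z.o, prop_flip (fun h => a2 h.symm) hp, prop_flip (fun h => b2 h.symm) hq⟩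

/-- The forest whose nodes are the edges and whose edges are the flags. -/
def Med.forest (M : Med G V W) : Forest G (Edge M) (Flag M) W where
  blk := Edge.h
  o := Flag.dn
  t := Flag.up
  side x := {e | M.mem e.o x.k}
  blk_smul _ _ := rfl
  o_smul := Flag.dn_smul
  t_smul := Flag.up_smul
  side_smul g x e := M.mem_smul g e.o x.k
  blk_t _ := rfl
  t_mem x := (x.mem_up_o _).2 (Or.inr rfl)
  o_notMem x := x.c.low _ x.k_mem
  uniq := M.flag_uniq
  freeN := free_edge M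
  freeF := free_flag M

end Pool.Agent.P.MP_0f25e6_al.SQ
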