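import Pool.Agent.P.MP_0f25e6_al.SQ.Mass
import Pool.Agent.P.MP_0f25e6_al.SQ.Double
import Pool.Agent.P.MP_0f25e6_al.SQ.Forest2
import Pool.Agent.P.MP_0f25e6_al.SQ.MForest

/-!
The gap inequality.
-/

set_option autoImplicit false

open scoped InnerProductSpace ENNReal Topology
open Filter MulAction

noncomputable section

namespace Pool.Agent.P.MP_0f25e6_al.SQ

open HN

universe u

variable {G V W Y₀ : Type*} [Group G] [MulAction G V] [MulAction G W] [MulAction G Y₀]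
  {M : Med G V W}

theorem Base.κ_smul' (B : Base M Y₀) (g : G) (y : Y₀) : B.κ (g • y) = g • B.κ y := by
  rw [Base.κ, B.e_smul]
  rfl

/-- A first order bound for the deformation gives an integer between the dimensions. -/
theorem Base.int_between (B : Base M Y₀) (v₀ : V)
    (J : ℕ → L2 (Til W Y₀) →L[ℂ] L2 (Til W Y₀))
    (hJ : ∀ m, IsJ m (fun z => M.S v₀ (B.e z).o) (J m)) {U U' : Submodule ℂ (L2 Y₀)}
    (hU : Adm G B.κ U) (hU' : Adm G B.κ U') (h : U ≤ U') {c : ℝ}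
    (hd : ∀ m : ℕ, dim (Gam G W) (indb W U) -
      dim (Gam G W) (indb W U ⊓ pre (J m) (indb W U') : Submodule ℂ (L2 (Til W Y₀))) ≤
        c / ((m : ℝ) + 1)) :
    ∃ n : ℕ, dim G U ≤ n ∧ (n : ℝ) ≤ dim G U' := by
  have ho : ∀ (g : G) z, (B.e (g • z)).o = g • (B.e z).o := fun g z => by
    rw [B.e_smul]
    rfl
  have hm := mass_ZE_le M v₀ B.cofin (o := fun z => (B.e z).o) ho J hJ hU.cls hU.inv hU'.cls
    hU'.inv h hd
  refine M.forest.sandwich B.free B.cofin B.e_smul hU hU' h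
    (ne_top_of_le_ne_top ENNReal.ofReal_ne_top (le_trans (osum_mono fun z => ?_) hm))
  refine ENNReal.tsum_comp_le_tsum_of_injective
    (f := fun f : {f : Flag M // M.forest.blk (M.forest.o f) = M.forest.blk (B.e z)} => f.1.k)
    (fun a b hab => Subtype.ext (Flag.ext_hk (a.2.trans b.2.symm) hab))
    (fun k => tau (ZE U U' {z | M.mem (B.e z).o k}) z)

/-- The maximisers of the slope functional are eventually induced. -/
theorem Base.exists_stable (B : Base M Y₀) :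
    ∃ D : Submodule ℂ (L2 Y₀), Adm G B.κ D ∧ ∃ n₀ : ℕ, ∀ n : ℕ, n₀ ≤ n →
      ∀ U, Adm (Gam G W) (fun p : Til W Y₀ => B.κ p.z) U →
        psi (Gam G W) (indb W B.Φ) (1 / ((n : ℝ) + 1)) U ≤
          psi (Gam G W) (indb W B.Φ) (1 / ((n : ℝ) + 1)) (indb W D) := by
  obtain ⟨v₀⟩ := M.ne
  choose J hJ using fun m => exists_isJ m (fun z => M.S v₀ (B.e z).o)
  have ho : ∀ (g : G) z, (B.e (g • z)).o = g • (B.e z).o := fun g z => by
    rw [B.e_smul]
    rfl
  have hκ : Cmp G B.κ := cmp_of_smul B.κ_smul'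
  have fT : Free (Gam G W) (Til W Y₀) := free_til B.free
  have cT : Cofin (Gam G W) (Set.univ : Set (Til W Y₀)) := cofin_til B.cofin
  have hFc : Cls (indb W B.Φ) := cls_indb B.cls
  have hFi : Inv (Gam G W) (indb W B.Φ) := inv_indb B.inv
  let t : ℕ → ℝ := fun n => 1 / ((n : ℝ) + 1)
  have ht0 : ∀ n, 0 ≤ t n := fun n => by positivity
  have hta : ∀ {n n'}, n < n' → t n' < t n := fun h =>
    one_div_lt_one_div_of_lt (by positivity) (by exact_mod_cast Nat.succ_lt_succ h)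
  choose X hX hXm using fun n =>
    exists_max fT cT (fun p : Til W Y₀ => B.κ p.z) hFc hFi (ht0 n)
  let D : ℕ → Submodule ℂ (L2 Y₀) := fun n => cl (img (slice 1) (X n))
  have hD : ∀ n, Adm G B.κ (D n) := fun n => adm_down (hX n)
  have a1 : ∀ n, X n ≤ indb W (D n) := fun n => le_indb_down (hX n).inv
  have a2 : ∀ {n n'}, n < n' → indb W (D n) ≤ X n' := fun h =>
    indb_down_le B.free B.cofin hκ B.cls B.inv (hta h) (hX _) (hX _) (hXm _) (hXm _)
  have a3 : Monotone D := monotone_nat_of_le_succ fun n v hv => by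
    have := mem_indb.1 (a1 _ (a2 (Nat.lt_succ_self n) (ext1_mem_indb hv))) 1
    rwa [slice_ext1] at this
  set c : ℝ := dim G (⊤ : Submodule ℂ (L2 Y₀)) with hc
  have a4 : ∀ n m : ℕ, dim (Gam G W) (X n) -
      dim (Gam G W) (X n ⊓ pre (J m) (X (n + 1)) : Submodule ℂ (L2 (Til W Y₀))) ≤
        c / (t n - t (n + 1)) / ((m : ℝ) + 1) := by
    intro n m
    have hpos := sub_pos.2 (hta (Nat.lt_succ_self n))
    have b1 := near_max fT cT hFc hFi (hX n) ((hJ m).adm_pre ho (hX (n + 1))) (hXm n)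
      (s := t (n + 1)) (η := c / ((m : ℝ) + 1)) fun Z hZ => by
        have b2 := hXm (n + 1) Z hZ
        have b3 := B.dim_inf_pre (hJ m) (hX (n + 1)).cls (hX (n + 1)).inv
        rw [psi] at b2 ⊢
        rw [psi] at b2 ⊢
        rw [(hJ m).dim_pre (hX (n + 1)).inv]
        linarith
    rw [div_right_comm, le_div_iff₀ hpos]
    linarith
  have a5 : ∀ n m : ℕ, dim (Gam G W) (indb W (D n)) -
      dim (Gam G W) (indb W (D n) ⊓ pre (J m) (indb W (D (n + 2))) :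
        Submodule ℂ (L2 (Til W Y₀))) ≤ c / (t (n + 1) - t (n + 2)) / ((m : ℝ) + 1) := fun n m =>
    (codim_mono fT cT (cls_indb (hD n).cls) (inv_indb (hD n).inv) (hX _).cls (hX _).inv
      ((hJ m).adm_pre ho (hX _)).cls ((hJ m).adm_pre ho (hX _)).inv
      (a2 (Nat.lt_succ_self n)) (Submodule.comap_mono (a1 (n + 2)))).trans (a4 (n + 1) m)
  have a6 : ∀ n, ∃ N : ℕ, dim G (D n) ≤ N ∧ (N : ℝ) ≤ dim G (D (n + 2)) := fun n =>
    B.int_between v₀ J hJ (hD n) (hD (n + 2)) (a3 (Nat.le_add_right n 2)) (a5 n)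
  choose N hN1 hN2 using a6
  obtain ⟨_, ⟨n₀, rfl⟩, hn₀⟩ := Int.exists_greatest_of_bdd (P := fun z => ∃ n, (N n : ℤ) = z)
    ⟨⌈c⌉, by
      rintro _ ⟨n, rfl⟩
      have h1 : (N n : ℝ) ≤ c := (hN2 n).trans (dim_mono (edim_ne_top B.cofin _) le_top)
      have h2 : (((N n : ℤ)) : ℝ) ≤ (⌈c⌉ : ℤ) := by
        push_cast
        exact h1.trans (Int.le_ceil c)
      exact_mod_cast h2⟩ ⟨_, 0, rfl⟩
  have a7 : ∀ n, dim G (D n) ≤ N n₀ := fun n =>
    (hN1 n).trans (by exact_mod_cast hn₀ _ ⟨n, rfl⟩)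
  have a8 : ∀ n, n₀ + 2 ≤ n → D n = D (n₀ + 2) := fun n hn =>
    (eq_of_dim_le (hD _).cls (hD n).cls (hD _).inv (hD n).inv (a3 hn) (edim_ne_top B.cofin _)
      ((a7 n).trans (hN2 n₀))).symm
  have a9 : ∀ n, n₀ + 2 < n → X n = indb W (D (n₀ + 2)) := fun n hn =>
    le_antisymm (a8 n hn.le ▸ a1 n) (a2 hn)
  refine ⟨D (n₀ + 2), hD _, n₀ + 3, fun n hn U hU => ?_⟩
  have := hXm n U hU
  rwa [a9 n hn] at this

theorem Base.gap (B : Base M Y₀) : ∃ t : ℝ, 0 < t ∧ B.Gap t := by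
  obtain ⟨D, hD, n₀, hn⟩ := B.exists_stable
  have cT : Cofin (Gam G W) (Set.univ : Set (Til W Y₀)) := cofin_til B.cofin
  have hFc : Cls (indb W B.Φ) := cls_indb B.cls
  have hFi : Inv (Gam G W) (indb W B.Φ) := inv_indb B.inv
  have hDc : Cls (indb W D) := cls_indb hD.cls
  have hDi : Inv (Gam G W) (indb W D) := inv_indb hD.inv
  have b1 : dim (Gam G W) (indb W B.Φ) ≤
      dim (Gam G W) (indb W B.Φ ⊓ indb W D : Submodule ℂ (L2 (Til W Y₀))) := by
    set c : ℝ := dim (Gam G W) (⊤ : Submodule ℂ (L2 (Til W Y₀))) with hc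
    have c1 : Tendsto (fun n : ℕ => dim (Gam G W) (indb W B.Φ) - 1 / ((n : ℝ) + 1) * c) atTop
        (𝓝 (dim (Gam G W) (indb W B.Φ) - 0 * c)) :=
      (tendsto_one_div_add_atTop_nhds_zero_nat.mul_const _).const_sub _
    rw [zero_mul, sub_zero] at c1
    refine le_of_tendsto c1 (eventually_atTop.2 ⟨n₀, fun n h => ?_⟩)
    have c2 := hn n h ⊤ (adm_top _)
    have c3 : 0 ≤ 1 / ((n : ℝ) + 1) * dim (Gam G W) (indb W D) :=
      mul_nonneg (by positivity) (dim_nonneg _)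
    rw [psi, psi, inf_top_eq] at c2
    linarith
  have b2 : indb W B.Φ ⊓ indb W D = indb W B.Φ :=
    eq_of_dim_le (hFc.inter hDc) hFc (hFi.inf hDi) hFi inf_le_left (edim_ne_top cT _) b1
  have b3 : B.Φ ≤ D := fun θ hθ => by
    have h1 : ext1 W θ ∈ indb W D := (inf_eq_left.1 b2) (ext1_mem_indb hθ)
    have := mem_indb.1 h1 1
    rwa [slice_ext1] at this
  have b4 : hull B.κ B.Φ ≤ D := hull_le hD.cls fun x f hf => hD.split x f (b3 hf)
  have b5 : dim G (hull B.κ B.Φ) ≤ dim G D := dim_mono (edim_ne_top B.cofin _) b4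
  have ht : (0 : ℝ) < 1 / ((n₀ : ℝ) + 1) := by positivity
  refine ⟨1 / ((n₀ : ℝ) + 1), ht, fun U hU => ?_⟩
  have c2 := hn n₀ le_rfl U hU
  rw [psi, psi, b2, dim_indb B.cls B.inv, dim_indb hD.cls hD.inv] at c2
  have c3 := mul_le_mul_of_nonneg_left b5 ht.le
  linarith

end Pool.Agent.P.MP_0f25e6_al.SQ
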