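import Pool.Agent.P.MP_0f25e6_al.SQ.Defs

/-!
The half-spaces of a median graph.
-/

set_option autoImplicit false

open scoped InnerProductSpace ENNReal Topology
open Filter MulAction

noncomputable section

namespace Pool.Agent.P.MP_0f25e6_al.SQ

open HN

universe u

/-- The distance function of a median graph. -/
structure GrM (V : Type*) where
  /-- distance -/
  d : V → V → ℕ
  self : ∀ x, d x x = 0
  zero : ∀ {x y}, d x y = 0 → x = y
  symm : ∀ x y, d x y = d y x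
  tri : ∀ x y z, d x z ≤ d x y + d y z
  step : ∀ {x y}, x ≠ y → ∃ x', d x x' = 1 ∧ d x' y + 1 = d x y
  med : ∀ a b c, ∃! m, d a m + d m b = d a b ∧ d b m + d m c = d b c ∧ d a m + d m c = d a c

namespace GrM

variable {V : Type*} (M : GrM V)

theorem bip {a b : V} (h : M.d a b = 1) (x : V) :
    M.d x a + 1 = M.d x b ∨ M.d x b + 1 = M.d x a := by
  obtain ⟨m, ⟨h1, h2, h3⟩, -⟩ := M.med a b x
  have s1 := M.symm x a
  have s2 := M.symm x b
  have s3 := M.symm a b
  by_cases h0 : M.d a m = 0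
  · obtain rfl := M.zero h0
    omega
  · obtain rfl := M.zero (x := m) (y := b) (by omega)
    omega

theorem two {x a b : V} (ha : M.d x a = 1) (hb : M.d x b = 1) (h : a ≠ b) : M.d a b = 2 := by
  have h1 := M.tri a x b
  have h2 := M.symm a x
  have h3 : M.d a b ≠ 0 := fun e => h (M.zero e)
  have h4 : M.d a b ≠ 1 := fun e => by
    have := M.bip e x
    omega
  omega

/-- half-space of an edge -/
def W (a b : V) : Set V := {x | M.d x a < M.d x b}

theorem mem_W {a b x : V} : x ∈ M.W a b ↔ M.d x a < M.d x b := Iff.rfl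

theorem compl_W {a b : V} (h : M.d a b = 1) : (M.W a b)ᶜ = M.W b a := by
  ext x
  have := M.bip h x
  simp only [Set.mem_compl_iff, mem_W]
  omega

theorem square_le {x y x' y' : V} (h1 : M.d x y = 1) (h2 : M.d y' y = 1) (h3 : M.d x' y' = 1)
    (h4 : M.d x x' = 1) (n1 : x ≠ y') (n2 : x' ≠ y) : M.W x y ⊆ M.W x' y' := by
  intro z hz
  rw [mem_W] at hz ⊢
  by_contra hc
  have b1 := M.bip h1 z
  have b2 := M.bip h2 z
  have b3 := M.bip h3 z
  have b4 := M.bip h4 z
  have t := M.two h4 h1 n2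
  have s1 := M.symm x x'
  have s2 := M.symm x y
  have s3 := M.symm y y'
  have s4 := M.symm z x
  have s5 := M.symm z y
  have s6 := M.symm z x'
  have s7 := M.symm z y'
  exact n1 ((M.med x' y z).unique ⟨by omega, by omega, by omega⟩ ⟨by omega, by omega, by omega⟩)

theorem square {x y x' y' : V} (h1 : M.d x y = 1) (h2 : M.d y' y = 1) (h3 : M.d x' y' = 1)
    (h4 : M.d x x' = 1) (n1 : x ≠ y') (n2 : x' ≠ y) : M.W x y = M.W x' y' :=
  (M.square_le h1 h2 h3 h4 n1 n2).antisymm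
    (M.square_le h3 (M.symm _ _ ▸ h2) h1 (M.symm _ _ ▸ h4) n2 n1)

theorem djok {a b : V} (h : M.d a b = 1) (n : ℕ) : ∀ x y, M.d x a = n → M.d x y = 1 →
    x ∈ M.W a b → y ∉ M.W a b → M.W x y = M.W a b := by
  induction n with
  | zero =>
    intro x y h0 h1 hx hy
    obtain rfl := M.zero h0
    rw [mem_W] at hy
    have b1 := M.bip h y
    have s1 := M.symm x y
    obtain rfl := M.zero (x := y) (y := b) (by omega)
    rfl
  | succ n ih =>
    intro x y h0 h1 hx hy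
    rw [mem_W] at hx hy
    have hne : x ≠ a := fun e => by
      rw [e, M.self] at h0
      omega
    obtain ⟨x', e1, e2⟩ := M.step hne
    obtain ⟨y', ⟨m1, m2, m3⟩, -⟩ := M.med x' y b
    have b1 := M.bip h x
    have b2 := M.bip h y
    have t1 := M.tri y x a
    have t2 := M.tri x y b
    have t3 := M.tri x' a b
    have t4 := M.tri x x' b
    have t5 := M.tri y x' a
    have t6 := M.tri x' x y
    have t7 := M.tri y y' a
    have s1 := M.symm x y
    have s2 := M.symm x x'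
    have s3 := M.symm x' y
    have s4 := M.symm y y'
    have n1 : x ≠ y' := fun e => by
      rw [← e] at m3
      omega
    have n2 : x' ≠ y := fun e => by
      rw [e] at e2
      omega
    rw [M.square h1 (by omega) (by omega) e1 n1 n2]
    exact ih x' y' (by omega) (by omega) (M.mem_W.2 (by omega)) fun hc => by
      rw [mem_W] at hc
      omega

/-- the half-spaces -/
def H : Set (Set V) := {A | ∃ a b, M.d a b = 1 ∧ A = M.W a b}

theorem compl_H {A : Set V} (hA : A ∈ M.H) : Aᶜ ∈ M.H := by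
  obtain ⟨a, b, h, rfl⟩ := hA
  exact ⟨b, a, M.symm _ _ ▸ h, M.compl_W h⟩

theorem eq_W {A : Set V} (hA : A ∈ M.H) {x y : V} (h : M.d x y = 1) (hx : x ∈ A) (hy : y ∉ A) :
    A = M.W x y := by
  obtain ⟨a, b, hab, rfl⟩ := hA
  exact (M.djok hab _ x y rfl h hx hy).symm

theorem conv {A : Set V} (hA : A ∈ M.H) {v m : V} (hv : v ∈ A) (k : ℕ) : ∀ u, M.d u m = k →
    u ∈ A → M.d u m + M.d m v = M.d u v → m ∈ A := by
  induction k with
  | zero =>
    intro u h hu _
    exact M.zero h ▸ hu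
  | succ k ih =>
    intro u h hu e
    have hne : u ≠ m := fun e => by
      rw [e, M.self] at h
      omega
    obtain ⟨u', e1, e2⟩ := M.step hne
    have t1 := M.tri u' m v
    have t2 := M.tri u u' v
    by_cases h' : u' ∈ A
    · exact ih u' (by omega) h' (by omega)
    · rw [M.eq_W hA e1 hu h', mem_W] at hv
      have s1 := M.symm u v
      have s2 := M.symm u' v
      omega

theorem btw {A : Set V} (hA : A ∈ M.H) {u v m : V} (hu : u ∈ A) (hv : v ∈ A)
    (e : M.d u m + M.d m v = M.d u v) : m ∈ A :=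
  M.conv hA hv _ u rfl hu e

theorem fin (w : V) (k : ℕ) : ∀ v, M.d v w = k → {A ∈ M.H | v ∈ A ∧ w ∉ A}.Finite := by
  induction k with
  | zero =>
    intro v h
    obtain rfl := M.zero h
    exact Set.finite_empty.subset fun A hA => hA.2.2 hA.2.1
  | succ k ih =>
    intro v h
    have hne : v ≠ w := fun e => by
      rw [e, M.self] at h
      omega
    obtain ⟨v', e1, e2⟩ := M.step hne
    refine ((ih v' (by omega)).insert (M.W v v')).subset fun A hA => ?_
    by_cases h' : v' ∈ A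
    · exact Or.inr ⟨hA.1, h', hA.2.2⟩
    · exact Or.inl (M.eq_W hA.1 e1 hA.2.1 h')

theorem sep {v w : V} (h : v ≠ w) : ∃ A ∈ M.H, v ∈ A ∧ w ∉ A := by
  obtain ⟨v', e1, e2⟩ := M.step h
  have s1 := M.symm v w
  have s2 := M.symm v' w
  have s3 := M.self v
  refine ⟨M.W v v', ⟨v, v', e1, rfl⟩, M.mem_W.2 (by omega), fun hc => ?_⟩
  rw [mem_W] at hc
  omega

theorem helly {A B C : Set V} (hA : A ∈ M.H) (hB : B ∈ M.H) (hC : C ∈ M.H)
    (h1 : ∃ v, v ∈ A ∧ v ∈ B) (h2 : ∃ v, v ∈ B ∧ v ∈ C) (h3 : ∃ v, v ∈ A ∧ v ∈ C) :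
    ∃ v, v ∈ A ∧ v ∈ B ∧ v ∈ C := by
  obtain ⟨u, u1, u2⟩ := h1
  obtain ⟨v, v1, v2⟩ := h2
  obtain ⟨w, w1, w2⟩ := h3
  obtain ⟨m, ⟨m1, m2, m3⟩, -⟩ := M.med u v w
  exact ⟨m, M.btw hA u1 w1 m3, M.btw hB u2 v1 m1, M.btw hC v2 w2 m2⟩

theorem nbr {A B C : Set V} (hA : A ∈ M.H) (hB : B ∈ M.H) (hC : C ∈ M.H) {x q : V} (hq : q ∉ A)
    (xA : x ∈ A) (xB : x ∈ B) (xC : x ∈ C)
    (hm : ∀ y, y ∈ A → y ∈ B → y ∈ C → M.d x q ≤ M.d y q)
    (hr : ∃ r, r ∈ Aᶜ ∧ r ∈ B ∧ r ∈ C) :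
    ∃ a, M.d x a = 1 ∧ M.d a q + 1 = M.d x q ∧ a ∉ A ∧ a ∈ B ∧ a ∈ C := by
  obtain ⟨r, r1, r2, r3⟩ := hr
  obtain ⟨m, ⟨m1, m2, m3⟩, -⟩ := M.med x r q
  have mA : m ∈ Aᶜ := M.btw (M.compl_H hA) r1 hq m2
  have hne : x ≠ m := fun e => mA (e ▸ xA)
  obtain ⟨a, e1, e2⟩ := M.step hne
  have aB : a ∈ B := M.btw hB xB (M.btw hB xB r2 m1) (by omega)
  have aC : a ∈ C := M.btw hC xC (M.btw hC xC r3 m1) (by omega)
  have t1 := M.tri a m q
  have t2 := M.tri x a q
  refine ⟨a, e1, by omega, fun aA => ?_, aB, aC⟩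
  have := hm a aA aB aC
  omega

theorem common {x a b q : V} (ha : M.d x a = 1) (hb : M.d x b = 1) (h : a ≠ b)
    (ha' : M.d a q + 1 = M.d x q) (hb' : M.d b q + 1 = M.d x q) :
    ∃ p, p ≠ x ∧ M.d a p = 1 ∧ M.d b p = 1 := by
  obtain ⟨p, ⟨m1, m2, m3⟩, -⟩ := M.med a b q
  have t := M.two ha hb h
  have s := M.symm b p
  refine ⟨p, fun e => ?_, by omega, by omega⟩
  rw [e] at m3
  omega

theorem cube {A B C : Set V} (hA : A ∈ M.H) (hB : B ∈ M.H) (hC : C ∈ M.H)
    (h1 : Crs (fun v (D : Set V) => v ∈ D) A B) (h2 : Crs (fun v (D : Set V) => v ∈ D) B C)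
    (h3 : Crs (fun v (D : Set V) => v ∈ D) A C) :
    ∃ x a b c : V, M.d x a = 1 ∧ M.d x b = 1 ∧ M.d x c = 1 ∧ a ≠ b ∧ b ≠ c ∧ a ≠ c ∧
      (∃ p, p ≠ x ∧ M.d a p = 1 ∧ M.d b p = 1) ∧ (∃ q, q ≠ x ∧ M.d b q = 1 ∧ M.d c q = 1) ∧
      (∃ r, r ≠ x ∧ M.d a r = 1 ∧ M.d c r = 1) := by
  classical
  have hA' := M.compl_H hA
  have hB' := M.compl_H hB
  have hC' := M.compl_H hC
  obtain ⟨q, qA, qB, qC⟩ := M.helly hA' hB' hC' (by simpa using h1 False False)
    (by simpa using h2 False False) (by simpa using h3 False False)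
  have hex : ∃ n, ∃ x, x ∈ A ∧ x ∈ B ∧ x ∈ C ∧ M.d x q = n := by
    obtain ⟨x, x1, x2, x3⟩ := M.helly hA hB hC (by simpa using h1 True True)
      (by simpa using h2 True True) (by simpa using h3 True True)
    exact ⟨_, x, x1, x2, x3, rfl⟩
  obtain ⟨x, xA, xB, xC, hx⟩ := Nat.find_spec hex
  have hm : ∀ y, y ∈ A → y ∈ B → y ∈ C → M.d x q ≤ M.d y q := fun y y1 y2 y3 =>
    hx ▸ Nat.find_min' hex ⟨y, y1, y2, y3, rfl⟩
  obtain ⟨a, a1, a2, aA, aB, aC⟩ := M.nbr hA hB hC qA xA xB xC hm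
    (M.helly hA' hB hC (by simpa using h1 False True) (by simpa using h2 True True)
      (by simpa using h3 False True))
  obtain ⟨b, b1, b2, bB, bA, bC⟩ := M.nbr hB hA hC qB xB xA xC (fun y u v w => hm y v u w)
    (M.helly hB' hA hC (by simpa [and_comm] using h1 True False) (by simpa using h3 True True)
      (by simpa using h2 False True))
  obtain ⟨c, c1, c2, cC, cA, cB⟩ := M.nbr hC hA hB qC xC xA xB (fun y u v w => hm y v w u)
    (M.helly hC' hA hB (by simpa [and_comm] using h3 True False) (by simpa using h1 True True)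
      (by simpa [and_comm] using h2 True False))
  have n1 : a ≠ b := fun e => aA (e ▸ bA)
  have n2 : b ≠ c := fun e => bB (e ▸ cB)
  have n3 : a ≠ c := fun e => aA (e ▸ cA)
  exact ⟨x, a, b, c, a1, b1, c1, n1, n2, n3, M.common a1 b1 n1 a2 b2, M.common b1 c1 n2 b2 c2,
    M.common a1 c1 n3 a2 c2⟩

theorem map_le (f : V → V) (hf : ∀ u v, M.d u v = 1 → M.d (f u) (f v) = 1) (v : V) (k : ℕ) :
    ∀ u, M.d u v = k → M.d (f u) (f v) ≤ k := by
  induction k with
  | zero =>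
    intro u h
    rw [M.zero h, M.self]
  | succ k ih =>
    intro u h
    have hne : u ≠ v := fun e => by
      rw [e, M.self] at h
      omega
    obtain ⟨u', e1, e2⟩ := M.step hne
    have h1 := ih u' (by omega)
    have h2 := hf _ _ e1
    have h3 := M.tri (f u) (f u') (f v)
    omega

end GrM

theorem graph_step {V : Type*} {T : SimpleGraph V} (hT : T.Connected) {x y : V} (h : x ≠ y) :
    ∃ x', T.dist x x' = 1 ∧ T.dist x' y + 1 = T.dist x y := by
  obtain ⟨p, hp⟩ := hT.exists_walk_length_eq_dist x y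
  cases p with
  | nil => exact absurd rfl h
  | @cons _ x' _ ha p' =>
    have h1 := SimpleGraph.dist_eq_one_iff_adj.2 ha
    have h2 := SimpleGraph.dist_le p'
    have h3 := hT.dist_triangle (u := x) (v := x') (w := y)
    rw [SimpleGraph.Walk.length_cons] at hp
    exact ⟨x', h1, by omega⟩

theorem exists_ws {G V : Type*} [Group G] [MulAction G V] (T : SimpleGraph V) (hT : T.Connected)
    (hmed : ∀ a b c : V, ∃! m, T.dist a m + T.dist m b = T.dist a b ∧
      T.dist b m + T.dist m c = T.dist b c ∧ T.dist a m + T.dist m c = T.dist a c)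
    (hdim : ¬ ∃ x a b c : V, T.Adj x a ∧ T.Adj x b ∧ T.Adj x c ∧ a ≠ b ∧ b ≠ c ∧ a ≠ c ∧
      (∃ p, p ≠ x ∧ T.Adj a p ∧ T.Adj b p) ∧ (∃ q, q ≠ x ∧ T.Adj b q ∧ T.Adj c q) ∧
      (∃ r, r ≠ x ∧ T.Adj a r ∧ T.Adj c r))
    (hadj : ∀ (g : G) (u v : V), T.Adj u v → T.Adj (g • u) (g • v)) (hfree : Free G V) :
    Nonempty (WS G V) := by
  let M : GrM V :=
    { d := T.dist
      self := fun _ => SimpleGraph.dist_self
      zero := fun h => hT.dist_eq_zero_iff.1 h
      symm := fun _ _ => SimpleGraph.dist_comm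
      tri := fun _ _ _ => hT.dist_triangle
      step := fun h => graph_step hT h
      med := hmed }
  have h1 : ∀ (g : G) u v, M.d u v = 1 → M.d (g • u) (g • v) = 1 := fun g u v h =>
    SimpleGraph.dist_eq_one_iff_adj.2 (hadj g u v (SimpleGraph.dist_eq_one_iff_adj.1 h))
  have h2 : ∀ (g : G) u v, M.d (g • u) (g • v) = M.d u v := fun g u v => by
    have a1 := M.map_le (fun x => g • x) (h1 g) v _ u rfl
    have a2 := M.map_le (fun x => g⁻¹ • x) (h1 g⁻¹) (g • v) _ (g • u) rfl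
    simp only [inv_smul_smul] at a2
    exact le_antisymm a1 a2
  refine ⟨⟨M.H, fun A hA => M.compl_H hA, ?_, fun v w => M.fin w _ v rfl, fun v w h => M.sep h,
    ?_, ?_, hfree, hT.nonempty⟩⟩
  · rintro g _ ⟨a, b, h, rfl⟩
    refine ⟨g • a, g • b, h1 g a b h, ?_⟩
    ext v
    rw [GrM.mem_W, Set.mem_ofPred_eq, GrM.mem_W, ← h2 g _ a, ← h2 g _ b, smul_inv_smul]
  · intro u v w
    obtain ⟨m, ⟨m1, m2, m3⟩, -⟩ := M.med u v w
    refine ⟨m, fun A hA h => ?_⟩
    rcases h with h | h | h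
    · exact M.btw hA h.1 h.2 m1
    · exact M.btw hA h.1 h.2 m2
    · exact M.btw hA h.1 h.2 m3
  · intro A hA B hB C hC c1 c2 c3
    have := M.cube hA hB hC c1 c2 c3
    simp only [M, SimpleGraph.dist_eq_one_iff_adj] at this
    exact hdim this

end Pool.Agent.P.MP_0f25e6_al.SQ
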