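import Pool.Agent.P.MP_0f25e6_al.SQ.Jop1
import Pool.Agent.P.MP_0f25e6_al.SQ.TilApi
import Pool.Agent.P.MP_0f25e6_al.SQ.Cells

/-!
The deformation along the walls.
-/

set_option autoImplicit false

open scoped InnerProductSpace ENNReal Topology
open Filter MulAction

noncomputable section

namespace Pool.Agent.P.MP_0f25e6_al.SQ

open HN

universe u

section Aux

theorem jop_Bp_congr {W Z : Type*} (m : ℕ) (S : Finset W) {f f' : L2 (Til W Z)} {z : Z}
    (h : ∀ q : Til W Z, q.z = z → f q = f' q) {p : Til W Z} (hp : p.z = z) :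
    Bp m S f p = Bp m S f' p := by
  have h1 : res (Til.z ⁻¹' {z}) f = res (Til.z ⁻¹' {z}) f' := by
    ext q
    by_cases hq : q ∈ (Til.z ⁻¹' {z} : Set (Til W Z))
    · rw [res_apply_of_mem _ hq, res_apply_of_mem _ hq, h q hq]
    · rw [res_apply_of_notMem _ hq, res_apply_of_notMem _ hq]
  have hp' : p ∈ (Til.z ⁻¹' {z} : Set (Til W Z)) := hp
  rw [← res_apply_of_mem (Bp m S f) hp', ← res_apply_of_mem (Bp m S f') hp', res_Bp, res_Bp, h1]

theorem jop_Bp_single {W Z : Type*} (m : ℕ) (k : W) (f : L2 (Til W Z)) :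
    Bp m {k} f = refl m k f := by
  classical
  have := Bp_insert_apply (S := ∅) m (Finset.notMem_empty k) f
  rw [Bp_empty] at this
  exact this

variable {G W Z : Type*} [Group G] [MulAction G W] [MulAction G Z]

theorem jop_act_Bp (g : Gam G W) (m : ℕ) (S : Finset W) (f : L2 (Til W Z)) :
    act g (Bp m S f) = Bp m (S.map (MulAction.toPerm g.right).toEmbedding) (act g f) := by
  classical
  induction S using Finset.induction_on with
  | empty => rfl
  | insert k S hk ih =>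
    rw [Finset.map_insert, Bp_insert_apply m hk, Bp_insert_apply m (by
      rw [Finset.mem_map']; exact hk), ← ih, refl_def, refl_def, map_sub, map_smul, act_avg]
    rfl

theorem jop_proj_Bp {U : Submodule ℂ (L2 (Til W Z))} (hU : Inv (Gam G W) U) (m : ℕ)
    (S : Finset W) (f : L2 (Til W Z)) : proj U (Bp m S f) = Bp m S (proj U f) := by
  classical
  induction S using Finset.induction_on with
  | empty => rfl
  | insert k S hk ih =>
    rw [Bp_insert_apply m hk, Bp_insert_apply m hk, ← ih, refl_def, refl_def, map_sub, map_smul,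
      proj_avg hU]

end Aux

variable {G V W X Z : Type*} [Group G] [MulAction G V] [MulAction G W] [MulAction G Z]
  {M : Med G V W} {m : ℕ} {v₀ : V}

theorem IsJ.J_act {o : Z → V} (ho : ∀ (g : G) z, o (g • z) = g • o z)
    {J : L2 (Til W Z) →L[ℂ] L2 (Til W Z)} (hJ : IsJ m (fun z => M.S v₀ (o z)) J) (g : Gam G W)
    (f : L2 (Til W Z)) :
    J (act g f) = Bp m (M.S v₀ (g.right • v₀)) (act g (J f)) := by
  ext p
  have h1 : ∀ q : Til W Z, q.z = p.z →
      act g (J f) q = Bp m (M.S (g.right • v₀) (o p.z)) (act g f) q := by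
    intro q hq
    have h2 : M.S (g.right • v₀) (o p.z) =
        (M.S v₀ (o (g⁻¹ • q).z)).map (MulAction.toPerm g.right).toEmbedding := by
      ext k
      rw [mem_map_smul, M.mem_S, M.mem_S, M.mem_smul_left, Til.smul_z, ho, hq,
        SemidirectProduct.inv_right, M.mem_smul]
    rw [h2, ← jop_act_Bp, act_apply, act_apply, hJ]
  rw [jop_Bp_congr m _ h1 rfl, hJ, Bp_Bp m _ _ (M.S v₀ (o p.z))]
  intro k
  rw [M.mem_S, M.mem_S, M.mem_S]
  tauto

theorem IsJ.inv_pre {o : Z → V} (ho : ∀ (g : G) z, o (g • z) = g • o z)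
    {J : L2 (Til W Z) →L[ℂ] L2 (Til W Z)} (hJ : IsJ m (fun z => M.S v₀ (o z)) J)
    {U : Submodule ℂ (L2 (Til W Z))} (hU : Inv (Gam G W) U) : Inv (Gam G W) (pre J U) := by
  intro g f hf
  change J (act g f) ∈ U
  rw [hJ.J_act ho]
  exact Bp_mem (sh_mem_of_inv hU) m _ (hU g _ hf)

theorem IsJ.adm_pre {o : Z → V} (ho : ∀ (g : G) z, o (g • z) = g • o z)
    {J : L2 (Til W Z) →L[ℂ] L2 (Til W Z)} (hJ : IsJ m (fun z => M.S v₀ (o z)) J) {κ : Z → X}
    {U : Submodule ℂ (L2 (Til W Z))} (hU : Adm (Gam G W) (fun p => κ p.z) U) :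
    Adm (Gam G W) (fun p => κ p.z) (pre J U) := by
  refine ⟨hU.cls.pre J, hJ.inv_pre ho hU.inv, fun x f hf => ?_⟩
  change J (MP_0f25e6_al.res (Til.z ⁻¹' (κ ⁻¹' {x})) f) ∈ U
  rw [← hJ.res]
  exact hU.split x _ hf

theorem IsJ.dim_pre {S : Z → Finset W} {J : L2 (Til W Z) →L[ℂ] L2 (Til W Z)} (hJ : IsJ m S J)
    {U : Submodule ℂ (L2 (Til W Z))} (hU : Inv (Gam G W) U) :
    dim (Gam G W) (pre J U) = dim (Gam G W) U := by
  have h1 : ∀ u, proj (pre J U) u = J (proj U (J u)) := by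
    intro u
    refine proj_eq (cl_mono ?_ (img_cl_le J U ⟨_, proj_mem U (J u), rfl⟩)) fun g hg => ?_
    · rintro _ ⟨w, hw, rfl⟩
      change J (J w) ∈ U
      rwa [hJ.invol]
    · have h2 : u - J (proj U (J u)) = J (J u - proj U (J u)) := by rw [map_sub, hJ.invol]
      rw [h2, hJ.inner]
      exact sub_proj_mem U (J u) _ hg
  have h3 : tau (pre J U) = tau U := by
    funext p
    rw [tau, tau, h1, ← ofReal_norm, ← ofReal_norm, hJ.norm,
      hJ.of_fibre (z := p.z) (delta_mem_supp rfl), jop_proj_Bp hU, norm_Bp]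
  rw [dim, dim, edim, edim, h3]

/-- The deformation preserves the solutions whose averages vanish. -/
theorem Base.J_mem (B : Base M Z) {J : L2 (Til W Z) →L[ℂ] L2 (Til W Z)}
    (hJ : IsJ m (fun z => M.S v₀ (B.e z).o) J) {f : L2 (Til W Z)} (hf : f ∈ indb W B.Φ)
    (hq : f ∈ Qp m B.κ) : J f ∈ indb W B.Φ := by
  rw [mem_indb]
  intro n
  refine B.loc _ fun v => ⟨slice n (Bp m (M.S v₀ v) f),
    mem_indb.1 (Bp_mem (fun a f hf => sh_mem_indb a hf) m _ hf) n, fun y hy => ?_⟩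
  rw [slice_apply, slice_apply, hJ]
  rcases hy with rfl | rfl
  · rfl
  · rw [← Bp_Bp m (M.S v₀ (B.e y).t) {B.κ y} (M.S v₀ (B.e y).o)]
    · refine jop_Bp_congr m _ (z := y) (fun q hqy => ?_) rfl
      have h0 := mem_Qp.1 hq q
      rw [hqy] at h0
      rw [jop_Bp_single, refl_def, lp.coeFn_sub, lp.coeFn_smul, Pi.sub_apply, Pi.smul_apply, h0,
        smul_zero, sub_zero]
    · intro k
      have h1 := (B.e y).low
      rw [M.mem_S, M.mem_S, (B.e y).up, Finset.mem_singleton, Base.κ]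
      by_cases hk : k = (B.e y).h
      · subst hk; tauto
      · tauto

theorem Base.dim_inf_pre (B : Base M Z) {J : L2 (Til W Z) →L[ℂ] L2 (Til W Z)}
    (hJ : IsJ m (fun z => M.S v₀ (B.e z).o) J) {U : Submodule ℂ (L2 (Til W Z))} (hc : Cls U)
    (hU : Inv (Gam G W) U) :
    dim (Gam G W) (indb W B.Φ ⊓ U : Submodule ℂ (L2 (Til W Z))) -
        dim G (⊤ : Submodule ℂ (L2 Z)) / ((m : ℝ) + 1) ≤
      dim (Gam G W) (indb W B.Φ ⊓ pre J U : Submodule ℂ (L2 (Til W Z))) := by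
  have hκ : ∀ (g : G) z, B.κ (g • z) = g • B.κ z := fun g z => by
    rw [Base.κ, Base.κ, B.e_smul, Edge.smul_h]
  have hf := free_til (W := W) B.free
  have hco := cofin_til (W := W) B.cofin
  have hi : Inv (Gam G W) (indb W B.Φ ⊓ U : Submodule ℂ (L2 (Til W Z))) :=
    (inv_indb B.inv).inf hU
  have h1 := dim_pre_ge hf hf hco hco eqv_one ((cls_indb B.cls).inf hc) hi (cls_Qp m B.κ)
    (inv_Qp m hκ)
  have h2 := dim_Qp_orth B.cofin m hκ
  have h3 := hJ.dim_pre (G := G) (hi.inf ((inv_Qp m hκ).pre eqv_one))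
  have h4 : pre J (indb W B.Φ ⊓ U ⊓ pre 1 (Qp m B.κ)) ≤ indb W B.Φ ⊓ pre J U := by
    intro f hf
    refine ⟨?_, hf.1.2⟩
    have := B.J_mem hJ hf.1.1 hf.2
    erw [hJ.invol] at this
    exact this
  have h5 := dim_mono (edim_ne_top hco _) h4
  linarith

end Pool.Agent.P.MP_0f25e6_al.SQ
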