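import Pool.Agent.P.MP_0f25e6_al.SQ.Til1

/-!
Products of reflections and the block diagonal deformation.
-/

set_option autoImplicit false

open scoped InnerProductSpace ENNReal Topology
open Filter MulAction

noncomputable section

namespace Pool.Agent.P.MP_0f25e6_al.SQ

open HN

universe u

section Block

variable {X B : Type*}

theorem jop_hasSum_norm_sq_res (A : Set X) (ζ : L2 X) :
    HasSum (fun i : A => ‖ζ i‖ ^ 2) (‖res A ζ‖ ^ 2) := by
  classical
  have h := hasSum_norm_sq (res A ζ)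
  rw [show (fun i : A => ‖ζ i‖ ^ 2) = (fun i => ‖ζ i‖ ^ 2) ∘ Subtype.val from rfl,
    hasSum_subtype_iff_indicator]
  convert h using 2 with i
  by_cases hi : i ∈ A <;> simp [res_apply, hi]

theorem jop_hasSum_block (f : X → B) (T : B → L2 X →L[ℂ] L2 X)
    (h : ∀ b ζ, ‖res (f ⁻¹' {b}) (T b ζ)‖ = ‖res (f ⁻¹' {b}) ζ‖) (ζ : L2 X) :
    HasSum (fun i => ‖T (f i) ζ i‖ ^ 2) (‖ζ‖ ^ 2) := by
  have h1 : ∀ b, HasSum (fun c : {a // f a = b} => ‖T (f c.1) ζ c.1‖ ^ 2)
      (‖res (f ⁻¹' {b}) ζ‖ ^ 2) := by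
    intro b
    rw [← h]
    have h0 : (fun c : {a // f a = b} => ‖T (f c.1) ζ c.1‖ ^ 2) =
        fun c : {a // f a = b} => ‖T b ζ c.1‖ ^ 2 := funext fun c => by rw [c.2]
    rw [h0]
    exact jop_hasSum_norm_sq_res (f ⁻¹' {b}) (T b ζ)
  have h2 : HasSum (fun b => ‖res (f ⁻¹' {b}) ζ‖ ^ 2) (‖ζ‖ ^ 2) :=
    ((Equiv.sigmaFiberEquiv f).hasSum_iff.2 (hasSum_norm_sq ζ)).sigma fun b =>
      jop_hasSum_norm_sq_res (f ⁻¹' {b}) ζ
  rw [← (Equiv.sigmaFiberEquiv f).hasSum_iff]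
  refine h2.sigma_of_hasSum h1 ((summable_sigma_of_nonneg fun _ => sq_nonneg _).2
    ⟨fun b => (h1 b).summable, ?_⟩)
  convert h2.summable using 2 with b
  exact (h1 b).tsum_eq

/-- The block diagonal isometry with the given blocks. -/
def jopBlock (f : X → B) (T : B → L2 X →L[ℂ] L2 X)
    (h : ∀ b ζ, ‖res (f ⁻¹' {b}) (T b ζ)‖ = ‖res (f ⁻¹' {b}) ζ‖) : L2 X →ₗᵢ[ℂ] L2 X where
  toFun ζ := ⟨fun i => T (f i) ζ i, by
    change Memℓp (fun i => T (f i) ζ i) 2
    rw [memℓp_two_iff]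
    exact (jop_hasSum_block f T h ζ).summable⟩
  map_add' ζ η := by
    ext i
    change T (f i) (ζ + η) i = T (f i) ζ i + T (f i) η i
    rw [map_add]
    rfl
  map_smul' a ζ := by
    ext i
    change T (f i) (a • ζ) i = a • T (f i) ζ i
    rw [map_smul]
    rfl
  norm_map' ζ := (pow_left_inj₀ (norm_nonneg _) (norm_nonneg _) two_ne_zero).1
    ((hasSum_norm_sq _).unique (jop_hasSum_block f T h ζ))

end Block

section Basic

variable {W Z : Type*}

theorem jop1_refl_refl (m : ℕ) (k : W) (f : L2 (Til W Z)) : refl m k (refl m k f) = f := by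
  rw [refl_def, refl_def, map_sub, map_smul, avg_avg]
  module

theorem jop1_refl_mul (m : ℕ) (k : W) :
    (refl m k : L2 (Til W Z) →L[ℂ] L2 (Til W Z)) * refl m k = 1 := by
  ext1 f
  exact jop1_refl_refl m k f

theorem jop1_inner_refl (m : ℕ) (k : W) (u v : L2 (Til W Z)) :
    ⟪u, refl m k v⟫_ℂ = ⟪refl m k u, v⟫_ℂ := by
  rw [refl_def, refl_def, inner_sub_right, inner_sub_left, inner_smul_right, inner_smul_left,
    inner_avg]
  simp [map_ofNat]

theorem norm_refl (m : ℕ) (k : W) (f : L2 (Til W Z)) : ‖refl m k f‖ = ‖f‖ := by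
  have h3 := jop1_inner_refl m k (refl m k f) f
  rw [jop1_refl_refl, inner_self_eq_norm_sq_to_K, inner_self_eq_norm_sq_to_K] at h3
  have h4 : ‖refl m k f‖ ^ 2 = ‖f‖ ^ 2 := by exact_mod_cast h3
  exact (pow_left_inj₀ (norm_nonneg _) (norm_nonneg _) two_ne_zero).1 h4

theorem Bp_empty (m : ℕ) : (Bp m (∅ : Finset W) : L2 (Til W Z) →L[ℂ] L2 (Til W Z)) = 1 := rfl

theorem jop1_Bp_insert [DecidableEq W] (m : ℕ) {S : Finset W} {k : W} (h : k ∉ S) :
    (Bp m (insert k S) : L2 (Til W Z) →L[ℂ] L2 (Til W Z)) = refl m k * Bp m S :=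
  Finset.noncommProd_insert_of_notMem _ _ _ _ h

theorem Bp_insert_apply [DecidableEq W] (m : ℕ) {S : Finset W} {k : W} (h : k ∉ S)
    (f : L2 (Til W Z)) : Bp m (insert k S) f = refl m k (Bp m S f) := by
  rw [jop1_Bp_insert m h]
  rfl

theorem jop1_Bp_mul (m : ℕ) (S : Finset W) : ∀ S' S'' : Finset W,
    (∀ e, e ∈ S'' ↔ ¬ (e ∈ S ↔ e ∈ S')) →
    (Bp m S : L2 (Til W Z) →L[ℂ] L2 (Til W Z)) * Bp m S' = Bp m S'' := by
  classical
  induction S using Finset.induction_on with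
  | empty =>
    intro S' S'' h
    rw [Bp_empty, one_mul]
    congr 1
    ext e
    simp [h]
  | insert a S ha ih =>
    intro S' S'' h
    rw [jop1_Bp_insert m ha, mul_assoc]
    by_cases ha'' : a ∈ S''
    · rw [ih S' (S''.erase a), ← jop1_Bp_insert m (Finset.notMem_erase a S''), Finset.insert_erase ha'']
      intro e
      have h1 := h e
      by_cases he : e = a
      · subst he
        simp only [Finset.mem_insert, true_or] at h1
        simp only [Finset.notMem_erase]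
        tauto
      · simpa [he] using h1
    · rw [ih S' (insert a S''), jop1_Bp_insert m ha'', ← mul_assoc, jop1_refl_mul, one_mul]
      intro e
      have h1 := h e
      by_cases he : e = a
      · subst he
        simp only [Finset.mem_insert, true_or] at h1 ⊢
        tauto
      · simpa [he] using h1

theorem Bp_Bp (m : ℕ) (S S' S'' : Finset W) (h : ∀ k, k ∈ S'' ↔ ¬ (k ∈ S ↔ k ∈ S'))
    (f : L2 (Til W Z)) : Bp m S (Bp m S' f) = Bp m S'' f := by
  rw [← jop1_Bp_mul m S S' S'' h]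
  rfl

theorem norm_Bp (m : ℕ) (S : Finset W) (f : L2 (Til W Z)) : ‖Bp m S f‖ = ‖f‖ := by
  classical
  induction S using Finset.induction_on with
  | empty => rfl
  | insert a S ha ih => rw [Bp_insert_apply m ha, norm_refl, ih]

theorem Bp_mem {U : Submodule ℂ (L2 (Til W Z))} (hs : ∀ a : Ker W, ∀ f ∈ U, sh a f ∈ U) (m : ℕ)
    (S : Finset W) {f : L2 (Til W Z)} (h : f ∈ U) : Bp m S f ∈ U := by
  classical
  induction S using Finset.induction_on with
  | empty => exact h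
  | insert a S ha ih =>
    rw [Bp_insert_apply m ha, refl_def]
    exact U.sub_mem ih (U.smul_mem _ (avg_mem hs m a ih))

theorem res_Bp (A : Set Z) (m : ℕ) (S : Finset W) (f : L2 (Til W Z)) :
    res (Til.z ⁻¹' A) (Bp m S f) = Bp m S (res (Til.z ⁻¹' A) f) := by
  classical
  induction S using Finset.induction_on with
  | empty => rfl
  | insert a S ha ih =>
    rw [Bp_insert_apply m ha, Bp_insert_apply m ha, refl_def, refl_def, map_sub, map_smul, res_avg,
      ih]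

theorem avg_Bp (m : ℕ) (k : W) (S : Finset W) (f : L2 (Til W Z)) :
    avg m k (Bp m S f) = Bp m S (avg m k f) := by
  classical
  induction S using Finset.induction_on with
  | empty => rfl
  | insert a S ha ih =>
    rw [Bp_insert_apply m ha, Bp_insert_apply m ha, refl_def, refl_def, map_sub, map_smul, avg_comm,
      ih]

theorem jop1_Bp_congr {A : Set Z} (m : ℕ) (S : Finset W) {f g : L2 (Til W Z)}
    (h : res (Til.z ⁻¹' A) f = res (Til.z ⁻¹' A) g) {p : Til W Z} (hp : p.z ∈ A) :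
    Bp m S f p = Bp m S g p := by
  have hp' : p ∈ (Til.z ⁻¹' A : Set (Til W Z)) := hp
  rw [← res_apply_of_mem _ hp', res_Bp, h, ← res_Bp, res_apply_of_mem _ hp']

theorem jop1_norm_res_Bp (m : ℕ) (S : Z → Finset W) (z : Z) (f : L2 (Til W Z)) :
    ‖res (Til.z ⁻¹' {z}) (Bp m (S z) f)‖ = ‖res (Til.z ⁻¹' {z}) f‖ := by
  rw [res_Bp, norm_Bp]

theorem exists_isJ (m : ℕ) (S : Z → Finset W) : ∃ J, IsJ m S J := by
  exact ⟨(jopBlock (Til.z : Til W Z → Z) (fun z => Bp m (S z))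
    (jop1_norm_res_Bp m S)).toContinuousLinearMap, fun _ _ => rfl⟩

variable {m : ℕ} {S : Z → Finset W} {J : L2 (Til W Z) →L[ℂ] L2 (Til W Z)}

theorem IsJ.norm (hJ : IsJ m S J) (f : L2 (Til W Z)) : ‖J f‖ = ‖f‖ := by
  have h1 := jop_hasSum_block (Til.z : Til W Z → Z) (fun z => Bp m (S z)) (jop1_norm_res_Bp m S) f
  have h2 := hasSum_norm_sq (J f)
  simp only [hJ f] at h2
  exact (pow_left_inj₀ (norm_nonneg _) (norm_nonneg _) two_ne_zero).1 (h2.unique h1)

theorem IsJ.jop1_res_eq (hJ : IsJ m S J) (z : Z) (f : L2 (Til W Z)) :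
    res (Til.z ⁻¹' {z}) (J f) = res (Til.z ⁻¹' {z}) (Bp m (S z) f) := by
  ext p
  by_cases hp : p ∈ (Til.z ⁻¹' {z} : Set (Til W Z))
  · rw [res_apply_of_mem _ hp, res_apply_of_mem _ hp, hJ, show p.z = z from hp]
  · rw [res_apply_of_notMem _ hp, res_apply_of_notMem _ hp]

theorem IsJ.invol (hJ : IsJ m S J) (f : L2 (Til W Z)) : J (J f) = f := by
  ext p
  rw [hJ, jop1_Bp_congr m _ (hJ.jop1_res_eq p.z f) rfl, Bp_Bp m (S p.z) (S p.z) ∅ (by simp)]
  rfl

theorem IsJ.inner (hJ : IsJ m S J) (u v : L2 (Til W Z)) : ⟪u, J v⟫_ℂ = ⟪J u, v⟫_ℂ := by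
  conv_lhs => rw [← hJ.invol u]
  exact (⟨J.toLinearMap, hJ.norm⟩ : L2 (Til W Z) →ₗᵢ[ℂ] L2 (Til W Z)).inner_map_map _ _

theorem IsJ.res (hJ : IsJ m S J) (A : Set Z) (f : L2 (Til W Z)) :
    res (Til.z ⁻¹' A) (J f) = J (res (Til.z ⁻¹' A) f) := by
  ext p
  rw [hJ, ← res_Bp]
  by_cases hp : p ∈ (Til.z ⁻¹' A : Set (Til W Z))
  · rw [res_apply_of_mem _ hp, res_apply_of_mem _ hp, hJ]
  · rw [res_apply_of_notMem _ hp, res_apply_of_notMem _ hp]

theorem IsJ.avg (hJ : IsJ m S J) (k : W) (f : L2 (Til W Z)) : J (avg m k f) = avg m k (J f) := by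
  ext p
  have hp : p ∈ (Til.z ⁻¹' {p.z} : Set (Til W Z)) := rfl
  rw [hJ, ← avg_Bp, ← res_apply_of_mem _ hp, res_avg, ← hJ.jop1_res_eq, ← res_avg,
    res_apply_of_mem _ hp]

theorem IsJ.of_fibre (hJ : IsJ m S J) {z : Z} {f : L2 (Til W Z)} (h : f ∈ supp (Til.z ⁻¹' {z})) :
    J f = Bp m (S z) f := by
  have h0 := res_eq_self h
  conv_lhs => rw [← h0, ← hJ.res, hJ.jop1_res_eq, res_Bp, h0]

end Basic

end Pool.Agent.P.MP_0f25e6_al.SQ
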