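import Pool.Agent.P.MP_0f25e6_al.SQ.Tools1

/-!
Equivariance of sections and hulls, and dimension inequalities.
-/

set_option autoImplicit false

open scoped InnerProductSpace ENNReal Topology
open Filter MulAction

noncomputable section

namespace Pool.Agent.P.MP_0f25e6_al.SQ

open HN

universe u

section Actions

variable {H X Y Z : Type*} [Group H] [MulAction H X] [MulAction H Y] [MulAction H Z]

theorem eqv_pullB {j : Y → Z} (hj : Bdd j) (h : ∀ (a : H) y, j (a • y) = a • j y) :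
    Eqv H (pullB j hj) := by
  intro a f
  ext y
  simp [h]

theorem free_inc (R : X → Y → Prop) [InvRel H R] (hY : Free H Y) : Free H (Inc R) := by
  intro g p hp
  exact hY g p.y (congrArg Inc.y hp)

theorem cofin_inc (R : X → Y → Prop) [InvRel H R] (hc : Cofin H (Set.univ : Set Y))
    (hb : ∀ y, {x | R x y}.Finite) : Cofin H (Set.univ : Set (Inc R)) := by
  obtain ⟨F, hF, hz⟩ := hc
  refine ⟨⋃ y ∈ F, {p : Inc R | p.y = y}, hF.biUnion fun y _ => ?_, fun p _ => ?_⟩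
  · refine Set.Finite.of_finite_image (f := Inc.x) ((hb y).subset ?_) ?_
    · rintro _ ⟨p, hp, rfl⟩
      have h1 := p.r
      rwa [show p.y = y from hp] at h1
    · intro p hp q hq hpq
      exact Inc.ext hpq ((show p.y = y from hp).trans (show q.y = y from hq).symm)
  · obtain ⟨g, hg⟩ := hz p.y (Set.mem_univ _)
    exact ⟨g, Set.mem_biUnion hg rfl⟩

theorem finite_star (R : X → Y → Prop) [InvRel H R] (hX : Free H X)
    (hc : Cofin H (Set.univ : Set Y)) (hb : ∀ y, {x | R x y}.Finite) (x : X) :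
    {y | R x y}.Finite := by
  obtain ⟨F, hF, hz⟩ := cofin_stab (H := H) (r := fun y x => R x y)
    (fun a y x h => InvRel.smul a x y h) hb hc x
  refine hF.subset fun y hy => ?_
  obtain ⟨a, ha⟩ := hz y hy
  have h1 : (a : H) = 1 := hX _ _ a.2
  rwa [Subgroup.smul_def, h1, one_smul] at ha

theorem finite_fibre {κ : Z → X} (hκ : ∀ (a : H) z, κ (a • z) = a • κ z) (hX : Free H X)
    (hc : Cofin H (Set.univ : Set Z)) (x : X) : (κ ⁻¹' {x}).Finite := by
  obtain ⟨F, hF, hz⟩ := cofin_fibre hκ hc x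
  refine hF.subset fun y hy => ?_
  obtain ⟨a, ha⟩ := hz y hy
  have h1 : (a : H) = 1 := hX _ _ a.2
  rwa [Subgroup.smul_def, h1, one_smul] at ha

theorem act_blk (R : X → Y → Prop) [InvRel H R] (g : H) (x : X) (φ : L2 Y) :
    act g (blk R x φ) = blk R (g • x) (act g φ) := by
  ext p
  rw [act_apply]
  by_cases hp : p.x = g • x
  · have h1 : x = (g⁻¹ • p).x := by rw [Inc.smul_x, hp, inv_smul_smul]
    rw [← hp, blk_apply_self, h1, blk_apply_self, act_apply, Inc.smul_y]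
  · rw [blk_apply_ne R _ hp, blk_apply_ne]
    rw [Inc.smul_x]
    intro h1
    exact hp (by rw [← h1, smul_inv_smul])

theorem act_slc (R : X → Y → Prop) [InvRel H R] (g : H) (x : X) (F : L2 (Inc R)) :
    act g (slc R x F) = slc R (g • x) (act g F) := by
  ext y
  rw [act_apply]
  by_cases hy : R (g • x) y
  · have h1 : R x (g⁻¹ • y) := by
      have h2 := InvRel.smul g⁻¹ _ _ hy
      rwa [inv_smul_smul] at h2
    rw [slc_apply_pos R _ hy, slc_apply_pos R _ h1, act_apply]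
    refine congrArg (fun p : Inc R => F p) (Inc.ext ?_ rfl)
    exact (inv_smul_smul g x).symm
  · rw [slc_apply_neg R _ hy, slc_apply_neg]
    intro h1
    have h2 := InvRel.smul g _ _ h1
    rw [smul_inv_smul] at h2
    exact hy h2

theorem act_mem_sec (R : X → Y → Prop) [InvRel H R] (g : H) {Φ Φ' : Submodule ℂ (L2 Y)}
    (h : ∀ φ ∈ Φ, act g φ ∈ Φ') {F : L2 (Inc R)} (hF : F ∈ sec R Φ) : act g F ∈ sec R Φ' := by
  rw [mem_sec] at hF ⊢
  intro x
  have h1 : slc R x (act g F) = act g (slc R (g⁻¹ • x) F) := by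
    rw [act_slc, smul_inv_smul]
  rw [h1]
  refine cl_mono ?_ (img_cl_le (act g) _ ⟨_, hF (g⁻¹ • x), rfl⟩)
  rintro _ ⟨_, ⟨φ, hφ, rfl⟩, rfl⟩
  refine ⟨act g φ, h φ hφ, ?_⟩
  change res {y | R x y} (act g φ) = act g (res {y | R (g⁻¹ • x) y} φ)
  rw [act_res]
  congr 2
  ext y
  refine ⟨fun hy => InvRel.smul (R := R) g⁻¹ _ _ hy, fun hy => ?_⟩
  have h2 := InvRel.smul (R := R) g (g⁻¹ • x) (g⁻¹ • y) hy
  rwa [smul_inv_smul, smul_inv_smul] at h2

theorem inv_sec (R : X → Y → Prop) [InvRel H R] {Φ : Submodule ℂ (L2 Y)} (h : Inv H Φ) :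
    Inv H (sec R Φ) := by
  intro g F hF
  exact act_mem_sec R g (h g) hF

theorem cmp_of_smul {κ : Z → X} (hκ : ∀ (a : H) z, κ (a • z) = a • κ z) : Cmp H κ := by
  intro g z z' h
  rw [hκ, hκ, h]

omit [MulAction H X] in
theorem inv_hull {κ : Z → X} (hκ : Cmp H κ) {U : Submodule ℂ (L2 Z)} (h : Inv H U) :
    Inv H (hull κ U) := by
  intro g f hf
  rw [mem_hull] at hf ⊢
  intro x
  by_cases hx : ∃ z, κ z = x
  · obtain ⟨z, rfl⟩ := hx
    have hs : {w | g⁻¹ • w ∈ κ ⁻¹' {κ (g⁻¹ • z)}} = κ ⁻¹' {κ z} := by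
      ext w
      refine ⟨fun hw => ?_, fun hw => hκ g⁻¹ _ _ hw⟩
      have h2 := hκ g _ _ hw
      rwa [smul_inv_smul, smul_inv_smul] at h2
    have h1 : ∀ u : L2 Z,
        res (κ ⁻¹' {κ z}) (act g u) = act g (res (κ ⁻¹' {κ (g⁻¹ • z)}) u) := fun u => by
      rw [act_res, hs]
    rw [h1]
    refine cl_mono ?_ (img_cl_le (act g) _ ⟨_, hf (κ (g⁻¹ • z)), rfl⟩)
    rintro _ ⟨_, ⟨φ, hφ, rfl⟩, rfl⟩
    exact ⟨act g φ, h g φ hφ, h1 φ⟩
  · have h0 : res (κ ⁻¹' {x}) (act g f) = 0 := by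
      ext w
      exact res_fibre_neg _ fun hw => hx ⟨w, hw⟩
    rw [h0]
    exact Submodule.zero_mem _

omit [MulAction H X] in
theorem Adm.inf {κ : Z → X} {U U' : Submodule ℂ (L2 Z)} (h : Adm H κ U) (h' : Adm H κ U') :
    Adm H κ (U ⊓ U') := by
  exact ⟨h.cls.inf h'.cls, h.inv.inf h'.inv, h.split.inf h'.split⟩

omit [MulAction H X] in
theorem Adm.sup {κ : Z → X} {U U' : Submodule ℂ (L2 Z)} (h : Adm H κ U) (h' : Adm H κ U') :
    Adm H κ (cl (U ⊔ U')) := by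
  refine ⟨cls_cl _, (h.inv.sup h'.inv).cl, split_cl fun x f hf => ?_⟩
  obtain ⟨u, hu, v, hv, rfl⟩ := Submodule.mem_sup.1 hf
  rw [map_add]
  exact Submodule.add_mem_sup (h.split x u hu) (h'.split x v hv)

omit [MulAction H X] in
theorem Adm.orth {κ : Z → X} {U : Submodule ℂ (L2 Z)} (h : Adm H κ U) : Adm H κ Uᗮ := by
  exact ⟨cls_orth _, h.inv.orth, split_orth h.split⟩

omit [MulAction H X] in
theorem adm_top (κ : Z → X) : Adm H κ (⊤ : Submodule ℂ (L2 Z)) := by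
  exact ⟨cls_top, inv_top, fun _ _ _ => Submodule.mem_top⟩

theorem edim_img_of_inj' (hY : Free H Y) (hZ : Free H Z) {T : L2 Y →L[ℂ] L2 Z} (hT : Eqv H T)
    {N : Submodule ℂ (L2 Y)} (hc : Cls N) (hi : Inv H N) (hinj : ∀ f ∈ N, T f = 0 → f = 0) :
    edim H (img T N) = edim H N := by
  have h0 : N ⊓ pre T ⊥ = ⊥ := by
    rw [eq_bot_iff]
    intro f hf
    exact hinj f hf.1 hf.2
  rw [rank_nullity hY hZ hT hc hi, h0, edim_bot, zero_add]

theorem edim_le_of_inj (hY : Free H Y) (hZ : Free H Z) {T : L2 Y →L[ℂ] L2 Z} (hT : Eqv H T)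
    {N : Submodule ℂ (L2 Y)} (hc : Cls N) (hi : Inv H N) (hinj : ∀ f ∈ N, T f = 0 → f = 0)
    {U : Submodule ℂ (L2 Z)} (hU : ∀ f ∈ N, T f ∈ cl U) : edim H N ≤ edim H U := by
  rw [← edim_img_of_inj' hY hZ hT hc hi hinj, ← edim_cl U]
  refine edim_mono ?_
  rintro _ ⟨f, hf, rfl⟩
  exact hU f hf

theorem dim_inf_orth (hc : Cofin H (Set.univ : Set Z)) {K N : Submodule ℂ (L2 Z)} (hN : Cls N)
    (h : K ≤ N) : dim H (N ⊓ Kᗮ : Submodule ℂ (L2 Z)) = dim H N - dim H K := by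
  have h1 := dim_of_add (edim_split (H := H) hN h) (edim_ne_top hc N)
  unfold dim
  linarith

/-- A linear condition costs at most its codimension. -/
theorem dim_pre_ge (hY : Free H Y) (hZ : Free H Z) (cY : Cofin H (Set.univ : Set Y))
    (cZ : Cofin H (Set.univ : Set Z)) {T : L2 Y →L[ℂ] L2 Z} (hT : Eqv H T)
    {N : Submodule ℂ (L2 Y)} (hc : Cls N) (hi : Inv H N) {Q : Submodule ℂ (L2 Z)} (hQ : Cls Q)
    (hQi : Inv H Q) : dim H N - dim H Qᗮ ≤ dim H (N ⊓ pre T Q : Submodule ℂ (L2 Y)) := by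
  have hS : Eqv H (proj Qᗮ ∘L T) := (eqv_proj hQi.orth).comp hT
  have h1 := dim_rank_nullity hY hZ hS hc hi (edim_ne_top cY N)
  have h2 : pre (proj Qᗮ ∘L T) ⊥ = pre T Q := by
    conv_rhs => rw [← pre_proj_orth hQ]
    rfl
  have h3 : dim H (img (proj Qᗮ ∘L T) N) ≤ dim H Qᗮ := by
    refine dim_mono (edim_ne_top cZ _) ?_
    rintro _ ⟨f, -, rfl⟩
    have h4 := proj_mem Qᗮ (T f)
    rwa [cl_eq (cls_orth Q)] at h4
  rw [h2] at h1
  linarith

end Actions

end Pool.Agent.P.MP_0f25e6_al.SQ
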