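import Pool.Agent.P.MP_0f25e6_al.HN7
import Pool.Agent.P.MP_0f25e6_al.SQ.MForest
import Pool.Agent.P.MP_0f25e6_al.SQ.Tools

/-!
Linearisation: a finite system of equations as a base system.
-/

set_option autoImplicit false

open scoped InnerProductSpace ENNReal Topology
open Filter MulAction

noncomputable section

namespace Pool.Agent.P.MP_0f25e6_al.SQ

open HN

universe u

variable {G V W : Type u} [Group G] [MulAction G V] [MulAction G W]

/-- A finite connected set of edges that reaches every vertex of a given finite set. -/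
theorem lin_edges (M : Med G V W) (e₀ : Edge M) {U : Set V} (hU : U.Finite) :
    ∃ E₀ : Set (Edge M), E₀.Finite ∧ e₀ ∈ E₀ ∧ (∀ u ∈ U, ∃ e ∈ E₀, u = e.o ∨ u = e.t) ∧
      ∀ φ : Edge M → ℂ, (∀ e ∈ E₀, ∀ e' ∈ E₀, ∀ v, (v = e.o ∨ v = e.t) → (v = e'.o ∨ v = e'.t) →
        φ e = φ e') → ∀ e ∈ E₀, φ e = φ e₀ := by
  let Good : Set (Edge M) → Prop := fun E₀ => E₀.Finite ∧ e₀ ∈ E₀ ∧
      ∀ φ : Edge M → ℂ, (∀ e ∈ E₀, ∀ e' ∈ E₀, ∀ v, (v = e.o ∨ v = e.t) → (v = e'.o ∨ v = e'.t) →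
        φ e = φ e') → ∀ e ∈ E₀, φ e = φ e₀
  have base : Good {e₀} := ⟨Set.finite_singleton _, rfl, fun _ _ e he => by rw [he]⟩
  have grow : ∀ E₀ e e' v, Good E₀ → e' ∈ E₀ → (v = e.o ∨ v = e.t) → (v = e'.o ∨ v = e'.t) →
      Good (insert e E₀) := by
    rintro E₀ e e' v ⟨h1, h2, h3⟩ he' hv hv'
    refine ⟨h1.insert e, Or.inr h2, fun φ hφ d hd => ?_⟩
    have h4 := h3 φ (fun a ha b hb => hφ a (Or.inr ha) b (Or.inr hb))
    rcases hd with rfl | hd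
    · exact (hφ d (Or.inl rfl) e' (Or.inr he') v hv hv').trans (h4 e' he')
    · exact h4 d hd
  have all : ∀ w, ∃ E₀, Good E₀ ∧ ∃ e ∈ E₀, w = e.o ∨ w = e.t := by
    refine M.conn {w | ∃ E₀, Good E₀ ∧ ∃ e ∈ E₀, w = e.o ∨ w = e.t} (fun e => ⟨?_, ?_⟩) e₀.o
      ⟨_, base, e₀, rfl, Or.inl rfl⟩
    · rintro ⟨E₀, h, e', he', hv⟩
      exact ⟨_, grow E₀ e e' _ h he' (Or.inl rfl) hv, e, Or.inl rfl, Or.inr rfl⟩
    · rintro ⟨E₀, h, e', he', hv⟩
      exact ⟨_, grow E₀ e e' _ h he' (Or.inr rfl) hv, e, Or.inl rfl, Or.inl rfl⟩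
  have fin : ∃ E₀, Good E₀ ∧ ∀ u ∈ U, ∃ e ∈ E₀, u = e.o ∨ u = e.t := by
    induction U, hU using Set.Finite.induction_on with
    | empty => exact ⟨_, base, fun _ h => h.elim⟩
    | @insert w U _ _ ih =>
      obtain ⟨E₀, ⟨h1, h2, h3⟩, hU⟩ := ih
      obtain ⟨E₁, ⟨k1, k2, k3⟩, e, he, hw⟩ := all w
      refine ⟨E₀ ∪ E₁, ⟨h1.union k1, Or.inl h2, ?_⟩, ?_⟩
      · rintro φ hφ d (hd | hd)
        · exact h3 φ (fun a ha b hb => hφ a (Or.inl ha) b (Or.inl hb)) d hd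
        · exact k3 φ (fun a ha b hb => hφ a (Or.inr ha) b (Or.inr hb)) d hd
      · rintro u (rfl | hu)
        · exact ⟨e, Or.inr he, hw⟩
        · obtain ⟨d, hd, hd'⟩ := hU u hu
          exact ⟨d, Or.inl hd, hd'⟩
  obtain ⟨E₀, ⟨h1, h2, h3⟩, hU⟩ := fin
  exact ⟨E₀, h1, h2, hU, h3⟩

theorem lin_inner_congr {Y : Type*} (a f g : L2 Y) (h : ∀ y, a y ≠ 0 → f y = g y) :
    ⟪a, f⟫_ℂ = ⟪a, g⟫_ℂ := by
  rw [lp.inner_eq_tsum, lp.inner_eq_tsum]
  refine tsum_congr fun y => ?_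
  by_cases hy : a y = 0
  · rw [hy, inner_zero_left, inner_zero_left]
  · rw [h y hy]

theorem lin_on_smul {M : Med G V W} (g : G) {e : Edge M} {v : V} (h : v = e.o ∨ v = e.t) :
    g • v = (g • e).o ∨ g • v = (g • e).t :=
  h.imp (congrArg _) (congrArg _)

theorem Med.exists_base (M : Med G V W) (hV : ∀ v, ∃ e : Edge M, v = e.o ∨ v = e.t) {Y : Type u}
    [MulAction G Y] (hY : Free G Y) (hc : Cofin G (Set.univ : Set Y)) (s : Finset (L2 Y))
    (hs : ∀ a ∈ s, FinS a) :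
    ∃ (Y₀ : Type u) (_ : MulAction G Y₀) (B : Base M Y₀),
      edim G B.Φ = edim G (sol G (fun a : s => a.1)) := by
  classical
  obtain ⟨v₀⟩ := M.ne
  obtain ⟨e₀, -⟩ := hV v₀
  obtain ⟨c, hcc⟩ := exists_cocycle hY
  have hB : (⋃ a ∈ s, {y | a y ≠ 0}).Finite := s.finite_toSet.biUnion hs
  obtain ⟨E₀, hE₀, he₀, hU, hconn⟩ := lin_edges M e₀ (hB.image (fun y => (c y)⁻¹ • v₀))
  have := hE₀.fintype
  let J : L2 Y →L[ℂ] L2 (Tw Y E₀) := stack (fun _ : E₀ => (1 : L2 Y →L[ℂ] L2 Y))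
  have hJ : ∀ f y (ε : E₀), J f ⟨y, ε⟩ = f y := fun f y ε => stack_apply _ f y ε
  have hJe : Eqv G J := eqv_stack (fun _ => eqv_one)
  let P : L2 (Tw Y E₀) →L[ℂ] L2 Y := pull _ (tw_inj (fun _ => (⟨e₀, he₀⟩ : E₀)))
  have hP : ∀ F y, P F y = F ⟨y, ⟨e₀, he₀⟩⟩ := fun _ _ => rfl
  have hPJ : ∀ f, P (J f) = f := fun f => by
    ext y
    rw [hP, hJ]
  have hcls : Cls (sol G (fun a : s => a.1)) := (cut_sol (fun a : s => hs a.1 a.2)).cls
  have hΦ : img J (sol G (fun a : s => a.1)) =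
      pre (J ∘L P - 1) ⊥ ⊓ pre P (sol G (fun a : s => a.1)) := by
    apply le_antisymm
    · rintro _ ⟨f, hf, rfl⟩
      refine ⟨?_, ?_⟩
      · change J (P (J f)) - J f = 0
        rw [hPJ, sub_self]
      · change P (J f) ∈ sol G (fun a : s => a.1)
        rw [hPJ]
        exact hf
    · rintro F ⟨h1, h2⟩
      have h3 : J (P F) - F = 0 := h1
      exact ⟨P F, h2, sub_eq_zero.1 h3⟩
  let B : Base M (Tw Y E₀) :=
    { free := free_tw hY
      cofin := cofin_tw hc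
      e := fun p => c p.y • (p.k : Edge M)
      e_smul := fun g p => by simp only [Tw.smul_y, Tw.smul_k, hcc, mul_smul]
      Φ := img J (sol G (fun a : s => a.1))
      cls := by
        rw [hΦ]
        exact (cls_bot.pre _).inf (hcls.pre _)
      inv := (inv_sol _).img hJe
      loc := fun F hF => by
        have h1 : ∀ y (ε : E₀), F ⟨y, ε⟩ = P F y := by
          intro y ε
          have h2 := hconn (fun e => if h : e ∈ E₀ then F ⟨y, ⟨e, h⟩⟩ else 0)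
            (fun e he e' he' v hv hv' => by
              obtain ⟨_, ⟨ψ, -, rfl⟩, hψ⟩ := hF (c y • v)
              simp only [dif_pos he, dif_pos he']
              rw [hψ ⟨y, ⟨e, he⟩⟩ (lin_on_smul (c y) hv), hψ ⟨y, ⟨e', he'⟩⟩ (lin_on_smul (c y) hv')]
              exact (hJ ψ y _).trans (hJ ψ y _).symm) ε ε.2
          simp only [dif_pos ε.2, dif_pos he₀] at h2
          exact h2
        refine ⟨P F, mem_sol.2 fun g a => ?_, ?_⟩
        · obtain ⟨_, ⟨ψ, hψ0, rfl⟩, hψ⟩ := hF (g • v₀)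
          rw [← mem_sol.1 hψ0 g a]
          refine lin_inner_congr _ _ _ fun y hy => ?_
          obtain ⟨e, he, hv⟩ := hU ((c (g⁻¹ • y))⁻¹ • v₀) ⟨g⁻¹ • y, Set.mem_biUnion a.2 hy, rfl⟩
          have h2 := lin_on_smul (c y) hv
          have h3 : c y • (c (g⁻¹ • y))⁻¹ • v₀ = g • v₀ := by
            rw [hcc, mul_inv_rev, inv_inv, mul_smul, smul_inv_smul]
          rw [h3] at h2
          rw [← h1 y ⟨e, he⟩, hψ ⟨y, ⟨e, he⟩⟩ h2]
          exact hJ ψ y _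
        · ext ⟨y, ε⟩
          exact (hJ _ y ε).trans (h1 y ε).symm }
  refine ⟨Tw Y E₀, inferInstance, B, ?_⟩
  exact edim_img_of_inj' hY (free_tw hY) hJe hcls (inv_sol _) fun f _ hf => by
    rw [← hPJ f, hf, map_zero]

end Pool.Agent.P.MP_0f25e6_al.SQ
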