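import Pool.Agent.P.MP_0f25e6_al.SQ.Defs

/-!
Cubical subdivision: from half-spaces to cooriented walls.
-/

set_option autoImplicit false

open scoped InnerProductSpace ENNReal Topology
open Filter MulAction

noncomputable section

namespace Pool.Agent.P.MP_0f25e6_al.SQ

open HN

universe u

namespace Poc

variable {G V : Type*} [Group G] [MulAction G V] (𝓗 : WS G V)

/-- The half-spaces. -/
@[ext] structure Hs where
  /-- the set -/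
  s : Set V
  mem : s ∈ 𝓗.H

variable {𝓗}

instance : MulAction G (Hs 𝓗) where
  smul g A := ⟨{v | g⁻¹ • v ∈ A.s}, 𝓗.smul g _ A.mem⟩
  one_smul A := Hs.ext (Set.ext fun v => by
    change (1 : G)⁻¹ • v ∈ A.s ↔ _
    rw [inv_one, one_smul])
  mul_smul a b A := Hs.ext (Set.ext fun v => by
    change (a * b)⁻¹ • v ∈ A.s ↔ b⁻¹ • a⁻¹ • v ∈ A.s
    rw [mul_inv_rev, mul_smul])

theorem mem_smul_s (g : G) (A : Hs 𝓗) (v : V) : v ∈ (g • A).s ↔ g⁻¹ • v ∈ A.s := Iff.rfl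

theorem mem_inv_smul_s (g : G) (A : Hs 𝓗) (v : V) : v ∈ (g⁻¹ • A).s ↔ g • v ∈ A.s := by
  rw [mem_smul_s, inv_inv]

/-- The complement. -/
def Hs.c (A : Hs 𝓗) : Hs 𝓗 := ⟨A.sᶜ, 𝓗.compl _ A.mem⟩

theorem fin_sep (v w : V) : {A : Hs 𝓗 | v ∈ A.s ∧ w ∉ A.s}.Finite := by
  refine Set.Finite.of_finite_image (f := Hs.s) ((𝓗.fin v w).subset ?_)
    fun a _ b _ h => Hs.ext h
  rintro _ ⟨A, hA, rfl⟩
  exact ⟨A.mem, hA⟩

theorem fin_diff (v w : V) : {A : Hs 𝓗 | ¬ (v ∈ A.s ↔ w ∈ A.s)}.Finite := by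
  refine ((fin_sep v w).union (fin_sep w v)).subset fun A hA => ?_
  simp only [Set.mem_ofPred_eq, Set.mem_union] at hA ⊢
  tauto

variable (𝓗) in
/-- The cells, given by the half-spaces that contain them. -/
@[ext] structure Pt where
  /-- the half-spaces -/
  U : Set (Hs 𝓗)
  i : ∀ A ∈ U, ∀ B ∈ U, ∃ v, v ∈ A.s ∧ v ∈ B.s
  ii : ∀ A ∈ U, ∀ B : Hs 𝓗, A.s ⊆ B.s → B ∈ U
  iii : ∀ A B : Hs 𝓗, A ∉ U → B ∉ U → (∃ v, v ∉ A.s ∧ v ∉ B.s) ∨ B.s = A.sᶜ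
  iv : ∀ v, {A | ¬ (A ∈ U ↔ v ∈ A.s)}.Finite

instance : MulAction G (Pt 𝓗) where
  smul g P :=
    { U := {A | g⁻¹ • A ∈ P.U}
      i := fun A hA B hB => by
        obtain ⟨v, h1, h2⟩ := P.i _ hA _ hB
        exact ⟨g • v, (mem_inv_smul_s g A v).1 h1, (mem_inv_smul_s g B v).1 h2⟩
      ii := fun A hA B hAB => P.ii _ hA _ fun v hv =>
        (mem_inv_smul_s g B v).2 (hAB ((mem_inv_smul_s g A v).1 hv))
      iii := fun A B hA hB => by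
        rcases P.iii _ _ hA hB with ⟨v, h1, h2⟩ | h
        · exact Or.inl ⟨g • v, fun h => h1 ((mem_inv_smul_s g A v).2 h),
            fun h => h2 ((mem_inv_smul_s g B v).2 h)⟩
        · refine Or.inr (Set.ext fun v => ?_)
          have := Set.ext_iff.1 h (g⁻¹ • v)
          rwa [Set.mem_compl_iff, mem_inv_smul_s, mem_inv_smul_s, smul_inv_smul] at this
      iv := fun v => by
        refine Set.Finite.of_finite_image (f := fun A => g⁻¹ • A)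
          ((P.iv (g⁻¹ • v)).subset ?_) fun a _ b _ h => MulAction.injective g⁻¹ h
        rintro _ ⟨A, hA, rfl⟩
        simp only [Set.mem_ofPred_eq] at hA ⊢
        rwa [mem_inv_smul_s, smul_inv_smul] }
  one_smul P := Pt.ext (Set.ext fun A => by
    change (1 : G)⁻¹ • A ∈ P.U ↔ _
    rw [inv_one, one_smul])
  mul_smul a b P := Pt.ext (Set.ext fun A => by
    change (a * b)⁻¹ • A ∈ P.U ↔ b⁻¹ • a⁻¹ • A ∈ P.U
    rw [mul_inv_rev, mul_smul])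

theorem mem_smul_U (g : G) (P : Pt 𝓗) (A : Hs 𝓗) : A ∈ (g • P).U ↔ g⁻¹ • A ∈ P.U := Iff.rfl

/-- The cell of a vertex. -/
def ofV (v : V) : Pt 𝓗 where
  U := {A | v ∈ A.s}
  i := fun _ hA _ hB => ⟨v, hA, hB⟩
  ii := fun _ hA _ h => h hA
  iii := fun _ _ hA hB => Or.inl ⟨v, hA, hB⟩
  iv := fun w => fin_diff v w

theorem fin_pt (P Q : Pt 𝓗) : {A | ¬ (A ∈ P.U ↔ A ∈ Q.U)}.Finite := by
  obtain ⟨v⟩ := 𝓗.ne
  refine ((P.iv v).union (Q.iv v)).subset fun A hA => ?_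
  simp only [Set.mem_ofPred_eq, Set.mem_union] at hA ⊢
  tauto

theorem med_pt (P Q R : Pt 𝓗) : ∃ m : Pt 𝓗, ∀ h, h ∈ m.U ↔
    (h ∈ P.U ∧ h ∈ Q.U) ∨ (h ∈ Q.U ∧ h ∈ R.U) ∨ (h ∈ P.U ∧ h ∈ R.U) := by
  refine ⟨⟨{h | (h ∈ P.U ∧ h ∈ Q.U) ∨ (h ∈ Q.U ∧ h ∈ R.U) ∨ (h ∈ P.U ∧ h ∈ R.U)}, ?_, ?_, ?_, ?_⟩,
    fun _ => Iff.rfl⟩
  · intro A hA B hB
    have h1 := P.i A
    have h2 := Q.i A
    have h3 := R.i A
    simp only [Set.mem_ofPred_eq] at hA hB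
    rcases hA with hA | hA | hA <;> rcases hB with hB | hB | hB
    exacts [h1 hA.1 B hB.1, h2 hA.2 B hB.1, h1 hA.1 B hB.1, h2 hA.1 B hB.2, h2 hA.1 B hB.1,
      h3 hA.2 B hB.2, h1 hA.1 B hB.1, h3 hA.2 B hB.2, h1 hA.1 B hB.1]
  · intro A hA B hAB
    rcases hA with hA | hA | hA
    · exact Or.inl ⟨P.ii A hA.1 B hAB, Q.ii A hA.2 B hAB⟩
    · exact Or.inr (Or.inl ⟨Q.ii A hA.1 B hAB, R.ii A hA.2 B hAB⟩)
    · exact Or.inr (Or.inr ⟨P.ii A hA.1 B hAB, R.ii A hA.2 B hAB⟩)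
  · intro A B hA hB
    have h1 := P.iii A B
    have h2 := Q.iii A B
    have h3 := R.iii A B
    simp only [Set.mem_ofPred_eq] at hA hB
    have : (A ∉ P.U ∧ B ∉ P.U) ∨ (A ∉ Q.U ∧ B ∉ Q.U) ∨ (A ∉ R.U ∧ B ∉ R.U) := by
      clear h1 h2 h3
      tauto
    rcases this with h | h | h
    exacts [h1 h.1 h.2, h2 h.1 h.2, h3 h.1 h.2]
  · intro v
    refine (((P.iv v).union (Q.iv v)).union (R.iv v)).subset fun A hA => ?_
    simp only [Set.mem_ofPred_eq, Set.mem_union] at hA ⊢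
    by_contra hc
    push Not at hc
    obtain ⟨⟨h1, h2⟩, h3⟩ := hc
    rw [h1, h2, h3] at hA
    tauto

theorem crs_of {A B : Hs 𝓗} (h : Crs (fun (P : Pt 𝓗) (A : Hs 𝓗) => A ∈ P.U) A B) :
    Crs (fun v (D : Set V) => v ∈ D) A.s B.s := by
  have h11 : ∃ v, v ∈ A.s ∧ v ∈ B.s := by
    obtain ⟨P, h1, h2⟩ := h True True
    exact P.i A (h1.2 trivial) B (h2.2 trivial)
  have h10 : ∃ v, v ∈ A.s ∧ v ∉ B.s := by
    obtain ⟨P, h1, h2⟩ := h True False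
    by_contra hc
    push Not at hc
    exact h2.1 (P.ii A (h1.2 trivial) B hc)
  have h01 : ∃ v, v ∈ B.s ∧ v ∉ A.s := by
    obtain ⟨P, h1, h2⟩ := h False True
    by_contra hc
    push Not at hc
    exact h1.1 (P.ii B (h2.2 trivial) A hc)
  have h00 : ∃ v, v ∉ A.s ∧ v ∉ B.s := by
    obtain ⟨P, h1, h2⟩ := h False False
    rcases P.iii A B h1.1 h2.1 with h3 | h3
    · exact h3
    · obtain ⟨v, h4, h5⟩ := h11
      rw [h3] at h5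
      exact (h5 h4).elim
  intro p q
  by_cases hp : p <;> by_cases hq : q
  · obtain ⟨v, h1, h2⟩ := h11
    exact ⟨v, iff_of_true h1 hp, iff_of_true h2 hq⟩
  · obtain ⟨v, h1, h2⟩ := h10
    exact ⟨v, iff_of_true h1 hp, iff_of_false h2 hq⟩
  · obtain ⟨v, h1, h2⟩ := h01
    exact ⟨v, iff_of_false h2 hp, iff_of_true h1 hq⟩
  · obtain ⟨v, h1, h2⟩ := h00
    exact ⟨v, iff_of_false h1 hp, iff_of_false h2 hq⟩

theorem step_del (P Q : Pt 𝓗) (A : Hs 𝓗) (hP : A ∈ P.U) (hQ : A ∉ Q.U)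
    (m1 : ∀ B ∈ P.U, B ∉ Q.U → B.s ⊆ A.s → A.s ⊆ B.s)
    (m2 : ∀ B ∈ Q.U, B ∉ P.U → B.sᶜ ⊆ A.s → A.s ⊆ B.sᶜ) :
    ∃ R : Pt 𝓗, ∀ h, (h ∈ R.U ↔ h ∈ P.U) ↔ h ≠ A := by
  have key : ∀ C : Hs 𝓗, C ∉ P.U → (∃ v, v ∉ A.s ∧ v ∉ C.s) ∨ C.s = A.sᶜ := by
    intro C hC
    by_cases hC' : C ∈ Q.U
    · by_cases h : ∃ v, v ∉ A.s ∧ v ∉ C.s
      · exact Or.inl h
      · push Not at h
        have h1 : C.sᶜ ⊆ A.s := fun v hv => by_contra fun hv' => hv (h v hv')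
        refine Or.inr ?_
        rw [← Set.Subset.antisymm h1 (m2 C hC' hC h1), compl_compl]
    · exact Q.iii A C hQ hC'
  refine ⟨⟨P.U \ {A}, fun B hB C hC => P.i B hB.1 C hC.1, ?_, ?_, ?_⟩, ?_⟩
  · intro B hB C hBC
    refine ⟨P.ii B hB.1 C hBC, fun hC => ?_⟩
    rw [Set.mem_singleton_iff] at hC
    subst hC
    exact hB.2 (Hs.ext (Set.Subset.antisymm hBC
      (m1 B hB.1 (fun h => hQ (Q.ii B h _ hBC)) hBC)))
  · intro B C hB hC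
    by_cases hB' : B ∈ P.U <;> by_cases hC' : C ∈ P.U
    · have h1 : B = A := by_contra fun h => hB ⟨hB', h⟩
      have h2 : C = A := by_contra fun h => hC ⟨hC', h⟩
      rw [h1, h2]
      exact Q.iii A A hQ hQ
    · have h1 : B = A := by_contra fun h => hB ⟨hB', h⟩
      rw [h1]
      exact key C hC'
    · have h2 : C = A := by_contra fun h => hC ⟨hC', h⟩
      rw [h2]
      rcases key B hB' with ⟨v, h3, h4⟩ | h3
      · exact Or.inl ⟨v, h4, h3⟩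
      · exact Or.inr (by rw [h3, compl_compl])
    · exact P.iii B C hB' hC'
  · intro v
    refine ((P.iv v).insert A).subset fun B hB => ?_
    simp only [Set.mem_ofPred_eq, Set.mem_insert_iff, Set.mem_sdiff, Set.mem_singleton_iff] at hB ⊢
    tauto
  · intro h
    simp only [Set.mem_sdiff, Set.mem_singleton_iff]
    by_cases hh : h = A
    · subst hh
      tauto
    · tauto

theorem step_add (P Q : Pt 𝓗) (A : Hs 𝓗) (hP : A ∉ P.U) (hQ : A ∈ Q.U) (hc : A.c ∉ P.U)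
    (m1 : ∀ B ∈ P.U, B ∉ Q.U → B.s ⊆ A.sᶜ → A.sᶜ ⊆ B.s)
    (m2 : ∀ B ∈ Q.U, B ∉ P.U → B.sᶜ ⊆ A.sᶜ → A.sᶜ ⊆ B.sᶜ) :
    ∃ R : Pt 𝓗, ∀ h, (h ∈ R.U ↔ h ∈ P.U) ↔ h ≠ A := by
  have key : ∀ B ∈ P.U, ∃ v, v ∈ A.s ∧ v ∈ B.s := by
    intro B hB
    by_cases hB' : B ∈ Q.U
    · exact Q.i A hQ B hB'
    · by_contra h
      push Not at h
      have h1 : B.s ⊆ A.sᶜ := fun v hv hv' => h v hv' hv
      have h2 : B = A.c := Hs.ext (Set.Subset.antisymm h1 (m1 B hB hB' h1))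
      exact hc (h2 ▸ hB)
  refine ⟨⟨insert A P.U, ?_, ?_, fun B C hB hC => P.iii B C (fun h => hB (Or.inr h))
    (fun h => hC (Or.inr h)), ?_⟩, ?_⟩
  · rintro B (rfl | hB) C (rfl | hC)
    · exact Q.i _ hQ _ hQ
    · exact key C hC
    · obtain ⟨v, h1, h2⟩ := key B hB
      exact ⟨v, h2, h1⟩
    · exact P.i B hB C hC
  · rintro B (rfl | hB) C hBC
    · by_cases hC : C ∈ P.U
      · exact Or.inr hC
      · have h1 := m2 C (Q.ii _ hQ C hBC) hC (Set.compl_subset_compl.2 hBC)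
        exact Or.inl (Hs.ext (Set.Subset.antisymm (Set.compl_subset_compl.1 h1) hBC))
    · exact Or.inr (P.ii B hB C hBC)
  · intro v
    refine ((P.iv v).insert A).subset fun B hB => ?_
    simp only [Set.mem_ofPred_eq, Set.mem_insert_iff] at hB ⊢
    tauto
  · intro h
    simp only [Set.mem_insert_iff]
    by_cases hh : h = A
    · subst hh
      tauto
    · tauto

theorem step_pt (P Q : Pt 𝓗) (hPQ : P ≠ Q) :
    ∃ (R : Pt 𝓗) (k : Hs 𝓗), ¬ (k ∈ P.U ↔ k ∈ Q.U) ∧ ∀ h, (h ∈ R.U ↔ h ∈ P.U) ↔ h ≠ k := by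
  classical
  have hne : {A | ¬ (A ∈ P.U ↔ A ∈ Q.U)}.Nonempty := by
    by_contra h
    rw [Set.not_nonempty_iff_eq_empty, Set.eq_empty_iff_forall_notMem] at h
    exact hPQ (Pt.ext (Set.ext fun A => not_not.1 (h A)))
  obtain ⟨A, hA, hmin⟩ := (fin_pt P Q).exists_minimalFor
    (fun A : Hs 𝓗 => if A ∈ P.U then A.s else A.sᶜ) _ hne
  simp only [Set.mem_ofPred_eq] at hA hmin
  have m1 : ∀ B ∈ P.U, B ∉ Q.U → B.s ⊆ (if A ∈ P.U then A.s else A.sᶜ) →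
      (if A ∈ P.U then A.s else A.sᶜ) ⊆ B.s := by
    intro B h1 h2 h3
    have := @hmin B (by tauto)
    rw [if_pos h1] at this
    exact this h3
  have m2 : ∀ B ∈ Q.U, B ∉ P.U → B.sᶜ ⊆ (if A ∈ P.U then A.s else A.sᶜ) →
      (if A ∈ P.U then A.s else A.sᶜ) ⊆ B.sᶜ := by
    intro B h1 h2 h3
    have := @hmin B (by tauto)
    rw [if_neg h2] at this
    exact this h3
  by_cases hP : A ∈ P.U
  · rw [if_pos hP] at m1 m2
    obtain ⟨R, hR⟩ := step_del P Q A hP (by tauto) m1 m2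
    exact ⟨R, A, hA, hR⟩
  · rw [if_neg hP] at m1 m2
    have hQ : A ∈ Q.U := by tauto
    by_cases hc : A.c ∈ P.U
    · have hc' : A.c ∉ Q.U := fun h => by
        obtain ⟨v, h1, h2⟩ := Q.i A hQ _ h
        exact h2 h1
      obtain ⟨R, hR⟩ := step_del P Q A.c hc hc' m1 m2
      exact ⟨R, A.c, by tauto, hR⟩
    · obtain ⟨R, hR⟩ := step_add P Q A hP hQ hc m1 m2
      exact ⟨R, A, hA, hR⟩

theorem fin_miss (P : Pt 𝓗) (v : V) : {A | A ∈ P.U ∧ v ∉ A.s}.Finite :=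
  (P.iv v).subset fun _ hA h => hA.2 (h.1 hA.1)

theorem exists_vx (P : Pt 𝓗) : ∃ p, ∀ A ∈ P.U, p ∈ A.s := by
  have := 𝓗.ne
  obtain ⟨p, -, hp⟩ := exists_minimalFor_of_wellFoundedLT (fun _ : V => True)
    (fun p => {A | A ∈ P.U ∧ p ∉ A.s}.ncard) ⟨Classical.arbitrary V, trivial⟩
  refine ⟨p, fun A hA => by_contra fun hpA => ?_⟩
  obtain ⟨q, hq, hq'⟩ := exists_minimalFor_of_wellFoundedLT (fun q : V => q ∈ A.s)
    (fun q => {B : Hs 𝓗 | p ∈ B.s ∧ q ∉ B.s}.ncard) ((P.i A hA A hA).imp fun _ h => h.1)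
  have key : ∀ B ∈ P.U, p ∈ B.s → q ∈ B.s := by
    intro B hB hpB
    by_contra hqB
    obtain ⟨r, hr1, hr2⟩ := P.i A hA B hB
    obtain ⟨m, hm⟩ := 𝓗.med p q r
    have h1 : {C : Hs 𝓗 | p ∈ C.s ∧ m ∉ C.s} ⊂ {C : Hs 𝓗 | p ∈ C.s ∧ q ∉ C.s} := by
      refine ⟨fun C hC => ⟨hC.1, fun h => hC.2 (hm _ C.mem (Or.inl ⟨hC.1, h⟩))⟩, fun h => ?_⟩
      exact (h ⟨hpB, hqB⟩).2 (hm _ B.mem (Or.inr (Or.inr ⟨hpB, hr2⟩)))
    have h2 := Set.ncard_lt_ncard h1 (fin_sep p q)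
    exact absurd (hq' (hm _ A.mem (Or.inr (Or.inl ⟨hq, hr1⟩))) h2.le) (not_le.2 h2)
  have h1 : {B | B ∈ P.U ∧ q ∉ B.s} ⊂ {B | B ∈ P.U ∧ p ∉ B.s} :=
    ⟨fun B hB => ⟨hB.1, fun h => hB.2 (key B hB.1 h)⟩, fun h => (h ⟨hA, hpA⟩).2 hq⟩
  have h2 := Set.ncard_lt_ncard h1 (fin_miss P p)
  exact absurd (hp trivial h2.le) (not_le.2 h2)

theorem fin_vx (P : Pt 𝓗) : {p | ∀ A ∈ P.U, p ∈ A.s}.Finite := by
  obtain ⟨v⟩ := 𝓗.ne
  have hN : {A : Hs 𝓗 | A ∉ P.U ∧ A.c ∉ P.U}.Finite := by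
    refine ((P.iv v).union ((P.iv v).image Hs.c)).subset fun A hA => ?_
    by_cases hv : v ∈ A.s
    · exact Or.inl fun h => hA.1 (h.2 hv)
    · exact Or.inr ⟨A.c, fun h => hA.2 (h.2 hv), Hs.ext (compl_compl _)⟩
  refine Set.Finite.of_finite_image
    (f := fun p => {A : Hs 𝓗 | (A ∉ P.U ∧ A.c ∉ P.U) ∧ p ∈ A.s})
    (hN.finite_subsets.subset ?_) ?_
  · rintro _ ⟨p, -, rfl⟩ A hA
    exact hA.1
  · intro p hp q hq hpq
    by_contra hne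
    obtain ⟨A, hA, h1, h2⟩ := 𝓗.sep p q hne
    exact h2 ((Set.ext_iff.1 hpq ⟨A, hA⟩).1
      ⟨⟨fun h => h2 (hq _ h), fun h => hp _ h h1⟩, h1⟩).2

theorem free_pt (htf : ∀ (g : G) (k : ℕ), 0 < k → g ^ k = 1 → g = 1) : Free G (Pt 𝓗) := by
  intro g P hg
  obtain ⟨p, hp⟩ := exists_vx P
  have h1 : ∀ n : ℕ, g ^ n • p ∈ {p | ∀ A ∈ P.U, p ∈ A.s} := by
    intro n
    induction n with
    | zero => simpa using hp
    | succ n ih =>
      intro A hA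
      rw [pow_succ', mul_smul, ← mem_inv_smul_s]
      refine ih _ ?_
      rw [← mem_smul_U, hg]
      exact hA
  obtain ⟨a, b, hab, h⟩ := (fin_vx P).exists_lt_map_eq_of_forall_mem h1
  refine htf g (b - a) (Nat.sub_pos_of_lt hab) (𝓗.free _ (g ^ a • p) ?_)
  rw [← mul_smul, ← pow_add, Nat.sub_add_cancel hab.le, h]

end Poc

theorem WS.exists_med {G V : Type u} [Group G] [MulAction G V] (𝓗 : WS G V)
    (htf : ∀ (g : G) (k : ℕ), 0 < k → g ^ k = 1 → g = 1) :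
    ∃ (V' W' : Type u) (_ : MulAction G V') (_ : MulAction G W'), Nonempty (Med G V' W') :=
  ⟨Poc.Pt 𝓗, Poc.Hs 𝓗, inferInstance, inferInstance,
    ⟨{ mem := fun P A => A ∈ P.U
       mem_smul := fun g P A => by rw [Poc.mem_smul_U, inv_smul_smul]
       ext := fun _ _ h => Poc.Pt.ext (Set.ext h)
       fin := Poc.fin_pt
       step := Poc.step_pt
       med := Poc.med_pt
       dim2 := fun A B C h1 h2 h3 => 𝓗.dim2 _ A.mem _ B.mem _ C.mem (Poc.crs_of h1)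
         (Poc.crs_of h2) (Poc.crs_of h3)
       free := Poc.free_pt htf
       ne := 𝓗.ne.map Poc.ofV }⟩⟩

end Pool.Agent.P.MP_0f25e6_al.SQ
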