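import Pool.Agent.P.MP_0f25e6_al.HN8
import Pool.Agent.P.MP_0f25e6_al.SQ.Gap
import Pool.Agent.P.MP_0f25e6_al.SQ.Bound1
import Pool.Agent.P.MP_0f25e6_al.SQ.Bound2
import Pool.Agent.P.MP_0f25e6_al.SQ.Ext3
import Pool.Agent.P.MP_0f25e6_al.SQ.Euler1
import Pool.Agent.P.MP_0f25e6_al.SQ.Euler2
import Pool.Agent.P.MP_0f25e6_al.SQ.Lin
import Pool.Agent.P.MP_0f25e6_al.SQ.Poc
import Pool.Agent.P.MP_0f25e6_al.SQ.Graph

/-!
The strong Atiyah property for free actions on median square complexes.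
-/

set_option autoImplicit false

open scoped InnerProductSpace ENNReal Topology
open Filter MulAction

noncomputable section

namespace Pool.Agent.P.MP_0f25e6_al.SQ

open HN

universe u

theorem nat_of_add {a : ℝ≥0∞} {m n : ℕ} (h : (n : ℝ≥0∞) = a + m) : ∃ k : ℕ, a = k := by
  have h1 : (m : ℝ≥0∞) ≤ n := h ▸ le_add_self
  obtain ⟨k, rfl⟩ := Nat.exists_eq_add_of_le' (Nat.cast_le.1 h1)
  rw [Nat.cast_add] at h
  exact ⟨k, ((ENNReal.add_left_inj (ENNReal.natCast_ne_top m)).1 h).symm⟩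

/-- The Euler characteristic computation. -/
theorem Sys.int_of_max {G V W Y₀ Y : Type*} [Group G] [MulAction G V] [MulAction G W]
    [MulAction G Y₀] [MulAction G Y] {M : Med G V W} {B : Base M Y₀} (S : Sys B Y) (hM : S.Max) :
    ∃ n : ℕ, edim G B.Φ = n := by
  have f0 := free_inc S.R0 S.free
  have f1 := free_inc S.R1 S.free
  have fF := free_inc S.RF S.free
  have i0 := inv_sec S.R0 S.inv
  have i1 := inv_sec S.R1 S.inv
  obtain ⟨e0, h0⟩ := S.int0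
  obtain ⟨e1, h1⟩ := S.int1
  obtain ⟨d, hd⟩ := S.wt_int
  obtain ⟨s, hs⟩ := S.int_Sym
  have a1 := rank_nullity f0 f1 S.eqv_d0 (cls_sec _ _) i0
  have a2 := rank_nullity f1 fF S.eqv_db (cls_sec _ _) i1
  have a3 := rank_nullity f1 fF S.eqv_db (cls_cl (img S.d0 (sec S.R0 S.Φ))) (i0.img S.eqv_d0).cl
  have b1 : cl (img S.db (sec S.R1 S.Φ)) = sec S.RF S.Φ :=
    le_antisymm (cl_le (by rintro _ ⟨F, hF, rfl⟩; exact S.db_mem hF) (cls_sec _ _)) S.le_cl_db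
  have b2 : cl (img S.d0 (sec S.R0 S.Φ)) ⊓ pre S.db ⊥ = sec S.R1 S.Φ ⊓ pre S.db ⊥ :=
    le_antisymm (inf_le_inf_right _
      (cl_le (by rintro _ ⟨F, hF, rfl⟩; exact S.d0_mem hF) (cls_sec _ _)))
      (le_inf (S.ker_db_le hM) inf_le_right)
  have b3 : cl (img S.db (cl (img S.d0 (sec S.R0 S.Φ)))) = sec S.RF S.Φ ⊓ S.Sym := by
    rw [cl_img_cl]
    refine le_antisymm (cl_le ?_ ((cls_sec _ _).inf S.cls_Sym)) (S.le_cl_db_d0.trans (cl_mono ?_))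
    · rintro _ ⟨_, ⟨F, hF, rfl⟩, rfl⟩
      exact ⟨S.db_mem (S.d0_mem hF), S.db_d0_mem F⟩
    · rintro _ ⟨F, hF, rfl⟩
      exact ⟨_, ⟨F, hF, rfl⟩, rfl⟩
  rw [← edim_cl (img _ _), b1, h1, show edim G (sec S.RF S.Φ) = d from hd] at a2
  obtain ⟨k, hk⟩ := nat_of_add a2
  rw [← edim_cl (img S.db _), b2, b3, hk, hs, edim_cl] at a3
  rw [S.edim_ker_d0 hM, h0, a3, ← Nat.cast_add] at a1
  exact nat_of_add a1

variable {G V W : Type u} [Group G] [MulAction G V] [MulAction G W]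

theorem Base.int {M : Med G V W} {Y₀ : Type u} [MulAction G Y₀] (B : Base M Y₀) :
    ∃ n : ℕ, edim G B.Φ = n := by
  classical
  obtain ⟨t, ht, hg⟩ := B.gap
  obtain ⟨N, hN⟩ := ENNReal.exists_nat_gt
    (ENNReal.ofReal_ne_top (r := dim G (⊤ : Submodule ℂ (L2 Y₀)) / t))
  let P : ℕ → Prop := fun n => ∃ (Y : Type u) (_ : MulAction G Y) (S : Sys B Y), S.wt = n
  have hP : ∀ n, P n → n ≤ N := by
    rintro n ⟨Y, _, S, hS⟩
    have := (S.wt_le_mass.trans (S.mass_le ht hg)).trans hN.le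
    rwa [hS, Nat.cast_le] at this
  obtain ⟨n₀, hn₀⟩ := B.sys.wt_int
  obtain ⟨Y, _, S, hS⟩ : P (Nat.findGreatest P N) :=
    Nat.findGreatest_spec (hP n₀ ⟨_, _, _, hn₀⟩) ⟨_, _, _, hn₀⟩
  refine S.int_of_max fun x z hz hh hk => ?_
  by_contra hn
  obtain ⟨n, h⟩ := (S.extend x hz hh hk).wt_int
  have h1 := S.wt_lt_extend x hz hh hk hn
  rw [hS, h, Nat.cast_lt] at h1
  exact Nat.findGreatest_is_greatest h1 (hP n ⟨_, _, _, h⟩) ⟨_, _, _, h⟩

theorem Med.sac (M : Med G V W) : SAC G := by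
  by_cases hV : ∀ v, ∃ e : Edge M, v = e.o ∨ v = e.t
  · refine sac_of_finite fun Y _ hY hc s hs => ?_
    obtain ⟨Y₀, _, B, hB⟩ := M.exists_base hV hY hc s hs
    rw [← hB]
    exact B.int
  · obtain ⟨v, hv⟩ := not_forall.1 hV
    have h1 : ∀ g : G, g = 1 := fun g => M.free g v (by
      by_contra h
      obtain ⟨e, he⟩ := M.exists_edge (Ne.symm h)
      exact hv ⟨e, he.imp (fun h => h.1.symm) fun h => h.1.symm⟩)
    have : Subsingleton G := ⟨fun a b => by rw [h1 a, h1 b]⟩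
    exact sac_of_subsingleton

theorem sac_of_median (T : SimpleGraph V) (hT : T.Connected)
    (hmed : ∀ a b c : V, ∃! m, T.dist a m + T.dist m b = T.dist a b ∧
      T.dist b m + T.dist m c = T.dist b c ∧ T.dist a m + T.dist m c = T.dist a c)
    (hdim : ¬ ∃ x a b c : V, T.Adj x a ∧ T.Adj x b ∧ T.Adj x c ∧ a ≠ b ∧ b ≠ c ∧ a ≠ c ∧
      (∃ p, p ≠ x ∧ T.Adj a p ∧ T.Adj b p) ∧ (∃ q, q ≠ x ∧ T.Adj b q ∧ T.Adj c q) ∧
      (∃ r, r ≠ x ∧ T.Adj a r ∧ T.Adj c r))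
    (hadj : ∀ (g : G) (u v : V), T.Adj u v → T.Adj (g • u) (g • v)) (hfree : Free G V)
    (htf : ∀ (g : G) (k : ℕ), 0 < k → g ^ k = 1 → g = 1) : SAC G := by
  obtain ⟨𝓗⟩ := exists_ws T hT hmed hdim hadj hfree
  obtain ⟨V', W', _, _, ⟨M⟩⟩ := 𝓗.exists_med htf
  exact M.sac

end Pool.Agent.P.MP_0f25e6_al.SQ
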