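import Pool.Agent.P.MP_0f25e6_al.SQ.First
import Pool.Agent.P.MP_0f25e6_al.SQ.Jop

/-!
The total defect along the walls is bounded by the first order loss.
-/

set_option autoImplicit false

open scoped InnerProductSpace ENNReal Topology
open Filter MulAction

noncomputable section

namespace Pool.Agent.P.MP_0f25e6_al.SQ

open HN

universe u

section Aux

variable {W Z : Type*}

theorem mass_tendsto_zero {X F : Type*} [NormedAddCommGroup F] [NormedSpace ℂ F]
    (T : ℕ → L2 X →L[ℂ] F) {C : ℝ} (hC : 0 < C) (h : ∀ m v, ‖T m v‖ ≤ C * ‖v‖)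
    (hδ : ∀ i, Tendsto (fun m => T m (delta i)) atTop (𝓝 0)) (v : L2 X) :
    Tendsto (fun m => T m v) atTop (𝓝 0) := by
  rw [Metric.tendsto_nhds]
  intro ε hε
  obtain ⟨s, hs⟩ := (Metric.tendsto_nhds.1 (hasSum_delta v) (ε / (2 * C)) (by positivity)).exists
  have h1 : Tendsto (fun m => T m (∑ i ∈ s, v i • delta i)) atTop (𝓝 0) := by
    have := tendsto_finsetSum s fun i _ => (hδ i).const_smul (v i)
    simpa using this
  filter_upwards [Metric.tendsto_nhds.1 h1 (ε / 2) (by positivity)] with m hm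
  rw [dist_zero_right] at hm ⊢
  rw [dist_comm, dist_eq_norm] at hs
  have h2 : T m v = T m (v - ∑ i ∈ s, v i • delta i) + T m (∑ i ∈ s, v i • delta i) := by
    rw [← map_add, sub_add_cancel]
  have h3 : C * ‖v - ∑ i ∈ s, v i • delta i‖ < ε / 2 := by
    rw [lt_div_iff₀ (by positivity)] at hs
    linarith
  rw [h2]
  linarith [norm_add_le (T m (v - ∑ i ∈ s, v i • delta i)) (T m (∑ i ∈ s, v i • delta i)),
    h m (v - ∑ i ∈ s, v i • delta i)]

theorem mass_norm_res_le (A : Set Z) (f : L2 Z) : ‖res A f‖ ≤ ‖f‖ := by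
  have h : proj (supp A) f = res A f := by
    refine proj_eq (le_cl _ (res_mem_supp A f)) ?_
    rw [Submodule.mem_orthogonal]
    intro u hu
    rw [inner_sub_right, ← inner_res_left, res_eq_self hu, sub_self]
  rw [← h]
  exact norm_proj_le _ _

theorem mass_norm_Bp_sub (m : ℕ) {e : W} (S : Finset W) (he : e ∉ S) (v : L2 Z) :
    ‖Bp m S (avg m e (ext1 W v)) - avg m e (ext1 W v)‖ ≤
      S.card * (2 * (((m : ℝ) + 1)⁻¹ * ‖v‖)) := by
  classical
  induction S using Finset.induction_on with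
  | empty => simp [Bp_empty]
  | insert a S ha ih =>
    have h1 : a ≠ e := fun h => he (h ▸ Finset.mem_insert_self _ _)
    have h2 := ih fun h => he (Finset.mem_insert_of_mem h)
    have h4 := norm_avg_avg_ext1 m h1 v
    generalize avg m e (ext1 W v) = x at h2 h4 ⊢
    have h3 : Bp m (insert a S) x - x = refl m a (Bp m S x - x) - (2 : ℂ) • avg m a x := by
      rw [Bp_insert_apply m ha, map_sub, refl_def m a x]
      abel
    rw [h3, Finset.card_insert_of_notMem ha]
    refine (norm_sub_le _ _).trans ?_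
    rw [norm_refl, norm_smul, h4, Complex.norm_two]
    push_cast
    linarith

/-- The error in the first order expansion. -/
def massErr (m : ℕ) (S : Z → Finset W) (J : L2 (Til W Z) →L[ℂ] L2 (Til W Z)) (e : W) :
    L2 Z →L[ℂ] L2 (Til W Z) :=
  J ∘L avg m e ∘L ext1 W - avg m e ∘L ext1 W ∘L (1 - (2 : ℂ) • res {z | e ∈ S z})

theorem massErr_def (m : ℕ) (S : Z → Finset W) (J : L2 (Til W Z) →L[ℂ] L2 (Til W Z)) (e : W)
    (θ : L2 Z) : massErr m S J e θ =
      J (avg m e (ext1 W θ)) - avg m e (ext1 W (θ - (2 : ℂ) • res {z | e ∈ S z} θ)) := rfl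

variable {m : ℕ} {S : Z → Finset W} {J : L2 (Til W Z) →L[ℂ] L2 (Til W Z)}

theorem avg_massErr (hJ : IsJ m S J) (e : W) (θ : L2 Z) :
    avg m e (massErr m S J e θ) = massErr m S J e θ := by
  rw [massErr_def, map_sub, ← hJ.avg, avg_avg, avg_avg]

theorem norm_massErr_le (hJ : IsJ m S J) (e : W) (θ : L2 Z) :
    √((m : ℝ) + 1) * ‖massErr m S J e θ‖ ≤ 4 * ‖θ‖ := by
  rw [massErr_def]
  refine (mul_le_mul_of_nonneg_left (norm_sub_le _ _) (Real.sqrt_nonneg _)).trans ?_
  rw [mul_add, hJ.norm, norm_avg_ext1, norm_avg_ext1]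
  have h1 := norm_sub_le θ ((2 : ℂ) • res {z | e ∈ S z} θ)
  have h2 := mass_norm_res_le {z | e ∈ S z} θ
  rw [norm_smul, Complex.norm_two] at h1
  linarith

theorem norm_massErr_delta (hJ : IsJ m S J) (e : W) (z : Z) :
    ‖massErr m S J e (delta z)‖ ≤ (S z).card * (2 * ((m : ℝ) + 1)⁻¹) := by
  classical
  have h0 : res {z} (delta z) = delta z := res_eq_self (delta_mem_supp (Set.mem_singleton z))
  have h1 : avg m e (ext1 W (delta z)) ∈ supp (Til.z ⁻¹' {z}) := by
    rw [← h0, ← res_ext1, ← res_avg]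
    exact res_mem_supp _ _
  rw [massErr_def, hJ.of_fibre h1]
  by_cases he : e ∈ S z
  · have h2 : res {z | e ∈ S z} (delta z) = delta z := res_eq_self (delta_mem_supp he)
    have h3 := mass_norm_Bp_sub m _ (Finset.notMem_erase e (S z)) (delta z)
    rw [norm_delta, mul_one] at h3
    have h4 : Bp m (S z) (avg m e (ext1 W (delta z))) =
        - Bp m ((S z).erase e) (avg m e (ext1 W (delta z))) := by
      conv_lhs => rw [← Finset.insert_erase he]
      rw [Bp_insert_apply m (Finset.notMem_erase _ _), refl_def, avg_Bp, avg_avg]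
      module
    have h5 : avg m e (ext1 W (delta z - (2 : ℂ) • delta z)) = - avg m e (ext1 W (delta z)) := by
      rw [map_sub, map_sub, map_smul, map_smul]
      module
    rw [h2, h4, h5, neg_sub_neg, norm_sub_rev]
    refine h3.trans (mul_le_mul_of_nonneg_right ?_ (by positivity))
    exact Nat.cast_le.2 Finset.card_erase_le
  · have h2 : res {z | e ∈ S z} (delta z) = 0 :=
      res_eq_zero (delta_mem_supp (Set.mem_singleton z)) fun w hw hw' => he (hw' ▸ hw)
    have h3 := mass_norm_Bp_sub m _ he (delta z)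
    rw [norm_delta, mul_one] at h3
    rwa [h2, smul_zero, sub_zero]

theorem tendsto_massErr {J : ℕ → L2 (Til W Z) →L[ℂ] L2 (Til W Z)} (hJ : ∀ m, IsJ m S (J m))
    (e : W) (θ : L2 Z) :
    Tendsto (fun m : ℕ => √((m : ℝ) + 1) * ‖massErr m S (J m) e θ‖) atTop (𝓝 0) := by
  have hn : ∀ (m : ℕ) (v : L2 Z), ‖(((√((m : ℝ) + 1) : ℝ) : ℂ) • massErr m S (J m) e) v‖ =
      √((m : ℝ) + 1) * ‖massErr m S (J m) e v‖ := by
    intro m v
    rw [smul_apply, norm_smul, Complex.norm_real,
      Real.norm_of_nonneg (Real.sqrt_nonneg _)]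
  have hK : Tendsto (fun m : ℕ => (m : ℝ) + 1) atTop atTop :=
    tendsto_atTop_add_const_right _ _ tendsto_natCast_atTop_atTop
  have h := mass_tendsto_zero
    (fun m : ℕ => ((√((m : ℝ) + 1) : ℝ) : ℂ) • massErr m S (J m) e) (C := 4) (by norm_num)
    (fun m v => by rw [hn]; exact norm_massErr_le (hJ m) e v) (by
      intro z
      rw [tendsto_zero_iff_norm_tendsto_zero]
      have h1 : Tendsto (fun m : ℕ => ((S z).card * 2 : ℝ) * (√((m : ℝ) + 1))⁻¹) atTop (𝓝 0) := by
        simpa using (Real.tendsto_sqrt_atTop.comp hK).inv_tendsto_atTop.const_mul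
          ((S z).card * 2 : ℝ)
      refine squeeze_zero (fun _ => norm_nonneg _) (fun m => ?_) h1
      rw [hn]
      refine (mul_le_mul_of_nonneg_left (norm_massErr_delta (hJ m) e z)
        (Real.sqrt_nonneg _)).trans (le_of_eq ?_)
      have hm : (0 : ℝ) < (m : ℝ) + 1 := by positivity
      generalize (m : ℝ) + 1 = x at hm ⊢
      have h2 := Real.sqrt_pos.2 hm
      conv_lhs => rw [← Real.mul_self_sqrt hm.le, Real.sqrt_mul_self h2.le]
      field_simp) θ
  rw [tendsto_zero_iff_norm_tendsto_zero] at h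
  simpa only [hn] using h

theorem mass_dense {U U' : Submodule ℂ (L2 Z)} (hUc : Cls U) (hUc' : Cls U') (h : U ≤ U')
    {A B : Set Z} (hAB : A = B ∨ A = Bᶜ) :
    ZE U U' B ≤ cl (img (proj U ∘L (1 - (2 : ℂ) • res A)) U'ᗮ) := by
  intro z hz
  refine mem_cl_of_orth fun u hu => ?_
  have hx : proj U u ∈ U := cl_le le_rfl hUc (proj_mem U u)
  have h1 : proj U u - (2 : ℂ) • res A (proj U u) ∈ U' := by
    refine cl_le le_rfl hUc' (mem_cl_of_orth fun θ hθ => ?_)
    have h0 : proj U (θ - (2 : ℂ) • res A θ) ∈ img (proj U ∘L (1 - (2 : ℂ) • res A)) U'ᗮ :=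
      ⟨θ, hθ, rfl⟩
    have h2 : ⟪proj U (θ - (2 : ℂ) • res A θ), u⟫_ℂ = 0 :=
      Submodule.inner_right_of_mem_orthogonal h0 hu
    rw [inner_proj_left, inner_sub_left, inner_smul_left, inner_res_left] at h2
    rw [inner_sub_right, inner_smul_right, ← h2]
    simp [map_ofNat]
  rw [U'.sub_mem_iff_right (h hx), U'.smul_mem_iff two_ne_zero] at h1
  have h3 : res B (proj U u) ∈ U' := by
    rcases hAB with rfl | rfl
    · exact h1
    · rw [eq_sub_of_add_eq (res_add_res_compl B (proj U u))]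
      exact U'.sub_mem (h hx) h1
  rw [← proj_eq_self (le_cl U hz.1), ← inner_proj_left]
  exact Submodule.inner_right_of_mem_orthogonal (K := U ⊓ pre (res B) U') ⟨hx, h3⟩ hz.2

end Aux

variable {G V W Z : Type*} [Group G] [MulAction G V] [MulAction G W] [MulAction G Z]

theorem mass_ZE_le (M : Med G V W) (v₀ : V) (hc : Cofin G (Set.univ : Set Z)) {o : Z → V}
    (ho : ∀ (g : G) z, o (g • z) = g • o z) (J : ℕ → L2 (Til W Z) →L[ℂ] L2 (Til W Z))
    (hJ : ∀ m, IsJ m (fun z => M.S v₀ (o z)) (J m)) {U U' : Submodule ℂ (L2 Z)} (hUc : Cls U)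
    (hU : Inv G U) (hUc' : Cls U') (hU' : Inv G U') (h : U ≤ U') {κ : ℝ}
    (hd : ∀ m : ℕ, dim (Gam G W) (indb W U) -
      dim (Gam G W) (indb W U ⊓ pre (J m) (indb W U') : Submodule ℂ (L2 (Til W Z))) ≤
        κ / ((m : ℝ) + 1)) :
    osum G (fun z => ∑' k, tau (ZE U U' {z | M.mem (o z) k}) z) ≤ ENNReal.ofReal κ := by
  have hI : Inv (Gam G W) (indb W U) := inv_indb hU
  have hI' : Inv (Gam G W) (indb W U') := inv_indb hU'
  have key := first_order (G := G) hc
    (fun k => img (proj U ∘L (1 - (2 : ℂ) • res {z | k ∈ M.S v₀ (o z)})) U'ᗮ)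
    (fun m => indb W U ⊓ (indb W U ⊓ pre (J m) (indb W U'))ᗮ)
    (fun m => hI.inf (hI.inf ((hJ m).inv_pre ho hI')).orth) (κ := κ)
    (fun m => by
      rw [dim_inf_orth (cofin_til hc) (cls_indb hUc) inf_le_left]
      exact hd m)
    (by
      rintro k _ ⟨θ, hθ, rfl⟩
      refine ⟨fun m => proj (indb W U) (massErr m (fun z => M.S v₀ (o z)) (J m) k θ),
        fun m => ?_, ?_, fun m => ?_⟩
      · rw [← proj_avg hI, avg_massErr (hJ m)]
      · exact squeeze_zero (fun m => by positivity)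
          (fun m => mul_le_mul_of_nonneg_left (norm_proj_le _ _) (Real.sqrt_nonneg _))
          (tendsto_massErr hJ k θ)
      · have h2 : avg m k (ext1 W (proj U (θ - (2 : ℂ) • res {z | k ∈ M.S v₀ (o z)} θ))) +
            proj (indb W U) (massErr m (fun z => M.S v₀ (o z)) (J m) k θ) =
            proj (indb W U) (J m (avg m k (ext1 W θ))) := by
          rw [massErr_def, map_sub (proj (indb W U)), proj_avg hI, proj_indb_ext1 hUc]
          abel
        change avg m k (ext1 W (proj U (θ - (2 : ℂ) • res {z | k ∈ M.S v₀ (o z)} θ))) +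
            proj (indb W U) (massErr m (fun z => M.S v₀ (o z)) (J m) k θ) ∈ _
        rw [h2]
        refine ⟨cl_le le_rfl (cls_indb hUc) (proj_mem _ _),
          (Submodule.mem_orthogonal _ _).2 fun u hu => ?_⟩
        rw [← inner_proj_left, proj_eq_self (le_cl _ hu.1), (hJ m).inner]
        exact Submodule.inner_right_of_mem_orthogonal hu.2
          (avg_mem (fun a => sh_mem_of_inv hI'.orth a) m k (ext1_mem_orth hθ)))
  refine le_trans (osum_mono fun z => ENNReal.tsum_le_tsum fun k => ?_) key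
  rw [← tau_cl (img _ _)]
  refine tau_mono (mass_dense hUc hUc' h ?_) z
  by_cases hk : M.mem v₀ k
  · right
    ext w
    simp [M.mem_S, hk]
  · left
    ext w
    simp [M.mem_S, hk]

end Pool.Agent.P.MP_0f25e6_al.SQ
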