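import Pool.Agent.P.MP_0f25e6_al.SQ.Tools

/-!
Maximisers of the slope functional among split subspaces.
-/

set_option autoImplicit false

open scoped InnerProductSpace ENNReal Topology
open Filter MulAction

noncomputable section

namespace Pool.Agent.P.MP_0f25e6_al.SQ

open HN

universe u

variable {H X Z : Type*} [Group H] [MulAction H Z]

theorem max_tendsto_proj_iSup (U : ℕ → Submodule ℂ (L2 Z)) (hU : Monotone U) (v : L2 Z) :
    Tendsto (fun n => proj (U n) v) atTop (𝓝 (proj (⨆ n, U n) v)) := by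
  have h := Submodule.starProjection_tendsto_closure_iSup (fun n => cl (U n))
    (fun a b hab => cl_mono (hU hab)) v
  have h2 : (⨆ n, cl (U n)).topologicalClosure.starProjection v = proj (⨆ n, U n) v := by
    symm
    refine proj_eq ?_ ?_
    · have h3 : cl (⨆ n, cl (U n)) ≤ cl (⨆ n, U n) :=
        cl_le (iSup_le fun n => cl_mono (le_iSup U n)) (cls_cl _)
      exact h3 (Submodule.starProjection_apply_mem _ _)
    · refine Submodule.orthogonal_le ?_ (Submodule.sub_starProjection_mem_orthogonal v)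
      exact (iSup_mono fun n => le_cl (U n)).trans (le_cl _)
  rw [h2] at h
  exact h

theorem max_oo {W : Submodule ℂ (L2 Z)} (h : Cls W) : Wᗮᗮ = W := by
  rw [Submodule.orthogonal_orthogonal_eq_closure, h.submodule_topologicalClosure_eq]

theorem max_proj_orth (W : Submodule ℂ (L2 Z)) (v : L2 Z) : proj Wᗮ v = v - proj W v := by
  refine proj_eq (le_cl _ (sub_proj_mem W v)) ?_
  rw [sub_sub_cancel, Submodule.orthogonal_orthogonal_eq_closure]
  exact proj_mem W v

theorem max_tendsto_proj_iInf (U : ℕ → Submodule ℂ (L2 Z)) (hU : Antitone U)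
    (hcl : ∀ n, Cls (U n)) (v : L2 Z) :
    Tendsto (fun n => proj (U n) v) atTop (𝓝 (proj (⨅ n, U n) v)) := by
  have h := max_tendsto_proj_iSup (fun n => (U n)ᗮ)
    (fun a b hab => Submodule.orthogonal_le (hU hab)) v
  have h1 : (⨅ n, U n) = (⨆ n, (U n)ᗮ)ᗮ := by
    rw [← Submodule.iInf_orthogonal]
    exact iInf_congr fun n => (max_oo (hcl n)).symm
  rw [h1, max_proj_orth]
  refine (h.const_sub v).congr fun n => ?_
  rw [max_proj_orth, sub_sub_cancel]

theorem max_dim_eq_sum [Fintype (orbitRel.Quotient H Z)] (W : Submodule ℂ (L2 Z)) :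
    dim H W = ∑ q : orbitRel.Quotient H Z, ‖proj W (delta q.out)‖ ^ 2 := by
  rw [dim, edim, osum, tsum_fintype, ENNReal.toReal_sum]
  · refine Finset.sum_congr rfl fun q _ => ?_
    rw [tau, ENNReal.toReal_pow, toReal_enorm]
  · intro q _
    exact ne_top_of_le_ne_top ENNReal.one_ne_top (tau_le_one W _)

theorem max_tendsto_dim (hc : Cofin H (Set.univ : Set Z)) {U : ℕ → Submodule ℂ (L2 Z)}
    {W : Submodule ℂ (L2 Z)}
    (h : ∀ v, Tendsto (fun n => proj (U n) v) atTop (𝓝 (proj W v))) :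
    Tendsto (fun n => dim H (U n)) atTop (𝓝 (dim H W)) := by
  have := finite_quot hc
  have := Fintype.ofFinite (orbitRel.Quotient H Z)
  simp only [max_dim_eq_sum]
  exact tendsto_finsetSum _ fun q _ => (h _).norm.pow 2

theorem max_adm_iInf {κ : Z → X} {U : ℕ → Submodule ℂ (L2 Z)} (h : ∀ n, Adm H κ (U n)) :
    Adm H κ (⨅ n, U n) := by
  refine ⟨cls_iInf fun n => (h n).cls, inv_iInf fun n => (h n).inv, fun x f hf => ?_⟩
  rw [Submodule.mem_iInf] at hf ⊢
  exact fun n => (h n).split x f (hf n)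

theorem max_adm_iSup {κ : Z → X} {U : ℕ → Submodule ℂ (L2 Z)} (h : ∀ n, Adm H κ (U n)) :
    Adm H κ (cl (⨆ n, U n)) := by
  have key : ∀ T : L2 Z →L[ℂ] L2 Z, (∀ n, ∀ f ∈ U n, T f ∈ U n) →
      ∀ f ∈ ⨆ n, U n, T f ∈ ⨆ n, U n := by
    intro T hT f hf
    have : (⨆ n, U n) ≤ pre T (⨆ n, U n) :=
      iSup_le fun n v hv => Submodule.mem_iSup_of_mem n (hT n v hv)
    exact this hf
  refine ⟨cls_cl _, Inv.cl fun g => key _ fun n => (h n).inv g, split_cl fun x => ?_⟩
  exact key _ fun n => (h n).split x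

theorem tendsto_dim_iSup (hc : Cofin H (Set.univ : Set Z)) (U : ℕ → Submodule ℂ (L2 Z))
    (hU : Monotone U) : Tendsto (fun n => dim H (U n)) atTop (𝓝 (dim H (⨆ n, U n))) := by
  exact max_tendsto_dim hc (max_tendsto_proj_iSup U hU)

theorem tendsto_dim_iInf (hc : Cofin H (Set.univ : Set Z)) (U : ℕ → Submodule ℂ (L2 Z))
    (hU : Antitone U) (hcl : ∀ n, Cls (U n)) :
    Tendsto (fun n => dim H (U n)) atTop (𝓝 (dim H (⨅ n, U n))) := by
  exact max_tendsto_dim hc (max_tendsto_proj_iInf U hU hcl)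

theorem codim_mono (hZ : Free H Z) (hc : Cofin H (Set.univ : Set Z))
    {U U' V V' : Submodule ℂ (L2 Z)} (hU'c : Cls U') (hU' : Inv H U') (hUc : Cls U) (hU : Inv H U)
    (hVc : Cls V) (hV : Inv H V) (h : U' ≤ U) (h' : V ≤ V') :
    dim H U' - dim H (U' ⊓ V' : Submodule ℂ (L2 Z)) ≤
      dim H U - dim H (U ⊓ V : Submodule ℂ (L2 Z)) := by
  have h1 := dim_modular hZ hU'c (hUc.inf hVc) hU' (hU.inf hV) (edim_ne_top hc _)
    (edim_ne_top hc _)
  have h2 : dim H (U' ⊔ U ⊓ V : Submodule ℂ (L2 Z)) ≤ dim H U :=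
    dim_mono (edim_ne_top hc _) (sup_le h inf_le_left)
  have h3 : dim H (U' ⊓ (U ⊓ V) : Submodule ℂ (L2 Z)) ≤ dim H (U' ⊓ V' : Submodule ℂ (L2 Z)) :=
    dim_mono (edim_ne_top hc _) (inf_le_inf_left _ (inf_le_right.trans h'))
  linarith

theorem near_max (hZ : Free H Z) (hc : Cofin H (Set.univ : Set Z)) {κ : Z → X}
    {E : Submodule ℂ (L2 Z)} (hE : Cls E) (hEi : Inv H E) {s t η : ℝ}
    {U V : Submodule ℂ (L2 Z)} (hU : Adm H κ U) (hV : Adm H κ V)
    (hUm : ∀ U', Adm H κ U' → psi H E t U' ≤ psi H E t U)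
    (hVm : ∀ U', Adm H κ U' → psi H E s U' ≤ psi H E s V + η) :
    (t - s) * (dim H U - dim H (U ⊓ V : Submodule ℂ (L2 Z))) ≤ η := by
  have a1 := hUm _ (hU.inf hV)
  have a2 := hVm _ (hU.sup hV)
  have a3 := dim_supermod hZ hE hEi hU.cls hV.cls hU.inv hV.inv (edim_ne_top hc _)
    (edim_ne_top hc _)
  have a5 := dim_modular hZ hU.cls hV.cls hU.inv hV.inv (edim_ne_top hc _) (edim_ne_top hc _)
  simp only [psi, dim_cl] at a1 a2
  have a6 : dim H (U ⊔ V : Submodule ℂ (L2 Z)) =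
      dim H U + dim H V - dim H (U ⊓ V : Submodule ℂ (L2 Z)) := by linarith
  rw [a6] at a2
  nlinarith

theorem exists_max (hZ : Free H Z) (hc : Cofin H (Set.univ : Set Z)) (κ : Z → X)
    {E : Submodule ℂ (L2 Z)} (hE : Cls E) (hEi : Inv H E) {t : ℝ} (ht : 0 ≤ t) :
    ∃ U, Adm H κ U ∧ ∀ U', Adm H κ U' → psi H E t U' ≤ psi H E t U := by
  set S : Set ℝ := psi H E t '' {W | Adm H κ W} with hS
  have hne : S.Nonempty := ⟨_, ⊤, adm_top κ, rfl⟩
  have hbdd : BddAbove S := by
    refine ⟨dim H E, ?_⟩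
    rintro _ ⟨W, -, rfl⟩
    have h1 := mul_nonneg ht (dim_nonneg (H := H) W)
    have h2 : dim H (E ⊓ W : Submodule ℂ (L2 Z)) ≤ dim H E :=
      dim_mono (edim_ne_top hc _) inf_le_left
    rw [psi]
    linarith
  set M := sSup S with hM
  have hle : ∀ W, Adm H κ W → psi H E t W ≤ M := fun W hW => le_csSup hbdd ⟨W, hW, rfl⟩
  have hex : ∀ n : ℕ, ∃ W, Adm H κ W ∧ M - (1 / 2) ^ n ≤ psi H E t W := by
    intro n
    obtain ⟨_, ⟨W, hW, rfl⟩, h⟩ := exists_lt_of_lt_csSup hne
      (show M - (1 / 2) ^ n < M by linarith [pow_pos (by norm_num : (0 : ℝ) < 1 / 2) n])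
    exact ⟨W, hW, h.le⟩
  choose W hW hWM using hex
  have hinf : ∀ A B, Adm H κ A → Adm H κ B →
      psi H E t A + psi H E t B - M ≤ psi H E t (A ⊓ B) := by
    intro A B hA hB
    have a2 := hle _ (hA.sup hB)
    have a3 := psi_supermod hZ hE hEi hA.cls hB.cls hA.inv hB.inv (edim_ne_top hc _)
      (edim_ne_top hc _) t
    linarith
  -- finite intersections
  let U : ℕ → ℕ → Submodule ℂ (L2 Z) := fun n N =>
    Nat.rec (W n) (fun k A => A ⊓ W (n + k + 1)) N
  have hU0 : ∀ n, U n 0 = W n := fun _ => rfl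
  have hUs : ∀ n k, U n (k + 1) = U n k ⊓ W (n + k + 1) := fun _ _ => rfl
  have hUl : ∀ n k, Adm H κ (U n k) := by
    intro n k
    induction k with
    | zero => exact hW n
    | succ k ih => exact ih.inf (hW _)
  have hUM : ∀ n k, M - 2 * (1 / 2) ^ n + (1 / 2) ^ (n + k) ≤ psi H E t (U n k) := by
    intro n k
    induction k with
    | zero => rw [hU0, add_zero]; linarith [hWM n]
    | succ k ih =>
      have a1 := hinf _ _ (hUl n k) (hW (n + k + 1))
      have a2 := hWM (n + k + 1)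
      rw [hUs, ← add_assoc]
      rw [pow_succ] at a2 ⊢
      linarith
  have hUa : ∀ n, Antitone (U n) := fun n => antitone_nat_of_succ_le fun k => inf_le_left
  let Q : ℕ → Submodule ℂ (L2 Z) := fun n => ⨅ k, U n k
  have hQl : ∀ n, Adm H κ (Q n) := fun n => max_adm_iInf (hUl n)
  have hQM : ∀ n, M - 2 * (1 / 2) ^ n ≤ psi H E t (Q n) := by
    intro n
    have t0 := tendsto_dim_iInf hc (fun k => E ⊓ U n k)
      (fun a b h => inf_le_inf_left _ (hUa n h)) fun k => hE.inf (hUl n k).cls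
    have t2 := tendsto_dim_iInf hc (U n) (hUa n) fun k => (hUl n k).cls
    rw [← inf_iInf] at t0
    refine ge_of_tendsto' (t0.sub (t2.const_mul t)) fun k => ?_
    have := hUM n k
    rw [psi] at this
    linarith [pow_pos (by norm_num : (0 : ℝ) < 1 / 2) (n + k)]
  have hQle : ∀ n k, Q n ≤ W (n + k) := by
    intro n k
    cases k with
    | zero => exact iInf_le (U n) 0
    | succ k => exact (iInf_le (U n) (k + 1)).trans inf_le_right
  have hQm : Monotone Q := by
    refine monotone_nat_of_le_succ fun n => le_iInf fun k => ?_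
    induction k with
    | zero => exact hQle n 1
    | succ k ih =>
      refine le_inf ih ?_
      have := hQle n (k + 2)
      rwa [show n + (k + 2) = n + 1 + k + 1 by ring] at this
  refine ⟨_, max_adm_iSup hQl, fun W' hW' => (hle W' hW').trans ?_⟩
  have t2 := tendsto_dim_iSup hc Q hQm
  have t3 : Tendsto (fun n : ℕ => M - 2 * (1 / 2 : ℝ) ^ n + t * dim H (Q n)) atTop
      (𝓝 (M - 2 * 0 + t * dim H (⨆ n, Q n))) :=
    (((tendsto_pow_atTop_nhds_zero_of_lt_one (by norm_num) (by norm_num)).const_mul 2).const_sub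
      M).add (t2.const_mul _)
  have h4 := le_of_tendsto' t3 (b := dim H (E ⊓ cl (⨆ n, Q n) : Submodule ℂ (L2 Z))) fun n => by
    have a1 := hQM n
    have a2 : dim H (E ⊓ Q n : Submodule ℂ (L2 Z)) ≤
        dim H (E ⊓ cl (⨆ n, Q n) : Submodule ℂ (L2 Z)) :=
      dim_mono (edim_ne_top hc _) (inf_le_inf_left _ ((le_iSup Q n).trans (le_cl _)))
    rw [psi] at a1
    linarith
  rw [psi, dim_cl]
  linarith

end Pool.Agent.P.MP_0f25e6_al.SQ
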