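import Pool.Agent.P.MP_0f25e6_al.SQ.Tools

/-!
Slices, induced subspaces and averages.
-/

set_option autoImplicit false

open scoped InnerProductSpace ENNReal Topology
open Filter MulAction

noncomputable section

namespace Pool.Agent.P.MP_0f25e6_al.SQ

open HN

universe u

variable {W X Y Z : Type*}

@[simp] theorem slice_apply (n : Ker W) (f : L2 (Til W Z)) (z : Z) : slice n f z = f ⟨n, z⟩ := rfl

theorem kerGen_toAdd (m : ℕ) (e : W) (k : Multiplicative (ZMod (m + 1))) :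
    (kerGen W m e k).toAdd = Finsupp.single (e, 0) (Pi.single m k.toAdd) := rfl

theorem ext1_apply_one (θ : L2 Z) (z : Z) : ext1 W θ ⟨1, z⟩ = θ z := by
  exact push_apply_self _ (ins_inj (1 : Ker W)) θ z

theorem ext1_apply_ne (θ : L2 Z) {p : Til W Z} (h : p.n ≠ 1) : ext1 W θ p = 0 := by
  exact push_apply_not _ (ins_inj (1 : Ker W)) θ fun y hy => h (congrArg Til.n hy).symm

theorem ext1_delta (z : Z) : ext1 W (delta z) = delta ⟨1, z⟩ := by
  exact push_delta _ (ins_inj (1 : Ker W)) z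

theorem inner_ext1_left (θ : L2 Z) (f : L2 (Til W Z)) :
    ⟪ext1 W θ, f⟫_ℂ = ⟪θ, slice 1 f⟫_ℂ := by
  exact inner_push_left _ (ins_inj (1 : Ker W)) θ f

theorem slice_ext1 (θ : L2 Z) : slice (1 : Ker W) (ext1 W θ) = θ := by
  exact pull_push _ (ins_inj (1 : Ker W)) θ

theorem slice_ext1_ne {n : Ker W} (h : n ≠ 1) (θ : L2 Z) : slice n (ext1 W θ) = 0 := by
  ext z
  rw [slice_apply, ext1_apply_ne θ h]
  rfl

theorem norm_ext1 (θ : L2 Z) : ‖ext1 W θ‖ = ‖θ‖ := by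
  have h := inner_ext1_left θ (ext1 W θ)
  rw [slice_ext1, inner_self_eq_norm_sq_to_K, inner_self_eq_norm_sq_to_K] at h
  have h2 : ‖ext1 W θ‖ ^ 2 = ‖θ‖ ^ 2 := by exact_mod_cast h
  exact (pow_left_inj₀ (norm_nonneg _) (norm_nonneg _) two_ne_zero).1 h2

theorem slice_sh (n a : Ker W) (f : L2 (Til W Z)) : slice n (sh a f) = slice (a * n) f := by
  ext z
  rfl

theorem slice_res (n : Ker W) (A : Set Z) (f : L2 (Til W Z)) :
    slice n (res (Til.z ⁻¹' A) f) = res A (slice n f) := by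
  ext z
  by_cases hz : z ∈ A
  · rw [slice_apply, res_apply_of_mem _ hz, res_apply_of_mem _ (by exact hz), slice_apply]
  · rw [slice_apply, res_apply_of_notMem _ hz, res_apply_of_notMem _ (by exact hz)]

theorem res_ext1 (A : Set Z) (θ : L2 Z) :
    res (Til.z ⁻¹' A) (ext1 W θ) = ext1 W (res A θ) := by
  ext ⟨n, z⟩
  by_cases hn : n = 1
  · subst hn
    rw [ext1_apply_one]
    by_cases hz : z ∈ A
    · rw [res_apply_of_mem _ hz, res_apply_of_mem _ (by exact hz), ext1_apply_one]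
    · rw [res_apply_of_notMem _ hz, res_apply_of_notMem _ (by exact hz)]
  · rw [ext1_apply_ne _ (by exact hn)]
    by_cases hz : z ∈ A
    · rw [res_apply_of_mem _ (by exact hz), ext1_apply_ne _ (by exact hn)]
    · rw [res_apply_of_notMem _ (by exact hz)]

theorem res_sh (A : Set Z) (a : Ker W) (f : L2 (Til W Z)) :
    res (Til.z ⁻¹' A) (sh a f) = sh a (res (Til.z ⁻¹' A) f) := by
  ext p
  by_cases hz : p.z ∈ A
  · rw [res_apply_of_mem _ (by exact hz), sh_apply, sh_apply, res_apply_of_mem _ (by exact hz)]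
  · rw [res_apply_of_notMem _ (by exact hz), sh_apply, res_apply_of_notMem _ (by exact hz)]

theorem mem_indb {E : Submodule ℂ (L2 Z)} {f : L2 (Til W Z)} :
    f ∈ indb W E ↔ ∀ n : Ker W, slice n f ∈ E := Submodule.mem_iInf _

theorem cls_indb {E : Submodule ℂ (L2 Z)} (h : Cls E) : Cls (indb W E) := by
  exact cls_iInf fun n => h.pre _

theorem indb_inf (E E' : Submodule ℂ (L2 Z)) : indb W (E ⊓ E') = indb W E ⊓ indb W E' := by
  ext f
  simp only [mem_indb, Submodule.mem_inf, forall_and]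

theorem indb_mono {E E' : Submodule ℂ (L2 Z)} (h : E ≤ E') : indb W E ≤ indb W E' := by
  exact fun f hf => mem_indb.2 fun n => h (mem_indb.1 hf n)

theorem sh_mem_indb {E : Submodule ℂ (L2 Z)} (a : Ker W) {f : L2 (Til W Z)} (h : f ∈ indb W E) :
    sh a f ∈ indb W E := by
  refine mem_indb.2 fun n => ?_
  rw [slice_sh]
  exact mem_indb.1 h _

theorem ext1_mem_indb {E : Submodule ℂ (L2 Z)} {θ : L2 Z} (h : θ ∈ E) : ext1 W θ ∈ indb W E := by
  refine mem_indb.2 fun n => ?_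
  by_cases hn : n = 1
  · rw [hn, slice_ext1]
    exact h
  · rw [slice_ext1_ne hn]
    exact E.zero_mem

theorem ext1_mem_orth {E : Submodule ℂ (L2 Z)} {θ : L2 Z} (h : θ ∈ Eᗮ) :
    ext1 W θ ∈ (indb W E)ᗮ := by
  rw [Submodule.mem_orthogonal']
  intro f hf
  rw [inner_ext1_left]
  exact (Submodule.mem_orthogonal' _ _).1 h _ (mem_indb.1 hf 1)

theorem proj_indb_ext1 {E : Submodule ℂ (L2 Z)} (hE : Cls E) (θ : L2 Z) :
    proj (indb W E) (ext1 W θ) = ext1 W (proj E θ) := by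
  refine proj_eq (le_cl _ (ext1_mem_indb ?_)) ?_
  · have := proj_mem E θ
    rwa [cl_eq hE] at this
  · rw [← map_sub]
    exact ext1_mem_orth (sub_proj_mem E θ)

theorem split_indb {κ : Z → X} {E : Submodule ℂ (L2 Z)} (h : Split κ E) :
    Split (fun p : Til W Z => κ p.z) (indb W E) := by
  intro x f hf
  refine mem_indb.2 fun n => ?_
  have h1 := slice_res n (κ ⁻¹' {x}) f
  have h2 : slice n (res ((fun p : Til W Z => κ p.z) ⁻¹' {x}) f) = res (κ ⁻¹' {x}) (slice n f) := h1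
  rw [h2]
  exact h x _ (mem_indb.1 hf n)

theorem indb_le {E : Submodule ℂ (L2 Z)} {U : Submodule ℂ (L2 (Til W Z))} (hU : Cls U)
    (hs : ∀ a : Ker W, ∀ f ∈ U, sh a f ∈ U) (h : ∀ θ ∈ E, ext1 W θ ∈ U) : indb W E ≤ U := by
  intro f hf
  refine mem_of_res (κ := Til.n) hU fun n => ?_
  have h1 : res (Til.n ⁻¹' {n}) f = sh n⁻¹ (ext1 W (slice n f)) := by
    ext ⟨a, z⟩
    by_cases ha : a = n
    · subst ha
      rw [res_apply_of_mem _ (by rfl), sh_apply]
      simp only [inv_mul_cancel]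
      rw [ext1_apply_one, slice_apply]
    · rw [res_apply_of_notMem _ (by exact ha), sh_apply, ext1_apply_ne]
      intro h2
      exact ha (inv_mul_eq_one.1 h2).symm
  rw [h1]
  exact hs _ _ (h _ (mem_indb.1 hf n))

theorem til_map_inj {j : Y → Z} (hj : Function.Injective j) : Function.Injective (Til.map W j) := by
  intro p q h
  have h1 : p.n = q.n := (congrArg Til.n h :)
  have h2 : j p.z = j q.z := congrArg Til.z h
  exact Til.ext h1 (hj h2)

theorem til_map_bdd {j : Y → Z} (hj : Bdd j) : Bdd (Til.map W j) := by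
  obtain ⟨n, hn⟩ := hj
  refine ⟨n, fun p => ?_⟩
  obtain ⟨s, hs, hs'⟩ := hn p.z
  refine ⟨s.map ⟨fun y => (⟨p.n, y⟩ : Til W Y), ins_inj p.n⟩, by simpa using hs, fun q hq => ?_⟩
  have h1 : q.n = p.n := congrArg Til.n hq
  have h2 : j q.z = p.z := congrArg Til.z hq
  exact Finset.mem_map.2 ⟨q.z, hs' _ h2, Til.ext h1.symm rfl⟩

theorem slice_pull {j : Y → Z} (hj : Function.Injective j) (n : Ker W) (f : L2 (Til W Z)) :
    slice n (pull (Til.map W j) (til_map_inj hj) f) = pull j hj (slice n f) := by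
  ext y
  rfl

theorem slice_pullB {j : Y → Z} (hj : Bdd j) (n : Ker W) (f : L2 (Til W Z)) :
    slice n (pullB (Til.map W j) (til_map_bdd hj) f) = pullB j hj (slice n f) := by
  ext y
  rfl

theorem sh_gen_avg (m : ℕ) (k : W) (j : Multiplicative (ZMod (m + 1))) (f : L2 (Til W Z)) :
    sh (kerGen W m k j) (avg m k f) = avg m k f := by
  rw [avg_def, map_smul, map_sum]
  congr 1
  refine Fintype.sum_equiv (Equiv.mulLeft j) _ _ fun i => ?_
  rw [sh_sh, Equiv.coe_mulLeft, map_mul]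

theorem inner_sh_right (a : Ker W) (u v : L2 (Til W Z)) :
    ⟪u, sh a v⟫_ℂ = ⟪sh a⁻¹ u, v⟫_ℂ := by
  let e : Til W Z ≃ Til W Z :=
    { toFun := fun p => ⟨a⁻¹ * p.n, p.z⟩
      invFun := fun p => ⟨a * p.n, p.z⟩
      left_inv := fun p => by simp
      right_inv := fun p => by simp }
  exact (inner_comp_left e u v).symm

theorem slice_avg (n : Ker W) (m : ℕ) (k : W) (f : L2 (Til W Z)) :
    slice n (avg m k f) =
      ((m : ℂ) + 1)⁻¹ • ∑ j : Multiplicative (ZMod (m + 1)), slice (kerGen W m k j * n) f := by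
  simp only [avg_def, map_smul, map_sum, slice_sh]

theorem kerGen_eq_one {m : ℕ} {k : W} {j : Multiplicative (ZMod (m + 1))}
    (h : kerGen W m k j = 1) : j = 1 := by
  have h1 := congrArg (fun a : Ker W => a.toAdd (k, 0) m) h
  simp only [kerGen_toAdd, Finsupp.single_eq_same, Pi.single_eq_same, toAdd_one,
    Finsupp.coe_zero, Pi.zero_apply] at h1
  exact Multiplicative.toAdd.injective h1

theorem kerGen_mul_eq_one {m : ℕ} {k k' : W} (hk : k ≠ k') {j j' : Multiplicative (ZMod (m + 1))}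
    (h : kerGen W m k' j' * kerGen W m k j = 1) : j = 1 := by
  have h1 := congrArg (fun a : Ker W => a.toAdd (k, 0) m) h
  have h2 : ((k, 0) : W × ℕ) ≠ (k', 0) := fun h3 => hk (congrArg Prod.fst h3)
  simp only [toAdd_mul, kerGen_toAdd, Finsupp.coe_add, Pi.add_apply, Finsupp.single_eq_same,
    Pi.single_eq_same, toAdd_one, Finsupp.coe_zero, Pi.zero_apply,
    Finsupp.single_eq_of_ne h2, zero_add] at h1
  exact Multiplicative.toAdd.injective h1

theorem avg_avg (m : ℕ) (k : W) (f : L2 (Til W Z)) : avg m k (avg m k f) = avg m k f := by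
  rw [avg_def m k (avg m k f)]
  simp only [sh_gen_avg, Finset.sum_const, Finset.card_univ, Fintype.card_multiplicative, ZMod.card]
  rw [← Nat.cast_smul_eq_nsmul ℂ, smul_smul, Nat.cast_add, Nat.cast_one,
    inv_mul_cancel₀ (Nat.cast_add_one_ne_zero m), one_smul]

theorem inner_avg (m : ℕ) (k : W) (u v : L2 (Til W Z)) :
    ⟪u, avg m k v⟫_ℂ = ⟪avg m k u, v⟫_ℂ := by
  rw [avg_def, avg_def, inner_smul_right, inner_smul_left, inner_sum, sum_inner]
  congr 1
  · simp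
  · refine Fintype.sum_equiv (Equiv.inv _) _ _ fun j => ?_
    rw [inner_sh_right, Equiv.inv_apply, map_inv]

theorem res_avg (A : Set Z) (m : ℕ) (k : W) (f : L2 (Til W Z)) :
    res (Til.z ⁻¹' A) (avg m k f) = avg m k (res (Til.z ⁻¹' A) f) := by
  exact comm_avg m k k _ (fun _ g => res_sh A _ g) f

theorem avg_mem {U : Submodule ℂ (L2 (Til W Z))} (hs : ∀ a : Ker W, ∀ f ∈ U, sh a f ∈ U) (m : ℕ)
    (k : W) {f : L2 (Til W Z)} (h : f ∈ U) : avg m k f ∈ U := by
  rw [avg_def]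
  exact U.smul_mem _ (U.sum_mem fun j _ => hs _ _ h)

theorem pull_avg {j : Y → Z} (hj : Function.Injective j) (m : ℕ) (k : W) (f : L2 (Til W Z)) :
    pull (Til.map W j) (til_map_inj hj) (avg m k f) =
      avg m k (pull (Til.map W j) (til_map_inj hj) f) := by
  exact comm_avg m k k _ (fun _ g => by ext p; rfl) f

theorem pullB_avg {j : Y → Z} (hj : Bdd j) (m : ℕ) (k : W) (f : L2 (Til W Z)) :
    pullB (Til.map W j) (til_map_bdd hj) (avg m k f) =
      avg m k (pullB (Til.map W j) (til_map_bdd hj) f) := by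
  exact comm_avg m k k _ (fun _ g => by ext p; rfl) f

theorem slice_avg_ext1 (m : ℕ) (k : W) (θ : L2 Z) :
    slice (1 : Ker W) (avg m k (ext1 W θ)) = ((m : ℂ) + 1)⁻¹ • θ := by
  rw [slice_avg, Finset.sum_eq_single 1]
  · rw [map_one, one_mul, slice_ext1]
  · intro j _ hj
    refine slice_ext1_ne (fun h => hj ?_) θ
    rw [mul_one] at h
    exact kerGen_eq_one h
  · intro h
    exact absurd (Finset.mem_univ _) h

theorem slice_avg_avg_ext1 (m : ℕ) {k k' : W} (h : k ≠ k') (θ : L2 Z) :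
    slice (1 : Ker W) (avg m k (avg m k' (ext1 W θ))) = ((m : ℂ) + 1)⁻¹ • ((m : ℂ) + 1)⁻¹ • θ := by
  rw [slice_avg, Finset.sum_eq_single 1]
  · rw [map_one, one_mul, slice_avg_ext1]
  · intro j _ hj
    rw [slice_avg, Finset.sum_eq_zero, smul_zero]
    intro j' _
    refine slice_ext1_ne (fun h1 => hj ?_) θ
    rw [mul_one] at h1
    exact kerGen_mul_eq_one h h1
  · intro h
    exact absurd (Finset.mem_univ _) h

theorem norm_avg_ext1 (m : ℕ) (k : W) (θ : L2 Z) :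
    √((m : ℝ) + 1) * ‖avg m k (ext1 W θ)‖ = ‖θ‖ := by
  have h : ⟪avg m k (ext1 W θ), avg m k (ext1 W θ)⟫_ℂ = ((m : ℂ) + 1)⁻¹ * ⟪θ, θ⟫_ℂ := by
    rw [← inner_avg, avg_avg, inner_ext1_left, slice_avg_ext1, inner_smul_right]
  rw [inner_self_eq_norm_sq_to_K, inner_self_eq_norm_sq_to_K] at h
  have h2 : ‖avg m k (ext1 W θ)‖ ^ 2 = ((m : ℝ) + 1)⁻¹ * ‖θ‖ ^ 2 := by
    have h3 : ((‖avg m k (ext1 W θ)‖ ^ 2 : ℝ) : ℂ) = ((((m : ℝ) + 1)⁻¹ * ‖θ‖ ^ 2 : ℝ) : ℂ) := by
      push_cast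
      exact h
    exact_mod_cast h3
  have hm : (0 : ℝ) < (m : ℝ) + 1 := by positivity
  refine (pow_left_inj₀ (by positivity) (norm_nonneg _) two_ne_zero).1 ?_
  rw [mul_pow, Real.sq_sqrt hm.le, h2, ← mul_assoc, mul_inv_cancel₀ hm.ne', one_mul]

theorem norm_avg_avg_ext1 (m : ℕ) {k k' : W} (h : k ≠ k') (θ : L2 Z) :
    ‖avg m k (avg m k' (ext1 W θ))‖ = ((m : ℝ) + 1)⁻¹ * ‖θ‖ := by
  have h1 : ⟪avg m k (avg m k' (ext1 W θ)), avg m k (avg m k' (ext1 W θ))⟫_ℂ =
      ((m : ℂ) + 1)⁻¹ * (((m : ℂ) + 1)⁻¹ * ⟪θ, θ⟫_ℂ) := by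
    rw [← inner_avg, avg_avg, ← inner_avg, avg_comm m k' k, avg_avg, inner_ext1_left,
      slice_avg_avg_ext1 m h, inner_smul_right, inner_smul_right]
  rw [inner_self_eq_norm_sq_to_K, inner_self_eq_norm_sq_to_K] at h1
  have h2 : ‖avg m k (avg m k' (ext1 W θ))‖ ^ 2 = (((m : ℝ) + 1)⁻¹ * ‖θ‖) ^ 2 := by
    have h3 : ((‖avg m k (avg m k' (ext1 W θ))‖ ^ 2 : ℝ) : ℂ) =
        (((((m : ℝ) + 1)⁻¹ * ‖θ‖) ^ 2 : ℝ) : ℂ) := by
      push_cast
      rw [mul_pow, sq ((m : ℂ) + 1)⁻¹, mul_assoc]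
      exact h1
    exact_mod_cast h3
  exact (pow_left_inj₀ (norm_nonneg _) (by positivity) two_ne_zero).1 h2

theorem mem_Qp {m : ℕ} {κ : Z → W} {f : L2 (Til W Z)} :
    f ∈ Qp m κ ↔ ∀ p : Til W Z, avg m (κ p.z) f p = 0 := by
  rw [Qp, Submodule.mem_iInf]
  constructor
  · intro h p
    exact h (κ p.z) p fun h1 => h1 rfl
  · intro h k p hp
    have h1 : κ p.z = k := not_not.1 hp
    rw [← h1]
    exact h p

theorem cls_Qp (m : ℕ) (κ : Z → W) : Cls (Qp m κ) := by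
  exact cls_iInf fun k => (cls_supp _).pre _

end Pool.Agent.P.MP_0f25e6_al.SQ
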