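import Pool.Agent.P.MP_0f25e6_al.SQ.Defs

/-!
Basic facts on bounded pull-backs, incidence sets, sections and hulls.
-/

set_option autoImplicit false

open scoped InnerProductSpace ENNReal Topology
open Filter MulAction

noncomputable section

namespace Pool.Agent.P.MP_0f25e6_al.SQ

open HN

universe u

section Maps

variable {X Y Z : Type*}

private theorem fd_supp {S : Set Z} (hS : S.Finite) : FiniteDimensional ℂ (supp S) := by
  have := hS.to_subtype
  have : Fintype S := Fintype.ofFinite S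
  let T : supp S →ₗ[ℂ] (S → ℂ) :=
    { toFun := fun f z => f.1 z.1
      map_add' := fun _ _ => rfl
      map_smul' := fun _ _ => rfl }
  refine FiniteDimensional.of_injective T ?_
  rw [injective_iff_map_eq_zero]
  intro f hf
  refine Subtype.ext ?_
  ext z
  by_cases hz : z ∈ S
  · exact congrFun hf ⟨z, hz⟩
  · exact f.2 z hz

private theorem cls_perp' {I : Type*} (a : I → L2 Z) : Cls (perp a) := by
  have h : (perp a : Set (L2 Z)) = ⋂ i, {f | ⟪a i, f⟫_ℂ = 0} := by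
    ext f
    simp only [SetLike.mem_coe, mem_perp, Set.mem_iInter, Set.mem_ofPred_eq]
  rw [Cls, h]
  exact isClosed_iInter fun i => isClosed_eq (by fun_prop) continuous_const

theorem bdd_of_injective {j : Y → Z} (hj : Function.Injective j) : Bdd j := by
  classical
  refine ⟨1, fun z => ?_⟩
  by_cases h : ∃ y, j y = z
  · obtain ⟨y, rfl⟩ := h
    exact ⟨{y}, by simp, fun w hw => Finset.mem_singleton.2 (hj hw)⟩
  · exact ⟨∅, by simp, fun w hw => absurd ⟨w, hw⟩ h⟩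

theorem Bdd.of_comp {f : X → Y} {g : Y → Z} (h : Bdd (g ∘ f)) : Bdd f := by
  obtain ⟨n, hn⟩ := h
  refine ⟨n, fun y => ?_⟩
  obtain ⟨s, hs, hs'⟩ := hn (g y)
  exact ⟨s, hs, fun x hx => hs' x (by rw [Function.comp_apply, hx])⟩

theorem bdd_inc {R : X → Y → Prop} {n : ℕ}
    (h : ∀ y, ∃ s : Finset X, s.card ≤ n ∧ ∀ x, R x y → x ∈ s) : Bdd (Inc.y : Inc R → Y) := by
  classical
  refine ⟨n, fun y => ?_⟩
  obtain ⟨s, hs, hs'⟩ := h y
  refine ⟨(s.subtype fun x => R x y).image fun x => (⟨x.1, y, x.2⟩ : Inc R), ?_, ?_⟩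
  · refine Finset.card_image_le.trans ?_
    rw [Finset.card_subtype]
    exact (Finset.card_filter_le _ _).trans hs
  · rintro ⟨x, y', hr⟩ rfl
    exact Finset.mem_image.2 ⟨⟨x, hr⟩, Finset.mem_subtype.2 (hs' x hr), rfl⟩

theorem Bdd.finite_rel {R : X → Y → Prop} (h : Bdd (Inc.y : Inc R → Y)) (y : Y) :
    {x | R x y}.Finite := by
  obtain ⟨n, hn⟩ := h
  obtain ⟨s, -, hs'⟩ := hn y
  exact (s.finite_toSet.image Inc.x).subset fun x hx => ⟨⟨x, y, hx⟩, hs' _ rfl, rfl⟩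

theorem blk_apply_self (R : X → Y → Prop) (φ : L2 Y) (p : Inc R) : blk R p.x φ p = φ p.y := by
  exact push_apply_self _ (inc_inj R p.x) _ ⟨p.y, p.r⟩

theorem blk_apply_ne (R : X → Y → Prop) {x : X} (φ : L2 Y) {p : Inc R} (h : p.x ≠ x) :
    blk R x φ p = 0 := by
  exact push_apply_not _ (inc_inj R x) _ fun y hy => h (congrArg Inc.x hy).symm

theorem slc_apply_pos (R : X → Y → Prop) {x : X} (F : L2 (Inc R)) {y : Y} (h : R x y) :
    slc R x F y = F ⟨x, y, h⟩ := by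
  exact push_apply_self (Subtype.val : {y // R x y} → Y) Subtype.val_injective _ ⟨y, h⟩

theorem slc_apply_neg (R : X → Y → Prop) {x : X} (F : L2 (Inc R)) {y : Y} (h : ¬ R x y) :
    slc R x F y = 0 := by
  exact push_apply_not (Subtype.val : {y // R x y} → Y) Subtype.val_injective _
    fun w hw => h (hw ▸ w.2)

theorem inner_blk_right (R : X → Y → Prop) (x : X) (F : L2 (Inc R)) (φ : L2 Y) :
    ⟪F, blk R x φ⟫_ℂ = ⟪slc R x F, φ⟫_ℂ := by
  change ⟪F, push _ (inc_inj R x) (pull _ Subtype.val_injective φ)⟫_ℂ =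
    ⟪push _ Subtype.val_injective (pull _ (inc_inj R x) F), φ⟫_ℂ
  rw [inner_push_right, inner_push_left]

theorem slc_blk_self (R : X → Y → Prop) (x : X) (φ : L2 Y) :
    slc R x (blk R x φ) = res {y | R x y} φ := by
  ext y
  by_cases h : R x y
  · rw [slc_apply_pos R _ h, res_apply_of_mem (A := {y | R x y}) φ h]
    exact blk_apply_self R φ ⟨x, y, h⟩
  · rw [slc_apply_neg R _ h, res_apply_of_notMem (A := {y | R x y}) φ h]

theorem slc_blk_ne (R : X → Y → Prop) {x x' : X} (h : x ≠ x') (φ : L2 Y) :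
    slc R x (blk R x' φ) = 0 := by
  ext y
  by_cases hr : R x y
  · rw [slc_apply_pos R _ hr, blk_apply_ne R φ (p := ⟨x, y, hr⟩) h]
    rfl
  · rw [slc_apply_neg R _ hr]
    rfl

theorem blk_slc (R : X → Y → Prop) (x : X) (F : L2 (Inc R)) :
    blk R x (slc R x F) = res (Inc.x ⁻¹' {x}) F := by
  ext p
  by_cases h : p.x = x
  · subst h
    rw [blk_apply_self, slc_apply_pos R F p.r,
      res_apply_of_mem (A := Inc.x ⁻¹' {p.x}) F (g := p) rfl]
  · rw [blk_apply_ne R _ h, res_apply_of_notMem (A := Inc.x ⁻¹' {x}) F (g := p) h]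

theorem blk_res (R : X → Y → Prop) (x : X) (φ : L2 Y) :
    blk R x (res {y | R x y} φ) = blk R x φ := by
  ext p
  by_cases h : p.x = x
  · subst h
    rw [blk_apply_self, blk_apply_self, res_apply_of_mem (A := {y | R p.x y}) φ p.r]
  · rw [blk_apply_ne R _ h, blk_apply_ne R _ h]

theorem res_pullB (R : X → Y → Prop) (hb : Bdd (Inc.y : Inc R → Y)) (x : X) (φ : L2 Y) :
    res (Inc.x ⁻¹' {x}) (pullB Inc.y hb φ) = blk R x φ := by
  ext p
  by_cases h : p.x = x
  · subst h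
    rw [blk_apply_self, res_apply_of_mem (A := Inc.x ⁻¹' {p.x}) _ (g := p) rfl, pullB_apply]
  · rw [blk_apply_ne R _ h, res_apply_of_notMem (A := Inc.x ⁻¹' {x}) _ (g := p) h]

theorem mem_sec {R : X → Y → Prop} {Φ : Submodule ℂ (L2 Y)} {F : L2 (Inc R)} :
    F ∈ sec R Φ ↔ ∀ x, slc R x F ∈ cl (img (res {y | R x y}) Φ) := Submodule.mem_iInf _

theorem cls_sec (R : X → Y → Prop) (Φ : Submodule ℂ (L2 Y)) : Cls (sec R Φ) := by
  exact cls_iInf fun x => (cls_cl _).pre _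

theorem split_sec (R : X → Y → Prop) (Φ : Submodule ℂ (L2 Y)) : Split Inc.x (sec R Φ) := by
  intro x F hF
  rw [mem_sec] at hF ⊢
  intro x'
  rw [← blk_slc]
  by_cases h : x' = x
  · subst h
    rw [slc_blk_self, res_eq_self]
    · exact hF x'
    · exact fun y hy => slc_apply_neg R F hy
  · rw [slc_blk_ne R h]
    exact Submodule.zero_mem _

theorem sec_mono (R : X → Y → Prop) {Φ Φ' : Submodule ℂ (L2 Y)} (h : Φ ≤ Φ') :
    sec R Φ ≤ sec R Φ' := by
  intro F hF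
  rw [mem_sec] at hF ⊢
  exact fun x => cl_mono (Submodule.map_mono h) (hF x)

theorem blk_mem_sec (R : X → Y → Prop) {Φ : Submodule ℂ (L2 Y)} (x : X) {φ : L2 Y} (h : φ ∈ Φ) :
    blk R x φ ∈ sec R Φ := by
  rw [mem_sec]
  intro x'
  by_cases h' : x' = x
  · subst h'
    rw [slc_blk_self]
    exact le_cl _ ⟨φ, h, rfl⟩
  · rw [slc_blk_ne R h']
    exact Submodule.zero_mem _

theorem blk_mem_sec_of_cl (R : X → Y → Prop) {Φ : Submodule ℂ (L2 Y)} (x : X) {φ : L2 Y}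
    (h : φ ∈ cl (img (res {y | R x y}) Φ)) : blk R x φ ∈ sec R Φ := by
  refine cl_le (W' := pre (blk R x) (sec R Φ)) ?_ ((cls_sec R Φ).pre _) h
  rintro _ ⟨ψ, hψ, rfl⟩
  change blk R x (res {y | R x y} ψ) ∈ sec R Φ
  rw [blk_res]
  exact blk_mem_sec R x hψ

theorem pullB_mem_sec (R : X → Y → Prop) (hb : Bdd (Inc.y : Inc R → Y)) {Φ : Submodule ℂ (L2 Y)}
    {φ : L2 Y} (h : φ ∈ Φ) : pullB Inc.y hb φ ∈ sec R Φ := by
  refine mem_of_res (κ := Inc.x) (cls_sec R Φ) fun x => ?_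
  rw [res_pullB]
  exact blk_mem_sec R x h

theorem mem_sec_of {R : X → Y → Prop} {Φ : Submodule ℂ (L2 Y)} {F : L2 (Inc R)}
    (h : ∀ x, ∃ φ ∈ Φ, ∀ y (hr : R x y), F ⟨x, y, hr⟩ = φ y) : F ∈ sec R Φ := by
  rw [mem_sec]
  intro x
  obtain ⟨φ, hφ, hF⟩ := h x
  refine le_cl _ ⟨φ, hφ, ?_⟩
  change res {y | R x y} φ = slc R x F
  ext y
  by_cases hr : R x y
  · rw [slc_apply_pos R F hr, res_apply_of_mem (A := {y | R x y}) φ hr, hF y hr]
  · rw [slc_apply_neg R F hr, res_apply_of_notMem (A := {y | R x y}) φ hr]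

/-- A subspace of the functions supported in a finite set is closed. -/
theorem cls_of_le_supp {S : Set Z} (hS : S.Finite) {U : Submodule ℂ (L2 Z)} (h : U ≤ supp S) :
    Cls U := by
  have := fd_supp hS
  have : FiniteDimensional ℂ U := Submodule.finiteDimensional_of_le h
  exact U.closed_of_finiteDimensional

theorem finiteDimensional_supp {S : Set Z} (hS : S.Finite) : FiniteDimensional ℂ (supp S) := by
  exact fd_supp hS

theorem exists_of_mem_sec {R : X → Y → Prop} {Φ : Submodule ℂ (L2 Y)} {F : L2 (Inc R)}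
    (hF : F ∈ sec R Φ) {x : X} (hx : {y | R x y}.Finite) :
    ∃ φ ∈ Φ, ∀ y (hr : R x y), F ⟨x, y, hr⟩ = φ y := by
  have h1 := mem_sec.1 hF x
  rw [cl_eq (cls_of_le_supp hx (by rintro _ ⟨ψ, -, rfl⟩; exact res_mem_supp _ ψ))] at h1
  obtain ⟨φ, hφ, h2⟩ := h1
  refine ⟨φ, hφ, fun y hr => ?_⟩
  have h3 : res {y | R x y} φ = slc R x F := h2
  rw [← slc_apply_pos R F hr, ← h3, res_apply_of_mem (A := {y | R x y}) φ hr]

theorem sec_le {R : X → Y → Prop} {Φ : Submodule ℂ (L2 Y)} {U : Submodule ℂ (L2 (Inc R))}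
    (hU : Cls U) (h : ∀ x, ∀ φ ∈ Φ, blk R x φ ∈ U) : sec R Φ ≤ U := by
  intro F hF
  refine mem_of_res (κ := Inc.x) hU fun x => ?_
  rw [← blk_slc]
  refine cl_le (W' := pre (blk R x) U) ?_ (hU.pre _) (mem_sec.1 hF x)
  rintro _ ⟨ψ, hψ, rfl⟩
  change blk R x (res {y | R x y} ψ) ∈ U
  rw [blk_res]
  exact h x ψ hψ

theorem mem_sec_orth {R : X → Y → Prop} {Φ : Submodule ℂ (L2 Y)} {F : L2 (Inc R)} :
    F ∈ (sec R Φ)ᗮ ↔ ∀ x, slc R x F ∈ Φᗮ := by
  constructor
  · intro hF x φ hφ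
    rw [inner_eq_zero_symm, ← inner_blk_right, inner_eq_zero_symm]
    exact hF _ (blk_mem_sec R x hφ)
  · intro h G hG
    have h1 : sec R Φ ≤ perp fun _ : Unit => F := by
      refine sec_le (cls_perp' _) fun x φ hφ _ => ?_
      rw [inner_blk_right, inner_eq_zero_symm]
      exact h x φ hφ
    rw [inner_eq_zero_symm]
    exact h1 hG ()

theorem mem_hull {κ : Z → X} {U : Submodule ℂ (L2 Z)} {f : L2 Z} :
    f ∈ hull κ U ↔ ∀ x, res (κ ⁻¹' {x}) f ∈ cl (img (res (κ ⁻¹' {x})) U) := mem_glue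

theorem cls_hull (κ : Z → X) (U : Submodule ℂ (L2 Z)) : Cls (hull κ U) := by
  exact cls_glue fun x => cls_cl _

theorem split_hull (κ : Z → X) (U : Submodule ℂ (L2 Z)) : Split κ (hull κ U) := by
  exact split_glue _ _

theorem le_hull (κ : Z → X) (U : Submodule ℂ (L2 Z)) : U ≤ hull κ U := by
  exact fun f hf => mem_hull.2 fun x => le_cl _ ⟨f, hf, rfl⟩

theorem hull_le {κ : Z → X} {U U' : Submodule ℂ (L2 Z)} (hc : Cls U')
    (h : ∀ x, ∀ f ∈ U, res (κ ⁻¹' {x}) f ∈ U') : hull κ U ≤ U' := by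
  intro f hf
  refine mem_of_res (κ := κ) hc fun x => cl_le ?_ hc (mem_hull.1 hf x)
  rintro _ ⟨g, hg, rfl⟩
  exact h x g hg

theorem mem_hull_orth {κ : Z → X} {U : Submodule ℂ (L2 Z)} {f : L2 Z} :
    f ∈ (hull κ U)ᗮ ↔ ∀ x, res (κ ⁻¹' {x}) f ∈ Uᗮ := by
  constructor
  · intro hf x g hg
    rw [← inner_res_left]
    exact hf _ (split_hull κ U x g (le_hull κ U hg))
  · intro h g hg
    have h1 : hull κ U ≤ perp fun _ : Unit => f := by
      refine hull_le (cls_perp' _) fun x u hu _ => ?_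
      rw [← inner_res_left, inner_eq_zero_symm]
      exact h x u hu
    rw [inner_eq_zero_symm]
    exact h1 hg ()

theorem split_orth {κ : Z → X} {U : Submodule ℂ (L2 Z)} (h : Split κ U) : Split κ Uᗮ := by
  intro x f hf g hg
  rw [← inner_res_left]
  exact hf _ (h x g hg)

theorem split_cl {κ : Z → X} {U : Submodule ℂ (L2 Z)} (h : Split κ U) : Split κ (cl U) := by
  intro x f hf
  refine cl_mono ?_ (img_cl_le (res (κ ⁻¹' {x})) U ⟨f, hf, rfl⟩)
  rintro _ ⟨g, hg, rfl⟩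
  exact h x g hg

theorem proj_res {A : Set Z} {U : Submodule ℂ (L2 Z)} (h : ∀ f ∈ U, res A f ∈ U) (f : L2 Z) :
    proj U (res A f) = res A (proj U f) := by
  refine proj_eq ?_ fun g hg => ?_
  · refine cl_mono ?_ (img_cl_le (res A) U ⟨_, proj_mem U f, rfl⟩)
    rintro _ ⟨g, hg, rfl⟩
    exact h g hg
  · rw [← map_sub, ← inner_res_left]
    exact sub_proj_mem U f _ (h g hg)

theorem cls_perp {I : Type*} (a : I → L2 Z) : Cls (perp a) := by
  exact cls_perp' a

end Maps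

end Pool.Agent.P.MP_0f25e6_al.SQ
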