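import Pool.Agent.P.MP_0f25e6_al.SQ.Cx
import Pool.Agent.P.MP_0f25e6_al.SQ.MForest

/-!
The wall theorem for maximal systems.
-/

set_option autoImplicit false

open scoped InnerProductSpace ENNReal Topology
open Filter MulAction

noncomputable section

namespace Pool.Agent.P.MP_0f25e6_al.SQ

open HN

universe u

variable {G V W Y₀ Y : Type*} [Group G] [MulAction G V] [MulAction G W] [MulAction G Y₀]
  [MulAction G Y] {M : Med G V W} {B : Base M Y₀}

namespace Wall1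

variable (S : Sys B Y)

/-- The vectors on the carrier of the wall that are orthogonal to the solutions. -/
def NN (h : W) : Submodule ℂ (L2 Y) := (S.L h)ᗮ ⊓ supp {y | S.RW h y}

/-- The cut operator. -/
def AA (h : W) (x : Flag M) : L2 Y →L[ℂ] L2 Y :=
  proj S.Φ ∘L res {y | M.mem (S.loc y).v x.k} ∘L proj (NN S h)

theorem AA_apply (h : W) (x : Flag M) (f : L2 Y) :
    AA S h x f = proj S.Φ (res {y | M.mem (S.loc y).v x.k} (proj (NN S h) f)) := rfl

theorem cls_NN (h : W) : Cls (NN S h) := (cls_orth _).inf (cls_supp _)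

theorem proj_NN_mem (h : W) (f : L2 Y) : proj (NN S h) f ∈ NN S h := by
  have := proj_mem (NN S h) f
  rwa [cl_eq (cls_NN S h)] at this

theorem inner_NN {h : W} {η φ : L2 Y} (hη : η ∈ NN S h) (hφ : φ ∈ S.Φ) : ⟪φ, η⟫_ℂ = 0 := by
  have h1 : res {y | S.RW h y} φ ∈ S.L h := le_cl _ ⟨φ, hφ, rfl⟩
  have h2 := (Submodule.mem_orthogonal _ _).1 hη.1 _ h1
  rwa [inner_res_left, res_eq_self hη.2] at h2

theorem AA_mem (h : W) (x : Flag M) (f : L2 Y) : AA S h x f ∈ S.Φ := by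
  have := proj_mem S.Φ (res {y | M.mem (S.loc y).v x.k} (proj (NN S h) f))
  rwa [cl_eq S.cls] at this

theorem inner_AA (h : W) (x : Flag M) (f : L2 Y) {φ : L2 Y} (hφ : φ ∈ S.Φ) :
    ⟪φ, AA S h x f⟫_ℂ = ⟪res {y | M.mem (S.loc y).v x.k} φ, proj (NN S h) f⟫_ℂ := by
  rw [AA_apply, ← inner_proj_left, proj_eq_self (le_cl _ hφ), inner_res_left]

theorem AA_orth_h (h : W) (x : Flag M) (f : L2 Y) : AA S h x f ∈ (S.a h)ᗮ := by
  rw [Submodule.mem_orthogonal]
  intro φ hφ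
  rw [inner_AA S h x f hφ.1]
  refine inner_eq_zero_of_supp (S := {y | ¬ S.RW h y}) ?_ (proj_NN_mem S h f).2 fun z hz => hz
  intro z hz
  rw [res_apply]
  split_ifs
  · exact hφ.2 z hz
  · rfl

theorem AA_orth_k (h : W) (x : Flag M) (f : L2 Y) : AA S h x f ∈ (S.a x.k)ᗮ := by
  rw [Submodule.mem_orthogonal]
  intro φ hφ
  rw [inner_AA S h x f hφ.1]
  exact inner_NN S (proj_NN_mem S h f) (S.split _ φ hφ.1 (S.mem_a.1 hφ).2)

theorem AA_lift (hM : S.Max) (x : Flag M) (f : L2 Y) :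
    ∃ u ∈ supp (S.loc ⁻¹' {x.c}), proj S.Φ u = AA S x.h x f :=
  hM x _ (AA_mem S _ x f) (AA_orth_h S _ x f) (AA_orth_k S _ x f)

theorem AA_fin (hM : S.Max) (x : Flag M) : FiniteDimensional ℂ (img (AA S x.h x) ⊤) := by
  have h1 := finiteDimensional_supp (S.starC x.c)
  have h2 : img (AA S x.h x) ⊤ ≤ img (proj S.Φ) (supp (S.loc ⁻¹' {x.c})) := by
    rintro _ ⟨f, -, rfl⟩
    obtain ⟨u, hu, hu'⟩ := AA_lift S hM x f
    exact ⟨u, hu, hu'⟩
  exact Submodule.finiteDimensional_of_le h2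

theorem inv_NN (h : W) : Inv (stabilizer G h) (NN S h) := by
  refine Inv.inf (Inv.orth fun g f hf => ?_) (inv_supp fun g z hz => ?_)
  · have := S.act_mem_L (g : G) hf
    rwa [show (g : G) • h = h from g.2] at this
  · have := InvRel.smul (R := S.RW) (g : G) h z hz
    rwa [show (g : G) • h = h from g.2] at this

theorem AA_eqv (h : W) (g : stabilizer G h) (x : Flag M) (f : L2 Y) :
    AA S h (g • x) (act g f) = act g (AA S h x f) := by
  have h1 : {y | M.mem (S.loc y).v (g • x).k} =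
      {z | g⁻¹ • z ∈ {y | M.mem (S.loc y).v x.k}} := by
    ext y
    change M.mem (S.loc y).v ((g : G) • x.k) ↔ M.mem (S.loc ((g : G)⁻¹ • y)).v x.k
    rw [S.loc_smul, Cell.smul_v, M.mem_smul_left, inv_inv]
  rw [AA_apply, AA_apply, eqv_proj (inv_NN S h) g f, ← eqv_proj (S.inv.subgroup _) g, act_res, h1]

theorem cofin_T (h : W) :
    Cofin (stabilizer G h) {x : Flag M | x.h = h ∧ x.c ∈ Set.range S.loc} := by
  obtain ⟨F, hF, hF'⟩ := cofin_fibre (H := G) (κ := fun p : Inc S.RF => p.x.h) (fun _ _ => rfl)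
    S.cofinF h
  refine ⟨Inc.x '' F, hF.image _, ?_⟩
  rintro x ⟨hx, y, hy⟩
  obtain ⟨g, hg⟩ := hF' ⟨x, y, hy⟩ hx
  exact ⟨g, _, hg, rfl⟩

theorem summable_T (hM : S.Max) (h : W) (y₀ : Y) :
    Summable fun x : {x : Flag M | x.h = h ∧ x.c ∈ Set.range S.loc} =>
      ‖AA S h x (delta y₀)‖ ^ 2 := by
  have h1 := tsum_family_ne_top (H := stabilizer G h) (free_subgroup S.free _) (AA S h)
    (T := {x : Flag M | x.h = h ∧ x.c ∈ Set.range S.loc}) ?_ (cofin_T S h)
    (fun g x _ f => AA_eqv S h g x f) ?_ y₀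
  · simpa using ENNReal.summable_toReal h1
  · rintro g x ⟨hx, y, hy⟩
    refine ⟨?_, (g : G) • y, ?_⟩
    · change (g : G) • x.h = h
      rw [hx]
      exact g.2
    · rw [S.loc_smul, hy]
      rfl
  · rintro x ⟨hx, -⟩
    subst hx
    exact AA_fin S hM x

theorem summable_AA (hM : S.Max) (h : W) (y₀ : Y) :
    Summable fun x : {x : Flag M // x.h = h} => ‖AA S h x (delta y₀)‖ ^ 2 := by
  let j : {x : Flag M | x.h = h ∧ x.c ∈ Set.range S.loc} → {x : Flag M // x.h = h} :=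
    fun x => ⟨x.1, x.2.1⟩
  have hj : Function.Injective j := fun a b hab => Subtype.ext (congrArg Subtype.val hab :)
  refine (hj.summable_iff ?_).1 (summable_T S hM h y₀)
  rintro ⟨x, hx⟩ hn
  subst hx
  obtain ⟨u, hu, hu'⟩ := AA_lift S hM x (delta y₀)
  have h0 : u = 0 := by
    ext y
    exact hu y fun hy => hn ⟨⟨x, rfl, y, hy⟩, rfl⟩
  rw [h0, map_zero] at hu'
  simp [← hu']

end Wall1

/-- The cut values of a vector orthogonal to the solutions lift to a square summable family. -/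
theorem Sys.exists_cut (S : Sys B Y) (hM : S.Max) (h : W) (y₀ : Y) :
    ∃ u : Flag M → L2 Y, (∀ x, u x ∈ supp (S.loc ⁻¹' {x.c})) ∧
      (∀ x, x.h = h → proj S.Φ (u x) = proj S.Φ (res {y | M.mem (S.loc y).v x.k}
        (proj ((S.L h)ᗮ ⊓ supp {y | S.RW h y}) (delta y₀)))) ∧
      Summable fun x : {x : Flag M // x.h = h} => ‖u x‖ ^ 2 := by
  obtain ⟨C, hC, hl⟩ := exists_lift (free_cell M) S.cofin S.loc_smul (eqv_proj S.inv)
  have key : ∀ x : Flag M, ∃ u ∈ supp (S.loc ⁻¹' {x.c}),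
      proj S.Φ u = Wall1.AA S x.h x (delta y₀) ∧ ‖u‖ ≤ C * ‖Wall1.AA S x.h x (delta y₀)‖ := by
    intro x
    obtain ⟨u, hu, hu'⟩ := Wall1.AA_lift S hM x (delta y₀)
    obtain ⟨u', h1, h2, h3⟩ := hl x.c u hu
    exact ⟨u', h1, h2.trans hu', hu' ▸ h3⟩
  choose u hu1 hu2 hu3 using key
  refine ⟨u, hu1, fun x hx => ?_, ?_⟩
  · subst hx
    exact hu2 x
  · refine Summable.of_nonneg_of_le (fun _ => by positivity) (fun x => ?_)
      ((Wall1.summable_AA S hM h y₀).mul_left (C ^ 2))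
    obtain ⟨x, hx⟩ := x
    subst hx
    rw [← mul_pow]
    exact pow_le_pow_left₀ (norm_nonneg _) (hu3 x) 2

end Pool.Agent.P.MP_0f25e6_al.SQ
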