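import Pool.Agent.P.MP_0f25e6_al.SQ.Wall1

/-!
The wall theorem for maximal systems.
-/

set_option autoImplicit false

open scoped InnerProductSpace ENNReal Topology
open Filter MulAction

noncomputable section

namespace Pool.Agent.P.MP_0f25e6_al.SQ

open HN

universe u

section General

variable {Z : Type*}

theorem wall2_hasSum_part {ι : Type*} (A : ι → Set Z) {T : Set Z} {η : L2 Z} (hη : η ∈ supp T)
    (h : ∀ y ∈ T, ∃! i, y ∈ A i) : HasSum (fun i => res (A i) η) η := by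
  classical
  let κ : Z → Option ι := fun y => if hy : y ∈ T then some (h y hy).exists.choose else none
  have h1 := hasSum_res κ η
  have h2 : ∀ o, o ∉ Set.range (some : ι → Option ι) → res (κ ⁻¹' {o}) η = 0 := by
    intro o ho
    refine res_eq_zero hη fun z hz hT => ho ?_
    have hz' : κ z = o := hz
    simp only [κ, dif_pos hT] at hz'
    exact ⟨_, hz'⟩
  have h3 := ((Option.some_injective ι).hasSum_iff h2).2 h1
  convert h3 using 2 with i
  ext z
  by_cases hT : z ∈ T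
  · have hk : κ z = some (h z hT).exists.choose := by simp only [κ, dif_pos hT]
    have hc := (h z hT).exists.choose_spec
    by_cases hi : z ∈ A i
    · have hm : z ∈ κ ⁻¹' {some i} := by
        change κ z = some i
        rw [hk, (h z hT).unique hc hi]
      rw [res_apply_of_mem _ hi]
      exact (res_apply_of_mem _ hm).symm
    · have hm : z ∉ κ ⁻¹' {some i} := by
        intro hm
        have hm' : κ z = some i := hm
        rw [hk] at hm'
        exact hi (Option.some_injective ι hm' ▸ hc)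
      rw [res_apply_of_notMem _ hi]
      exact (res_apply_of_notMem _ hm).symm
  · have e1 : ∀ C : Set Z, res C η z = 0 := fun C => by
      by_cases hC : z ∈ C
      · rw [res_apply_of_mem _ hC]
        exact hη z hT
      · exact res_apply_of_notMem _ hC
    rw [e1]
    exact (e1 _).symm

theorem wall2_hasSum_congr {ι : Type*} {a b : ι → ℂ} {c : ℂ} (h : HasSum a c)
    (hab : ∀ i, b i = a i) : HasSum b c :=
  (funext hab : b = a) ▸ h

theorem wall2_inner_congr {T : Set Z} {φ f g : L2 Z} (hg : g ∈ supp T)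
    (h : ∀ y ∈ T, φ y = f y) : ⟪φ, g⟫_ℂ = ⟪f, g⟫_ℂ := by
  have h1 : φ - f ∈ supp Tᶜ := fun z hz => by
    rw [lp.coeFn_sub, Pi.sub_apply, h z (not_not.1 hz), sub_self]
  have h2 := inner_eq_zero_of_supp h1 hg fun z hz => hz
  rwa [inner_sub_left, sub_eq_zero] at h2

theorem wall2_summable_res {X : Type*} (κ : Z → X) (f : L2 Z) :
    Summable fun b => ‖res (κ ⁻¹' {b}) f‖ ^ 2 := by
  have h1 := (innerSL ℂ f).hasSum (hasSum_res κ f)
  have h2 := (Complex.reCLM.hasSum h1).summable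
  refine h2.congr fun b => ?_
  have h3 : ⟪f, res (κ ⁻¹' {b}) f⟫_ℂ = ⟪res (κ ⁻¹' {b}) f, res (κ ⁻¹' {b}) f⟫_ℂ := by
    rw [inner_res_left, res_res, Set.inter_self]
  rw [innerSL_apply_apply, h3, inner_self_eq_norm_sq_to_K]
  simp only [Complex.coe_algebraMap, Complex.reCLM_apply]
  rw [← Complex.ofReal_pow, Complex.ofReal_re]

theorem wall2_summable_inner {X I : Type*} (κ : Z → X) {c : I → X} (hc : Function.Injective c)
    (f : L2 Z) {u : I → L2 Z} (hu : ∀ i, u i ∈ supp (κ ⁻¹' {c i}))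
    (hs : Summable fun i => ‖u i‖ ^ 2) : Summable fun i => ⟪f, u i⟫_ℂ := by
  have h1 := (wall2_summable_res κ f).comp_injective hc
  refine Summable.of_norm_bounded (h1.add hs) fun i => ?_
  have h2 : ⟪f, u i⟫_ℂ = ⟪res (κ ⁻¹' {c i}) f, u i⟫_ℂ := by
    rw [inner_res_left, res_eq_self (hu i)]
  rw [h2]
  refine (norm_inner_le_norm _ _).trans ?_
  change _ ≤ ‖res (κ ⁻¹' {c i}) f‖ ^ 2 + ‖u i‖ ^ 2
  nlinarith [sq_nonneg (‖res (κ ⁻¹' {c i}) f‖ - ‖u i‖), norm_nonneg (res (κ ⁻¹' {c i}) f),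
    norm_nonneg (u i), mul_nonneg (norm_nonneg (res (κ ⁻¹' {c i}) f)) (norm_nonneg (u i))]

end General

variable {G V W Y₀ Y : Type*} [Group G] [MulAction G V] [MulAction G W] [MulAction G Y₀]
  [MulAction G Y] {M : Med G V W} {B : Base M Y₀}

theorem wall2_c_inj (h : W) : Function.Injective fun x : {x : Flag M // x.h = h} => x.1.c := by
  intro x x' hx
  rcases Flag.eq_or_swap (x := x'.1) (x' := x.1) hx with h1 | h1
  · exact Subtype.ext h1
  · exfalso
    have h2 : x.1.h = x'.1.k := by rw [h1]; rfl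
    exact x'.1.ne (x'.2.trans (x.2.symm.trans h2))

/-- The upper face of a flag of the wall `h`. -/
def wall2Up (h : W) (x : {x : Flag M // x.h = h}) : {e : Edge M // e.h = h} := ⟨x.1.up, x.2⟩

/-- The lower face of a flag of the wall `h`. -/
def wall2Dn (h : W) (x : {x : Flag M // x.h = h}) : {e : Edge M // e.h = h} := ⟨x.1.dn, x.2⟩

/-- The partition of the cells cut by a wall that is seen from an edge of the wall. -/
def wall2Part (S : Sys B Y) (h : W) (e : {e : Edge M // e.h = h}) :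
    Unit ⊕ (wall2Dn h ⁻¹' {e}) ⊕ (wall2Up h ⁻¹' {e}) → Set Y :=
  Sum.elim (fun _ => {y | (S.loc y).v = e.1.o})
    (Sum.elim (fun x => {y | M.mem (S.loc y).v x.1.1.k})
      fun x => {y | M.mem (S.loc y).v x.1.1.k}ᶜ)

theorem wall2_part (S : Sys B Y) (h : W) (e : {e : Edge M // e.h = h}) (y : Y) (hy : S.RW h y) :
    ∃! i, y ∈ wall2Part S h e i := by
  have hdn : ∀ x : wall2Dn h ⁻¹' {e}, x.1.1.dn = e.1 := fun x => congrArg Subtype.val x.2
  have hup : ∀ x : wall2Up h ⁻¹' {e}, x.1.1.up = e.1 := fun x => congrArg Subtype.val x.2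
  have hdn' : ∀ x : Flag M, x.dn = e.1 → ¬ M.mem e.1.o x.k := fun x hx => by
    rw [← hx]
    exact x.c.low _ x.k_mem
  have hup' : ∀ x : Flag M, x.up = e.1 → M.mem e.1.o x.k := fun x hx => by
    rw [← hx, x.mem_up_o]
    exact Or.inr rfl
  by_cases hv : (S.loc y).v = e.1.o
  · refine ⟨Sum.inl (), hv, ?_⟩
    rintro (_ | x | x) hi
    · rfl
    · exact absurd (hv ▸ hi : M.mem e.1.o x.1.1.k) (hdn' _ (hdn x))
    · exact absurd (hv.symm ▸ hup' _ (hup x) : M.mem (S.loc y).v x.1.1.k) hi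
  · have hne : (S.loc y).bot h hy ≠ e.1 := fun h1 => hv (congrArg Edge.o h1)
    obtain ⟨x, hx, hx'⟩ := M.flag_uniq e.1 ((S.loc y).bot h hy) e.2.symm hne
    rcases hx with ⟨h1, h2⟩ | ⟨h1, h2⟩
    · have hxh : x.h = h := (congrArg Edge.h h1).trans e.2
      refine ⟨Sum.inr (Sum.inl ⟨⟨x, hxh⟩, Subtype.ext h1⟩), h2, ?_⟩
      rintro (_ | x' | x') hi
      · exact absurd hi hv
      · have h3 := hx' x'.1.1 (Or.inl ⟨hdn x', hi⟩)
        exact congrArg _ (congrArg _ (Subtype.ext (Subtype.ext h3)))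
      · have h3 := hx' x'.1.1 (Or.inr ⟨hup x', hi⟩)
        exact absurd (hup' x (h3 ▸ hup x')) (hdn' x h1)
    · have hxh : x.h = h := (congrArg Edge.h h1).trans e.2
      refine ⟨Sum.inr (Sum.inr ⟨⟨x, hxh⟩, Subtype.ext h1⟩), h2, ?_⟩
      rintro (_ | x' | x') hi
      · exact absurd hi hv
      · have h3 := hx' x'.1.1 (Or.inl ⟨hdn x', hi⟩)
        exact absurd (hup' x h1) (hdn' x (h3 ▸ hdn x'))
      · have h3 := hx' x'.1.1 (Or.inr ⟨hup x', hi⟩)
        exact congrArg _ (congrArg _ (Subtype.ext (Subtype.ext h3)))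

/-- The balance of the cut values at one edge of the wall. -/
theorem wall2_edge (S : Sys B Y) (h : W) {f η : L2 Y} (hη : η ∈ supp {y | S.RW h y})
    (hη' : η ∈ S.Φᗮ) {u : Flag M → L2 Y} (hu : ∀ x, u x ∈ supp (S.loc ⁻¹' {x.c}))
    (hp : ∀ x, x.h = h → proj S.Φ (u x) = proj S.Φ (res {y | M.mem (S.loc y).v x.k} η))
    (hs : Summable fun x : {x : Flag M // x.h = h} => ⟪f, u x⟫_ℂ)
    (e : {e : Edge M // e.h = h}) {φ : L2 Y} (hφ : φ ∈ S.Φ) (hf : ∀ y, S.R1 e.1 y → φ y = f y) :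
    ⟪f, res {y | (S.loc y).v = e.1.o} η⟫_ℂ =
      ∑' x : wall2Up h ⁻¹' {e}, ⟪f, u x.1⟫_ℂ - ∑' x : wall2Dn h ⁻¹' {e}, ⟪f, u x.1⟫_ℂ := by
  have hφ' : φ ∈ cl S.Φ := le_cl _ hφ
  have h0 : ⟪φ, η⟫_ℂ = 0 := inner_mem_orth hφ' hη'
  have hpr : ∀ g : L2 Y, ⟪φ, proj S.Φ g⟫_ℂ = ⟪φ, g⟫_ℂ := fun g => by
    rw [← inner_proj_left, proj_eq_self hφ']
  have hA : ∀ x : Flag M, x.h = h → e.1.In x.c →
      ⟪φ, res {y | M.mem (S.loc y).v x.k} η⟫_ℂ = ⟪f, u x⟫_ℂ := fun x hx hin => by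
    rw [← hpr, ← hp x hx, hpr]
    refine wall2_inner_congr (hu x) fun y hy => hf y ?_
    change e.1.In (S.loc y)
    rw [show S.loc y = x.c from hy]
    exact hin
  have h1 := (innerSL ℂ φ).hasSum (wall2_hasSum_part (wall2Part S h e) hη (wall2_part S h e))
  have h2 : HasSum (fun i => innerSL ℂ φ (res (wall2Part S h e i) η))
      (⟪f, res {y | (S.loc y).v = e.1.o} η⟫_ℂ + (∑' x : wall2Dn h ⁻¹' {e}, ⟪f, u x.1⟫_ℂ +
        -∑' x : wall2Up h ⁻¹' {e}, ⟪f, u x.1⟫_ℂ)) := by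
    refine HasSum.sum ?_ (HasSum.sum ?_ ?_)
    · have h3 : ⟪f, res {y | (S.loc y).v = e.1.o} η⟫_ℂ =
          ⟪φ, res {y | (S.loc y).v = e.1.o} η⟫_ℂ := by
        symm
        refine wall2_inner_congr (T := {y | S.R1 e.1 y}) (fun y hy => ?_) hf
        by_cases hv : (S.loc y).v = e.1.o
        · rw [res_apply_of_mem (A := {y | (S.loc y).v = e.1.o}) _ hv]
          refine hη y fun hy' => hy ⟨e.2.symm ▸ hy', ?_⟩
          rw [← hv]
          exact (S.loc y).vx_v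
        · exact res_apply_of_notMem (A := {y | (S.loc y).v = e.1.o}) _ hv
      rw [h3]
      exact hasSum_unique (fun _ : Unit => ⟪φ, res {y | (S.loc y).v = e.1.o} η⟫_ℂ)
    · refine wall2_hasSum_congr (hs.subtype (· ∈ wall2Dn h ⁻¹' {e})).hasSum fun x => ?_
      refine hA x.1.1 x.1.2 ?_
      rw [← show x.1.1.dn = e.1 from congrArg Subtype.val x.2]
      exact x.1.1.dn_in
    · refine wall2_hasSum_congr (hs.subtype (· ∈ wall2Up h ⁻¹' {e})).hasSum.neg fun x => ?_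
      have h5 : ⟪φ, res {y | M.mem (S.loc y).v x.1.1.k} η⟫_ℂ = ⟪f, u x.1⟫_ℂ := by
        refine hA x.1.1 x.1.2 ?_
        rw [← show x.1.1.up = e.1 from congrArg Subtype.val x.2]
        exact x.1.1.up_in
      have h6 := congrArg (fun g => ⟪φ, g⟫_ℂ)
        (res_add_res_compl {y | M.mem (S.loc y).v x.1.1.k} η)
      simp only [inner_add_right] at h6
      rw [h0, h5] at h6
      exact eq_neg_of_add_eq_zero_right h6
  have h4 := h1.unique h2
  rw [innerSL_apply_apply, h0] at h4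
  linear_combination -h4

theorem wall2_inner (S : Sys B Y) (h : W) {f η : L2 Y} (hη : η ∈ supp {y | S.RW h y})
    (hη' : η ∈ S.Φᗮ) {u : Flag M → L2 Y} (hu : ∀ x, u x ∈ supp (S.loc ⁻¹' {x.c}))
    (hp : ∀ x, x.h = h → proj S.Φ (u x) = proj S.Φ (res {y | M.mem (S.loc y).v x.k} η))
    (hs : Summable fun x : {x : Flag M // x.h = h} => ‖u x‖ ^ 2)
    (hf : ∀ e : Edge M, e.h = h → ∃ φ ∈ S.Φ, ∀ y, S.R1 e y → φ y = f y) : ⟪f, η⟫_ℂ = 0 := by
  have ha : Summable fun x : {x : Flag M // x.h = h} => ⟪f, u x⟫_ℂ :=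
    wall2_summable_inner S.loc (wall2_c_inj h) f (fun x => hu x.1) hs
  have h1 := (innerSL ℂ f).hasSum (wall2_hasSum_part
    (fun e : {e : Edge M // e.h = h} => {y | (S.loc y).v = e.1.o}) hη fun y hy =>
      ⟨⟨(S.loc y).bot h hy, rfl⟩, rfl, fun e he =>
        Subtype.ext (Edge.ext_oh (Eq.symm he) e.2)⟩)
  have h2 := (ha.hasSum.tsum_fiberwise (wall2Up h)).sub (ha.hasSum.tsum_fiberwise (wall2Dn h))
  rw [sub_self] at h2
  refine h1.unique (wall2_hasSum_congr h2 fun e => ?_)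
  obtain ⟨φ, hφ, hφ'⟩ := hf e.1 e.2
  exact wall2_edge S h hη hη' hu hp ha e hφ hφ'

theorem Sys.wall_thm (S : Sys B Y) (hM : S.Max) {F : L2 (Inc S.R1)} (hF : F ∈ sec S.R1 S.Φ)
    (hd : ∀ p q : Inc S.R1, p.y = q.y → p.x.h = q.x.h → F p = F q) (h : W) :
    ∃ f ∈ S.L h, ∀ p : Inc S.R1, p.x.h = h → F p = f p.y := by
  let β : {y // S.RW h y} → Inc S.R1 := fun y =>
    ⟨(S.loc y.1).bot h y.2, y.1, (S.loc y.1).bot_in h y.2⟩
  have hβ : Function.Injective β := fun _ _ hy => Subtype.ext (congrArg Inc.y hy)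
  let f : L2 Y := push (Subtype.val : {y // S.RW h y} → Y) Subtype.val_injective (pull β hβ F)
  have hfF : ∀ p : Inc S.R1, p.x.h = h → F p = f p.y := fun p hp => by
    have hy : S.RW h p.y := hp ▸ p.r.1
    have h1 : f p.y = F (β ⟨p.y, hy⟩) :=
      push_apply_self (Subtype.val : {y // S.RW h y} → Y) Subtype.val_injective (pull β hβ F)
        ⟨p.y, hy⟩
    rw [h1]
    exact hd _ _ rfl hp
  have hfs : f ∈ supp {y | S.RW h y} := fun y hy =>
    push_apply_not _ _ _ fun z hz => hy (hz ▸ z.2)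
  refine ⟨f, ?_, hfF⟩
  have hK : Cls ((S.L h)ᗮ ⊓ supp {y | S.RW h y} : Submodule ℂ (L2 Y)) :=
    (cls_orth _).inf (cls_supp _)
  have hstar : ∀ e : Edge M, e.h = h → ∃ φ ∈ S.Φ, ∀ y, S.R1 e y → φ y = f y := fun e he => by
    obtain ⟨φ, hφ, hφ'⟩ := exists_of_mem_sec hF (S.star1 e)
    exact ⟨φ, hφ, fun y hy => (hφ' y hy).symm.trans (hfF ⟨e, y, hy⟩ he)⟩
  have hz : proj ((S.L h)ᗮ ⊓ supp {y | S.RW h y}) f = 0 := by
    ext y₀
    obtain ⟨u, hu, hp, hs⟩ := S.exists_cut hM h y₀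
    have hm := proj_mem ((S.L h)ᗮ ⊓ supp {y | S.RW h y}) (delta y₀)
    rw [cl_eq hK] at hm
    have hm' : proj ((S.L h)ᗮ ⊓ supp {y | S.RW h y}) (delta y₀) ∈ S.Φᗮ := by
      rw [Submodule.mem_orthogonal]
      intro φ hφ
      rw [← res_eq_self hm.2, ← inner_res_left]
      have h2 : res {y | S.RW h y} φ ∈ S.L h :=
        le_cl (img (res {y | S.RW h y}) S.Φ) ⟨φ, hφ, rfl⟩
      exact inner_mem_orth (le_cl _ h2) hm.1
    have h1 := wall2_inner S h hm.2 hm' hu hp hs hstar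
    rw [← inner_proj_left, inner_eq_zero_symm, inner_delta_left] at h1
    exact h1
  refine mem_cl_of_orth fun g hg => ?_
  have hg' : res {y | S.RW h y} g ∈ ((S.L h)ᗮ ⊓ supp {y | S.RW h y} : Submodule ℂ (L2 Y)) := by
    refine ⟨?_, res_mem_supp _ _⟩
    change res {y | S.RW h y} g ∈ (cl (img (res {y | S.RW h y}) S.Φ))ᗮ
    rw [orth_cl, Submodule.mem_orthogonal]
    rintro _ ⟨φ, hφ, rfl⟩
    change ⟪res {y | S.RW h y} φ, res {y | S.RW h y} g⟫_ℂ = 0
    rw [← inner_res_left, res_res, Set.inter_self]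
    exact (Submodule.mem_orthogonal _ _).1 hg _ ⟨φ, hφ, rfl⟩
  rw [← res_eq_self hfs, ← inner_res_left, ← proj_eq_self (le_cl _ hg'), inner_proj_left, hz,
    inner_zero_right]

end Pool.Agent.P.MP_0f25e6_al.SQ
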